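import Pool.Agent.Helper69.GMU.Defs
import Pool.Agent.Helper78.SG.ExpMoment

/-!
# GMU block DN: for most `t` all zeros are at logarithmic depth

`Pool.Agent.Helper78.SG.exp_moment`: `∑_{ZT T} mx e^(κ|x|) ≤ C T L`, `x = L(Re ρ - 1/2)` (`sum_ZT` transfers to `Zf T`). Take `C₀ = 1/κ`.
For `ρ` with `|x| > K` the set of `t` with `C₀ log(1+L|Im ρ - t|) < |x| - K` is an interval of length
`(2/L)(e^(κ(|x|-K)) - 1)`; for `|x| ≤ K` it is empty. Total `≤ (2/L) e^(-κK) ∑ e^(κ|x|) ≤ 2 C e^(-κK) T` (`mx ≥ 1` on `Zf T`: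
`mx_one_le` in `GGM/CV.lean` or `e2_one_le`). Choose `K` with `2 C e^(-κK) ≤ ε`.
-/

open Complex Set MeasureTheory Filter Topology
open Pool.Agent.Helper57.LH Pool.Agent.Helper57.PC Pool.Agent.Helper57.Zeta
open Pool.Agent.Helper69.GGM
open scoped ContDiff

namespace Pool.Agent.Helper69.GMU

private lemma dn_one_le {T : ℝ} {ρ : ℂ} (hρ : ρ ∈ Zf T) : 1 ≤ analyticOrderNatAt xi ρ := by
  have hx : xi ρ = 0 := isNontrivialZero_iff.mp (mem_Zf.mp hρ).1
  obtain ⟨g, -, hfg, hga⟩ := div_point differentiable_xi xi_two_ne ρ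
  rw [Nat.one_le_iff_ne_zero]
  intro h0
  have h1 := hfg ρ
  rw [h0, pow_zero, one_mul, hx] at h1
  exact hga h1.symm

theorem density_good : ∃ C₀ : ℝ, 0 < C₀ ∧ ∀ ε : ℝ, 0 < ε → ∃ K : ℝ, 0 < K ∧ ∀ᶠ T : ℝ in atTop,
    volume {t : ℝ | ∃ ρ ∈ Zf T, K + C₀ * Real.log (1 + |Real.log T * (ρ.im - t)|) <
      |Real.log T * (ρ.re - 1 / 2)|} ≤ ENNReal.ofReal (ε * T) := by
  obtain ⟨κ, C, hκ, hC, hb⟩ := Pool.Agent.Helper78.SG.exp_moment
  refine ⟨1 / κ, by positivity, fun ε hε => ?_⟩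
  have hK0 : 0 < |Real.log (2 * C / ε)| / κ + 1 := by positivity
  refine ⟨|Real.log (2 * C / ε)| / κ + 1, hK0, ?_⟩
  set K : ℝ := |Real.log (2 * C / ε)| / κ + 1 with hK
  have hexpK : 2 * C * Real.exp (-(κ * K)) ≤ ε := by
    have h1 : Real.log (2 * C / ε) ≤ κ * K := by
      have h2 : κ * K = |Real.log (2 * C / ε)| + κ := by
        rw [hK]
        field_simp
      rw [h2]
      have := le_abs_self (Real.log (2 * C / ε))
      linarith
    have h2 : 2 * C / ε ≤ Real.exp (κ * K) := by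
      rw [← Real.exp_log (show 0 < 2 * C / ε by positivity)]
      exact Real.exp_le_exp.mpr h1
    rw [Real.exp_neg, ← div_eq_mul_inv, div_le_iff₀ (Real.exp_pos _)]
    rw [div_le_iff₀ hε] at h2
    linarith
  filter_upwards [hb, Real.tendsto_log_atTop.eventually_ge_atTop 1,
    Filter.eventually_gt_atTop (0 : ℝ)] with T g1 g2 g3
  have hL0 : 0 < Real.log T := by linarith
  have g4 : ∑ ρ ∈ Zf T, mx ρ * Real.exp (κ * |Real.log T * (ρ.re - 1 / 2)|) ≤
      C * (T * Real.log T) := by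
    rw [← sum_ZT T (fun ρ => mx ρ * Real.exp (κ * |Real.log T * (ρ.re - 1 / 2)|))]
    exact g1
  have g5 : ∑ ρ ∈ Zf T, Real.exp (κ * |Real.log T * (ρ.re - 1 / 2)|) ≤ C * (T * Real.log T) := by
    refine le_trans (Finset.sum_le_sum fun ρ hρ => ?_) g4
    have h1 : (1 : ℝ) ≤ mx ρ := by
      unfold mx
      exact_mod_cast dn_one_le hρ
    exact le_mul_of_one_le_left (Real.exp_pos _).le h1
  have hsub : {t : ℝ | ∃ ρ ∈ Zf T, K + 1 / κ * Real.log (1 + |Real.log T * (ρ.im - t)|) <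
      |Real.log T * (ρ.re - 1 / 2)|} ⊆
      ⋃ ρ ∈ Zf T, Icc (ρ.im - 1 / Real.log T *
          (Real.exp (-(κ * K)) * Real.exp (κ * |Real.log T * (ρ.re - 1 / 2)|)))
        (ρ.im + 1 / Real.log T *
          (Real.exp (-(κ * K)) * Real.exp (κ * |Real.log T * (ρ.re - 1 / 2)|))) := by
    rintro t ⟨ρ, hρ, ht⟩
    refine Set.mem_iUnion₂.mpr ⟨ρ, hρ, ?_⟩
    have h0 : 0 < 1 + |Real.log T * (ρ.im - t)| := by positivity
    have h1 : Real.log (1 + |Real.log T * (ρ.im - t)|) ≤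
        -(κ * K) + κ * |Real.log T * (ρ.re - 1 / 2)| := by
      have h2 : 1 / κ * Real.log (1 + |Real.log T * (ρ.im - t)|) <
          |Real.log T * (ρ.re - 1 / 2)| - K := by linarith
      have h3 := mul_lt_mul_of_pos_left h2 hκ
      have h4 : κ * (1 / κ * Real.log (1 + |Real.log T * (ρ.im - t)|)) =
          Real.log (1 + |Real.log T * (ρ.im - t)|) := by
        field_simp
      rw [h4] at h3
      linarith
    have h2 : 1 + |Real.log T * (ρ.im - t)| ≤
        Real.exp (-(κ * K)) * Real.exp (κ * |Real.log T * (ρ.re - 1 / 2)|) := by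
      rw [← Real.exp_add]
      exact (Real.log_le_iff_le_exp h0).mp h1
    have h3 : Real.log T * |ρ.im - t| ≤
        Real.exp (-(κ * K)) * Real.exp (κ * |Real.log T * (ρ.re - 1 / 2)|) := by
      rw [abs_mul, abs_of_pos hL0] at h2
      linarith
    have h4 : |ρ.im - t| ≤ 1 / Real.log T *
        (Real.exp (-(κ * K)) * Real.exp (κ * |Real.log T * (ρ.re - 1 / 2)|)) := by
      rw [one_div, inv_mul_eq_div, le_div_iff₀ hL0]
      linarith
    have h5 := abs_le.mp h4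
    constructor <;> linarith [h5.1, h5.2]
  refine (measure_mono hsub).trans ((measure_biUnion_finset_le _ _).trans ?_)
  have h6 : ∀ ρ ∈ Zf T, volume (Icc (ρ.im - 1 / Real.log T *
          (Real.exp (-(κ * K)) * Real.exp (κ * |Real.log T * (ρ.re - 1 / 2)|)))
        (ρ.im + 1 / Real.log T *
          (Real.exp (-(κ * K)) * Real.exp (κ * |Real.log T * (ρ.re - 1 / 2)|)))) =
      ENNReal.ofReal (2 / Real.log T * Real.exp (-(κ * K)) *
        Real.exp (κ * |Real.log T * (ρ.re - 1 / 2)|)) := by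
    intro ρ _
    rw [Real.volume_Icc]
    congr 1
    ring
  rw [Finset.sum_congr rfl h6, ← ENNReal.ofReal_sum_of_nonneg (fun ρ _ => by positivity),
    ← Finset.mul_sum]
  apply ENNReal.ofReal_le_ofReal
  calc 2 / Real.log T * Real.exp (-(κ * K)) *
        ∑ ρ ∈ Zf T, Real.exp (κ * |Real.log T * (ρ.re - 1 / 2)|)
      ≤ 2 / Real.log T * Real.exp (-(κ * K)) * (C * (T * Real.log T)) := by
        gcongr
    _ = 2 * C * Real.exp (-(κ * K)) * T := by
        field_simp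
    _ ≤ ε * T := by
        gcongr

end Pool.Agent.Helper69.GMU
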