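import Pool.Agent.Helper69.GMU.Defs

/-!
# GMU block PM: the prime sum is a finite sum, continuous

For `T > 1` and `φ` zero outside `[a,b]`, the terms with `log n > b log T`, i.e. `n > T^b`, vanish. Joint continuity: near a
given `α₀` only the finitely many `n ≤ T^(α₀+2)` matter (local uniformity), each term is continuous in `(α,t)`.
-/

open Complex Set MeasureTheory Filter Topology
open Pool.Agent.Helper57.LH Pool.Agent.Helper57.PC Pool.Agent.Helper57.Zeta
open Pool.Agent.Helper69.GGM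
open scoped ContDiff

namespace Pool.Agent.Helper69.GMU

theorem PP_eq_sum {φ : ℝ → ℝ} {a b : ℝ} (h : Sm φ a b) {T : ℝ} (hT : 1 < T) {N : ℕ} (hN : T ^ b ≤ N) (t : ℝ) :
    PP φ T t = (∑ n ∈ Finset.range (N + 1), (ArithmeticFunction.vonMangoldt n : ℂ) *
      (n : ℂ) ^ (-((1 / 2 : ℂ) + (t : ℂ) * I)) * (φ (Real.log n / Real.log T) : ℂ)) / (Real.log T : ℂ) := by
  unfold PP
  congr 1
  refine tsum_eq_sum fun n hn => ?_
  have hn1 : N + 1 ≤ n := by
    by_contra hc
    exact hn (Finset.mem_range.2 (not_le.1 hc))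
  have hT0 : 0 < T := by linarith
  have hL : 0 < Real.log T := Real.log_pos hT
  have h1 : T ^ b < (n : ℝ) := by
    refine lt_of_le_of_lt hN ?_
    exact_mod_cast hn1
  have h2 : b * Real.log T < Real.log n := by
    rw [← Real.log_rpow hT0]
    exact Real.log_lt_log (Real.rpow_pos_of_pos hT0 b) h1
  have h3 : b < Real.log n / Real.log T := by
    rw [lt_div_iff₀ hL]
    exact h2
  have h4 : φ (Real.log n / Real.log T) = 0 := h.supp _ fun hc => absurd hc.2 (not_le.2 h3)
  rw [h4]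
  simp

private theorem pm_exp_ne_zero (t : ℝ) : -((1 / 2 : ℂ) + (t : ℂ) * I) ≠ 0 := by
  intro h
  have h1 := congrArg Complex.re h
  simp at h1

private theorem pm_cpow_continuous (n : ℕ) : Continuous (fun t : ℝ => (n : ℂ) ^ (-((1 / 2 : ℂ) + (t : ℂ) * I))) := by
  refine Continuous.const_cpow ?_ (Or.inr pm_exp_ne_zero)
  fun_prop

theorem PP_continuous {φ : ℝ → ℝ} {a b : ℝ} (h : Sm φ a b) {T : ℝ} (hT : 1 < T) : Continuous (fun t => PP φ T t) := by
  have h1 : (fun t : ℝ => PP φ T t) = fun t : ℝ => (∑ n ∈ Finset.range (⌈T ^ b⌉₊ + 1), (ArithmeticFunction.vonMangoldt n : ℂ) *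
      (n : ℂ) ^ (-((1 / 2 : ℂ) + (t : ℂ) * I)) * (φ (Real.log n / Real.log T) : ℂ)) / (Real.log T : ℂ) :=
    funext fun t => PP_eq_sum h hT (Nat.le_ceil _) t
  rw [h1]
  refine Continuous.div_const (continuous_finsetSum _ fun n _ => ?_) _
  exact (continuous_const.mul (pm_cpow_continuous n)).mul continuous_const

theorem PP_joint {η : ℝ → ℝ} (h : Sm η (-1) 1) {T : ℝ} (hT : 1 < T) :
    Continuous (fun p : ℝ × ℝ => PP (fun β => η (β - p.1)) T p.2) := by
  have hη : Continuous η := h.smooth.continuous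
  rw [continuous_iff_continuousAt]
  intro p₀
  have h2 : Continuous (fun p : ℝ × ℝ => (∑ n ∈ Finset.range (⌈T ^ (p₀.1 + 2)⌉₊ + 1), (ArithmeticFunction.vonMangoldt n : ℂ) *
      (n : ℂ) ^ (-((1 / 2 : ℂ) + (p.2 : ℂ) * I)) * (η (Real.log n / Real.log T - p.1) : ℂ)) / (Real.log T : ℂ)) := by
    refine Continuous.div_const (continuous_finsetSum _ fun n _ => ?_) _
    refine (continuous_const.mul ((pm_cpow_continuous n).comp continuous_snd)).mul ?_
    exact Complex.continuous_ofReal.comp (hη.comp (continuous_const.sub continuous_fst))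
  refine h2.continuousAt.congr ?_
  have h3 : ∀ᶠ p : ℝ × ℝ in 𝓝 p₀, p.1 < p₀.1 + 1 :=
    continuous_fst.continuousAt.eventually_lt continuousAt_const (by simp)
  filter_upwards [h3] with p hp
  have h4 : Sm (fun β => η (β - p.1)) (p.1 - 1) (p.1 + 1) := by
    refine ⟨h.smooth.comp (contDiff_id.sub contDiff_const), fun x hx => h.supp _ fun hc => hx ?_⟩
    exact ⟨by linarith [hc.1], by linarith [hc.2]⟩
  have h5 : T ^ (p.1 + 1) ≤ (⌈T ^ (p₀.1 + 2)⌉₊ : ℝ) := by
    refine le_trans ?_ (Nat.le_ceil _)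
    exact Real.rpow_le_rpow_of_exponent_le hT.le (by linarith)
  exact (PP_eq_sum h4 hT h5 p.2).symm

end Pool.Agent.Helper69.GMU
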