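import Pool.Agent.Helper69.GMU.EFT
import Pool.Agent.Helper69.GMU.DN
import Pool.Agent.Helper69.GMU.PM
import Pool.Agent.Helper69.GGM.TL

/-!
# GMU block CM: convergence in measure

`Lap_sub` with `k ≥ 4 + b C₀` : `‖Lap φ (x+iv) - Lap φ (iv)‖ ≤ C |x| e^(b max x 0) (1+|v|)^(-k)`. Let `t` be outside the set `Bad₁` of
`density_good` (measure `≤ ε₁ T`), so `|x| ≤ K + C₀ log(1+|v|)` for all `ρ ∈ Zf T`, and outside
`Bad₂ = {t : ∃ ρ ∈ Zf T, e ≤ |x|, |v| ≤ R}`, of measure `≤ (2R/L) offCount T e = o(T)` (`OffLine`, `mx ≥ 1`). Then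
* zeros with `|x| < e`: total `≤ C e e^(be) Phi T t` (`(1+|v|)^(-2) ≤ (1+v²)^(-1)`),
* zeros with `|x| ≥ e`, `|v| > R`: `C (K + C₀ log(1+|v|)) e^(bK) (1+|v|)^(bC₀-k) ≤ C₁ (1+|v|)^(-3) ≤ (C₁/R)(1+v²)^(-1)`.
So `‖SP - SP0‖ ≤ (C₂ e + C₁/R) Phi T t` there, and `∫ min(.², B) ≤ B (|Bad₁| + |Bad₂|) + (C₂ e + C₁/R)² ∫ Phi²`, `∫ Phi² ≤ C T`
(`Phi_fourth`, `tl_sq_integrable`, `tl_phi_integral`). Choose `ε₁`, then `R`, then `e`. Second statement: add `PP_zeros`
(`‖x+y‖² ≤ 2‖x‖²+2‖y‖²`, `min(2p+2q,B) ≤ 2 min(p,B) + 2q`); measurability: `PP_continuous`; `SP`, `SP0` are continuous in `t`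
(`Lap_continuous`).
-/

open Complex Set MeasureTheory Filter Topology
open Pool.Agent.Helper57.LH Pool.Agent.Helper57.PC Pool.Agent.Helper57.Zeta
open Pool.Agent.Helper69.GGM
open scoped ContDiff

namespace Pool.Agent.Helper69.GMU

namespace CMp

lemma cm_mx_one_le {T : ℝ} {ρ : ℂ} (h : ρ ∈ Zf T) : 1 ≤ mx ρ := by
  rw [mem_Zf] at h
  have h1 := isNontrivialZero_iff.mp h.1
  have h2 := (order_pos_iff differentiable_xi xi_two_ne ρ).mpr h1
  unfold mx
  have : 1 ≤ analyticOrderNatAt xi ρ := Nat.one_le_iff_ne_zero.mpr h2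
  exact_mod_cast this

/-- the constant of the far zeros -/
lemma cm_far {b C₀ K R x v : ℝ} {k : ℕ} (hb : 0 ≤ b) (hC₀ : 0 < C₀) (hK : 0 < K) (hR : 0 < R)
    (hk : 4 + b * C₀ ≤ k) (hv : R < |v|) (hx : |x| ≤ K + C₀ * Real.log (1 + |v|)) :
    |x| * Real.exp (b * max x 0) / (1 + |v|) ^ k ≤
      ((K + C₀) * Real.exp (b * K) / R) * (1 + v ^ 2)⁻¹ := by
  set w : ℝ := 1 + |v| with hw
  have hw1 : 1 ≤ w := by rw [hw]; linarith [abs_nonneg v]
  have hw0 : 0 < w := by linarith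
  have hlog : Real.log w ≤ w := (Real.log_le_sub_one_of_pos hw0).trans (by linarith)
  have hlog0 : 0 ≤ Real.log w := Real.log_nonneg hw1
  have hx1 : |x| ≤ (K + C₀) * w := by
    have h1 : K ≤ K * w := le_mul_of_one_le_right hK.le hw1
    have h2 : C₀ * Real.log w ≤ C₀ * w := mul_le_mul_of_nonneg_left hlog hC₀.le
    linarith
  have hmax : max x 0 ≤ K + C₀ * Real.log w := by
    refine max_le ((le_abs_self x).trans hx) ?_
    have := mul_nonneg hC₀.le hlog0
    linarith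
  have hexp : Real.exp (b * max x 0) ≤ Real.exp (b * K) * w ^ (b * C₀) := by
    have h1 : b * max x 0 ≤ b * K + Real.log w * (b * C₀) := by
      have := mul_le_mul_of_nonneg_left hmax hb
      linarith
    calc Real.exp (b * max x 0) ≤ Real.exp (b * K + Real.log w * (b * C₀)) := Real.exp_le_exp.2 h1
      _ = Real.exp (b * K) * w ^ (b * C₀) := by
          rw [Real.exp_add, Real.rpow_def_of_pos hw0]
  have hpow : w ^ (b * C₀) * w ^ (4:ℕ) ≤ w ^ k := by
    rw [← Real.rpow_natCast w 4, ← Real.rpow_natCast w k, ← Real.rpow_add hw0]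
    apply Real.rpow_le_rpow_of_exponent_le hw1
    push_cast
    linarith
  have hwk : 0 < w ^ k := by positivity
  have hE : 0 < Real.exp (b * K) := Real.exp_pos _
  have hwp : 0 < w ^ (b * C₀) := Real.rpow_pos_of_pos hw0 _
  have hv2 : R * (1 + v ^ 2) ≤ w ^ 3 := by
    have h1 : 1 + v ^ 2 ≤ w ^ 2 := by
      rw [hw]
      have := sq_abs v
      nlinarith [abs_nonneg v]
    have h2 : R ≤ w := by rw [hw]; linarith
    calc R * (1 + v ^ 2) ≤ w * w ^ 2 := by
          apply mul_le_mul h2 h1 (by positivity) hw0.le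
      _ = w ^ 3 := by ring
  rw [← div_eq_mul_inv, div_div, div_le_div_iff₀ hwk (by positivity)]
  calc |x| * Real.exp (b * max x 0) * (R * (1 + v ^ 2))
      ≤ ((K + C₀) * w) * (Real.exp (b * K) * w ^ (b * C₀)) * (w ^ 3) := by
        apply mul_le_mul _ hv2 (by positivity) (by positivity)
        exact mul_le_mul hx1 hexp (Real.exp_pos _).le (by positivity)
    _ = (K + C₀) * Real.exp (b * K) * (w ^ (b * C₀) * w ^ (4:ℕ)) := by ring
    _ ≤ (K + C₀) * Real.exp (b * K) * w ^ k := by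
        apply mul_le_mul_of_nonneg_left hpow (by positivity)

/-- the constant of the near zeros -/
lemma cm_near {b e x v : ℝ} {k : ℕ} (hb : 0 ≤ b) (he : 0 < e) (he1 : e ≤ 1)
    (hk : 4 ≤ k) (hx : |x| < e) :
    |x| * Real.exp (b * max x 0) / (1 + |v|) ^ k ≤ (e * Real.exp b) * (1 + v ^ 2)⁻¹ := by
  set w : ℝ := 1 + |v| with hw
  have hw1 : 1 ≤ w := by rw [hw]; linarith [abs_nonneg v]
  have hw0 : 0 < w := by linarith
  have h1 : 1 + v ^ 2 ≤ w ^ 2 := by
    rw [hw]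
    have := sq_abs v
    nlinarith [abs_nonneg v]
  have h2 : 1 + v ^ 2 ≤ w ^ k := h1.trans (pow_le_pow_right₀ hw1 (by omega))
  have hmax : max x 0 ≤ 1 := max_le ((le_abs_self x).trans (hx.le.trans he1)) zero_le_one
  have hexp : Real.exp (b * max x 0) ≤ Real.exp b := by
    apply Real.exp_le_exp.2
    calc b * max x 0 ≤ b * 1 := mul_le_mul_of_nonneg_left hmax hb
      _ = b := mul_one b
  rw [← div_eq_mul_inv]
  apply div_le_div₀ (by positivity) _ (by positivity) h2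
  exact mul_le_mul hx.le hexp (Real.exp_pos _).le he.le

lemma cm_zz (T t : ℝ) (ρ : ℂ) : zz T t ρ =
    ((Real.log T * (ρ.re - 1 / 2) : ℝ) : ℂ) + ((Real.log T * (ρ.im - t) : ℝ) : ℂ) * I := rfl

lemma cm_z0 (T t : ℝ) (ρ : ℂ) : z0 T t ρ = ((Real.log T * (ρ.im - t) : ℝ) : ℂ) * I := rfl

lemma cm_SP_cont {φ : ℝ → ℝ} {a b : ℝ} (h : Sm φ a b) (T : ℝ) : Continuous (fun t => SP φ T t) := by
  unfold SP
  refine continuous_finsetSum _ fun ρ _ => continuous_const.mul ?_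
  refine (Lap_continuous h).comp ?_
  unfold zz
  fun_prop

lemma cm_SP0_cont {φ : ℝ → ℝ} {a b : ℝ} (h : Sm φ a b) (T : ℝ) : Continuous (fun t => SP0 φ T t) := by
  unfold SP0
  refine continuous_finsetSum _ fun ρ _ => continuous_const.mul ?_
  refine (Lap_continuous h).comp ?_
  unfold z0
  fun_prop

/-- the set of `t` with a zero too far from the line -/
def Bad1 (T C₀ K : ℝ) : Set ℝ := {t : ℝ | ∃ ρ ∈ Zf T, K + C₀ * Real.log (1 + |Real.log T * (ρ.im - t)|) <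
      |Real.log T * (ρ.re - 1 / 2)|}

lemma Bad1_open (T C₀ K : ℝ) : IsOpen (Bad1 T C₀ K) := by
  have : Bad1 T C₀ K = ⋃ ρ ∈ Zf T, {t : ℝ | K + C₀ * Real.log (1 + |Real.log T * (ρ.im - t)|) <
      |Real.log T * (ρ.re - 1 / 2)|} := by
    ext t
    simp [Bad1]
  rw [this]
  refine isOpen_biUnion fun ρ _ => ?_
  apply isOpen_lt _ continuous_const
  refine continuous_const.add (continuous_const.mul ?_)
  apply Continuous.log (by fun_prop)
  intro t
  positivity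

open Classical in
/-- pointwise bound -/
lemma cm_pointwise {T C C₀ K R e b η B t : ℝ} {φ : ℝ → ℝ} {k : ℕ} (hL : 0 < Real.log T) (hb : 0 ≤ b)
    (hC : 0 ≤ C) (hC₀ : 0 < C₀) (hK : 0 < K) (hR : 0 < R) (hk : 4 + b * C₀ ≤ k) (he : 0 < e) (he1 : e ≤ 1)
    (hLap : ∀ x v : ℝ, ‖Lap φ ((x : ℂ) + (v : ℂ) * I) - Lap φ ((v : ℂ) * I)‖ * (1 + |v|) ^ k ≤
      C * |x| * Real.exp (b * max x 0))
    (hη1 : C * ((K + C₀) * Real.exp (b * K) / R) ≤ η) (hη2 : C * (e * Real.exp b) ≤ η) (hB : 0 < B) :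
    min (‖SP φ T t - SP0 φ T t‖ ^ 2) B ≤ (Bad1 T C₀ K).indicator (fun _ => B) t +
      ∑ ρ ∈ (Zf T).filter (fun ρ => e ≤ |Real.log T * (ρ.re - 1 / 2)|),
        (Icc (ρ.im - R / Real.log T) (ρ.im + R / Real.log T)).indicator (fun _ => B) t +
      η ^ 2 * Phi T t ^ 2 := by
  set L := Real.log T with hLd
  have hη0 : 0 ≤ η := le_trans (by positivity) hη2
  have hs2 : ∀ ρ : ℂ, 0 ≤ (Icc (ρ.im - R / L) (ρ.im + R / L)).indicator (fun _ => B) t :=
    fun ρ => indicator_nonneg (fun _ _ => hB.le) _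
  have hs2' : 0 ≤ ∑ ρ ∈ (Zf T).filter (fun ρ => e ≤ |L * (ρ.re - 1 / 2)|),
        (Icc (ρ.im - R / L) (ρ.im + R / L)).indicator (fun _ => B) t :=
    Finset.sum_nonneg fun ρ _ => hs2 ρ
  have hs3 : 0 ≤ η ^ 2 * Phi T t ^ 2 := by positivity
  have hs1 : 0 ≤ (Bad1 T C₀ K).indicator (fun _ => B) t := indicator_nonneg (fun _ _ => hB.le) _
  by_cases h1 : t ∈ Bad1 T C₀ K
  · rw [indicator_of_mem h1] at hs1 ⊢
    refine (min_le_right _ _).trans ?_
    linarith
  · by_cases h2 : ∃ ρ ∈ (Zf T).filter (fun ρ => e ≤ |L * (ρ.re - 1 / 2)|), |L * (ρ.im - t)| ≤ R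
    · obtain ⟨ρ₀, hρ₀, hv⟩ := h2
      have hmem : t ∈ Icc (ρ₀.im - R / L) (ρ₀.im + R / L) := by
        rw [abs_mul, abs_of_pos hL, mul_comm, ← le_div_iff₀ hL, abs_le] at hv
        constructor
        · linarith [hv.2]
        · linarith [hv.1]
      have h3 : B ≤ ∑ ρ ∈ (Zf T).filter (fun ρ => e ≤ |L * (ρ.re - 1 / 2)|),
        (Icc (ρ.im - R / L) (ρ.im + R / L)).indicator (fun _ => B) t := by
        have h4 := Finset.single_le_sum (f := fun ρ : ℂ =>
          (Icc (ρ.im - R / L) (ρ.im + R / L)).indicator (fun _ => B) t) (fun ρ _ => hs2 ρ) hρ₀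
        simp only [indicator_of_mem hmem] at h4
        exact h4
      refine (min_le_right _ _).trans ?_
      linarith
    · push Not at h2
      have h1' : ∀ ρ ∈ Zf T, |L * (ρ.re - 1 / 2)| ≤ K + C₀ * Real.log (1 + |L * (ρ.im - t)|) := by
        intro ρ hρ
        by_contra hcon
        push Not at hcon
        exact h1 ⟨ρ, hρ, hcon⟩
      have hk4 : 4 ≤ k := by
        have : (4:ℝ) ≤ k := by
          have := mul_nonneg hb hC₀.le
          linarith
        exact_mod_cast this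
      have hmain : ‖SP φ T t - SP0 φ T t‖ ≤ η * Phi T t := by
        have e1 : SP φ T t - SP0 φ T t = ∑ ρ ∈ Zf T, (mx ρ : ℂ) * (Lap φ (zz T t ρ) - Lap φ (z0 T t ρ)) := by
          unfold SP SP0
          rw [← Finset.sum_sub_distrib]
          exact Finset.sum_congr rfl fun ρ _ => by ring
        have e2 : η * Phi T t = ∑ ρ ∈ Zf T, mx ρ * (η * (1 + (L * (ρ.im - t)) ^ 2)⁻¹) := by
          unfold Phi
          rw [Finset.mul_sum]
          exact Finset.sum_congr rfl fun ρ _ => by ring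
        rw [e1, e2]
        refine (norm_sum_le _ _).trans (Finset.sum_le_sum fun ρ hρ => ?_)
        have hm0 : 0 ≤ mx ρ := tl_mx_nonneg ρ
        rw [norm_mul, Complex.norm_real, Real.norm_of_nonneg hm0]
        apply mul_le_mul_of_nonneg_left _ hm0
        rw [cm_zz, cm_z0, ← hLd]
        set x := L * (ρ.re - 1 / 2) with hx
        set v := L * (ρ.im - t) with hv
        have hLv := hLap x v
        have hw0 : 0 < (1 + |v|) ^ k := by positivity
        rw [← le_div_iff₀ hw0] at hLv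
        refine hLv.trans ?_
        have e3 : C * |x| * Real.exp (b * max x 0) / (1 + |v|) ^ k =
            C * (|x| * Real.exp (b * max x 0) / (1 + |v|) ^ k) := by ring
        rw [e3]
        have hq : 0 ≤ (1 + v ^ 2)⁻¹ := by positivity
        by_cases hxe : e ≤ |x|
        · have hv' : R < |v| := h2 ρ (Finset.mem_filter.2 ⟨hρ, hxe⟩)
          have h5 := cm_far hb hC₀ hK hR hk hv' (h1' ρ hρ)
          calc C * (|x| * Real.exp (b * max x 0) / (1 + |v|) ^ k)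
              ≤ C * (((K + C₀) * Real.exp (b * K) / R) * (1 + v ^ 2)⁻¹) :=
                mul_le_mul_of_nonneg_left h5 hC
            _ = C * ((K + C₀) * Real.exp (b * K) / R) * (1 + v ^ 2)⁻¹ := by ring
            _ ≤ η * (1 + v ^ 2)⁻¹ := mul_le_mul_of_nonneg_right hη1 hq
        · push Not at hxe
          have h5 := cm_near (v := v) hb he he1 hk4 hxe
          calc C * (|x| * Real.exp (b * max x 0) / (1 + |v|) ^ k)
              ≤ C * ((e * Real.exp b) * (1 + v ^ 2)⁻¹) :=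
                mul_le_mul_of_nonneg_left h5 hC
            _ = C * (e * Real.exp b) * (1 + v ^ 2)⁻¹ := by ring
            _ ≤ η * (1 + v ^ 2)⁻¹ := mul_le_mul_of_nonneg_right hη2 hq
      have h6 : ‖SP φ T t - SP0 φ T t‖ ^ 2 ≤ η ^ 2 * Phi T t ^ 2 := by
        rw [← mul_pow]
        exact pow_le_pow_left₀ (norm_nonneg _) hmain 2
      refine (min_le_left _ _).trans ?_
      linarith

end CMp

open CMp in
theorem SP_sub_SP0 {l : Filter ℝ} (hl : l ≤ atTop) (hOff : OffLine l) {φ : ℝ → ℝ} {a b : ℝ} (h : Sm φ a b)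
    (ha : 0 < a) (hab : a ≤ b) {B : ℝ} (hB : 0 < B) {ε : ℝ} (hε : 0 < ε) :
    ∀ᶠ T : ℝ in l, ∫ t in (0:ℝ)..T, min (‖SP φ T t - SP0 φ T t‖ ^ 2) B ≤ ε * T := by
  classical
  have hb : 0 ≤ b := ha.le.trans hab
  have hpi := Real.pi_pos
  obtain ⟨C₀, hC₀, hDG⟩ := density_good
  obtain ⟨k, hk⟩ := exists_nat_ge (4 + b * C₀)
  obtain ⟨C, hC, hLap⟩ := Lap_sub h ha.le k
  obtain ⟨C4, T4, hC4, h4⟩ := Phi_fourth
  obtain ⟨K, hK, hKev⟩ := hDG (ε / (4 * B)) (by positivity)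
  -- choose eta
  obtain ⟨η, hη, hη2⟩ : ∃ η : ℝ, 0 < η ∧ η ^ 2 * (Real.pi + C4) ≤ ε / 4 := by
    refine ⟨Real.sqrt (ε / 4 / (Real.pi + C4)), Real.sqrt_pos.2 (by positivity), le_of_eq ?_⟩
    rw [Real.sq_sqrt (by positivity)]
    field_simp
  obtain ⟨R, hR, hRη⟩ : ∃ R : ℝ, 0 < R ∧ C * ((K + C₀) * Real.exp (b * K) / R) ≤ η := by
    refine ⟨(C * ((K + C₀) * Real.exp (b * K)) + 1) / η, by positivity, ?_⟩
    have h0 : 0 ≤ C * ((K + C₀) * Real.exp (b * K)) := by positivity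
    rw [← mul_div_assoc, div_div_eq_mul_div, div_le_iff₀ (by positivity)]
    nlinarith
  obtain ⟨e, he, he1, heη⟩ : ∃ e : ℝ, 0 < e ∧ e ≤ 1 ∧ C * (e * Real.exp b) ≤ η := by
    have h0 : 0 ≤ C * Real.exp b := by positivity
    refine ⟨min 1 (η / (C * Real.exp b + 1)), by positivity, min_le_left _ _, ?_⟩
    have h1 : min 1 (η / (C * Real.exp b + 1)) ≤ η / (C * Real.exp b + 1) := min_le_right _ _
    calc C * (min 1 (η / (C * Real.exp b + 1)) * Real.exp b)
        = (C * Real.exp b) * min 1 (η / (C * Real.exp b + 1)) := by ring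
      _ ≤ (C * Real.exp b) * (η / (C * Real.exp b + 1)) := mul_le_mul_of_nonneg_left h1 h0
      _ = (C * Real.exp b) / (C * Real.exp b + 1) * η := by ring
      _ ≤ 1 * η := by
          apply mul_le_mul_of_nonneg_right _ hη.le
          rw [div_le_one (by positivity)]
          linarith
      _ = η := one_mul η
  obtain ⟨κ, hκ, hκ1⟩ : ∃ κ : ℝ, 0 < κ ∧ B * (R * κ / Real.pi) ≤ ε / 4 := by
    refine ⟨ε / 4 * Real.pi / (B * R), by positivity, le_of_eq ?_⟩
    field_simp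
  have hoff : ∀ᶠ T : ℝ in l, offCount T e / SN T < κ := (hOff e he).eventually (gt_mem_nhds hκ)
  filter_upwards [hoff, hl hKev, hl (eventually_ge_atTop T4), hl (eventually_ge_atTop (3 : ℝ)),
    hl NT_le_ev] with T g1 g2 g3 g4 g5
  have hT0 : 0 < T := by linarith
  have hL : 0 < Real.log T := Real.log_pos (by linarith)
  set L := Real.log T with hLd
  obtain ⟨hi4, hb4⟩ := h4 T g3
  obtain ⟨hi2, hb2⟩ := tl_sq_integrable hL hi4
  rw [tl_phi_integral hL] at hb2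
  have hb3 : Real.pi / Real.log T * NT T ≤ Real.pi * T := by
    calc Real.pi / Real.log T * NT T ≤ Real.pi / Real.log T * (T * Real.log T) := by gcongr
      _ = Real.pi * T := by rw [← hLd]; field_simp
  have hb5 : ∫ t, Phi T t ^ 2 ≤ (Real.pi + C4) * T := by linarith
  -- the majorant
  set F := (Zf T).filter (fun ρ => e ≤ |L * (ρ.re - 1 / 2)|) with hF
  have hBm : MeasurableSet (Bad1 T C₀ K) := (Bad1_open T C₀ K).measurableSet
  have hBf : volume (Bad1 T C₀ K) ≤ ENNReal.ofReal (ε / (4 * B) * T) := g2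
  have hBt : volume (Bad1 T C₀ K) ≠ ⊤ := (hBf.trans_lt ENNReal.ofReal_lt_top).ne
  have i1 : Integrable ((Bad1 T C₀ K).indicator (fun _ : ℝ => B)) := by
    rw [integrable_indicator_iff hBm]
    exact integrableOn_const hBt
  have i2 : ∀ ρ : ℂ, Integrable ((Icc (ρ.im - R / L) (ρ.im + R / L)).indicator (fun _ : ℝ => B)) := by
    intro ρ
    rw [integrable_indicator_iff measurableSet_Icc]
    exact integrableOn_const (by rw [Real.volume_Icc]; exact ENNReal.ofReal_ne_top)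
  have i2' : Integrable (fun t : ℝ => ∑ ρ ∈ F,
      (Icc (ρ.im - R / L) (ρ.im + R / L)).indicator (fun _ : ℝ => B) t) :=
    integrable_finsetSum _ fun ρ _ => i2 ρ
  have i3 : Integrable (fun t : ℝ => η ^ 2 * Phi T t ^ 2) := hi2.const_mul _
  have i12 : Integrable (fun t : ℝ => (Bad1 T C₀ K).indicator (fun _ : ℝ => B) t + ∑ ρ ∈ F,
      (Icc (ρ.im - R / L) (ρ.im + R / L)).indicator (fun _ : ℝ => B) t) := i1.add i2'
  have iG : Integrable (fun t : ℝ => (Bad1 T C₀ K).indicator (fun _ : ℝ => B) t + ∑ ρ ∈ F,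
      (Icc (ρ.im - R / L) (ρ.im + R / L)).indicator (fun _ : ℝ => B) t + η ^ 2 * Phi T t ^ 2) := i12.add i3
  rw [intervalIntegral.integral_of_le hT0.le]
  have hmono : ∫ t in Ioc 0 T, min (‖SP φ T t - SP0 φ T t‖ ^ 2) B ≤
      ∫ t in Ioc 0 T, ((Bad1 T C₀ K).indicator (fun _ : ℝ => B) t + ∑ ρ ∈ F,
      (Icc (ρ.im - R / L) (ρ.im + R / L)).indicator (fun _ : ℝ => B) t + η ^ 2 * Phi T t ^ 2) := by
    apply integral_mono_of_nonneg _ iG.integrableOn
    · exact Eventually.of_forall fun t => cm_pointwise hL hb hC hC₀ hK hR hk he he1 hLap hRη heη hB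
    · exact Eventually.of_forall fun t => le_min (by positivity) hB.le
  refine hmono.trans ?_
  have hnn : ∀ t : ℝ, 0 ≤ (Bad1 T C₀ K).indicator (fun _ : ℝ => B) t + ∑ ρ ∈ F,
      (Icc (ρ.im - R / L) (ρ.im + R / L)).indicator (fun _ : ℝ => B) t + η ^ 2 * Phi T t ^ 2 := by
    intro t
    have h1 : 0 ≤ (Bad1 T C₀ K).indicator (fun _ : ℝ => B) t := indicator_nonneg (fun _ _ => hB.le) _
    have h2 : 0 ≤ ∑ ρ ∈ F, (Icc (ρ.im - R / L) (ρ.im + R / L)).indicator (fun _ : ℝ => B) t :=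
      Finset.sum_nonneg fun ρ _ => indicator_nonneg (fun _ _ => hB.le) _
    positivity
  refine (setIntegral_le_integral iG (Eventually.of_forall hnn)).trans ?_
  rw [integral_add i12 i3, integral_add i1 i2', integral_finsetSum _ fun ρ _ => i2 ρ, integral_const_mul]
  have c1 : ∫ t : ℝ, (Bad1 T C₀ K).indicator (fun _ : ℝ => B) t ≤ ε / 4 * T := by
    rw [integral_indicator hBm, setIntegral_const, smul_eq_mul, Measure.real]
    have h1 : (volume (Bad1 T C₀ K)).toReal ≤ ε / (4 * B) * T := by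
      refine ENNReal.toReal_le_of_le_ofReal (by positivity) hBf
    calc (volume (Bad1 T C₀ K)).toReal * B ≤ ε / (4 * B) * T * B :=
          mul_le_mul_of_nonneg_right h1 hB.le
      _ = ε / 4 * T := by field_simp
  have c2 : ∑ ρ ∈ F, ∫ t : ℝ, (Icc (ρ.im - R / L) (ρ.im + R / L)).indicator (fun _ : ℝ => B) t ≤
      ε / 4 * T := by
    have h1 : ∀ ρ ∈ F, ∫ t : ℝ, (Icc (ρ.im - R / L) (ρ.im + R / L)).indicator (fun _ : ℝ => B) t ≤
        (2 * R / L * B) * mx ρ := by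
      intro ρ hρ
      have hm := cm_mx_one_le (Finset.mem_filter.1 hρ).1
      rw [integral_indicator measurableSet_Icc, setIntegral_const, smul_eq_mul, Measure.real,
        Real.volume_Icc]
      have h2 : ρ.im + R / L - (ρ.im - R / L) = 2 * R / L := by ring
      rw [h2, ENNReal.toReal_ofReal (by positivity)]
      exact le_mul_of_one_le_right (by positivity) hm
    refine (Finset.sum_le_sum h1).trans ?_
    rw [← Finset.mul_sum]
    have hoc : ∑ ρ ∈ F, mx ρ = offCount T e := by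
      rw [hF]
      unfold offCount
      congr!
    have hsn : SN T = T * L / (2 * Real.pi) := rfl
    have hoffc : offCount T e ≤ κ * (T * L / (2 * Real.pi)) := by
      rw [div_lt_iff₀ (by rw [hsn]; positivity), hsn] at g1
      exact g1.le
    rw [hoc]
    calc 2 * R / L * B * offCount T e ≤ 2 * R / L * B * (κ * (T * L / (2 * Real.pi))) :=
          mul_le_mul_of_nonneg_left hoffc (by positivity)
      _ = B * (R * κ / Real.pi) * T := by field_simp
      _ ≤ ε / 4 * T := mul_le_mul_of_nonneg_right hκ1 hT0.le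
  have c3 : η ^ 2 * ∫ t : ℝ, Phi T t ^ 2 ≤ ε / 4 * T := by
    calc η ^ 2 * ∫ t : ℝ, Phi T t ^ 2 ≤ η ^ 2 * ((Real.pi + C4) * T) :=
          mul_le_mul_of_nonneg_left hb5 (sq_nonneg η)
      _ = η ^ 2 * (Real.pi + C4) * T := by ring
      _ ≤ _ := mul_le_mul_of_nonneg_right hη2 hT0.le
  have : 0 ≤ ε * T := by positivity
  linarith

open CMp in
theorem PP_add_SP0 {l : Filter ℝ} (hl : l ≤ atTop) (hOff : OffLine l) {φ : ℝ → ℝ} {a b : ℝ} (h : Sm φ a b)
    (ha : 0 < a) (hab : a ≤ b) {δ : ℝ} (hδ : 0 < δ) (hδ2 : δ < 1 / 2) {B : ℝ} (hB : 0 < B) {ε : ℝ} (hε : 0 < ε) :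
    ∀ᶠ T : ℝ in l, ∫ t in (δ * T)..((1 - δ) * T), min (‖PP φ T t + SP0 φ T t‖ ^ 2) B ≤ ε * T := by
  obtain ⟨k, hk⟩ := exists_nat_ge (b / 2 + 3)
  obtain ⟨D, hD, hSmD⟩ := SmD_of_Sm h k
  set ε' : ℝ := Real.sqrt (ε / 4) with hε'
  have hε'0 : 0 < ε' := Real.sqrt_pos.2 (by positivity)
  have hε'2 : ε' ^ 2 = ε / 4 := Real.sq_sqrt (by positivity)
  obtain ⟨T₀, hT₀⟩ := PP_zeros ha hab hk hD hδ hδ2 hε'0
  filter_upwards [SP_sub_SP0 hl hOff h ha hab hB (ε := ε / 4) (by positivity),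
    hl (eventually_ge_atTop T₀), hl (eventually_ge_atTop (3 : ℝ))] with T g1 g2 g3
  have hT0 : 0 < T := by linarith
  have hle : δ * T ≤ (1 - δ) * T := by nlinarith
  have hcont : Continuous (fun t => min (‖SP φ T t - SP0 φ T t‖ ^ 2) B) :=
    (((cm_SP_cont h T).sub (cm_SP0_cont h T)).norm.pow 2).min continuous_const
  have hpt : ∀ t ∈ Ioc (δ * T) ((1 - δ) * T), min (‖PP φ T t + SP0 φ T t‖ ^ 2) B ≤
      2 * ε' ^ 2 + 2 * min (‖SP φ T t - SP0 φ T t‖ ^ 2) B := by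
    intro t ht
    have h1 := hT₀ T g2 φ hSmD t ht.1.le ht.2
    set x := PP φ T t + SP φ T t with hx
    set y := SP φ T t - SP0 φ T t with hy
    have hxy : PP φ T t + SP0 φ T t = x - y := by rw [hx, hy]; ring
    rw [hxy]
    have h2 : ‖x - y‖ ^ 2 ≤ 2 * ‖x‖ ^ 2 + 2 * ‖y‖ ^ 2 := by
      have h3 := norm_sub_le x y
      have h4 : ‖x - y‖ ^ 2 ≤ (‖x‖ + ‖y‖) ^ 2 := pow_le_pow_left₀ (norm_nonneg _) h3 2
      nlinarith [sq_nonneg (‖x‖ - ‖y‖)]
    have h5 : ‖x‖ ^ 2 ≤ ε' ^ 2 := pow_le_pow_left₀ (norm_nonneg _) h1 2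
    rcases le_total (‖y‖ ^ 2) B with h6 | h6
    · rw [min_eq_left h6]
      exact (min_le_left _ _).trans (by linarith)
    · rw [min_eq_right h6]
      refine (min_le_right _ _).trans ?_
      have : 0 ≤ ε' ^ 2 := sq_nonneg _
      linarith
  have i0 : IntegrableOn (fun t => min (‖SP φ T t - SP0 φ T t‖ ^ 2) B) (Ioc 0 T) :=
    (hcont.integrableOn_Icc (a := 0) (b := T)).mono_set Ioc_subset_Icc_self
  have hsub : Ioc (δ * T) ((1 - δ) * T) ⊆ Ioc 0 T := by
    intro t ht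
    refine ⟨lt_trans (by positivity) ht.1, ht.2.trans ?_⟩
    nlinarith
  have i1 : IntegrableOn (fun t => min (‖SP φ T t - SP0 φ T t‖ ^ 2) B) (Ioc (δ * T) ((1 - δ) * T)) :=
    i0.mono_set hsub
  have ic : IntegrableOn (fun _ : ℝ => 2 * ε' ^ 2) (Ioc (δ * T) ((1 - δ) * T)) :=
    integrableOn_const (by simp)
  rw [intervalIntegral.integral_of_le hle]
  have hmono : ∫ t in Ioc (δ * T) ((1 - δ) * T), min (‖PP φ T t + SP0 φ T t‖ ^ 2) B ≤
      ∫ t in Ioc (δ * T) ((1 - δ) * T), (2 * ε' ^ 2 + 2 * min (‖SP φ T t - SP0 φ T t‖ ^ 2) B) := by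
    apply integral_mono_of_nonneg _ (ic.add (i1.const_mul 2))
    · rw [EventuallyLE, ae_restrict_iff' measurableSet_Ioc]
      exact Eventually.of_forall hpt
    · exact Eventually.of_forall fun t => le_min (by positivity) hB.le
  refine hmono.trans ?_
  have hic : Integrable (fun _ : ℝ => 2 * ε' ^ 2) (volume.restrict (Ioc (δ * T) ((1 - δ) * T))) := ic
  have hi1 : Integrable (fun t => 2 * min (‖SP φ T t - SP0 φ T t‖ ^ 2) B)
      (volume.restrict (Ioc (δ * T) ((1 - δ) * T))) := i1.const_mul 2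
  have c0 : ∫ t in Ioc (δ * T) ((1 - δ) * T), 2 * min (‖SP φ T t - SP0 φ T t‖ ^ 2) B =
      2 * ∫ t in Ioc (δ * T) ((1 - δ) * T), min (‖SP φ T t - SP0 φ T t‖ ^ 2) B := integral_const_mul _ _
  rw [integral_add hic hi1, c0]
  have c1 : ∫ _t in Ioc (δ * T) ((1 - δ) * T), (2 * ε' ^ 2) ≤ 2 * ε' ^ 2 * T := by
    rw [setIntegral_const, smul_eq_mul, mul_comm]
    apply mul_le_mul_of_nonneg_left _ (by positivity)
    rw [Measure.real, Real.volume_Ioc, ENNReal.toReal_ofReal (by linarith)]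
    nlinarith
  have c2 : ∫ t in Ioc (δ * T) ((1 - δ) * T), min (‖SP φ T t - SP0 φ T t‖ ^ 2) B ≤
      ∫ t in Ioc 0 T, min (‖SP φ T t - SP0 φ T t‖ ^ 2) B := by
    apply setIntegral_mono_set i0
    · exact Eventually.of_forall fun t => le_min (by positivity) hB.le
    · exact hsub.eventuallyLE
  rw [intervalIntegral.integral_of_le hT0.le] at g1
  rw [hε'2] at c1
  rw [hε'2]
  have : 2 * (ε / 4) * T + 2 * (ε / 4 * T) = ε * T := by ring
  linarith

end Pool.Agent.Helper69.GMU
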