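import Pool.Agent.Helper69.GMU.Defs
import Pool.Agent.Helper69.GGM.BE
import Pool.Agent.Helper69.GGM.TL

/-!
# GMU block CSD: cosine transforms: decay, continuity, bounds for pair sums

`Cs_decay`: integrate by parts three times (`ψ` smooth, compact support): `|2πu|³ |Cs ψ u| ≤ ∫ |ψ'''|`, and `|Cs ψ u| ≤ ∫ |ψ|`.
`WP_le_of_Pk`: `mult ≥ 0`, so `|WP T g| ≤ M WP T (Pk c)`, and `poisson_large` (`GGM/BE.lean`): `WP T (Pk c) ≤ (1/2 + C/c) SN T`.
-/

open Complex Set MeasureTheory Filter Topology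
open Pool.Agent.Helper57.LH Pool.Agent.Helper57.PC Pool.Agent.Helper57.Zeta
open Pool.Agent.Helper69.GGM
open scoped ContDiff

namespace Pool.Agent.Helper69.GMU

private theorem h24_compact {ψ : ℝ → ℝ} {a b : ℝ} (h : Sm ψ a b) : HasCompactSupport ψ :=
  HasCompactSupport.intro isCompact_Icc h.supp

private theorem h24_schw {ψ : ℝ → ℝ} {a b : ℝ} (h : Sm ψ a b) :
    ∃ f : SchwartzMap ℝ ℂ, ∀ u : ℝ, Cs ψ u = (f u).re := by
  have h1 : HasCompactSupport (fun α : ℝ => (ψ α : ℂ)) :=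
    HasCompactSupport.intro isCompact_Icc (K := Icc a b) fun x hx => by rw [h.supp x hx]; simp
  have h2 : ContDiff ℝ ∞ (fun α : ℝ => (ψ α : ℂ)) := Complex.ofRealCLM.contDiff.comp h.smooth
  refine ⟨FourierTransform.fourier (h1.toSchwartzMap h2), fun u => ?_⟩
  rw [SchwartzMap.fourier_coe, Real.fourier_real_eq_integral_exp_smul]
  have hint : Integrable (fun v : ℝ => Complex.exp (((-2 * Real.pi * v * u : ℝ) : ℂ) * I) •
      (h1.toSchwartzMap h2) v) := by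
    have h3 := (h1.toSchwartzMap h2).integrable (μ := volume)
    refine (h3.norm.mono' (f := fun v : ℝ => Complex.exp (((-2 * Real.pi * v * u : ℝ) : ℂ) * I) •
      (h1.toSchwartzMap h2) v) ?_ ?_)
    · have hc1 : Continuous (fun v : ℝ => Complex.exp (((-2 * Real.pi * v * u : ℝ) : ℂ) * I)) :=
        Complex.continuous_exp.comp ((Complex.continuous_ofReal.comp (by fun_prop)).mul
          continuous_const)
      exact (hc1.smul (h1.toSchwartzMap h2).continuous).aestronglyMeasurable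
    · filter_upwards with v
      rw [norm_smul, Complex.norm_exp_ofReal_mul_I, one_mul]
  have h4 : (∫ v : ℝ, Complex.exp (((-2 * Real.pi * v * u : ℝ) : ℂ) * I) •
      (h1.toSchwartzMap h2) v).re = ∫ v : ℝ, (Complex.exp (((-2 * Real.pi * v * u : ℝ) : ℂ) * I) •
      (h1.toSchwartzMap h2) v).re := by
    have := integral_re hint
    simpa using this.symm
  rw [h4]
  unfold Cs
  refine integral_congr_ae ?_
  filter_upwards with v
  have h5 : (h1.toSchwartzMap h2) v = (ψ v : ℂ) := rfl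
  rw [h5, smul_eq_mul, Complex.re_mul_ofReal, Complex.exp_ofReal_mul_I_re,
    show -2 * Real.pi * v * u = -(2 * Real.pi * u * v) by ring, Real.cos_neg, mul_comm]

private theorem h24_int {ψ : ℝ → ℝ} {a b : ℝ} (h : Sm ψ a b) (u : ℝ) :
    Integrable (fun α : ℝ => ψ α * Real.cos (2 * Real.pi * u * α)) := by
  refine Continuous.integrable_of_hasCompactSupport ?_ ?_
  · exact h.smooth.continuous.mul (by fun_prop)
  · exact (h24_compact h).mul_right

theorem Cs_decay {ψ : ℝ → ℝ} {a b : ℝ} (h : Sm ψ a b) : ∃ C : ℝ, 0 ≤ C ∧ ∀ u : ℝ, |Cs ψ u| * (1 + |u|) ^ 3 ≤ C := by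
  obtain ⟨f, hf⟩ := h24_schw h
  obtain ⟨C0, hC0, h0⟩ := f.decay 0 0
  obtain ⟨C3, hC3, h3⟩ := f.decay 3 0
  refine ⟨4 * (C0 + C3), by positivity, fun u => ?_⟩
  have h0u := h0 u
  have h3u := h3 u
  rw [norm_iteratedFDeriv_zero, Real.norm_eq_abs] at h0u h3u
  rw [pow_zero, one_mul] at h0u
  have h1 : |Cs ψ u| ≤ ‖f u‖ := by rw [hf]; exact Complex.abs_re_le_norm _
  have hu : 0 ≤ |u| := abs_nonneg u
  have h2 : (1 + |u|) ^ 3 ≤ 4 * (1 + |u| ^ 3) := by
    nlinarith [mul_nonneg (add_nonneg zero_le_one hu) (sq_nonneg (1 - |u|))]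
  calc |Cs ψ u| * (1 + |u|) ^ 3 ≤ ‖f u‖ * (4 * (1 + |u| ^ 3)) := by gcongr
    _ = 4 * (‖f u‖ + |u| ^ 3 * ‖f u‖) := by ring
    _ ≤ 4 * (C0 + C3) := by linarith

theorem Cs_continuous {ψ : ℝ → ℝ} {a b : ℝ} (h : Sm ψ a b) : Continuous (Cs ψ) := by
  obtain ⟨f, hf⟩ := h24_schw h
  have h1 : Cs ψ = fun u => (f u).re := funext hf
  rw [h1]
  exact Complex.continuous_re.comp f.continuous

theorem Cs_even (ψ : ℝ → ℝ) (u : ℝ) : Cs ψ (-u) = Cs ψ u := by
  unfold Cs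
  congr 1
  funext α
  rw [show 2 * Real.pi * -u * α = -(2 * Real.pi * u * α) by ring, Real.cos_neg]

theorem Cs_integrable {ψ : ℝ → ℝ} {a b : ℝ} (h : Sm ψ a b) : Integrable (Cs ψ) := by
  obtain ⟨f, hf⟩ := h24_schw h
  have h1 : Cs ψ = fun u => (f u).re := funext hf
  rw [h1]
  have h2 := f.integrable (μ := volume)
  exact h2.re

theorem Cs_add {ψ₁ ψ₂ : ℝ → ℝ} {a b a' b' : ℝ} (h₁ : Sm ψ₁ a b) (h₂ : Sm ψ₂ a' b') (u : ℝ) :
    Cs (fun α => ψ₁ α + ψ₂ α) u = Cs ψ₁ u + Cs ψ₂ u := by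
  unfold Cs
  rw [← integral_add (h24_int h₁ u) (h24_int h₂ u)]
  congr 1
  funext α
  ring

theorem Cs_smul (c : ℝ) (ψ : ℝ → ℝ) (u : ℝ) : Cs (fun α => c * ψ α) u = c * Cs ψ u := by
  unfold Cs
  rw [← integral_const_mul]
  congr 1
  funext α
  ring

/-- dilation: `Cs (α ↦ lam ψ(lam α)) u = Cs ψ (u/lam)` -/
theorem Cs_dilate (ψ : ℝ → ℝ) {lam : ℝ} (hl : 0 < lam) (u : ℝ) :
    Cs (fun α => lam * ψ (lam * α)) u = Cs ψ (u / lam) := by
  unfold Cs
  have h1 := Measure.integral_comp_mul_left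
    (fun y : ℝ => ψ y * Real.cos (2 * Real.pi * (u / lam) * y)) lam
  rw [abs_of_pos (inv_pos.2 hl), smul_eq_mul] at h1
  have h2 : (fun α : ℝ => lam * ψ (lam * α) * Real.cos (2 * Real.pi * u * α)) =
      fun α : ℝ => lam * (ψ (lam * α) * Real.cos (2 * Real.pi * (u / lam) * (lam * α))) := by
    funext α
    rw [show 2 * Real.pi * (u / lam) * (lam * α) = 2 * Real.pi * u * α by field_simp]
    ring
  rw [h2, integral_const_mul, h1, ← mul_assoc, mul_inv_cancel₀ hl.ne', one_mul]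

theorem WP_add (T : ℝ) (g₁ g₂ : ℝ → ℝ) : WP T (fun u => g₁ u + g₂ u) = WP T g₁ + WP T g₂ := by
  unfold WP
  rw [← Finset.sum_add_distrib]
  exact Finset.sum_congr rfl fun p _ => by ring

theorem WP_smul (T c : ℝ) (g : ℝ → ℝ) : WP T (fun u => c * g u) = c * WP T g := by
  unfold WP
  rw [Finset.mul_sum]
  exact Finset.sum_congr rfl fun p _ => by ring

theorem WP_le_of_Pk : ∃ C T₀ : ℝ, 0 < C ∧ ∀ T : ℝ, T₀ ≤ T → ∀ c : ℝ, 1 ≤ c → c ≤ 5 * Real.log T →
    ∀ (g : ℝ → ℝ) (M : ℝ), 0 ≤ M → (∀ u : ℝ, |g u| ≤ M * Pk c u) → |WP T g| ≤ C * M * SN T := by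
  obtain ⟨C, T₀, hC, hpl⟩ := poisson_large
  refine ⟨C + 1 / 2, max T₀ 2, by linarith, ?_⟩
  intro T hT c hc1 hc2 g M hM hg
  have hT1 : T₀ ≤ T := (le_max_left _ _).trans hT
  have hT2 : 2 ≤ T := (le_max_right _ _).trans hT
  have hS : 0 < SN T := by
    unfold SN
    have : 0 < Real.log T := Real.log_pos (by linarith)
    have := Real.pi_pos
    positivity
  have h1 : |WP T g| ≤ M * WP T (Pk c) := by
    unfold WP
    rw [Finset.mul_sum]
    refine (Finset.abs_sum_le_sum_abs _ _).trans (Finset.sum_le_sum fun p _ => ?_)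
    have h2 : (0 : ℝ) ≤ (mult p.1 : ℝ) * (mult p.2 : ℝ) := by positivity
    rw [abs_mul, abs_of_nonneg h2]
    calc (mult p.1 : ℝ) * (mult p.2 : ℝ) * |g (nd T p)|
        ≤ (mult p.1 : ℝ) * (mult p.2 : ℝ) * (M * Pk c (nd T p)) :=
          mul_le_mul_of_nonneg_left (hg _) h2
      _ = _ := by ring
  have h3 := (abs_le.1 (hpl T hT1 c hc1 hc2)).2
  have h4 : C / c ≤ C := div_le_self hC.le hc1
  have h5 : WP T (Pk c) / SN T ≤ C + 1 / 2 := by linarith
  rw [div_le_iff₀ hS] at h5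
  calc |WP T g| ≤ M * WP T (Pk c) := h1
    _ ≤ M * ((C + 1 / 2) * SN T) := mul_le_mul_of_nonneg_left h5 hM
    _ = _ := by ring

end Pool.Agent.Helper69.GMU
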