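import Pool.Agent.Helper69.GMU.CSD

/-!
# GMU block CVL: the value predicted by the density

`∫ Cs ψ = ψ 0` (Fourier inversion: `Cs ψ` is the transform of the even part of `ψ`), `∫ Cs ψ(u) sc(u) du = ∫ ψ(α) tri(α) dα`
(Fubini and `sc_FT : ∫ sc x cos(2πvx) dx = tri v`, `M/E.lean` line 2343), `pcDensity = 1 - sc` a.e. (`sc_ae`, see `Pk_sc`, `Pk_value` in
`GGM/PI.lean` for the same computation with `Pk`), `Cs ψ 0 = ∫ ψ`, `1 - tri α = min |α| 1`.
-/

open Complex Set MeasureTheory Filter Topology
open Pool.Agent.Helper57.LH Pool.Agent.Helper57.PC Pool.Agent.Helper57.Zeta Pool.Agent.Helper57.LS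
open Pool.Agent.Helper69.GGM
open scoped ContDiff

namespace Pool.Agent.Helper69.GMU

private lemma CVL_psi_integrable {ψ : ℝ → ℝ} {a b : ℝ} (h : Sm ψ a b) : Integrable ψ := by
  apply h.smooth.continuous.integrable_of_hasCompactSupport
  exact HasCompactSupport.intro isCompact_Icc h.supp

private lemma CVL_abs_le {ψ : ℝ → ℝ} (u : ℝ) (hi : Integrable ψ) : |Cs ψ u| ≤ ∫ α, |ψ α| := by
  unfold Cs
  refine (abs_integral_le_integral_abs).trans ?_
  apply integral_mono_of_nonneg
  · filter_upwards with x
    exact abs_nonneg _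
  · exact hi.abs
  · filter_upwards with x
    rw [abs_mul]
    exact mul_le_of_le_one_right (abs_nonneg _) (Real.abs_cos_le_one _)

private lemma CVL_even_part {ψ : ℝ → ℝ} {a b : ℝ} (h : Sm ψ a b) (w : ℝ) :
    ∫ x, ((ψ x + ψ (-x)) / 2) * Real.cos (2 * Real.pi * w * x) = Cs ψ w := by
  have hi := CVL_psi_integrable h
  have hc : Continuous fun x : ℝ => Real.cos (2 * Real.pi * w * x) := by fun_prop
  have h1 : Integrable fun x => ψ x * Real.cos (2 * Real.pi * w * x) := by
    refine hi.mul_bdd (c := 1) hc.aestronglyMeasurable ?_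
    filter_upwards with x
    exact Real.abs_cos_le_one _
  have h2 : Integrable fun x => ψ (-x) * Real.cos (2 * Real.pi * w * x) := by
    have := h1.comp_neg
    refine this.congr ?_
    filter_upwards with x
    rw [mul_neg, Real.cos_neg]
  have h3 : ∫ x, ψ (-x) * Real.cos (2 * Real.pi * w * x) = ∫ x, ψ x * Real.cos (2 * Real.pi * w * x) := by
    rw [← integral_neg_eq_self (fun x => ψ x * Real.cos (2 * Real.pi * w * x))]
    congr 1
    funext x
    rw [mul_neg, Real.cos_neg]
  have h4 : ∀ x, ((ψ x + ψ (-x)) / 2) * Real.cos (2 * Real.pi * w * x) =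
      (1/2) * (ψ x * Real.cos (2 * Real.pi * w * x)) + (1/2) * (ψ (-x) * Real.cos (2 * Real.pi * w * x)) := by
    intro x; ring
  simp_rw [h4]
  rw [integral_add (h1.const_mul _) (h2.const_mul _), integral_const_mul, integral_const_mul, h3]
  unfold Cs
  ring

private lemma CVL_integral {ψ : ℝ → ℝ} {a b : ℝ} (h : Sm ψ a b) : ∫ u, Cs ψ u = ψ 0 := by
  have hi := CVL_psi_integrable h
  have h1 := inv_even (f := fun x => (ψ x + ψ (-x)) / 2) (g := Cs ψ)
    ((hi.add hi.comp_neg).div_const 2)
    ((h.smooth.continuous.add (h.smooth.continuous.comp continuous_neg)).div_const 2)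
    (fun v => by simp only [neg_neg]; ring) (Cs_integrable h) (Cs_even ψ)
    (fun w => CVL_even_part h w) 0
  simpa using h1

private lemma CVL_sc {ψ : ℝ → ℝ} {a b : ℝ} (h : Sm ψ a b) : ∫ u, Cs ψ u * sc u = ∫ α, ψ α * tri α := by
  have hi := CVL_psi_integrable h
  have h0 : ∀ u : ℝ, Cs ψ u * sc u = ∫ a, sc u * ψ a * Real.cos (2 * Real.pi * u * a) := by
    intro u
    unfold Cs
    rw [mul_comm, ← integral_const_mul]
    congr 1
    funext a
    ring
  have hint : Integrable (Function.uncurry (fun (u a : ℝ) => sc u * ψ a * Real.cos (2 * Real.pi * u * a)))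
      (volume.prod volume) := by
    have h1 : Integrable (fun z : ℝ × ℝ => sc z.1 * ψ z.2) (volume.prod volume) :=
      Integrable.mul_prod sc_integrable hi
    refine h1.mono ?_ ?_
    · apply Continuous.aestronglyMeasurable
      have := sc_cont
      have := h.smooth.continuous
      unfold Function.uncurry
      fun_prop
    · filter_upwards with z
      simp only [Function.uncurry]
      rw [norm_mul]
      have h2 : ‖Real.cos (2 * Real.pi * z.1 * z.2)‖ ≤ 1 := Real.abs_cos_le_one _
      exact mul_le_of_le_one_right (norm_nonneg _) h2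
  simp_rw [h0]
  rw [integral_integral_swap hint]
  congr 1
  funext a
  rw [← sc_FT a, ← integral_const_mul]
  congr 1
  funext u
  have h3 : 2 * Real.pi * u * a = 2 * Real.pi * a * u := by ring
  rw [h3]
  ring

theorem Cs_value {ψ : ℝ → ℝ} {a b : ℝ} (h : Sm ψ a b) :
    Cs ψ 0 + ∫ u, Cs ψ u * pcDensity u = ψ 0 + ∫ α, ψ α * min |α| 1 := by
  have hi := CVL_psi_integrable h
  have h1 : ∫ u, Cs ψ u * pcDensity u = ∫ u, (Cs ψ u - Cs ψ u * sc u) := by
    apply integral_congr_ae
    filter_upwards [sc_ae] with u hu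
    rw [pcDensity_eq, ← hu]
    ring
  have h2 : Integrable (fun u => Cs ψ u * sc u) := by
    refine (sc_integrable.const_mul (∫ α, |ψ α|)).mono' ((Cs_continuous h).mul sc_cont).aestronglyMeasurable ?_
    filter_upwards with u
    rw [Real.norm_eq_abs, abs_mul, abs_of_nonneg (sc_nonneg u)]
    exact mul_le_mul_of_nonneg_right (CVL_abs_le u hi) (sc_nonneg u)
  rw [h1, integral_sub (Cs_integrable h) h2, CVL_integral h, CVL_sc h]
  have h3 : Cs ψ 0 = ∫ α, ψ α := by
    unfold Cs
    simp
  have h4 : Integrable fun α => ψ α * tri α := by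
    have hc : Continuous tri := tri_cont
    refine hi.mul_bdd (c := 1) hc.aestronglyMeasurable ?_
    filter_upwards with x
    rw [Real.norm_eq_abs, abs_of_nonneg (tri_nonneg x)]
    exact tri_le_one x
  have h5 : ∀ α : ℝ, ψ α * min |α| 1 = ψ α - ψ α * tri α := by
    intro α
    unfold tri
    rcases le_total |α| 1 with hα | hα
    · rw [max_eq_right (by linarith), min_eq_left hα]
      ring
    · rw [max_eq_left (by linarith), min_eq_right hα]
      ring
  simp_rw [h5]
  rw [integral_sub hi h4, h3]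
  ring

end Pool.Agent.Helper69.GMU
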