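import Pool.Agent.Helper69.GGM.Defs

/-!
# GMU project, definitions

Unconditional primes-only form of Montgomery's pair correlation conjecture. `L = Real.log T`.
See /team-store/h69_GMU_README.md
-/

open Complex Set MeasureTheory Filter Topology
open Pool.Agent.Helper57.LH Pool.Agent.Helper57.PC Pool.Agent.Helper57.Zeta
open Pool.Agent.Helper69.GGM
open scoped ContDiff

namespace Pool.Agent.Helper69.GMU

/-- two-sided Laplace transform of a complex valued function -/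
noncomputable def Lc (g : ℝ → ℂ) (s : ℂ) : ℂ := ∫ u : ℝ, g u * Complex.exp (s * (u : ℂ))

/-- two-sided Laplace transform of a real valued function -/
noncomputable def Lap (φ : ℝ → ℝ) (z : ℂ) : ℂ := ∫ α : ℝ, (φ α : ℂ) * Complex.exp (z * (α : ℂ))

/-- smooth and zero outside `[a,b]` -/
structure Sm (φ : ℝ → ℝ) (a b : ℝ) : Prop where
  smooth : ContDiff ℝ ∞ φ
  supp : ∀ x : ℝ, x ∉ Icc a b → φ x = 0

/-- smooth, zero outside `[a,b]`, the first `k` derivatives have `L¹` norm at most `D` -/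
structure SmD (φ : ℝ → ℝ) (a b : ℝ) (k : ℕ) (D : ℝ) : Prop where
  sm : Sm φ a b
  le : ∀ j : ℕ, j ≤ k → ∫ x : ℝ, |iteratedDeriv j φ x| ≤ D

/-- the prime sum `(1/log T) ∑ Λ(n) n^(-1/2-it) φ(log n/log T)` -/
noncomputable def PP (φ : ℝ → ℝ) (T t : ℝ) : ℂ :=
  (∑' n : ℕ, (ArithmeticFunction.vonMangoldt n : ℂ) * (n : ℂ) ^ (-((1 / 2 : ℂ) + (t : ℂ) * I)) *
    (φ (Real.log n / Real.log T) : ℂ)) / (Real.log T : ℂ)

/-- capped mean square of the prime sum -/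
noncomputable def MP (φ : ℝ → ℝ) (T B : ℝ) : ℝ := (1 / T) * ∫ t in (0:ℝ)..T, min (‖PP φ T t‖ ^ 2) B

/-- the predicted value -/
noncomputable def VP (φ : ℝ → ℝ) : ℝ := ∫ α : ℝ, φ α ^ 2 * min α 1

/-- the capped mean square law for `φ` along `l` -/
def PLaw (l : Filter ℝ) (φ : ℝ → ℝ) : Prop :=
  ∀ ε : ℝ, 0 < ε → ∃ B₀ : ℝ, ∀ B : ℝ, B₀ ≤ B → ∀ᶠ T : ℝ in l, |MP φ T B - VP φ| ≤ ε

/-- sum over the zeros with ordinates in `[0,T]` -/
noncomputable def SP (φ : ℝ → ℝ) (T t : ℝ) : ℂ := ∑ ρ ∈ Zf T, (mx ρ : ℂ) * Lap φ (zz T t ρ)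

/-- the same sum with all zeros moved horizontally to the critical line -/
noncomputable def SP0 (φ : ℝ → ℝ) (T t : ℝ) : ℂ := ∑ ρ ∈ Zf T, (mx ρ : ℂ) * Lap φ (z0 T t ρ)

/-- cosine transform -/
noncomputable def Cs (ψ : ℝ → ℝ) (u : ℝ) : ℝ := ∫ α : ℝ, ψ α * Real.cos (2 * Real.pi * u * α)

/-- the pair sum law for the kernel `Cs ψ`, `ψ` supported in `(0,∞)` -/
def CLaw (l : Filter ℝ) (ψ : ℝ → ℝ) : Prop :=
  Tendsto (fun T : ℝ => WP T (Cs ψ) / SN T) l (𝓝 (∫ α : ℝ, ψ α * min α 1))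

end Pool.Agent.Helper69.GMU
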