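import Pool.Agent.Helper69.GMU.EFb
import Pool.Agent.Helper69.GGM.HD1

/-!
# GMU block EFe: the archimedean side of the explicit formula

`s = 5/2 + iy`. `(1/2π)∫ Lc g(s)/s = Lc g 0`, `(1/2π)∫ Lc g(s)/(s-1) = Lc g 1` (`Lc_kernel`), constants give `g 0 = 0`
(`Lc_inversion` with `u = 0`). `digamma (s/2) = -γ + ∑_{n≥0} (1/(n+1) - 1/(n+s/2))` (`digamma_hasSum`, `M/B.lean`), and
`(1/2)(1/(n+1) - 1/(n+s/2)) = 1/(2n+2) - 1/(s+2n)` contributes `-Lc g (-2n)`; exchange sum and integral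
(`|1/(n+1) - 1/(n+s/2)| ≤ ‖s/2-1‖/(n+1)^2·C`). So the total is `Lc g 0 + Lc g 1 - ∑_{n≥0} Lc g(-2n) = Lc g 1 - ∑_{n≥0} Lc g(-2(n+1))`.
Summability of `Lc g(-2n)`: from the exchange, or `‖Lc g (-2n)‖ ≤ C e^(-2na)` with `supp g ⊂ [a,b]`, `a > 0`
(`tsupport g` is compact; if `g` only vanishes for `u ≤ 0` use `‖Lc g(-x)‖ ≤ C/x^2` from two integrations by parts).
-/

open Complex Set MeasureTheory Filter Topology
open Pool.Agent.Helper57.LH Pool.Agent.Helper57.PC Pool.Agent.Helper57.Zeta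
open Pool.Agent.Helper69.GGM
open scoped ContDiff

namespace Pool.Agent.Helper69.GMU

/-- the archimedean part -/
noncomputable def Ar (s : ℂ) : ℂ :=
  1 / s + (1 / (s - 1) + (-(Real.log Real.pi : ℂ) / 2 + Complex.digamma (s / 2) / 2))

/-- the line -/
private noncomputable def sl (y : ℝ) : ℂ := ((5 / 2 : ℝ) : ℂ) + (y : ℂ) * I

private theorem sl_re (y : ℝ) : (sl y).re = 5 / 2 := by simp [sl]

private theorem sl_im (y : ℝ) : (sl y).im = y := by simp [sl]

private theorem sl_cont : Continuous sl := by unfold sl; fun_prop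

/-- the terms of the series -/
private noncomputable def tn (n : ℕ) (y : ℝ) : ℂ := (1 / ((n : ℂ) + 1) - 1 / ((n : ℂ) + sl y / 2)) / 2

private theorem den_re (n : ℕ) (y : ℝ) : ((n : ℂ) + sl y / 2).re = n + 5 / 4 := by
  have h : ((n : ℂ) + sl y / 2).re = n + (sl y).re / 2 := by
    rw [Complex.add_re, Complex.natCast_re]
    congr 1
    rw [show sl y / 2 = ((1 / 2 : ℝ) : ℂ) * sl y by push_cast; ring, Complex.re_ofReal_mul]
    ring
  rw [h, sl_re]
  ring

private theorem den_ne (n : ℕ) (y : ℝ) : (n : ℂ) + sl y / 2 ≠ 0 := by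
  intro h
  have h1 := den_re n y
  rw [h, Complex.zero_re] at h1
  have : (0 : ℝ) ≤ n := Nat.cast_nonneg n
  linarith

private theorem n1_ne (n : ℕ) : (n : ℂ) + 1 ≠ 0 := Nat.cast_add_one_ne_zero n

private theorem tn_cont (n : ℕ) : Continuous (tn n) := by
  unfold tn
  have h := sl_cont
  refine Continuous.div_const (continuous_const.sub (continuous_const.div ?_ (den_ne n))) 2
  exact continuous_const.add (h.div_const 2)

private theorem tn_eq (n : ℕ) (y : ℝ) :
    tn n y = 1 / (2 * ((n : ℂ) + 1)) - 1 / (sl y - -(2 * (n : ℂ))) := by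
  have h1 := den_ne n y
  have h2 := n1_ne n
  have e : sl y - -(2 * (n : ℂ)) = 2 * ((n : ℂ) + sl y / 2) := by ring
  rw [e]
  unfold tn
  field_simp

private theorem tn_bound (n : ℕ) (y : ℝ) : ‖tn n y‖ ≤ (1 + |y|) * (1 / ((n : ℝ) + 1) ^ 2) := by
  have h1 := den_ne n y
  have h2 := n1_ne n
  have hn : (0 : ℝ) ≤ n := Nat.cast_nonneg n
  have e : tn n y = (sl y / 2 - 1) / 2 / (((n : ℂ) + 1) * ((n : ℂ) + sl y / 2)) := by
    unfold tn
    have h3 : 1 / ((n : ℂ) + 1) - 1 / ((n : ℂ) + sl y / 2) =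
        (sl y / 2 - 1) / (((n : ℂ) + 1) * ((n : ℂ) + sl y / 2)) := by
      rw [div_sub_div _ _ h2 h1]
      congr 1
      ring
    rw [h3, div_right_comm]
  have e1 : ‖(n : ℂ) + 1‖ = (n : ℝ) + 1 := by
    have := Complex.norm_natCast (n + 1)
    push_cast at this
    exact this
  have e2 : (n : ℝ) + 1 ≤ ‖(n : ℂ) + sl y / 2‖ := by
    have h3 := Complex.re_le_norm ((n : ℂ) + sl y / 2)
    rw [den_re] at h3
    linarith
  have e3 : ‖(sl y / 2 - 1) / 2‖ ≤ 1 + |y| := by
    have h4 : (sl y / 2 - 1) / 2 = ((1 / 8 : ℝ) : ℂ) + ((y / 4 : ℝ) : ℂ) * I := by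
      unfold sl; push_cast; ring
    rw [h4]
    refine (norm_add_le _ _).trans ?_
    have h5 : |(1 / 8 : ℝ)| = 1 / 8 := by norm_num
    have h6 : |y / 4| = |y| / 4 := by rw [abs_div]; norm_num
    rw [norm_mul, Complex.norm_I, mul_one, Complex.norm_real, Complex.norm_real, Real.norm_eq_abs,
      Real.norm_eq_abs, h5, h6]
    linarith [abs_nonneg y]
  rw [e, norm_div, norm_mul, e1]
  have h5 : 0 < (n : ℝ) + 1 := by linarith
  calc ‖(sl y / 2 - 1) / 2‖ / (((n : ℝ) + 1) * ‖(n : ℂ) + sl y / 2‖)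
      ≤ (1 + |y|) / (((n : ℝ) + 1) * ((n : ℝ) + 1)) := by
        apply div_le_div₀ (by positivity) e3 (by positivity)
        exact mul_le_mul_of_nonneg_left e2 h5.le
    _ = (1 + |y|) * (1 / ((n : ℝ) + 1) ^ 2) := by field_simp

private theorem efe_sq_summable : Summable fun n : ℕ => 1 / ((n : ℝ) + 1) ^ 2 := by
  have h := (summable_nat_add_iff 1).2 (Real.summable_one_div_nat_pow.2 (by norm_num : 1 < 2))
  refine h.congr fun n => ?_
  push_cast
  rfl

private theorem tn_hasSum (y : ℝ) : HasSum (fun n => tn n y)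
    ((Complex.digamma (sl y / 2) + Real.eulerMascheroniConstant) / 2) := by
  have hre : 1 / 2 < (sl y / 2).re := by
    have := den_re 0 y
    simp only [Nat.cast_zero, zero_add] at this
    rw [this]; norm_num
  exact (digamma_hasSum hre).div_const 2

theorem arch_side {g : ℝ → ℂ} (hg : ContDiff ℝ ∞ g) (hc : HasCompactSupport g) (h0 : ∀ u : ℝ, u ≤ 0 → g u = 0) :
    Integrable (fun y : ℝ => Lc g (((5 / 2 : ℝ) : ℂ) + (y : ℂ) * I) * Ar (((5 / 2 : ℝ) : ℂ) + (y : ℂ) * I)) ∧
    (1 / (2 * Real.pi) : ℂ) * ∫ y : ℝ, Lc g (((5 / 2 : ℝ) : ℂ) + (y : ℂ) * I) *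
      Ar (((5 / 2 : ℝ) : ℂ) + (y : ℂ) * I) = Lc g 1 - ∑' n : ℕ, Lc g (-(2 * ((n : ℂ) + 1))) := by
  set F : ℝ → ℂ := fun y => Lc g (sl y) with hF
  have hpi : (2 * (Real.pi : ℂ)) ≠ 0 := by
    have : (Real.pi : ℂ) ≠ 0 := by exact_mod_cast Real.pi_ne_zero
    exact mul_ne_zero two_ne_zero this
  have hFc : Continuous F := (Lc_continuous hg hc).comp sl_cont
  -- integrability
  have hF1 : Integrable (fun y : ℝ => ‖F y‖ * (1 + |y|)) := by
    have h := Lc_line_integrable hg hc (5 / 2) 1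
    have e : (fun y : ℝ => ‖F y‖ * (1 + |y|)) =
        fun y : ℝ => ‖Lc g (((5 / 2 : ℝ) : ℂ) + (y : ℂ) * I)‖ * (1 + |y|) ^ 1 := by
      funext y
      rw [pow_one]
      rfl
    rw [e]
    exact h
  have hFi : Integrable F := by
    have h := Lc_line_integrable hg hc (5 / 2) 0
    simp only [pow_zero, mul_one] at h
    exact (integrable_norm_iff hFc.aestronglyMeasurable).1 h
  have hF0 : ∫ y, F y = 0 := by
    have h := Lc_inversion hg hc (5 / 2) 0
    rw [h0 0 le_rfl] at h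
    simp only [Complex.ofReal_zero, mul_zero, neg_zero, Complex.exp_zero, mul_one] at h
    have h2 : (1 / (2 * Real.pi) : ℂ) ≠ 0 := one_div_ne_zero hpi
    exact (mul_eq_zero.1 h).resolve_left h2
  have hker : ∀ z : ℂ, z.re < 5 / 2 → Integrable (fun y => F y * (1 / (sl y - z))) ∧
      ∫ y, F y * (1 / (sl y - z)) = 2 * Real.pi * Lc g z := by
    intro z hz
    obtain ⟨h1, h2⟩ := Lc_kernel hg hc h0 hz
    refine ⟨h1, ?_⟩
    rw [← h2, ← mul_assoc]
    have : (2 * (Real.pi : ℂ)) * (1 / (2 * Real.pi)) = 1 := by field_simp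
    rw [this, one_mul]
    rfl
  have hzn : ∀ n : ℕ, (-(2 * (n : ℂ))).re < 5 / 2 := by
    intro n
    have h1 : (-(2 * (n : ℂ))).re = -(2 * (n : ℝ)) := by simp
    rw [h1]
    have : (0 : ℝ) ≤ n := Nat.cast_nonneg n
    linarith
  -- the terms
  have hti : ∀ n, Integrable (fun y => F y * tn n y) := by
    intro n
    have e : (fun y => F y * tn n y) = fun y => F y * (1 / (2 * ((n : ℂ) + 1))) -
        F y * (1 / (sl y - -(2 * (n : ℂ)))) := by
      funext y
      rw [tn_eq, mul_sub]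
    rw [e]
    exact (hFi.mul_const _).sub (hker _ (hzn n)).1
  have htv : ∀ n : ℕ, ∫ y, F y * tn n y = -(2 * Real.pi * Lc g (-(2 * (n : ℂ)))) := by
    intro n
    have e : (fun y => F y * tn n y) = fun y => F y * (1 / (2 * ((n : ℂ) + 1))) -
        F y * (1 / (sl y - -(2 * (n : ℂ)))) := by
      funext y
      rw [tn_eq, mul_sub]
    rw [e, integral_sub (hFi.mul_const _) (hker _ (hzn n)).1, integral_mul_const, hF0, zero_mul,
      (hker _ (hzn n)).2, zero_sub]
  have hbd : ∀ n y, ‖F y * tn n y‖ ≤ ‖F y‖ * (1 + |y|) * (1 / ((n : ℝ) + 1) ^ 2) := by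
    intro n y
    rw [norm_mul, mul_assoc]
    exact mul_le_mul_of_nonneg_left (tn_bound n y) (norm_nonneg _)
  have hsum : Summable fun n => ∫ y, ‖F y * tn n y‖ := by
    refine Summable.of_nonneg_of_le (fun n => integral_nonneg fun y => norm_nonneg _)
      (fun n => ?_) (efe_sq_summable.mul_left (∫ y, ‖F y‖ * (1 + |y|)))
    rw [← integral_mul_const]
    exact integral_mono (hti n).norm (hF1.mul_const _) (hbd n)
  have hex := hasSum_integral_of_summable_integral_norm hti hsum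
  -- the sum of the series
  have hts : ∀ y, ∑' n, F y * tn n y = F y *
      ((Complex.digamma (sl y / 2) + Real.eulerMascheroniConstant) / 2) := fun y =>
    ((tn_hasSum y).mul_left (F y)).tsum_eq
  simp only [hts] at hex
  have hDi : Integrable (fun y => F y *
      ((Complex.digamma (sl y / 2) + Real.eulerMascheroniConstant) / 2)) := by
    have hmeas : AEStronglyMeasurable (fun y => F y *
        ((Complex.digamma (sl y / 2) + Real.eulerMascheroniConstant) / 2)) volume := by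
      refine aestronglyMeasurable_of_tendsto_ae atTop
        (f := fun (N : ℕ) (y : ℝ) => ∑ n ∈ Finset.range N, F y * tn n y) (fun N => ?_) ?_
      · exact (continuous_finsetSum _ fun n _ => hFc.mul (tn_cont n)).aestronglyMeasurable
      · exact Filter.Eventually.of_forall fun y => ((tn_hasSum y).mul_left (F y)).tendsto_sum_nat
    refine Integrable.mono' (hF1.mul_const (∑' n : ℕ, 1 / ((n : ℝ) + 1) ^ 2)) hmeas
      (Filter.Eventually.of_forall fun y => ?_)
    rw [← hts y]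
    have hs : Summable fun n : ℕ => ‖F y‖ * (1 + |y|) * (1 / ((n : ℝ) + 1) ^ 2) :=
      efe_sq_summable.mul_left _
    refine (tsum_of_norm_bounded hs.hasSum fun n => hbd n y).trans (le_of_eq ?_)
    rw [tsum_mul_left]
  have hsumm : Summable fun n : ℕ => Lc g (-(2 * (n : ℂ))) := by
    have h1 := hex.summable
    simp only [htv] at h1
    have h2 := (h1.neg).mul_left (1 / (2 * Real.pi : ℂ))
    refine h2.congr fun n => ?_
    rw [neg_neg, ← mul_assoc]
    have : (1 / (2 * Real.pi : ℂ)) * (2 * Real.pi) = 1 := by field_simp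
    rw [this, one_mul]
  have hDv : ∫ y, F y * ((Complex.digamma (sl y / 2) + Real.eulerMascheroniConstant) / 2) =
      -(2 * Real.pi * ∑' n : ℕ, Lc g (-(2 * (n : ℂ)))) := by
    rw [← hex.tsum_eq, tsum_congr htv, tsum_neg, tsum_mul_left]
  -- the decomposition
  have hk0 := hker 0 (by norm_num)
  have hk1 := hker 1 (by norm_num)
  have edec : (fun y : ℝ => Lc g (((5 / 2 : ℝ) : ℂ) + (y : ℂ) * I) *
      Ar (((5 / 2 : ℝ) : ℂ) + (y : ℂ) * I)) = fun y => ((F y * (1 / (sl y - 0)) +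
        F y * (1 / (sl y - 1))) + F y * (-(Real.log Real.pi : ℂ) / 2 -
          (Real.eulerMascheroniConstant : ℂ) / 2)) + F y *
            ((Complex.digamma (sl y / 2) + Real.eulerMascheroniConstant) / 2) := by
    funext y
    change F y * Ar (sl y) = _
    unfold Ar
    rw [sub_zero]
    ring
  have hi1 : Integrable fun y => F y * (1 / (sl y - 0)) + F y * (1 / (sl y - 1)) :=
    hk0.1.add hk1.1
  have hi2 := hFi.mul_const (-(Real.log Real.pi : ℂ) / 2 - (Real.eulerMascheroniConstant : ℂ) / 2)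
  have hi3 : Integrable fun y => (F y * (1 / (sl y - 0)) + F y * (1 / (sl y - 1))) +
      F y * (-(Real.log Real.pi : ℂ) / 2 - (Real.eulerMascheroniConstant : ℂ) / 2) := hi1.add hi2
  rw [edec]
  refine ⟨hi3.add hDi, ?_⟩
  rw [integral_add hi3 hDi, integral_add hi1 hi2, integral_add hk0.1 hk1.1, hk0.2, hk1.2,
    integral_mul_const, hF0, hDv, hsumm.tsum_eq_zero_add]
  have e0 : Lc g (-(2 * ((0 : ℕ) : ℂ))) = Lc g 0 := by
    congr 1
    push_cast
    ring
  rw [e0]
  have e1 : (∑' n : ℕ, Lc g (-(2 * ((n + 1 : ℕ) : ℂ)))) = ∑' n : ℕ, Lc g (-(2 * ((n : ℂ) + 1))) :=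
    tsum_congr fun n => by push_cast; rfl
  rw [e1]
  field_simp
  ring

end Pool.Agent.Helper69.GMU
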