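import Pool.Agent.Helper69.GMU.EFd
import Pool.Agent.Helper69.GMU.EFe

/-!
# GMU: the explicit formula for smooth test functions
-/

open Complex Set MeasureTheory Filter Topology
open Pool.Agent.Helper57.LH Pool.Agent.Helper57.PC Pool.Agent.Helper57.Zeta
open Pool.Agent.Helper69.GGM
open scoped ContDiff

namespace Pool.Agent.Helper69.GMU

theorem explicit_formula {g : ℝ → ℂ} (hg : ContDiff ℝ ∞ g) (hc : HasCompactSupport g)
    (h0 : ∀ u : ℝ, u ≤ 0 → g u = 0) :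
    ∑' n : ℕ, (ArithmeticFunction.vonMangoldt n : ℂ) * g (Real.log n) =
      Lc g 1 - (∑' ρ : ZS, (mx (ρ : ℂ) : ℂ) * Lc g (ρ : ℂ)) - ∑' n : ℕ, Lc g (-(2 * ((n : ℂ) + 1))) := by
  have hd := Lc_dirichlet hg hc h0 (c := 5 / 2) (by norm_num)
  have hz := zero_side hg hc h0
  have ha := arch_side hg hc h0
  have key : ∀ y : ℝ, Lc g (((5 / 2 : ℝ) : ℂ) + (y : ℂ) * I) * logDeriv riemannZeta (((5 / 2 : ℝ) : ℂ) + (y : ℂ) * I) =
      Lc g (((5 / 2 : ℝ) : ℂ) + (y : ℂ) * I) * logDeriv xi (((5 / 2 : ℝ) : ℂ) + (y : ℂ) * I) -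
      Lc g (((5 / 2 : ℝ) : ℂ) + (y : ℂ) * I) * Ar (((5 / 2 : ℝ) : ℂ) + (y : ℂ) * I) := by
    intro y
    have hre : ((((5 / 2 : ℝ) : ℂ) + (y : ℂ) * I)).re = 5 / 2 := by simp
    have h1 : (((5 / 2 : ℝ) : ℂ) + (y : ℂ) * I) ≠ 1 := by
      intro h
      have := congrArg Complex.re h
      rw [hre, Complex.one_re] at this
      norm_num at this
    have h2 : riemannZeta (((5 / 2 : ℝ) : ℂ) + (y : ℂ) * I) ≠ 0 :=
      riemannZeta_ne_zero_of_one_le_re (by rw [hre]; norm_num)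
    rw [hd1_logDeriv (by rw [hre]; norm_num) h1 h2]
    unfold Ar
    ring
  rw [hd.2, integral_congr_ae (Eventually.of_forall key), integral_sub hz.1 ha.1, mul_sub, hz.2, ha.2]
  ring

end Pool.Agent.Helper69.GMU
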