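import Pool.Agent.Helper69.GMU.Defs

/-!
# GMU block LAP: decay of the Laplace transform

`Lap_decay`. `‖z‖^j ‖Lap φ z‖ = ‖∫ φ^(j)(α) e^(zα)‖ <= D e^(max (a Re z) (b Re z))` for `j = 0` and `j = k`
(integrate by parts `j` times; `φ` is smooth with compact support), and `(1+|Im z|)^k <= 2^k max(1, ‖z‖^k)`.
`Lap_sub`. `Lap φ (x+iv) - Lap φ (iv) = ∫ φ(α)(e^(xα)-1) e^(ivα) dα = x ∫_0^1 Lap (α ↦ α φ α) (sx+iv) ds`, and
`Lap_decay` for `α φ(α)` (which is `SmD` for some `D`, `SmD_of_Sm`).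
-/

open Complex Set MeasureTheory Filter Topology
open Pool.Agent.Helper57.LH Pool.Agent.Helper57.PC Pool.Agent.Helper57.Zeta
open Pool.Agent.Helper69.GGM
open scoped ContDiff

namespace Pool.Agent.Helper69.GMU

private theorem lap_cs_of_supp {g : ℝ → ℝ} {a b : ℝ} (hs : ∀ x : ℝ, x ∉ Icc a b → g x = 0) :
    HasCompactSupport g := by
  refine HasCompactSupport.of_support_subset_isCompact (isCompact_Icc (a := a) (b := b)) ?_
  intro y hy
  by_contra hcon
  exact hy (hs y hcon)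

private theorem lap_integrable {g : ℝ → ℝ} (hg : Continuous g) (hs : HasCompactSupport g) (z : ℂ) :
    Integrable (fun y : ℝ => (g y : ℂ) * Complex.exp (z * y)) := by
  have hc : Continuous (fun y : ℝ => (g y : ℂ) * Complex.exp (z * y)) := by fun_prop
  refine hc.integrable_of_hasCompactSupport ?_
  have h1 : HasCompactSupport (fun y : ℝ => (g y : ℂ)) :=
    hs.comp_left (g := fun x : ℝ => (x : ℂ)) (by simp)
  exact h1.mul_right

private theorem lap_smooth_deriv {g : ℝ → ℝ} (hg : ContDiff ℝ ∞ g) : ContDiff ℝ ∞ (deriv g) := by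
  have := hg.iterate_deriv 1
  simpa using this

private theorem lap_step {g : ℝ → ℝ} (hg : ContDiff ℝ ∞ g) (hs : HasCompactSupport g) (z : ℂ) :
    z * Lap g z = - Lap (deriv g) z := by
  have hd : Differentiable ℝ g := hg.differentiable (by simp)
  have hg' : ContDiff ℝ ∞ (deriv g) := lap_smooth_deriv hg
  have hu : ∀ y : ℝ, HasDerivAt (fun y : ℝ => (g y : ℂ)) ((deriv g y : ℝ) : ℂ) y := fun y =>
    (hd y).hasDerivAt.ofReal_comp
  have hv : ∀ y : ℝ, HasDerivAt (fun y : ℝ => Complex.exp (z * y)) (z * Complex.exp (z * y)) y := by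
    intro y
    have h1 : HasDerivAt (fun y : ℝ => z * (y : ℂ)) z y := by
      simpa using (Complex.ofRealCLM.hasDerivAt (x := y)).const_mul z
    have h2 := h1.cexp
    rwa [mul_comm] at h2
  have hi1 : Integrable ((fun y : ℝ => (g y : ℂ)) * fun y : ℝ => z * Complex.exp (z * y)) := by
    have := (lap_integrable hg.continuous hs z).const_mul z
    refine this.congr (Eventually.of_forall fun y => ?_)
    simp only [Pi.mul_apply]
    ring
  have hi2 : Integrable ((fun y : ℝ => ((deriv g y : ℝ) : ℂ)) * fun y : ℝ => Complex.exp (z * y)) :=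
    lap_integrable hg'.continuous hs.deriv z
  have hi3 : Integrable ((fun y : ℝ => (g y : ℂ)) * fun y : ℝ => Complex.exp (z * y)) :=
    lap_integrable hg.continuous hs z
  have key := integral_mul_deriv_eq_deriv_mul_of_integrable (fun y _ => hu y) (fun y _ => hv y) hi1 hi2 hi3
  rw [Lap, Lap, ← key, ← integral_const_mul]
  congr 1
  ext y
  ring

private theorem lap_iter {g : ℝ → ℝ} (hg : ContDiff ℝ ∞ g) (hs : HasCompactSupport g) (z : ℂ)
    (k : ℕ) : ‖z‖ ^ k * ‖Lap g z‖ = ‖Lap (iteratedDeriv k g) z‖ := by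
  induction k generalizing g with
  | zero => simp
  | succ k ih =>
    rw [iteratedDeriv_succ', ← ih (lap_smooth_deriv hg) hs.deriv, ← norm_neg (Lap (deriv g) z),
      ← lap_step hg hs z, norm_mul]
    ring

private theorem lap_le {g : ℝ → ℝ} {a b : ℝ} (hg : Continuous g)
    (hs : ∀ x : ℝ, x ∉ Icc a b → g x = 0) (z : ℂ) :
    ‖Lap g z‖ ≤ (∫ y, |g y|) * Real.exp (max (a * z.re) (b * z.re)) := by
  have hcs : HasCompactSupport g := lap_cs_of_supp hs
  have h1 : ‖Lap g z‖ ≤ ∫ y : ℝ, ‖(g y : ℂ) * Complex.exp (z * y)‖ := norm_integral_le_integral_norm _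
  have h2 : (∫ y : ℝ, ‖(g y : ℂ) * Complex.exp (z * y)‖) ≤
      ∫ y, |g y| * Real.exp (max (a * z.re) (b * z.re)) := by
    refine integral_mono (lap_integrable hg hcs z).norm ?_ ?_
    · exact ((hg.abs.integrable_of_hasCompactSupport hcs.abs).mul_const _)
    · intro y
      simp only [norm_mul, Complex.norm_real, Real.norm_eq_abs, Complex.norm_exp]
      by_cases h : y ∈ Icc a b
      · refine mul_le_mul_of_nonneg_left ?_ (abs_nonneg _)
        rw [Real.exp_le_exp]
        have h3 : (z * (y : ℂ)).re = z.re * y := by simp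
        rw [h3]
        rcases le_total 0 z.re with h4 | h4
        · refine le_trans ?_ (le_max_right _ _)
          rw [mul_comm]
          exact mul_le_mul_of_nonneg_right h.2 h4
        · refine le_trans ?_ (le_max_left _ _)
          rw [mul_comm]
          exact mul_le_mul_of_nonpos_right h.1 h4
      · rw [hs y h]; simp
  rw [integral_mul_const] at h2
  exact h1.trans h2

private theorem lap_deriv_supp {g : ℝ → ℝ} {a b : ℝ} (hs : ∀ x : ℝ, x ∉ Icc a b → g x = 0) :
    ∀ x : ℝ, x ∉ Icc a b → deriv g x = 0 := by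
  intro x hx
  have h1 : g =ᶠ[𝓝 x] fun _ => 0 := by
    have ho : IsOpen (Icc a b)ᶜ := isClosed_Icc.isOpen_compl
    filter_upwards [ho.mem_nhds hx] with y hy
    exact hs y hy
  rw [h1.deriv_eq]
  simp

private theorem lap_iter_supp {g : ℝ → ℝ} {a b : ℝ} (hs : ∀ x : ℝ, x ∉ Icc a b → g x = 0) (k : ℕ) :
    ∀ x : ℝ, x ∉ Icc a b → iteratedDeriv k g x = 0 := by
  induction k generalizing g with
  | zero => simpa using hs
  | succ k ih =>
    rw [iteratedDeriv_succ']
    exact ih (lap_deriv_supp hs)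

private theorem lap_iter_cont {g : ℝ → ℝ} (hg : ContDiff ℝ ∞ g) (k : ℕ) :
    Continuous (iteratedDeriv k g) := by
  induction k generalizing g with
  | zero => simpa using hg.continuous
  | succ k ih =>
    rw [iteratedDeriv_succ']
    exact ih (lap_smooth_deriv hg)

theorem Sm.hasCompactSupport {φ : ℝ → ℝ} {a b : ℝ} (h : Sm φ a b) : HasCompactSupport φ :=
  lap_cs_of_supp h.supp

theorem SmD_of_Sm {φ : ℝ → ℝ} {a b : ℝ} (h : Sm φ a b) (k : ℕ) : ∃ D : ℝ, 0 ≤ D ∧ SmD φ a b k D := by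
  have hn : ∀ j : ℕ, 0 ≤ ∫ x : ℝ, |iteratedDeriv j φ x| := fun j =>
    integral_nonneg fun x => abs_nonneg _
  refine ⟨∑ j ∈ Finset.range (k + 1), ∫ x : ℝ, |iteratedDeriv j φ x|,
    Finset.sum_nonneg fun j _ => hn j, h, fun j hj => ?_⟩
  exact Finset.single_le_sum (f := fun j : ℕ => ∫ x : ℝ, |iteratedDeriv j φ x|)
    (fun i _ => hn i) (Finset.mem_range.2 (Nat.lt_succ_of_le hj))

theorem Lap_decay {φ : ℝ → ℝ} {a b D : ℝ} {k : ℕ} (h : SmD φ a b k D) (z : ℂ) :
    ‖Lap φ z‖ * (1 + |z.im|) ^ k ≤ 2 ^ k * D * Real.exp (max (a * z.re) (b * z.re)) := by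
  have hE : 0 < Real.exp (max (a * z.re) (b * z.re)) := Real.exp_pos _
  have hj : ∀ j : ℕ, j ≤ k → ‖z‖ ^ j * ‖Lap φ z‖ ≤ D * Real.exp (max (a * z.re) (b * z.re)) := by
    intro j hj
    rw [lap_iter h.sm.smooth h.sm.hasCompactSupport z j]
    refine (lap_le (lap_iter_cont h.sm.smooth j) (lap_iter_supp h.sm.supp j) z).trans ?_
    exact mul_le_mul_of_nonneg_right (h.le j hj) hE.le
  have h0 := hj 0 (Nat.zero_le k)
  have hk := hj k le_rfl
  have him : |z.im| ≤ ‖z‖ := Complex.abs_im_le_norm z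
  have hnn : 0 ≤ 1 + |z.im| := by positivity
  rcases le_total ‖z‖ 1 with h1 | h1
  · have h2 : (1 + |z.im|) ^ k ≤ 2 ^ k := pow_le_pow_left₀ hnn (by linarith) k
    rw [pow_zero, one_mul] at h0
    calc ‖Lap φ z‖ * (1 + |z.im|) ^ k ≤ (D * Real.exp (max (a * z.re) (b * z.re))) * 2 ^ k :=
          mul_le_mul h0 h2 (pow_nonneg hnn k) (le_trans (norm_nonneg _) h0)
      _ = 2 ^ k * D * Real.exp (max (a * z.re) (b * z.re)) := by ring
  · have h2 : (1 + |z.im|) ^ k ≤ (2 * ‖z‖) ^ k := pow_le_pow_left₀ hnn (by linarith) k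
    calc ‖Lap φ z‖ * (1 + |z.im|) ^ k ≤ ‖Lap φ z‖ * (2 * ‖z‖) ^ k :=
          mul_le_mul_of_nonneg_left h2 (norm_nonneg _)
      _ = 2 ^ k * (‖z‖ ^ k * ‖Lap φ z‖) := by rw [mul_pow]; ring
      _ ≤ 2 ^ k * (D * Real.exp (max (a * z.re) (b * z.re))) :=
          mul_le_mul_of_nonneg_left hk (by positivity)
      _ = 2 ^ k * D * Real.exp (max (a * z.re) (b * z.re)) := by ring

private theorem lap_hasDerivAt {φ : ℝ → ℝ} {a b : ℝ} (h : Sm φ a b) (z : ℂ) :
    HasDerivAt (Lap φ) (Lap (fun α => α * φ α) z) z := by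
  have hc := h.smooth.continuous
  have hcs := h.hasCompactSupport
  obtain ⟨M, hM⟩ : ∃ M : ℝ, M = |a| + |b| := ⟨_, rfl⟩
  have hM0 : 0 ≤ M := by rw [hM]; positivity
  have key := hasDerivAt_integral_of_dominated_loc_of_deriv_le (μ := volume) (𝕜 := ℂ)
    (F := fun w : ℂ => fun α : ℝ => (φ α : ℂ) * Complex.exp (w * (α : ℂ)))
    (F' := fun w : ℂ => fun α : ℝ => (φ α : ℂ) * (Complex.exp (w * (α : ℂ)) * (α : ℂ)))
    (bound := fun α : ℝ => |φ α| * (Real.exp ((‖z‖ + 1) * M) * M))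
    (x₀ := z) (s := Metric.ball z 1) (Metric.ball_mem_nhds z one_pos)
    (Eventually.of_forall fun w => (by fun_prop : Continuous (fun α : ℝ =>
      (φ α : ℂ) * Complex.exp (w * (α : ℂ)))).aestronglyMeasurable)
    (lap_integrable hc hcs z)
    (by fun_prop : Continuous (fun α : ℝ =>
      (φ α : ℂ) * (Complex.exp (z * (α : ℂ)) * (α : ℂ)))).aestronglyMeasurable
    (Eventually.of_forall fun α w hw => by
      by_cases hα : α ∈ Icc a b
      · rw [norm_mul, norm_mul, Complex.norm_real, Complex.norm_real, Complex.norm_exp,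
          Real.norm_eq_abs, Real.norm_eq_abs]
        have hαM : |α| ≤ M := by
          rw [hM, abs_le]
          constructor
          · have := neg_abs_le a
            have := abs_nonneg b
            linarith [hα.1]
          · have := le_abs_self b
            have := abs_nonneg a
            linarith [hα.2]
        have hw' : ‖w‖ ≤ ‖z‖ + 1 := by
          rw [Metric.mem_ball, dist_eq_norm] at hw
          have := norm_sub_norm_le w z
          linarith
        have hre : (w * (α : ℂ)).re ≤ (‖z‖ + 1) * M := by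
          calc (w * (α : ℂ)).re ≤ ‖w * (α : ℂ)‖ := Complex.re_le_norm _
            _ = ‖w‖ * |α| := by rw [norm_mul, Complex.norm_real, Real.norm_eq_abs]
            _ ≤ (‖z‖ + 1) * M := mul_le_mul hw' hαM (abs_nonneg _) (by positivity)
        refine mul_le_mul_of_nonneg_left ?_ (abs_nonneg _)
        exact mul_le_mul (Real.exp_le_exp.2 hre) hαM (abs_nonneg _) (Real.exp_pos _).le
      · rw [h.supp α hα]; simp)
    ((hc.abs.integrable_of_hasCompactSupport hcs.abs).mul_const _)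
    (Eventually.of_forall fun α w _ => by
      have h1 : HasDerivAt (fun w : ℂ => w * (α : ℂ)) (α : ℂ) w := by
        simpa using (hasDerivAt_id w).mul_const (α : ℂ)
      exact h1.cexp.const_mul (φ α : ℂ))
  have h2 := key.2
  have h3 : (∫ α : ℝ, (φ α : ℂ) * (Complex.exp (z * (α : ℂ)) * (α : ℂ))) =
      Lap (fun α => α * φ α) z := by
    rw [Lap]
    congr 1
    ext α
    push_cast
    ring
  rw [h3] at h2
  exact h2

private theorem lap_sm_mul {φ : ℝ → ℝ} {a b : ℝ} (h : Sm φ a b) : Sm (fun α => α * φ α) a b where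
  smooth := contDiff_id.mul h.smooth
  supp := fun x hx => by
    show x * φ x = 0
    rw [h.supp x hx, mul_zero]

theorem Lap_sub {φ : ℝ → ℝ} {a b : ℝ} (h : Sm φ a b) (ha : 0 ≤ a) (k : ℕ) : ∃ C : ℝ, 0 ≤ C ∧
    ∀ x v : ℝ, ‖Lap φ ((x : ℂ) + (v : ℂ) * I) - Lap φ ((v : ℂ) * I)‖ * (1 + |v|) ^ k ≤
      C * |x| * Real.exp (b * max x 0) := by
  obtain ⟨D, hD0, hD⟩ := SmD_of_Sm (lap_sm_mul h) k
  rcases lt_or_ge b a with hba | hab
  · refine ⟨0, le_rfl, fun x v => ?_⟩
    have hz : ∀ z : ℂ, Lap φ z = 0 := by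
      intro z
      rw [Lap]
      have : ∀ α : ℝ, φ α = 0 := fun α => h.supp α (by
        rw [Icc_eq_empty (not_le.2 hba)]
        exact notMem_empty _)
      simp [this]
    rw [hz, hz]
    simp
  · refine ⟨2 ^ k * D, by positivity, fun x v => ?_⟩
    have hv0 : 0 < (1 + |v|) ^ k := by positivity
    obtain ⟨E, hE⟩ : ∃ E : ℝ, E = Real.exp (b * max x 0) := ⟨_, rfl⟩
    have hE0 : 0 < E := by rw [hE]; exact Real.exp_pos _
    have hf : ∀ s ∈ Icc (0 : ℝ) 1, HasDerivWithinAt
        (fun s : ℝ => Lap φ (((s * x : ℝ) : ℂ) + (v : ℂ) * I))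
        ((x : ℂ) * Lap (fun α => α * φ α) (((s * x : ℝ) : ℂ) + (v : ℂ) * I)) (Icc (0 : ℝ) 1) s := by
      intro s _
      have h1 := lap_hasDerivAt h (((s * x : ℝ) : ℂ) + (v : ℂ) * I)
      have h2 : HasDerivAt (fun s : ℝ => ((s * x : ℝ) : ℂ) + (v : ℂ) * I) (x : ℂ) s := by
        have h3 : HasDerivAt (fun s : ℝ => s * x) x s := by
          simpa using (hasDerivAt_id s).mul_const x
        exact h3.ofReal_comp.add_const _
      have h4 := h1.comp s h2
      rw [mul_comm (Lap (fun α => α * φ α) (((s * x : ℝ) : ℂ) + (v : ℂ) * I)) (x : ℂ)] at h4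
      exact h4.hasDerivWithinAt
    have hbd : ∀ s ∈ Ico (0 : ℝ) 1,
        ‖(x : ℂ) * Lap (fun α => α * φ α) (((s * x : ℝ) : ℂ) + (v : ℂ) * I)‖ ≤
          |x| * (2 ^ k * D * E / (1 + |v|) ^ k) := by
      intro s hs
      rw [norm_mul, Complex.norm_real, Real.norm_eq_abs]
      refine mul_le_mul_of_nonneg_left ?_ (abs_nonneg _)
      rw [le_div_iff₀ hv0]
      have h1 := Lap_decay hD (((s * x : ℝ) : ℂ) + (v : ℂ) * I)
      have hre : (((s * x : ℝ) : ℂ) + (v : ℂ) * I).re = s * x := by simp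
      have him : (((s * x : ℝ) : ℂ) + (v : ℂ) * I).im = v := by simp
      rw [hre, him] at h1
      refine h1.trans ?_
      refine mul_le_mul_of_nonneg_left ?_ (by positivity)
      rw [hE, Real.exp_le_exp]
      have hb0 : 0 ≤ b := ha.trans hab
      have hm0 : 0 ≤ max x 0 := le_max_right _ _
      have hsx : s * x ≤ max x 0 := by
        rcases le_total 0 x with hx | hx
        · calc s * x ≤ 1 * x := mul_le_mul_of_nonneg_right hs.2.le hx
            _ = x := one_mul x
            _ ≤ max x 0 := le_max_left _ _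
        · exact (mul_nonpos_of_nonneg_of_nonpos hs.1 hx).trans hm0
      refine max_le ?_ ?_
      · calc a * (s * x) ≤ a * max x 0 := mul_le_mul_of_nonneg_left hsx ha
          _ ≤ b * max x 0 := mul_le_mul_of_nonneg_right hab hm0
      · exact mul_le_mul_of_nonneg_left hsx hb0
    have h5 := norm_image_sub_le_of_norm_deriv_le_segment_01' hf hbd
    have e1 : (((1 * x : ℝ) : ℂ) + (v : ℂ) * I) = (x : ℂ) + (v : ℂ) * I := by rw [one_mul]
    have e0 : (((0 * x : ℝ) : ℂ) + (v : ℂ) * I) = (v : ℂ) * I := by simp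
    simp only [e1, e0] at h5
    calc ‖Lap φ ((x : ℂ) + (v : ℂ) * I) - Lap φ ((v : ℂ) * I)‖ * (1 + |v|) ^ k
        ≤ (|x| * (2 ^ k * D * E / (1 + |v|) ^ k)) * (1 + |v|) ^ k :=
          mul_le_mul_of_nonneg_right h5 hv0.le
      _ = 2 ^ k * D * |x| * E := by field_simp
      _ = 2 ^ k * D * |x| * Real.exp (b * max x 0) := by rw [hE]

theorem Lap_continuous {φ : ℝ → ℝ} {a b : ℝ} (h : Sm φ a b) : Continuous (Lap φ) :=
  continuous_iff_continuousAt.2 fun z => (lap_hasDerivAt h z).continuousAt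

/-- translation: `Lap (φ(· - α)) z = e^(αz) Lap φ z` -/
theorem Lap_shift (φ : ℝ → ℝ) (α : ℝ) (z : ℂ) :
    Lap (fun β => φ (β - α)) z = Complex.exp ((α : ℂ) * z) * Lap φ z := by
  have h1 := integral_sub_right_eq_self (μ := volume)
    (fun β : ℝ => (φ β : ℂ) * Complex.exp (z * ((β + α : ℝ) : ℂ))) α
  rw [Lap, Lap, ← integral_const_mul]
  have h2 : (fun β : ℝ => ((φ (β - α) : ℝ) : ℂ) * Complex.exp (z * (β : ℂ))) =
      fun β : ℝ => (fun β : ℝ => (φ β : ℂ) * Complex.exp (z * ((β + α : ℝ) : ℂ))) (β - α) := by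
    ext β
    simp
  rw [h2, h1]
  congr 1
  ext β
  push_cast
  rw [mul_add, Complex.exp_add]
  ring_nf

theorem SmD_shift {φ : ℝ → ℝ} {a b D : ℝ} {k : ℕ} (h : SmD φ a b k D) (α : ℝ) {a' b' : ℝ}
    (ha : a' ≤ a + α) (hb : b + α ≤ b') : SmD (fun β => φ (β - α)) a' b' k D where
  sm := {
    smooth := h.sm.smooth.comp (contDiff_id.sub contDiff_const)
    supp := fun x hx => h.sm.supp _ fun hcon => hx ⟨by linarith [hcon.1], by linarith [hcon.2]⟩ }
  le := fun j hj => by
    have h1 : (fun x : ℝ => |iteratedDeriv j (fun β => φ (β - α)) x|) =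
        fun x : ℝ => |iteratedDeriv j φ (x - α)| := by
      rw [iteratedDeriv_comp_sub_const]
    rw [h1]
    have h2 := integral_sub_right_eq_self (μ := volume) (fun x : ℝ => |iteratedDeriv j φ x|) α
    rw [h2]
    exact h.le j hj

end Pool.Agent.Helper69.GMU
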