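import Pool.Agent.Helper69.GMU.EF
import Pool.Agent.Helper69.GMU.Lap
import Pool.Agent.Helper69.GGM.HD2

/-!
# GMU block EFT: the prime sum as a sum over the zeros with ordinates in `[0,T]`

Apply `explicit_formula` to `g u = (1/L) φ(u/L) e^(-u(1/2+it))`, `L = log T > 0`. Then `∑ Λ(n) g(log n) = PP φ T t`
(`n^(-(1/2+it)) = e^(-(1/2+it) log n)` for `n ≥ 1`, `Λ 0 = 0`) and `Lc g s = Lap φ (L(s - 1/2 - it))` (substitution), in
particular `Lc g ρ = Lap φ (zz T t ρ)`. Bounds by `Lap_decay`, `0 < a ≤ b`: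
* `ρ` a zero with `Im ρ < 0` or `Im ρ > T`: `|Im ρ - t| ≥ (δ/2)(T+|Im ρ|)` (`hd2_dist`), `|Re| ≤ L/2`, so
  `‖Lap φ (zz T t ρ)‖ ≤ 2^k D T^(b/2) (1 + L(δ/2)(T+|γ|))^(-k) ≤ 2^k D T^(b/2-(k-2)) (T+|γ|)^(-2)` once `L δ/2 ≥ 1`; `k - 2 ≥ b/2 + 1`;
  sum over `ρ` by `hd2_summable`/`hd2_tail`.
* `Lc g 1`: `Re z = L/2`, `|Im z| = L t ≥ T` : `≤ 2^k D T^(b/2) T^(-k)`.
* `Lc g (-2(n+1))`: `Re z = -L(2n+5/2) < 0`, so `‖.‖ ≤ 2^k D e^(-2aL(n+1))`, geometric series.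
The zeros in `ZS` with `0 ≤ Im ≤ T` are `ZT T` (`mem_ZT`, `sum_ZT` or `M/E.lean` line 1051 ff.), giving `SP φ T t`.
-/

open Complex Set MeasureTheory Filter Topology
open Pool.Agent.Helper57.LH Pool.Agent.Helper57.PC Pool.Agent.Helper57.Zeta
open Pool.Agent.Helper69.GGM
open scoped ContDiff

namespace Pool.Agent.Helper69.GMU

/-- the test function -/
noncomputable def eft_g (φ : ℝ → ℝ) (L t : ℝ) (u : ℝ) : ℂ :=
  ((1 / L : ℝ) : ℂ) * (φ (u / L) : ℂ) * Complex.exp (-((u : ℂ) * (1 / 2 + (t : ℂ) * I)))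

theorem eft_smooth {φ : ℝ → ℝ} {a b : ℝ} (h : Sm φ a b) (L t : ℝ) :
    ContDiff ℝ ∞ (eft_g φ L t) := by
  unfold eft_g
  have h1 : ContDiff ℝ ∞ fun u : ℝ => (φ (u / L) : ℂ) :=
    Complex.ofRealCLM.contDiff.comp (h.smooth.comp (contDiff_id.div_const L))
  have h2 : ContDiff ℝ ∞ fun u : ℝ => Complex.exp (-((u : ℂ) * (1 / 2 + (t : ℂ) * I))) :=
    ((Complex.ofRealCLM.contDiff (n := ∞)).mul contDiff_const).neg.cexp
  exact (contDiff_const.mul h1).mul h2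

theorem eft_compact {φ : ℝ → ℝ} {a b : ℝ} (h : Sm φ a b) {L : ℝ} (hL : 0 < L) (t : ℝ) :
    HasCompactSupport (eft_g φ L t) := by
  refine HasCompactSupport.intro (K := Icc (a * L) (b * L)) isCompact_Icc fun u hu => ?_
  have h1 : φ (u / L) = 0 := by
    refine h.supp _ fun hm => hu ?_
    exact ⟨(le_div_iff₀ hL).1 hm.1, (div_le_iff₀ hL).1 hm.2⟩
  simp [eft_g, h1]

theorem eft_zero {φ : ℝ → ℝ} {a b : ℝ} (h : Sm φ a b) (ha : 0 < a) {L : ℝ} (hL : 0 < L) (t : ℝ)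
    (u : ℝ) (hu : u ≤ 0) : eft_g φ L t u = 0 := by
  have h1 : φ (u / L) = 0 := by
    refine h.supp _ fun hm => ?_
    have h2 : u / L ≤ 0 := div_nonpos_of_nonpos_of_nonneg hu hL.le
    linarith [hm.1]
  simp [eft_g, h1]

theorem eft_Lc (φ : ℝ → ℝ) {L : ℝ} (hL : 0 < L) (t : ℝ) (s : ℂ) :
    Lc (eft_g φ L t) s = Lap φ ((L : ℂ) * (s - 1 / 2 - (t : ℂ) * I)) := by
  have h1 : ∀ u : ℝ, eft_g φ L t u * Complex.exp (s * (u : ℂ)) =
      (fun x : ℝ => ((1 / L : ℝ) : ℂ) * ((φ x : ℂ) *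
        Complex.exp ((L : ℂ) * (s - 1 / 2 - (t : ℂ) * I) * (x : ℂ)))) (u / L) := by
    intro u
    have hLc : (L : ℂ) ≠ 0 := by exact_mod_cast hL.ne'
    simp only [eft_g]
    rw [mul_assoc, ← Complex.exp_add, mul_assoc]
    congr 3
    push_cast
    field_simp
    ring
  have h2 := Measure.integral_comp_div (fun x : ℝ => ((1 / L : ℝ) : ℂ) * ((φ x : ℂ) *
        Complex.exp ((L : ℂ) * (s - 1 / 2 - (t : ℂ) * I) * (x : ℂ)))) L
  unfold Lc Lap
  rw [integral_congr_ae (Eventually.of_forall h1), h2, integral_const_mul,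
    abs_of_pos hL, Complex.real_smul, ← mul_assoc, ← Complex.ofReal_mul, mul_one_div_cancel hL.ne',
    Complex.ofReal_one, one_mul]

theorem eft_PP (φ : ℝ → ℝ) {T : ℝ} (t : ℝ) :
    ∑' n : ℕ, (ArithmeticFunction.vonMangoldt n : ℂ) * eft_g φ (Real.log T) t (Real.log n) =
      PP φ T t := by
  unfold PP
  rw [← tsum_div_const]
  refine tsum_congr fun n => ?_
  rcases Nat.eq_zero_or_pos n with rfl | hn
  · simp
  · have hn0 : (n : ℂ) ≠ 0 := by exact_mod_cast hn.ne'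
    rw [Complex.cpow_def_of_ne_zero hn0, ← Complex.natCast_log]
    simp only [eft_g]
    have h1 : -((Real.log n : ℂ) * (1 / 2 + (t : ℂ) * I)) =
        (Real.log n : ℂ) * -(1 / 2 + (t : ℂ) * I) := by ring
    rw [h1]
    push_cast
    ring

theorem eft_zz (T t : ℝ) (ρ : ℂ) :
    ((Real.log T : ℝ) : ℂ) * (ρ - 1 / 2 - (t : ℂ) * I) = zz T t ρ := by
  unfold zz
  apply Complex.ext
  · simp
  · simp

/-- the basic bound: `Re z ≤ L/2`, `|Im z| ≥ M ≥ 1`. -/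
theorem eft_bound {φ : ℝ → ℝ} {a b D L M : ℝ} {k : ℕ} (h : SmD φ a b k D) (ha : 0 < a)
    (hab : a ≤ b) (hk : b / 2 + 3 ≤ k) (hD : 0 ≤ D) (hL : 0 ≤ L) (hM : Real.exp L ≤ M) (z : ℂ)
    (hz : z.re ≤ L / 2) (hz2 : M ≤ |z.im|) :
    ‖Lap φ z‖ ≤ 2 ^ k * D / Real.exp L * (1 / M ^ 2) := by
  have h1 := Lap_decay h z
  have hb : 0 < b := ha.trans_le hab
  have hM0 : 0 < M := (Real.exp_pos L).trans_le hM
  have hm : max (a * z.re) (b * z.re) ≤ b * (L / 2) := by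
    apply max_le
    · rcases le_total 0 z.re with h0 | h0
      · exact (mul_le_mul_of_nonneg_right hab h0).trans (mul_le_mul_of_nonneg_left hz hb.le)
      · exact (mul_nonpos_of_nonneg_of_nonpos ha.le h0).trans (by positivity)
    · exact mul_le_mul_of_nonneg_left hz hb.le
  have hk3 : 3 ≤ k := by
    have : (3 : ℝ) ≤ k := by linarith
    exact_mod_cast this
  obtain ⟨j, rfl⟩ : ∃ j, k = j + 2 := ⟨k - 2, by omega⟩
  have hj : b / 2 + 1 ≤ j := by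
    push_cast at hk
    linarith
  have h2 : M ^ 2 * Real.exp (L * (b / 2 + 1)) ≤ (1 + |z.im|) ^ (j + 2) := by
    have e1 : Real.exp (L * (b / 2 + 1)) ≤ Real.exp (L * j) :=
      Real.exp_le_exp.2 (mul_le_mul_of_nonneg_left hj hL)
    have e2 : Real.exp (L * j) = Real.exp L ^ j := by
      rw [mul_comm, Real.exp_nat_mul]
    have e3 : Real.exp L ^ j ≤ (1 + |z.im|) ^ j :=
      pow_le_pow_left₀ (Real.exp_pos L).le (by linarith) j
    have e4 : M ^ 2 ≤ (1 + |z.im|) ^ 2 := pow_le_pow_left₀ hM0.le (by linarith) 2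
    calc M ^ 2 * Real.exp (L * (b / 2 + 1)) ≤ (1 + |z.im|) ^ 2 * (1 + |z.im|) ^ j :=
          mul_le_mul e4 (e1.trans (e2.le.trans e3)) (Real.exp_pos _).le (by positivity)
      _ = _ := by rw [← pow_add, Nat.add_comm 2 j]
  have h3 : ‖Lap φ z‖ * (M ^ 2 * Real.exp (L * (b / 2 + 1))) ≤
      2 ^ (j + 2) * D * Real.exp (b * (L / 2)) := by
    calc ‖Lap φ z‖ * (M ^ 2 * Real.exp (L * (b / 2 + 1))) ≤
          ‖Lap φ z‖ * (1 + |z.im|) ^ (j + 2) := mul_le_mul_of_nonneg_left h2 (norm_nonneg _)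
      _ ≤ _ := h1
      _ ≤ _ := mul_le_mul_of_nonneg_left (Real.exp_le_exp.2 hm) (by positivity)
  have h4 : Real.exp (L * (b / 2 + 1)) = Real.exp (b * (L / 2)) * Real.exp L := by
    rw [← Real.exp_add]
    congr 1
    ring
  rw [h4] at h3
  have h5 : 0 < Real.exp (b * (L / 2)) := Real.exp_pos _
  have h6 : ‖Lap φ z‖ * (M ^ 2 * Real.exp L) ≤ 2 ^ (j + 2) * D := by
    have h7 : ‖Lap φ z‖ * (M ^ 2 * Real.exp L) * Real.exp (b * (L / 2)) ≤
        2 ^ (j + 2) * D * Real.exp (b * (L / 2)) := by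
      calc _ = ‖Lap φ z‖ * (M ^ 2 * (Real.exp (b * (L / 2)) * Real.exp L)) := by ring
        _ ≤ _ := h3
    exact le_of_mul_le_mul_right h7 h5
  have h8 : 0 < M ^ 2 * Real.exp L := by positivity
  calc ‖Lap φ z‖ ≤ 2 ^ (j + 2) * D / (M ^ 2 * Real.exp L) := (le_div_iff₀ h8).2 h6
    _ = _ := by
      field_simp

/-- `PP + SP` is small, uniformly over a class of test functions -/
theorem PP_zeros {a b D δ ε : ℝ} {k : ℕ} (ha : 0 < a) (hab : a ≤ b) (hk : b / 2 + 3 ≤ k) (hD : 0 ≤ D)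
    (hδ : 0 < δ) (hδ2 : δ < 1 / 2) (hε : 0 < ε) :
    ∃ T₀ : ℝ, ∀ T : ℝ, T₀ ≤ T → ∀ φ : ℝ → ℝ, SmD φ a b k D → ∀ t : ℝ, δ * T ≤ t → t ≤ (1 - δ) * T →
      ‖PP φ T t + SP φ T t‖ ≤ ε := by
  classical
  have hC : (0 : ℝ) < 2 ^ k * D + 1 := by positivity
  have ev1 : ∀ᶠ T : ℝ in atTop, ∑' ρ : ZS, mx ρ / (T + |(ρ:ℂ).im|) ^ 2 ≤ ε / 3 / (2 ^ k * D + 1) :=
    (hd2_tail.eventually_lt_const (by positivity)).mono fun T h => h.le
  have ev2 : ∀ᶠ T : ℝ in atTop, 1 / T ≤ ε / 3 / (2 ^ k * D + 1) := by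
    have h : Tendsto (fun T : ℝ => 1 / T) atTop (𝓝 0) := by
      simpa using tendsto_inv_atTop_zero
    exact (h.eventually_lt_const (by positivity)).mono fun T h => h.le
  have ev3 : ∀ᶠ T : ℝ in atTop, 2 / δ ≤ Real.log T :=
    Real.tendsto_log_atTop.eventually_ge_atTop _
  have ev4 : ∀ᶠ T : ℝ in atTop, 1 / a ≤ Real.log T :=
    Real.tendsto_log_atTop.eventually_ge_atTop _
  obtain ⟨T₀, hT₀⟩ := eventually_atTop.1 (ev1.and (ev2.and (ev3.and (ev4.and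
    (eventually_ge_atTop (1 : ℝ))))))
  refine ⟨T₀, fun T hT φ hφ t ht1 ht2 => ?_⟩
  obtain ⟨h1, h2, h3, h4, hT1⟩ := hT₀ T hT
  have hT0 : 0 < T := by linarith
  set L := Real.log T with hLdef
  have hL0 : 0 < L := lt_of_lt_of_le (by positivity) h3
  have hexp : Real.exp L = T := Real.exp_log hT0
  have hLδ : 1 ≤ L * (δ / 2) := by
    have := mul_le_mul_of_nonneg_right h3 (half_pos hδ).le
    rw [show 2 / δ * (δ / 2) = 1 by field_simp] at this
    exact this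
  have hsumT : Summable (fun ρ : ZS => mx ρ / (T + |(ρ:ℂ).im|) ^ 2) := by
    refine Summable.of_nonneg_of_le (fun ρ => ?_) (fun ρ => ?_) hd2_summable
    · have hm := mx_nonneg (ρ:ℂ)
      positivity
    · have hm := mx_nonneg (ρ:ℂ)
      have h0 := abs_nonneg (ρ:ℂ).im
      apply div_le_div_of_nonneg_left hm (by positivity)
      gcongr
  -- the explicit formula
  have hEF := explicit_formula (eft_smooth hφ.sm L t) (eft_compact hφ.sm hL0 t)
    (eft_zero hφ.sm ha hL0 t)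
  rw [eft_PP φ t] at hEF
  simp only [eft_Lc φ hL0 t] at hEF
  have hzz : ∀ ρ : ℂ, (L : ℂ) * (ρ - 1 / 2 - (t : ℂ) * I) = zz T t ρ := eft_zz T t
  have hFeq : ∑' ρ : ZS, (mx (ρ : ℂ) : ℂ) * Lap φ ((L : ℂ) * ((ρ : ℂ) - 1 / 2 - (t : ℂ) * I)) =
      ∑' ρ : ZS, (mx (ρ : ℂ) : ℂ) * Lap φ (zz T t (ρ : ℂ)) :=
    tsum_congr fun ρ => by rw [hzz]
  rw [hFeq] at hEF
  -- the term at 1
  have hone : ‖Lap φ ((L : ℂ) * (1 - 1 / 2 - (t : ℂ) * I))‖ ≤ 2 ^ k * D * (1 / T) := by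
    have hre : ((L : ℂ) * (1 - 1 / 2 - (t : ℂ) * I)).re = L / 2 := by
      simp
      ring
    have him : ((L : ℂ) * (1 - 1 / 2 - (t : ℂ) * I)).im = -(L * t) := by
      simp
    have h5 : T ≤ |-(L * t)| := by
      rw [abs_neg]
      refine le_trans ?_ (le_abs_self _)
      have h6 : T * 1 ≤ T * (L * (δ / 2)) := mul_le_mul_of_nonneg_left hLδ hT0.le
      have h7 : L * (δ * T) ≤ L * t := mul_le_mul_of_nonneg_left ht1 hL0.le
      have h8 : 0 ≤ T * (L * (δ / 2)) := by positivity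
      nlinarith
    have h9 := eft_bound hφ ha hab hk hD hL0.le (M := T) hexp.le _ hre.le (by rw [him]; exact h5)
    refine h9.trans ?_
    rw [hexp]
    have h10 : 1 / T ^ 2 ≤ 1 := by
      rw [div_le_one (by positivity)]
      nlinarith
    calc 2 ^ k * D / T * (1 / T ^ 2) ≤ 2 ^ k * D / T * 1 :=
          mul_le_mul_of_nonneg_left h10 (by positivity)
      _ = _ := by ring
  -- the trivial zeros
  have htriv : ‖∑' n : ℕ, Lap φ ((L : ℂ) * (-(2 * ((n : ℂ) + 1)) - 1 / 2 - (t : ℂ) * I))‖ ≤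
      2 ^ k * D * (1 / T) := by
    have hbd : ∀ n : ℕ, ‖Lap φ ((L : ℂ) * (-(2 * ((n : ℂ) + 1)) - 1 / 2 - (t : ℂ) * I))‖ ≤
        2 ^ k * D * (1 / T) * (1 / 2 / 2 ^ n) := by
      intro n
      have hre : ((L : ℂ) * (-(2 * ((n : ℂ) + 1)) - 1 / 2 - (t : ℂ) * I)).re =
          -(L * (2 * n + 5 / 2)) := by
        simp
        ring
      have him : ((L : ℂ) * (-(2 * ((n : ℂ) + 1)) - 1 / 2 - (t : ℂ) * I)).im = -(L * t) := by
        simp
      have h5 : T ≤ L * t := by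
        have h6 : T * 1 ≤ T * (L * (δ / 2)) := mul_le_mul_of_nonneg_left hLδ hT0.le
        have h7 : L * (δ * T) ≤ L * t := mul_le_mul_of_nonneg_left ht1 hL0.le
        have h8 : 0 ≤ T * (L * (δ / 2)) := by positivity
        nlinarith
      have h6 := Lap_decay hφ ((L : ℂ) * (-(2 * ((n : ℂ) + 1)) - 1 / 2 - (t : ℂ) * I))
      rw [hre, him, abs_neg] at h6
      have h7 : T ≤ (1 + |L * t|) ^ k := by
        have hk3 : 3 ≤ k := by
          have hb : 0 < b := ha.trans_le hab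
          have : (3 : ℝ) ≤ k := by linarith
          exact_mod_cast this
        have h8 : T ≤ 1 + |L * t| := by
          have := le_abs_self (L * t)
          linarith
        refine h8.trans (le_self_pow₀ (hT1.trans h8) (by omega))
      have hneg : -(L * (2 * n + 5 / 2)) ≤ 0 := by
        have : 0 ≤ L * (2 * (n : ℝ) + 5 / 2) := by positivity
        linarith
      have h8 : max (a * -(L * (2 * n + 5 / 2))) (b * -(L * (2 * n + 5 / 2))) ≤
          -((n : ℝ) + 1) := by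
        have e0 : b * -(L * (2 * n + 5 / 2)) ≤ a * -(L * (2 * n + 5 / 2)) :=
          mul_le_mul_of_nonpos_right hab hneg
        rw [max_eq_left e0]
        have e1 : 1 ≤ a * L := by
          have := mul_le_mul_of_nonneg_left h4 ha.le
          rw [mul_one_div_cancel ha.ne'] at this
          exact this
        have e2 : 1 * (2 * (n : ℝ) + 5 / 2) ≤ a * L * (2 * n + 5 / 2) :=
          mul_le_mul_of_nonneg_right e1 (by positivity)
        have e3 : (0 : ℝ) ≤ n := Nat.cast_nonneg n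
        nlinarith
      have h9 : Real.exp (-((n : ℝ) + 1)) ≤ 1 / 2 / 2 ^ n := by
        have e1 : Real.exp (-1) ≤ 1 / 2 := by
          rw [Real.exp_neg, one_div]
          refine inv_anti₀ (by norm_num) ?_
          have := Real.add_one_le_exp (1 : ℝ)
          linarith
        have e2 : Real.exp (-((n : ℝ) + 1)) = Real.exp (-1) ^ (n + 1) := by
          rw [← Real.exp_nat_mul]
          congr 1
          push_cast
          ring
        rw [e2]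
        calc Real.exp (-1) ^ (n + 1) ≤ (1 / 2) ^ (n + 1) :=
              pow_le_pow_left₀ (Real.exp_pos _).le e1 _
          _ = _ := by
            rw [pow_succ, one_div, inv_pow]
            field_simp
      have h10 : ‖Lap φ ((L : ℂ) * (-(2 * ((n : ℂ) + 1)) - 1 / 2 - (t : ℂ) * I))‖ * T ≤
          2 ^ k * D * (1 / 2 / 2 ^ n) := by
        calc _ ≤ ‖Lap φ ((L : ℂ) * (-(2 * ((n : ℂ) + 1)) - 1 / 2 - (t : ℂ) * I))‖ *
              (1 + |L * t|) ^ k := mul_le_mul_of_nonneg_left h7 (norm_nonneg _)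
          _ ≤ _ := h6
          _ ≤ _ := mul_le_mul_of_nonneg_left ((Real.exp_le_exp.2 h8).trans h9) (by positivity)
      calc _ ≤ 2 ^ k * D * (1 / 2 / 2 ^ n) / T := (le_div_iff₀ hT0).2 h10
        _ = _ := by ring
    have hs : HasSum (fun n : ℕ => (1 : ℝ) / 2 / 2 ^ n) 1 := by
      simpa using hasSum_geometric_two' (1 : ℝ)
    have hs2 : HasSum (fun n : ℕ => 2 ^ k * D * (1 / T) * (1 / 2 / 2 ^ n))
        (2 ^ k * D * (1 / T) * 1) := hs.mul_left _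
    rw [mul_one] at hs2
    exact tsum_of_norm_bounded hs2 hbd
  -- the zeros
  let F : ZS → ℂ := fun ρ => (mx (ρ : ℂ) : ℂ) * Lap φ (zz T t (ρ : ℂ))
  let G : ZS → ℂ := fun ρ => if ρ ∈ (Zf T).subtype (fun ρ => xi ρ = 0) then F ρ else 0
  let H : ZS → ℂ := fun ρ => if ρ ∈ (Zf T).subtype (fun ρ => xi ρ = 0) then 0 else F ρ
  have hFGH : ∀ ρ, F ρ = G ρ + H ρ := by
    intro ρ
    by_cases hρ : ρ ∈ (Zf T).subtype (fun ρ => xi ρ = 0)
    · simp only [G, H, if_pos hρ, add_zero]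
    · simp only [G, H, if_neg hρ, zero_add]
  have hHb : ∀ ρ, ‖H ρ‖ ≤ 2 ^ k * D * (mx ρ / (T + |(ρ:ℂ).im|) ^ 2) := by
    intro ρ
    have hm := mx_nonneg (ρ:ℂ)
    by_cases hρ : ρ ∈ (Zf T).subtype (fun ρ => xi ρ = 0)
    · simp only [H, if_pos hρ, norm_zero]
      positivity
    · simp only [H, if_neg hρ, F]
      rw [Finset.mem_subtype, mem_Zf, isNontrivialZero_iff] at hρ
      have him : (ρ:ℂ).im < 0 ∨ T < (ρ:ℂ).im := by
        by_contra hcon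
        push Not at hcon
        exact hρ ⟨ρ.2, hcon.1, hcon.2⟩
      have d1 := hd2_dist hδ hδ2 hT0 ht1 ht2 him
      have hzre : (zz T t (ρ:ℂ)).re = L * ((ρ:ℂ).re - 1 / 2) := by
        simp [zz, hLdef]
      have hzim : (zz T t (ρ:ℂ)).im = L * ((ρ:ℂ).im - t) := by
        simp [zz, hLdef]
      have hr := zs_re ρ
      have h0 := abs_nonneg (ρ:ℂ).im
      have b1 : (zz T t (ρ:ℂ)).re ≤ L / 2 := by
        rw [hzre]
        nlinarith [hr.2]
      have b2 : T + |(ρ:ℂ).im| ≤ |(zz T t (ρ:ℂ)).im| := by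
        rw [hzim, abs_mul, abs_of_pos hL0, abs_sub_comm]
        have e1 : L * (δ / 2 * (T + |(ρ:ℂ).im|)) ≤ L * |t - (ρ:ℂ).im| :=
          mul_le_mul_of_nonneg_left d1 hL0.le
        have e2 : 1 * (T + |(ρ:ℂ).im|) ≤ L * (δ / 2) * (T + |(ρ:ℂ).im|) :=
          mul_le_mul_of_nonneg_right hLδ (by positivity)
        linarith
      have b3 := eft_bound hφ ha hab hk hD hL0.le (M := T + |(ρ:ℂ).im|)
        (by rw [hexp]; linarith) _ b1 b2
      rw [hexp] at b3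
      rw [norm_mul, Complex.norm_real, Real.norm_of_nonneg hm]
      have b4 : 2 ^ k * D / T * (1 / (T + |(ρ:ℂ).im|) ^ 2) ≤
          2 ^ k * D * (1 / (T + |(ρ:ℂ).im|) ^ 2) := by
        apply mul_le_mul_of_nonneg_right _ (by positivity)
        exact div_le_self (by positivity) hT1
      calc mx (ρ:ℂ) * ‖Lap φ (zz T t (ρ:ℂ))‖ ≤ mx (ρ:ℂ) *
            (2 ^ k * D * (1 / (T + |(ρ:ℂ).im|) ^ 2)) :=
            mul_le_mul_of_nonneg_left (b3.trans b4) hm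
        _ = _ := by ring
  have hbs : Summable (fun ρ : ZS => 2 ^ k * D * (mx ρ / (T + |(ρ:ℂ).im|) ^ 2)) :=
    hsumT.mul_left _
  have hHs : Summable H := Summable.of_norm_bounded hbs hHb
  have hGs : Summable G := by
    refine summable_of_ne_finset_zero (s := (Zf T).subtype (fun ρ => xi ρ = 0)) fun ρ hρ => ?_
    simp only [G, if_neg hρ]
  have hGt : ∑' ρ, G ρ = SP φ T t := by
    rw [tsum_eq_sum (s := (Zf T).subtype (fun ρ => xi ρ = 0)) fun ρ hρ => by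
      simp only [G, if_neg hρ]]
    have e1 : ∀ ρ ∈ (Zf T).subtype (fun ρ => xi ρ = 0), G ρ =
        (fun ρ : ℂ => (mx ρ : ℂ) * Lap φ (zz T t ρ)) (ρ : ℂ) := by
      intro ρ hρ
      simp only [G, if_pos hρ, F]
    rw [Finset.sum_congr rfl e1]
    unfold SP
    rw [Finset.sum_subtype_of_mem (f := fun ρ : ℂ => (mx ρ : ℂ) * Lap φ (zz T t ρ))]
    intro ρ hρ
    exact isNontrivialZero_iff.mp (mem_Zf.mp hρ).1
  have hFt : ∑' ρ, F ρ = SP φ T t + ∑' ρ, H ρ := by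
    rw [tsum_congr hFGH, hGs.tsum_add hHs, hGt]
  have hHn : ‖∑' ρ, H ρ‖ ≤ 2 ^ k * D * ∑' ρ : ZS, mx ρ / (T + |(ρ:ℂ).im|) ^ 2 :=
    tsum_of_norm_bounded (hsumT.hasSum.mul_left _) hHb
  -- conclusion
  have hEF2 : PP φ T t + SP φ T t = Lap φ ((L : ℂ) * (1 - 1 / 2 - (t : ℂ) * I)) - (∑' ρ, H ρ) -
      ∑' n : ℕ, Lap φ ((L : ℂ) * (-(2 * ((n : ℂ) + 1)) - 1 / 2 - (t : ℂ) * I)) := by
    have e2 : ∑' ρ : ZS, (mx (ρ : ℂ) : ℂ) * Lap φ (zz T t (ρ : ℂ)) = ∑' ρ, F ρ := rfl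
    rw [hEF, e2, hFt]
    ring
  rw [hEF2]
  have hS0 : 0 ≤ ∑' ρ : ZS, mx ρ / (T + |(ρ:ℂ).im|) ^ 2 := by
    refine tsum_nonneg fun ρ => ?_
    have hm := mx_nonneg (ρ:ℂ)
    positivity
  have c1 : 2 ^ k * D * (1 / T) ≤ ε / 3 := by
    calc 2 ^ k * D * (1 / T) ≤ (2 ^ k * D + 1) * (1 / T) := by
          apply mul_le_mul_of_nonneg_right _ (by positivity)
          linarith
      _ ≤ (2 ^ k * D + 1) * (ε / 3 / (2 ^ k * D + 1)) := mul_le_mul_of_nonneg_left h2 hC.le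
      _ = ε / 3 := by field_simp
  have c2 : 2 ^ k * D * ∑' ρ : ZS, mx ρ / (T + |(ρ:ℂ).im|) ^ 2 ≤ ε / 3 := by
    calc 2 ^ k * D * ∑' ρ : ZS, mx ρ / (T + |(ρ:ℂ).im|) ^ 2 ≤
          (2 ^ k * D + 1) * ∑' ρ : ZS, mx ρ / (T + |(ρ:ℂ).im|) ^ 2 := by
          apply mul_le_mul_of_nonneg_right _ hS0
          linarith
      _ ≤ (2 ^ k * D + 1) * (ε / 3 / (2 ^ k * D + 1)) := mul_le_mul_of_nonneg_left h1 hC.le
      _ = ε / 3 := by field_simp
  calc _ ≤ ‖Lap φ ((L : ℂ) * (1 - 1 / 2 - (t : ℂ) * I))‖ + ‖∑' ρ, H ρ‖ +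
        ‖∑' n : ℕ, Lap φ ((L : ℂ) * (-(2 * ((n : ℂ) + 1)) - 1 / 2 - (t : ℂ) * I))‖ := by
        refine (norm_sub_le _ _).trans ?_
        gcongr
        exact norm_sub_le _ _
    _ ≤ ε / 3 + ε / 3 + ε / 3 := by
        gcongr
        · exact hone.trans c1
        · exact hHn.trans c2
        · exact htriv.trans c1
    _ = ε := by ring

end Pool.Agent.Helper69.GMU
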