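import Pool.Agent.Helper69.GMU.Defs

/-!
# GMU block EFa: Laplace transforms of smooth compactly supported functions

`Lc g (c + iy)` is the Fourier transform of `u ↦ g u e^(cu)` (smooth, compact support) at `-y/(2π)`: use Mathlib's
Fourier inversion (`MeasureTheory.Integrable.fourierInv_fourier_eq` or Schwartz functions:
`HasCompactSupport.toSchwartzMap`/`ContDiff`). Decay: integrate by parts `k` times, uniformly for
`c₁ ≤ Re s ≤ c₂` (`|e^(su)| ≤ e^(max|c| R)` on the support of `g`).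
-/

open Complex Set MeasureTheory Filter Topology
open Pool.Agent.Helper57.LH Pool.Agent.Helper57.PC Pool.Agent.Helper57.Zeta
open Pool.Agent.Helper69.GGM
open scoped ContDiff

namespace Pool.Agent.Helper69.GMU

theorem EFa_mul_integrable {g : ℝ → ℂ} (hg : Continuous g) (hc : HasCompactSupport g) {e : ℝ → ℂ}
    (he : Continuous e) : Integrable (fun u : ℝ => g u * e u) :=
  (hg.mul he).integrable_of_hasCompactSupport hc.mul_right

theorem EFa_deriv_contDiff {g : ℝ → ℂ} (hg : ContDiff ℝ ∞ g) : ContDiff ℝ ∞ (deriv g) :=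
  (contDiff_infty_iff_deriv.mp hg).2

theorem EFa_parts {g : ℝ → ℂ} (hg : ContDiff ℝ ∞ g) (hc : HasCompactSupport g) (s : ℂ) :
    s * Lc g s = - Lc (deriv g) s := by
  have hgd : ∀ x : ℝ, HasDerivAt g (deriv g x) x := fun x =>
    ((contDiff_infty_iff_deriv.mp hg).1 x).hasDerivAt
  have he : ∀ x : ℝ, HasDerivAt (fun u : ℝ => Complex.exp (s * (u : ℂ)))
      (s * Complex.exp (s * (x : ℂ))) x := by
    intro x
    have h1 : HasDerivAt (fun u : ℝ => s * (u : ℂ)) (s * 1) x :=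
      (Complex.ofRealCLM.hasDerivAt (x := x)).const_mul s
    have h2 := h1.cexp
    convert h2 using 1
    ring
  have hce : Continuous (fun u : ℝ => Complex.exp (s * (u : ℂ))) := by fun_prop
  have hce' : Continuous (fun u : ℝ => s * Complex.exp (s * (u : ℂ))) := by fun_prop
  have h := integral_mul_deriv_eq_deriv_mul_of_integrable (u := g)
    (v := fun u : ℝ => Complex.exp (s * (u : ℂ))) (u' := deriv g)
    (v' := fun u : ℝ => s * Complex.exp (s * (u : ℂ))) (fun x _ => hgd x) (fun x _ => he x)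
    (EFa_mul_integrable hg.continuous hc hce')
    (EFa_mul_integrable (EFa_deriv_contDiff hg).continuous hc.deriv hce)
    (EFa_mul_integrable hg.continuous hc hce)
  unfold Lc
  rw [← h, ← MeasureTheory.integral_const_mul]
  congr 1
  funext u
  ring

theorem Lc_continuous {g : ℝ → ℂ} (hg : ContDiff ℝ ∞ g) (hc : HasCompactSupport g) : Continuous (Lc g) := by
  have h1 : Lc g = fun s : ℂ => ∫ u in tsupport g, g u * Complex.exp (s * (u : ℂ)) := by
    funext s
    unfold Lc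
    symm
    apply setIntegral_eq_integral_of_forall_compl_eq_zero
    intro u hu
    rw [image_eq_zero_of_notMem_tsupport hu, zero_mul]
  rw [h1]
  apply continuous_parametric_integral_of_continuous (s := tsupport g) _ hc
  have h2 := hg.continuous
  simp only [Function.uncurry_def]
  fun_prop

theorem EFa_norm_le {g : ℝ → ℂ} (hg : ContDiff ℝ ∞ g) (hc : HasCompactSupport g) (c₁ c₂ : ℝ)
    (s : ℂ) (h1 : c₁ ≤ s.re) (h2 : s.re ≤ c₂) :
    ‖Lc g s‖ ≤ ∫ u : ℝ, ‖g u‖ * (Real.exp (c₁ * u) + Real.exp (c₂ * u)) := by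
  unfold Lc
  refine (norm_integral_le_integral_norm _).trans ?_
  apply integral_mono_of_nonneg
  · exact Filter.Eventually.of_forall fun u => norm_nonneg _
  · have h3 : Continuous (fun u : ℝ => ‖g u‖ * (Real.exp (c₁ * u) + Real.exp (c₂ * u))) := by
      have := hg.continuous
      fun_prop
    exact h3.integrable_of_hasCompactSupport (hc.norm.mul_right)
  · refine Filter.Eventually.of_forall fun u => ?_
    simp only [norm_mul, Complex.norm_exp]
    apply mul_le_mul_of_nonneg_left _ (norm_nonneg _)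
    have h4 : (s * (u : ℂ)).re = s.re * u := by simp
    rw [h4]
    rcases le_total 0 u with hu | hu
    · have h5 : Real.exp (s.re * u) ≤ Real.exp (c₂ * u) :=
        Real.exp_le_exp.mpr (mul_le_mul_of_nonneg_right h2 hu)
      have h6 := Real.exp_pos (c₁ * u)
      linarith
    · have h5 : Real.exp (s.re * u) ≤ Real.exp (c₁ * u) :=
        Real.exp_le_exp.mpr (mul_le_mul_of_nonpos_right h1 hu)
      have h6 := Real.exp_pos (c₂ * u)
      linarith

theorem EFa_decay (c₁ c₂ : ℝ) (k : ℕ) : ∀ {g : ℝ → ℂ}, ContDiff ℝ ∞ g → HasCompactSupport g →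
    ∃ C : ℝ, 0 ≤ C ∧ ∀ s : ℂ, c₁ ≤ s.re → s.re ≤ c₂ → ‖Lc g s‖ * (1 + |s.im|) ^ k ≤ C := by
  induction k with
  | zero =>
    intro g hg hc
    refine ⟨∫ u : ℝ, ‖g u‖ * (Real.exp (c₁ * u) + Real.exp (c₂ * u)),
      integral_nonneg fun u => by positivity, fun s h1 h2 => ?_⟩
    rw [pow_zero, mul_one]
    exact EFa_norm_le hg hc c₁ c₂ s h1 h2
  | succ k ih =>
    intro g hg hc
    obtain ⟨C1, hC1, h1⟩ := ih hg hc
    obtain ⟨C2, hC2, h2⟩ := ih (EFa_deriv_contDiff hg) hc.deriv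
    refine ⟨C1 + C2, by positivity, fun s hs1 hs2 => ?_⟩
    have h3 := h1 s hs1 hs2
    have h4 := h2 s hs1 hs2
    have h5 : |s.im| * ‖Lc g s‖ ≤ ‖Lc (deriv g) s‖ := by
      have h6 : ‖s * Lc g s‖ = ‖Lc (deriv g) s‖ := by rw [EFa_parts hg hc, norm_neg]
      rw [← h6, norm_mul]
      exact mul_le_mul_of_nonneg_right (Complex.abs_im_le_norm s) (norm_nonneg _)
    have h7 : (0:ℝ) ≤ (1 + |s.im|) ^ k := by positivity
    calc ‖Lc g s‖ * (1 + |s.im|) ^ (k + 1)
        = ‖Lc g s‖ * (1 + |s.im|) ^ k + (|s.im| * ‖Lc g s‖) * (1 + |s.im|) ^ k := by ring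
      _ ≤ C1 + ‖Lc (deriv g) s‖ * (1 + |s.im|) ^ k :=
          add_le_add h3 (mul_le_mul_of_nonneg_right h5 h7)
      _ ≤ C1 + C2 := by linarith

theorem Lc_decay {g : ℝ → ℂ} (hg : ContDiff ℝ ∞ g) (hc : HasCompactSupport g) (c₁ c₂ : ℝ) (k : ℕ) :
    ∃ C : ℝ, 0 ≤ C ∧ ∀ s : ℂ, c₁ ≤ s.re → s.re ≤ c₂ → ‖Lc g s‖ * (1 + |s.im|) ^ k ≤ C :=
  EFa_decay c₁ c₂ k hg hc

theorem Lc_line_integrable {g : ℝ → ℂ} (hg : ContDiff ℝ ∞ g) (hc : HasCompactSupport g) (c : ℝ) (k : ℕ) :
    Integrable (fun y : ℝ => ‖Lc g ((c : ℂ) + (y : ℂ) * I)‖ * (1 + |y|) ^ k) := by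
  obtain ⟨C, hC, h⟩ := Lc_decay hg hc c c (k + 2)
  have hcont : Continuous (fun y : ℝ => ‖Lc g ((c : ℂ) + (y : ℂ) * I)‖ * (1 + |y|) ^ k) := by
    have h1 : Continuous (fun y : ℝ => Lc g ((c : ℂ) + (y : ℂ) * I)) :=
      (Lc_continuous hg hc).comp (by fun_prop)
    have h2 : Continuous (fun y : ℝ => (1 + |y|) ^ k) := by fun_prop
    exact h1.norm.mul h2
  have hint : Integrable (fun y : ℝ => C * (1 + y ^ 2)⁻¹) := integrable_inv_one_add_sq.const_mul C
  refine hint.mono' hcont.aestronglyMeasurable (Filter.Eventually.of_forall fun y => ?_)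
  rw [Real.norm_of_nonneg (by positivity)]
  have h3 := h ((c : ℂ) + (y : ℂ) * I) (by simp) (by simp)
  have h4 : ((c : ℂ) + (y : ℂ) * I).im = y := by simp
  rw [h4] at h3
  have h5 : (0:ℝ) < 1 + y ^ 2 := by positivity
  rw [← div_eq_mul_inv, le_div_iff₀ h5]
  have h6 : 1 + y ^ 2 ≤ (1 + |y|) ^ 2 := by
    have h7 : |y| ^ 2 = y ^ 2 := sq_abs y
    nlinarith [abs_nonneg y]
  calc ‖Lc g ((c : ℂ) + (y : ℂ) * I)‖ * (1 + |y|) ^ k * (1 + y ^ 2)
      ≤ ‖Lc g ((c : ℂ) + (y : ℂ) * I)‖ * (1 + |y|) ^ k * (1 + |y|) ^ 2 :=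
        mul_le_mul_of_nonneg_left h6 (by positivity)
    _ = ‖Lc g ((c : ℂ) + (y : ℂ) * I)‖ * (1 + |y|) ^ (k + 2) := by ring
    _ ≤ C := h3

theorem EFa_line_integrable0 {g : ℝ → ℂ} (hg : ContDiff ℝ ∞ g) (hc : HasCompactSupport g) (c : ℝ) :
    Integrable (fun y : ℝ => Lc g ((c : ℂ) + (y : ℂ) * I)) := by
  have h1 := Lc_line_integrable hg hc c 0
  simp only [pow_zero, mul_one] at h1
  have h2 : Continuous (fun y : ℝ => Lc g ((c : ℂ) + (y : ℂ) * I)) :=
      (Lc_continuous hg hc).comp (by fun_prop)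
  exact (integrable_norm_iff h2.aestronglyMeasurable).mp h1

theorem Lc_inversion {g : ℝ → ℂ} (hg : ContDiff ℝ ∞ g) (hc : HasCompactSupport g) (c u : ℝ) :
    (1 / (2 * Real.pi) : ℂ) * ∫ y : ℝ, Lc g ((c : ℂ) + (y : ℂ) * I) *
      Complex.exp (-(((c : ℂ) + (y : ℂ) * I) * (u : ℂ))) = g u := by
  let h : ℝ → ℂ := fun v => g v * Complex.exp ((c : ℂ) * (v : ℂ))
  have hcont : Continuous h := hg.continuous.mul (by fun_prop)
  have hint : Integrable h := EFa_mul_integrable hg.continuous hc (by fun_prop)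
  have hF : FourierTransform.fourier h = fun w : ℝ => Lc g ((c : ℂ) + ((-(2 * Real.pi) * w : ℝ) : ℂ) * I) := by
    funext w
    rw [Real.fourier_real_eq_integral_exp_smul]
    unfold Lc
    congr 1
    funext v
    simp only [h, smul_eq_mul]
    rw [mul_comm, mul_assoc, ← Complex.exp_add]
    congr 2
    push_cast
    ring
  have hFint : Integrable (FourierTransform.fourier h) := by
    rw [hF]
    exact (EFa_line_integrable0 hg hc c).comp_mul_left' (R := -(2 * Real.pi)) (by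
      have := Real.pi_pos
      linarith)
  have hinv := congrFun (hcont.fourierInv_fourier_eq hint hFint) u
  rw [Real.fourierInv_eq', hF] at hinv
  have hsub := MeasureTheory.Measure.integral_comp_mul_left (fun y : ℝ => Lc g ((c : ℂ) + (y : ℂ) * I) *
      Complex.exp (-(((c : ℂ) + (y : ℂ) * I) * (u : ℂ)))) (-(2 * Real.pi))
  have hpi := Real.pi_pos
  have hpi' : (Real.pi : ℂ) ≠ 0 := by exact_mod_cast hpi.ne'
  have h1 : |(-(2 * Real.pi))⁻¹| = (2 * Real.pi)⁻¹ := by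
    rw [abs_inv, abs_neg, abs_of_pos (by positivity)]
  rw [h1] at hsub
  have h2 : ((2 * Real.pi)⁻¹ : ℝ) • ∫ y : ℝ, Lc g ((c : ℂ) + (y : ℂ) * I) *
      Complex.exp (-(((c : ℂ) + (y : ℂ) * I) * (u : ℂ))) =
      (1 / (2 * Real.pi) : ℂ) * ∫ y : ℝ, Lc g ((c : ℂ) + (y : ℂ) * I) *
      Complex.exp (-(((c : ℂ) + (y : ℂ) * I) * (u : ℂ))) := by
    rw [Complex.real_smul]
    congr 1
    push_cast
    rw [one_div]
  rw [← h2, ← hsub]
  have h3 : g u = Complex.exp (-((c : ℂ) * (u : ℂ))) * h u := by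
    simp only [h]
    rw [mul_comm, mul_assoc, ← Complex.exp_add]
    simp
  rw [h3, ← hinv, ← MeasureTheory.integral_const_mul]
  congr 1
  funext w
  simp only [smul_eq_mul]
  rw [mul_comm (Complex.exp (((2 * Real.pi * inner ℝ w u : ℝ) : ℂ) * I)), ← mul_assoc,
    mul_comm (Complex.exp (-((c : ℂ) * (u : ℂ)))), mul_assoc, ← Complex.exp_add]
  congr 2
  simp only [RCLike.inner_apply, conj_trivial]
  push_cast
  ring

end Pool.Agent.Helper69.GMU
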