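import Pool.Agent.Helper69.GMU.EFa

/-!
# GMU block EFb: the Cauchy kernel and the Dirichlet series

`Lc_kernel`. For `Re z < c`, `w = c + iy`: `1/(w - z) = ∫_0^∞ e^(-(w-z)u) du`; Fubini (`‖Lc g w‖` is integrable in `y`,
`e^(-(c - Re z)u)` in `u`), inner integral by `Lc_inversion`: `(1/2π)∫ Lc g w e^(-wu) dy = g u`; `g = 0` on `(-∞,0]`.
`Lc_dirichlet`. For `c > 1`: `∑ Λ(n) n^(-w) = -ζ'/ζ(w)` (`ArithmeticFunction.LSeries_vonMangoldt_eq_deriv_riemannZeta_div`),
exchange sum and integral (`∑ Λ(n) n^(-c) < ∞`), and `(1/2π)∫ Lc g w n^(-w) dy = g (log n)` by `Lc_inversion`, `n ≥ 1`.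
-/

open Complex Set MeasureTheory Filter Topology
open Pool.Agent.Helper57.LH Pool.Agent.Helper57.PC Pool.Agent.Helper57.Zeta
open Pool.Agent.Helper69.GGM
open scoped ContDiff

namespace Pool.Agent.Helper69.GMU

private lemma EFb_cont {g : ℝ → ℂ} (hg : ContDiff ℝ ∞ g) (hc : HasCompactSupport g) (c : ℝ) :
    Continuous (fun y : ℝ => Lc g ((c : ℂ) + (y : ℂ) * I)) :=
  (Lc_continuous hg hc).comp (by fun_prop)

private lemma EFb_int {g : ℝ → ℂ} (hg : ContDiff ℝ ∞ g) (hc : HasCompactSupport g) (c : ℝ) :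
    Integrable (fun y : ℝ => Lc g ((c : ℂ) + (y : ℂ) * I)) := by
  have h := Lc_line_integrable hg hc c 0
  simp only [pow_zero, mul_one] at h
  exact (integrable_norm_iff (EFb_cont hg hc c).aestronglyMeasurable).mp h

private lemma EFb_pi : (2 * Real.pi : ℂ) ≠ 0 := by
  have := Real.pi_ne_zero
  simp [this]

private lemma EFb_inv {g : ℝ → ℂ} (hg : ContDiff ℝ ∞ g) (hc : HasCompactSupport g) (c u : ℝ) :
    ∫ y : ℝ, Lc g ((c : ℂ) + (y : ℂ) * I) * Complex.exp (-(((c : ℂ) + (y : ℂ) * I) * (u : ℂ))) =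
      (2 * Real.pi : ℂ) * g u := by
  have h := Lc_inversion hg hc c u
  rw [← h, ← mul_assoc, mul_one_div, div_self EFb_pi, one_mul]

theorem Lc_kernel {g : ℝ → ℂ} (hg : ContDiff ℝ ∞ g) (hc : HasCompactSupport g) (h0 : ∀ u : ℝ, u ≤ 0 → g u = 0)
    {c : ℝ} {z : ℂ} (hz : z.re < c) :
    Integrable (fun y : ℝ => Lc g ((c : ℂ) + (y : ℂ) * I) * (1 / ((c : ℂ) + (y : ℂ) * I - z))) ∧
    (1 / (2 * Real.pi) : ℂ) * ∫ y : ℝ, Lc g ((c : ℂ) + (y : ℂ) * I) * (1 / ((c : ℂ) + (y : ℂ) * I - z)) =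
      Lc g z := by
  have hcont := EFb_cont hg hc c
  have hLi := EFb_int hg hc c
  have hd : 0 < c - z.re := by linarith
  have hre : ∀ y : ℝ, (z - ((c : ℂ) + (y : ℂ) * I)).re = z.re - c := by intro y; simp
  have hne : ∀ y : ℝ, (c : ℂ) + (y : ℂ) * I - z ≠ 0 := by
    intro y h
    have h2 := congrArg Complex.re h
    simp at h2
    linarith
  -- the product integrand
  set G : ℝ → ℝ → ℂ := fun y u => Lc g ((c : ℂ) + (y : ℂ) * I) *
    Complex.exp ((z - ((c : ℂ) + (y : ℂ) * I)) * (u : ℂ)) with hG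
  have hGc : Continuous (Function.uncurry G) := by
    rw [hG]
    unfold Function.uncurry
    refine Continuous.mul (hcont.comp continuous_fst) ?_
    fun_prop
  have hGi : Integrable (Function.uncurry G) (volume.prod (volume.restrict (Ioi (0 : ℝ)))) := by
    have h1 : Integrable (fun p : ℝ × ℝ => ‖Lc g ((c : ℂ) + (p.1 : ℂ) * I)‖ * Real.exp ((z.re - c) * p.2))
        (volume.prod (volume.restrict (Ioi (0 : ℝ)))) :=
      Integrable.mul_prod hLi.norm (integrableOn_exp_mul_Ioi (by linarith : z.re - c < 0) 0)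
    refine h1.mono' hGc.aestronglyMeasurable (Eventually.of_forall fun p => ?_)
    simp only [hG, Function.uncurry, norm_mul, Complex.norm_exp]
    apply le_of_eq
    congr 2
    simp
  have hinner : ∀ y : ℝ, ∫ u in Ioi (0 : ℝ), G y u =
      Lc g ((c : ℂ) + (y : ℂ) * I) * (1 / ((c : ℂ) + (y : ℂ) * I - z)) := by
    intro y
    simp only [hG]
    rw [integral_const_mul, integral_exp_mul_complex_Ioi (by rw [hre]; linarith)]
    congr 1
    rw [Complex.ofReal_zero, mul_zero, Complex.exp_zero, ← neg_sub ((c : ℂ) + (y : ℂ) * I) z, neg_div_neg_eq]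
  have hfst : Integrable (fun y : ℝ => Lc g ((c : ℂ) + (y : ℂ) * I) * (1 / ((c : ℂ) + (y : ℂ) * I - z))) := by
    have h1 := hGi.integral_prod_left
    refine h1.congr (Eventually.of_forall fun y => ?_)
    exact hinner y
  refine ⟨hfst, ?_⟩
  have h2 : ∫ y : ℝ, Lc g ((c : ℂ) + (y : ℂ) * I) * (1 / ((c : ℂ) + (y : ℂ) * I - z)) =
      ∫ u in Ioi (0 : ℝ), ∫ y : ℝ, G y u := by
    rw [← integral_integral_swap hGi]
    exact integral_congr_ae (Eventually.of_forall fun y => (hinner y).symm)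
  have h3 : ∀ u : ℝ, ∫ y : ℝ, G y u = (2 * Real.pi : ℂ) * (g u * Complex.exp (z * (u : ℂ))) := by
    intro u
    have e : ∀ y : ℝ, G y u = Complex.exp (z * (u : ℂ)) * (Lc g ((c : ℂ) + (y : ℂ) * I) *
        Complex.exp (-(((c : ℂ) + (y : ℂ) * I) * (u : ℂ)))) := by
      intro y
      simp only [hG]
      rw [sub_mul, sub_eq_add_neg, Complex.exp_add]
      ring
    simp_rw [e]
    rw [integral_const_mul, EFb_inv hg hc]
    ring
  rw [h2]
  simp_rw [h3]
  rw [integral_const_mul, ← mul_assoc, one_div, inv_mul_cancel₀ EFb_pi, one_mul]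
  unfold Lc
  rw [← integral_indicator measurableSet_Ioi]
  congr 1
  ext u
  by_cases hu : u ∈ Ioi (0 : ℝ)
  · rw [indicator_of_mem hu]
  · rw [indicator_of_notMem hu, h0 u (not_lt.mp hu), zero_mul]

private lemma EFb_logDeriv_cont {c : ℝ} (h1 : 1 < c) :
    Continuous (fun y : ℝ => logDeriv riemannZeta ((c : ℂ) + (y : ℂ) * I)) := by
  have hopen : IsOpen {s : ℂ | 1 < s.re} := isOpen_lt continuous_const Complex.continuous_re
  have hd : DifferentiableOn ℂ riemannZeta {s : ℂ | 1 < s.re} := by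
    intro s hs
    refine (differentiableAt_riemannZeta ?_).differentiableWithinAt
    rintro rfl
    simp at hs
  have hd' : DifferentiableOn ℂ (deriv riemannZeta) {s : ℂ | 1 < s.re} := hd.deriv hopen
  have hco : ContinuousOn (logDeriv riemannZeta) {s : ℂ | 1 < s.re} := by
    unfold logDeriv
    exact hd'.continuousOn.div hd.continuousOn (fun s hs => riemannZeta_ne_zero_of_one_lt_re hs)
  refine hco.comp_continuous (by fun_prop) (fun y => ?_)
  show 1 < ((c : ℂ) + (y : ℂ) * I).re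
  simpa using h1

theorem Lc_dirichlet {g : ℝ → ℂ} (hg : ContDiff ℝ ∞ g) (hc : HasCompactSupport g) (h0 : ∀ u : ℝ, u ≤ 0 → g u = 0)
    {c : ℝ} (h1 : 1 < c) :
    Integrable (fun y : ℝ => Lc g ((c : ℂ) + (y : ℂ) * I) * logDeriv riemannZeta ((c : ℂ) + (y : ℂ) * I)) ∧
    ∑' n : ℕ, (ArithmeticFunction.vonMangoldt n : ℂ) * g (Real.log n) =
      -((1 / (2 * Real.pi) : ℂ) * ∫ y : ℝ, Lc g ((c : ℂ) + (y : ℂ) * I) *
        logDeriv riemannZeta ((c : ℂ) + (y : ℂ) * I)) := by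
  have hcont := EFb_cont hg hc c
  have hLi := EFb_int hg hc c
  have hwre : ∀ y : ℝ, ((c : ℂ) + (y : ℂ) * I).re = c := by intro y; simp
  set Λf : ℕ → ℂ := fun n => (ArithmeticFunction.vonMangoldt n : ℂ) with hΛf
  have hsum : Summable (fun n => ‖LSeries.term Λf (c : ℂ) n‖) := by
    have := ArithmeticFunction.LSeriesSummable_vonMangoldt (s := (c : ℂ)) (by simpa using h1)
    exact this.norm
  have hterm : ∀ (y : ℝ) (n : ℕ), ‖LSeries.term Λf ((c : ℂ) + (y : ℂ) * I) n‖ ≤ ‖LSeries.term Λf (c : ℂ) n‖ := by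
    intro y n
    exact LSeries.norm_term_le_of_re_le_re Λf (by simp) n
  have hld : ∀ y : ℝ, logDeriv riemannZeta ((c : ℂ) + (y : ℂ) * I) =
      -∑' n : ℕ, LSeries.term Λf ((c : ℂ) + (y : ℂ) * I) n := by
    intro y
    have h := ArithmeticFunction.LSeries_vonMangoldt_eq_deriv_riemannZeta_div (s := (c : ℂ) + (y : ℂ) * I)
      (by rw [hwre]; exact h1)
    rw [logDeriv_apply, ← neg_eq_iff_eq_neg, ← neg_div, ← h]
    rfl
  have hldc := EFb_logDeriv_cont h1
  have hbound : ∀ y : ℝ, ‖logDeriv riemannZeta ((c : ℂ) + (y : ℂ) * I)‖ ≤ ∑' n : ℕ, ‖LSeries.term Λf (c : ℂ) n‖ := by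
    intro y
    rw [hld, norm_neg]
    have hs : Summable (fun n => ‖LSeries.term Λf ((c : ℂ) + (y : ℂ) * I) n‖) :=
      hsum.of_nonneg_of_le (fun _ => norm_nonneg _) (hterm y)
    exact (norm_tsum_le_tsum_norm hs).trans (hs.tsum_le_tsum (hterm y) hsum)
  have hI : Integrable (fun y : ℝ => Lc g ((c : ℂ) + (y : ℂ) * I) *
      logDeriv riemannZeta ((c : ℂ) + (y : ℂ) * I)) := by
    refine (hLi.norm.mul_const (∑' n : ℕ, ‖LSeries.term Λf (c : ℂ) n‖)).mono' (hcont.mul hldc).aestronglyMeasurable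
      (Eventually.of_forall fun y => ?_)
    rw [norm_mul]
    exact mul_le_mul_of_nonneg_left (hbound y) (norm_nonneg _)
  refine ⟨hI, ?_⟩
  -- termwise
  set F : ℕ → ℝ → ℂ := fun n y => Lc g ((c : ℂ) + (y : ℂ) * I) * LSeries.term Λf ((c : ℂ) + (y : ℂ) * I) n with hF
  have hterm_eq : ∀ (n : ℕ), n ≠ 0 → ∀ y : ℝ, LSeries.term Λf ((c : ℂ) + (y : ℂ) * I) n =
      Λf n * Complex.exp (-(((c : ℂ) + (y : ℂ) * I) * ((Real.log n : ℝ) : ℂ))) := by
    intro n hn y
    rw [LSeries.term_of_ne_zero hn, div_eq_mul_inv, ← Complex.cpow_neg,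
      Complex.cpow_def_of_ne_zero (by exact_mod_cast hn), Complex.ofReal_log (Nat.cast_nonneg n),
      Complex.ofReal_natCast]
    congr 2
    ring
  have hFc : ∀ n, Continuous (F n) := by
    intro n
    rcases eq_or_ne n 0 with rfl | hn
    · simp only [hF, LSeries.term_zero, mul_zero]
      exact continuous_const
    · simp only [hF]
      refine hcont.mul ?_
      simp_rw [hterm_eq n hn]
      fun_prop
  have hFn : ∀ n y, ‖F n y‖ ≤ ‖Lc g ((c : ℂ) + (y : ℂ) * I)‖ * ‖LSeries.term Λf (c : ℂ) n‖ := by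
    intro n y
    simp only [hF, norm_mul]
    exact mul_le_mul_of_nonneg_left (hterm y n) (norm_nonneg _)
  have hFi : ∀ n, Integrable (F n) := fun n =>
    (hLi.norm.mul_const _).mono' (hFc n).aestronglyMeasurable (Eventually.of_forall (hFn n))
  have hFs : Summable (fun n => ∫ y, ‖F n y‖) := by
    refine (hsum.mul_left (∫ y : ℝ, ‖Lc g ((c : ℂ) + (y : ℂ) * I)‖)).of_nonneg_of_le
      (fun n => integral_nonneg fun y => norm_nonneg _) (fun n => ?_)
    rw [← integral_mul_const]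
    exact integral_mono (hFi n).norm (hLi.norm.mul_const _) (hFn n)
  have hFint : ∀ n, ∫ y, F n y = (2 * Real.pi : ℂ) * (Λf n * g (Real.log n)) := by
    intro n
    rcases eq_or_ne n 0 with rfl | hn
    · simp [hF, hΛf]
    · have e : ∀ y, F n y = Λf n * (Lc g ((c : ℂ) + (y : ℂ) * I) *
          Complex.exp (-(((c : ℂ) + (y : ℂ) * I) * ((Real.log n : ℝ) : ℂ)))) := by
        intro y
        simp only [hF]
        rw [hterm_eq n hn]
        ring
      simp_rw [e]
      rw [integral_const_mul, EFb_inv hg hc]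
      ring
  have hex := integral_tsum_of_summable_integral_norm hFi hFs
  have hsw : ∫ y : ℝ, Lc g ((c : ℂ) + (y : ℂ) * I) * logDeriv riemannZeta ((c : ℂ) + (y : ℂ) * I) =
      -∫ y, ∑' n, F n y := by
    rw [← integral_neg]
    congr 1
    ext y
    rw [hld, tsum_mul_left]
    ring
  rw [hsw, ← hex]
  simp_rw [hFint]
  rw [tsum_mul_left, mul_neg, neg_neg, ← mul_assoc, one_div, inv_mul_cancel₀ EFb_pi, one_mul]

end Pool.Agent.Helper69.GMU
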