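import Pool.Agent.Helper69.GMU.EFb
import Pool.Agent.Helper69.GGM.HD2

/-!
# GMU block EFd: the zero side of the explicit formula

`s = 5/2 + iy`. `pf_finite` (`M/Z.lean`, used in the proof of `pf_tendsto`, line 3379): for `R ≥ 24`, `R ≥ 16‖s-2‖`:
`‖logDeriv xi s - ∑_{ZR R} mx ρ/(s-ρ)‖ ≤ ‖s-1/2‖ 256 MR R/R² ≤ C‖s - 1/2‖/√R` (`MR_le`). For `16‖s-2‖ > R`:
`‖∑_{ZR R} mx ρ/(s-ρ)‖ ≤ ∑_{ZR R} mx ρ ≤ C R²` (`Re s - Re ρ ≥ 3/2`; the number of zeros in the ball of radius `R` is `≤ C R²`, e.g. from the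
summability `hd2_summable` of `mx ρ/(1+|Im ρ|)²`: `∑_{ZR R} mx ≤ (2+R)² ∑ mx/(1+|γ|)²`), and
`‖logDeriv xi s‖ ≤ C (1+|y|)²` (take `R = 24 + 16‖s-2‖` in the same bounds). So the integrals of `Lc g(s) ∑_{ZR R} mx/(s-ρ)`
tend to the integral of `Lc g (s) logDeriv xi s` (rapid decay of `Lc g`), and they equal `2π ∑_{ZR R} mx Lc g ρ` by `Lc_kernel`.
The series `∑ mx ρ Lc g ρ` over `ZS` converges absolutely (`Lc_decay` on `0 ≤ Re s ≤ 1`, `k = 2`, `hd2_summable`), so its sum is the limit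
along the finite sets `ZR R` (which exhaust the zeros).
-/

open Complex Set MeasureTheory Filter Topology
open Pool.Agent.Helper57.LH Pool.Agent.Helper57.PC Pool.Agent.Helper57.Zeta
open Pool.Agent.Helper69.GGM
open scoped ContDiff

namespace Pool.Agent.Helper69.GMU

theorem zero_summable {g : ℝ → ℂ} (hg : ContDiff ℝ ∞ g) (hc : HasCompactSupport g) :
    Summable (fun ρ : ZS => mx (ρ : ℂ) * ‖Lc g (ρ : ℂ)‖) := by
  obtain ⟨C, hC, h⟩ := Lc_decay hg hc 0 1 2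
  refine Summable.of_nonneg_of_le (fun ρ => ?_) (fun ρ => ?_) (hd2_summable.mul_left C)
  · exact mul_nonneg (mx_nonneg _) (norm_nonneg _)
  · have hr := zs_re ρ
    have hm := mx_nonneg (ρ : ℂ)
    have h1 := h (ρ : ℂ) hr.1.le hr.2.le
    have h0 := abs_nonneg (ρ : ℂ).im
    have h2 : ‖Lc g (ρ : ℂ)‖ ≤ C / (1 + |(ρ : ℂ).im|) ^ 2 := by
      rw [le_div_iff₀ (by positivity)]
      exact h1
    calc mx (ρ : ℂ) * ‖Lc g (ρ : ℂ)‖ ≤ mx (ρ : ℂ) * (C / (1 + |(ρ : ℂ).im|) ^ 2) :=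
          mul_le_mul_of_nonneg_left h2 hm
      _ = _ := by ring

namespace EFd

/-- the constant of `MR_le` -/
noncomputable def KK : ℝ := 6 + 4 * Cx + |Real.log ‖xi 2‖| + 1

lemma KK_pos : 0 < KK := by
  have h1 := Cx_nonneg
  have h2 := abs_nonneg (Real.log ‖xi 2‖)
  unfold KK
  linarith

/-- the sum of `mx ρ / (1 + |γ|)^2` -/
noncomputable def MM : ℝ := ∑' ρ : ZS, mx (ρ : ℂ) / (1 + |(ρ : ℂ).im|) ^ 2

lemma MM_nonneg : 0 ≤ MM := tsum_nonneg fun ρ => by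
  have := mx_nonneg (ρ : ℂ)
  positivity

/-- the point of the line -/
noncomputable def sy (y : ℝ) : ℂ := ((5 / 2 : ℝ) : ℂ) + (y : ℂ) * I

lemma sy_re (y : ℝ) : (sy y).re = 5 / 2 := by simp [sy]

lemma sy_two (y : ℝ) : ‖sy y - 2‖ ≤ 1 / 2 + |y| := by
  have h1 : sy y - 2 = ((1 / 2 : ℝ) : ℂ) + (y : ℂ) * I := by
    unfold sy
    push_cast
    ring
  rw [h1]
  refine (norm_add_le _ _).trans ?_
  rw [norm_mul, Complex.norm_I, mul_one, Complex.norm_real, Complex.norm_real, Real.norm_eq_abs, Real.norm_eq_abs]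
  have : |(1 / 2 : ℝ)| = 1 / 2 := abs_of_pos (by norm_num)
  rw [this]

lemma sy_half (y : ℝ) : ‖sy y - 1 / 2‖ ≤ 2 + |y| := by
  have h1 : sy y - 1 / 2 = ((2 : ℝ) : ℂ) + (y : ℂ) * I := by
    unfold sy
    push_cast
    ring
  rw [h1]
  refine (norm_add_le _ _).trans ?_
  rw [norm_mul, Complex.norm_I, mul_one, Complex.norm_real, Complex.norm_real, Real.norm_eq_abs, Real.norm_eq_abs]
  have : |(2 : ℝ)| = 2 := abs_of_pos (by norm_num)
  rw [this]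

lemma sy_ne (y : ℝ) : xi (sy y) ≠ 0 := xi_ne_zero_of_one_le_re (by rw [sy_re]; norm_num)

lemma count {R : ℝ} (hR : 0 ≤ R) : ∑ ρ ∈ ZR R, mx ρ ≤ (1 + R) ^ 2 * MM := by
  classical
  have h1 : ∑ ρ ∈ ZR R, mx ρ ≤ ∑ ρ ∈ ZR R, (1 + R) ^ 2 * (mx ρ / (1 + |ρ.im|) ^ 2) := by
    refine Finset.sum_le_sum fun ρ hρ => ?_
    have hm := mx_nonneg ρ
    have h2 : |ρ.im| ≤ R := by
      have h3 := (mem_ZR.mp hρ).2
      have h4 : (ρ - 1 / 2).im = ρ.im := by simp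
      rw [← h4]
      exact (Complex.abs_im_le_norm _).trans h3
    have h0 := abs_nonneg ρ.im
    rw [← mul_div_assoc, le_div_iff₀ (by positivity), mul_comm ((1 + R) ^ 2)]
    exact mul_le_mul_of_nonneg_left (pow_le_pow_left₀ (by positivity) (by linarith) 2) hm
  refine h1.trans ?_
  rw [← Finset.mul_sum]
  refine mul_le_mul_of_nonneg_left ?_ (by positivity)
  have e3 : ∑ ρ ∈ ZR R, mx ρ / (1 + |ρ.im|) ^ 2 =
      ∑ ρ ∈ (ZR R).subtype (fun ρ => xi ρ = 0), mx (ρ : ℂ) / (1 + |(ρ : ℂ).im|) ^ 2 := by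
    rw [Finset.sum_subtype_of_mem (f := fun ρ : ℂ => mx ρ / (1 + |ρ.im|) ^ 2)]
    intro ρ hρ
    exact (mem_ZR.mp hρ).1
  rw [e3]
  exact hd2_summable.sum_le_tsum _ fun ρ _ => by
    have := mx_nonneg (ρ : ℂ)
    positivity

lemma sum_norm {R : ℝ} (hR : 0 ≤ R) (y : ℝ) :
    ‖∑ ρ ∈ ZR R, (mx ρ : ℂ) / (sy y - ρ)‖ ≤ (1 + R) ^ 2 * MM := by
  refine (norm_sum_le _ _).trans (le_trans (Finset.sum_le_sum fun ρ hρ => ?_) (count hR))
  have hm := mx_nonneg ρ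
  rw [norm_div, Complex.norm_real, Real.norm_of_nonneg hm]
  have h1 : ρ.re < 1 := (xi_eq_zero_iff.mp (mem_ZR.mp hρ).1).2.1
  have h2 : 1 ≤ ‖sy y - ρ‖ := by
    have h4 := Complex.re_le_norm (sy y - ρ)
    rw [Complex.sub_re, sy_re] at h4
    linarith
  exact div_le_self hm h2

lemma err {R : ℝ} (hR : 24 ≤ R) {y : ℝ} (hy : 16 * (1 / 2 + |y|) ≤ R) :
    ‖logDeriv xi (sy y) - ∑ ρ ∈ ZR R, (mx ρ : ℂ) / (sy y - ρ)‖ ≤ (2 + |y|) * (256 * KK) := by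
  have h2 := sy_two y
  refine (pf_finite hR (by linarith) (sy_ne y)).trans ?_
  have h1 := MR_le hR
  have hK := KK_pos
  have h3 : MR R / R ^ 2 ≤ KK := by
    refine h1.trans ?_
    have h4 : 1 ≤ Real.sqrt R := by
      rw [Real.one_le_sqrt]
      linarith
    exact div_le_self hK.le h4
  have h5 := sy_half y
  have h6 : 256 * MR R / R ^ 2 ≤ 256 * KK := by
    rw [mul_div_assoc]
    linarith
  exact (mul_le_mul_of_nonneg_right h5 (div_nonneg (mul_nonneg (by norm_num) (MR_pos (by linarith)).le)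
    (by positivity))).trans (mul_le_mul_of_nonneg_left h6 (by positivity))

lemma logDeriv_le (y : ℝ) : ‖logDeriv xi (sy y)‖ ≤ (33 + 16 * |y|) ^ 2 * MM + (2 + |y|) * (256 * KK) := by
  have h0 := abs_nonneg y
  have h1 := err (R := 32 + 16 * |y|) (by linarith) (y := y) (by linarith)
  have h2 := sum_norm (R := 32 + 16 * |y|) (by linarith) y
  have h3 : (1 + (32 + 16 * |y|)) ^ 2 = (33 + 16 * |y|) ^ 2 := by ring
  rw [h3] at h2
  calc ‖logDeriv xi (sy y)‖ = ‖(∑ ρ ∈ ZR (32 + 16 * |y|), (mx ρ : ℂ) / (sy y - ρ)) +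
        (logDeriv xi (sy y) - ∑ ρ ∈ ZR (32 + 16 * |y|), (mx ρ : ℂ) / (sy y - ρ))‖ := by
        rw [add_sub_cancel]
    _ ≤ _ := norm_add_le _ _
    _ ≤ _ := add_le_add h2 h1

/-- constant of the majorant -/
noncomputable def BB : ℝ := 33 ^ 2 * MM + 1024 * KK

lemma BB_nonneg : 0 ≤ BB := by
  have h1 := KK_pos
  have h2 := MM_nonneg
  unfold BB
  positivity

lemma BB_le (y : ℝ) : (33 + 16 * |y|) ^ 2 * MM + 2 * ((2 + |y|) * (256 * KK)) ≤ BB * (1 + |y|) ^ 2 := by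
  have h0 := abs_nonneg y
  have h1 := KK_pos
  have h2 := MM_nonneg
  have h3 : (33 + 16 * |y|) ^ 2 ≤ 33 ^ 2 * (1 + |y|) ^ 2 := by
    rw [← mul_pow]
    exact pow_le_pow_left₀ (by positivity) (by linarith) 2
  have h4 : 2 + |y| ≤ 2 * (1 + |y|) ^ 2 := by nlinarith
  unfold BB
  calc (33 + 16 * |y|) ^ 2 * MM + 2 * ((2 + |y|) * (256 * KK))
      ≤ 33 ^ 2 * (1 + |y|) ^ 2 * MM + 2 * (2 * (1 + |y|) ^ 2 * (256 * KK)) := by gcongr
    _ = _ := by ring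

lemma bound {R : ℝ} (hR : 24 ≤ R) (y : ℝ) :
    ‖∑ ρ ∈ ZR R, (mx ρ : ℂ) / (sy y - ρ)‖ ≤ BB * (1 + |y|) ^ 2 := by
  have h0 := abs_nonneg y
  have hK := KK_pos
  have hM := MM_nonneg
  refine le_trans ?_ (BB_le y)
  rcases le_or_gt (16 * (1 / 2 + |y|)) R with h | h
  · have h1 := err hR h
    have h2 := logDeriv_le y
    calc ‖∑ ρ ∈ ZR R, (mx ρ : ℂ) / (sy y - ρ)‖ = ‖logDeriv xi (sy y) -
          (logDeriv xi (sy y) - ∑ ρ ∈ ZR R, (mx ρ : ℂ) / (sy y - ρ))‖ := by rw [sub_sub_cancel]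
      _ ≤ ‖logDeriv xi (sy y)‖ + ‖logDeriv xi (sy y) - ∑ ρ ∈ ZR R, (mx ρ : ℂ) / (sy y - ρ)‖ := norm_sub_le _ _
      _ ≤ _ := by linarith
  · refine (sum_norm (by linarith) y).trans ?_
    have h3 : (1 + R) ^ 2 ≤ (33 + 16 * |y|) ^ 2 := pow_le_pow_left₀ (by linarith) (by linarith) 2
    have h4 : (1 + R) ^ 2 * MM ≤ (33 + 16 * |y|) ^ 2 * MM := mul_le_mul_of_nonneg_right h3 hM
    have h5 : 0 ≤ 2 * ((2 + |y|) * (256 * KK)) := by positivity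
    linarith

lemma subtype_mono : Monotone (fun R : ℝ => (ZR R).subtype (fun ρ => xi ρ = 0)) := by
  intro R R' hRR ρ hρ
  rw [Finset.mem_subtype, mem_ZR] at hρ ⊢
  exact ⟨hρ.1, hρ.2.trans hRR⟩

lemma subtype_tendsto : Tendsto (fun R : ℝ => ((ZR R).subtype (fun ρ => xi ρ = 0) : Finset ZS)) atTop atTop := by
  refine tendsto_atTop_finset_of_monotone subtype_mono fun ρ => ?_
  refine ⟨‖(ρ : ℂ) - 1 / 2‖, ?_⟩
  rw [Finset.mem_subtype, mem_ZR]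
  exact ⟨ρ.2, le_rfl⟩

end EFd

theorem zero_side {g : ℝ → ℂ} (hg : ContDiff ℝ ∞ g) (hc : HasCompactSupport g) (h0 : ∀ u : ℝ, u ≤ 0 → g u = 0) :
    Integrable (fun y : ℝ => Lc g (((5 / 2 : ℝ) : ℂ) + (y : ℂ) * I) * logDeriv xi (((5 / 2 : ℝ) : ℂ) + (y : ℂ) * I)) ∧
    (1 / (2 * Real.pi) : ℂ) * ∫ y : ℝ, Lc g (((5 / 2 : ℝ) : ℂ) + (y : ℂ) * I) *
      logDeriv xi (((5 / 2 : ℝ) : ℂ) + (y : ℂ) * I) = ∑' ρ : ZS, (mx (ρ : ℂ) : ℂ) * Lc g (ρ : ℂ) := by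
  classical
  have hker : ∀ (R : ℝ), ∀ ρ ∈ ZR R, Integrable (fun y : ℝ => Lc g (EFd.sy y) * (1 / (EFd.sy y - ρ))) ∧
      (1 / (2 * Real.pi) : ℂ) * ∫ y : ℝ, Lc g (EFd.sy y) * (1 / (EFd.sy y - ρ)) = Lc g ρ := by
    intro R ρ hρ
    have h1 : ρ.re < 1 := (xi_eq_zero_iff.mp (mem_ZR.mp hρ).1).2.1
    exact Lc_kernel hg hc h0 (c := 5 / 2) (z := ρ) (by linarith)
  have hdom := Lc_line_integrable hg hc (5 / 2) 2
  have hdom' : Integrable (fun y : ℝ => ‖Lc g (EFd.sy y)‖ * (1 + |y|) ^ 2) := hdom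
  have hB := EFd.BB_nonneg
  set F : ℝ → ℝ → ℂ := fun R y => Lc g (EFd.sy y) * ∑ ρ ∈ ZR R, (mx ρ : ℂ) / (EFd.sy y - ρ) with hF
  have hFe : ∀ R y, F R y = ∑ ρ ∈ ZR R, (mx ρ : ℂ) * (Lc g (EFd.sy y) * (1 / (EFd.sy y - ρ))) := by
    intro R y
    simp only [hF]
    rw [Finset.mul_sum]
    refine Finset.sum_congr rfl fun ρ _ => ?_
    ring
  have hFi : ∀ R, Integrable (F R) := by
    intro R
    have h1 : F R = fun y => ∑ ρ ∈ ZR R, (mx ρ : ℂ) * (Lc g (EFd.sy y) * (1 / (EFd.sy y - ρ))) := by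
      funext y
      exact hFe R y
    rw [h1]
    exact integrable_finsetSum _ fun ρ hρ => ((hker R ρ hρ).1).const_mul _
  have hlim : ∀ y, Tendsto (fun R => F R y) atTop (𝓝 (Lc g (EFd.sy y) * logDeriv xi (EFd.sy y))) := by
    intro y
    exact (pf_tendsto (EFd.sy_ne y)).const_mul _
  have hmeas : AEStronglyMeasurable (fun y : ℝ => Lc g (EFd.sy y) * logDeriv xi (EFd.sy y)) := by
    refine aestronglyMeasurable_of_tendsto_ae atTop (fun R => (hFi R).aestronglyMeasurable) ?_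
    exact Eventually.of_forall hlim
  have hint : Integrable (fun y : ℝ => Lc g (EFd.sy y) * logDeriv xi (EFd.sy y)) := by
    refine (hdom'.const_mul EFd.BB).mono' hmeas (Eventually.of_forall fun y => ?_)
    rw [norm_mul]
    have h1 : ‖logDeriv xi (EFd.sy y)‖ ≤ EFd.BB * (1 + |y|) ^ 2 := by
      have h2 := EFd.logDeriv_le y
      have h3 := EFd.BB_le y
      have h4 := EFd.KK_pos
      have h5 : 0 ≤ (2 + |y|) * (256 * EFd.KK) := by positivity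
      linarith
    calc ‖Lc g (EFd.sy y)‖ * ‖logDeriv xi (EFd.sy y)‖ ≤ ‖Lc g (EFd.sy y)‖ * (EFd.BB * (1 + |y|) ^ 2) :=
          mul_le_mul_of_nonneg_left h1 (norm_nonneg _)
      _ = _ := by ring
  refine ⟨hint, ?_⟩
  have hI : Tendsto (fun R => ∫ y, F R y) atTop (𝓝 (∫ y, Lc g (EFd.sy y) * logDeriv xi (EFd.sy y))) := by
    refine tendsto_integral_filter_of_dominated_convergence (fun y => EFd.BB * (‖Lc g (EFd.sy y)‖ * (1 + |y|) ^ 2))
      (Eventually.of_forall fun R => (hFi R).aestronglyMeasurable) ?_ (hdom'.const_mul EFd.BB)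
      (Eventually.of_forall hlim)
    filter_upwards [eventually_ge_atTop 24] with R hR
    refine Eventually.of_forall fun y => ?_
    simp only [hF]
    rw [norm_mul]
    calc ‖Lc g (EFd.sy y)‖ * ‖∑ ρ ∈ ZR R, (mx ρ : ℂ) / (EFd.sy y - ρ)‖
        ≤ ‖Lc g (EFd.sy y)‖ * (EFd.BB * (1 + |y|) ^ 2) :=
          mul_le_mul_of_nonneg_left (EFd.bound hR y) (norm_nonneg _)
      _ = _ := by ring
  have hval : ∀ R, (1 / (2 * Real.pi) : ℂ) * ∫ y, F R y =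
      ∑ ρ ∈ (ZR R).subtype (fun ρ => xi ρ = 0), (mx (ρ : ℂ) : ℂ) * Lc g (ρ : ℂ) := by
    intro R
    simp_rw [hFe]
    rw [integral_finsetSum _ fun ρ hρ => ((hker R ρ hρ).1).const_mul _, Finset.mul_sum]
    rw [Finset.sum_subtype_of_mem (f := fun ρ : ℂ => (mx ρ : ℂ) * Lc g ρ) (p := fun ρ => xi ρ = 0)
      (fun ρ hρ => (mem_ZR.mp hρ).1)]
    refine Finset.sum_congr rfl fun ρ hρ => ?_
    rw [integral_const_mul, mul_left_comm, (hker R ρ hρ).2]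
  have hsum : Summable (fun ρ : ZS => (mx (ρ : ℂ) : ℂ) * Lc g (ρ : ℂ)) := by
    refine Summable.of_norm ?_
    refine (zero_summable hg hc).congr fun ρ => ?_
    rw [norm_mul, Complex.norm_real, Real.norm_of_nonneg (mx_nonneg _)]
  have hlim2 := hsum.hasSum.comp EFd.subtype_tendsto
  have hlim1 := hI.const_mul (1 / (2 * Real.pi) : ℂ)
  simp_rw [hval] at hlim1
  exact tendsto_nhds_unique hlim1 hlim2

end Pool.Agent.Helper69.GMU
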