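import Pool.Agent.Helper69.GMU.Lap

/-!
# GMU block SM2: exact second moment of `SP0`

`Lap φ (iv) = ∫ φ(α) e^(ivα) dα`. Parseval: `∫ Lap φ (i(v+w)) conj (Lap φ (iv)) dv = 2π ∫ φ(α)² e^(iwα) dα` (both functions are
Fourier transforms of smooth compactly supported functions; Mathlib Plancherel for Schwartz functions or the multiplication
formula + inversion, compare `Pool/Agent/Helper78/SG/Parseval.lean`). With `v = L(γ - t)`, `w = L(γ - g)`, `dt = dv/L` (`γ`, `g` two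
ordinates), expand the square and take real parts: `w = 2π nd T p`, `mx = mult` on `Zf T`. Model: `Pool/Agent/Helper69/GGM/SM.lean`.
-/

open Complex Set MeasureTheory Filter Topology
open Pool.Agent.Helper57.LH Pool.Agent.Helper57.PC Pool.Agent.Helper57.Zeta
open Pool.Agent.Helper69.GGM
open scoped ContDiff FourierTransform SchwartzMap

namespace Pool.Agent.Helper69.GMU

/-- the twisted function `φ(x) e^(iwx)` -/
private noncomputable def SM2_tw (φ : ℝ → ℝ) (w : ℝ) (x : ℝ) : ℂ :=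
  (φ x : ℂ) * Complex.exp (((w * x : ℝ) : ℂ) * I)

private theorem SM2_tw_smooth {φ : ℝ → ℝ} {a b : ℝ} (h : Sm φ a b) (w : ℝ) :
    ContDiff ℝ ∞ (SM2_tw φ w) := by
  unfold SM2_tw
  have h1 : ContDiff ℝ ∞ (fun x : ℝ => ((φ x : ℝ) : ℂ)) :=
    Complex.ofRealCLM.contDiff.comp h.smooth
  have h2 : ContDiff ℝ ∞ (fun x : ℝ => ((w * x : ℝ) : ℂ) * I) :=
    (Complex.ofRealCLM.contDiff.comp (contDiff_const.mul contDiff_id)).mul contDiff_const
  exact h1.mul (Complex.contDiff_exp.comp h2)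

private theorem SM2_tw_supp {φ : ℝ → ℝ} {a b : ℝ} (h : Sm φ a b) (w : ℝ) :
    HasCompactSupport (SM2_tw φ w) := by
  refine h.hasCompactSupport.mono fun x hx => ?_
  intro h0
  refine hx ?_
  unfold SM2_tw
  rw [h0, Complex.ofReal_zero, zero_mul]

/-- the Schwartz function -/
private noncomputable def SM2_sch {φ : ℝ → ℝ} {a b : ℝ} (h : Sm φ a b) (w : ℝ) : 𝓢(ℝ, ℂ) :=
  (SM2_tw_supp h w).toSchwartzMap (SM2_tw_smooth h w)

private theorem SM2_sch_apply {φ : ℝ → ℝ} {a b : ℝ} (h : Sm φ a b) (w x : ℝ) :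
    SM2_sch h w x = SM2_tw φ w x := rfl

private theorem SM2_lap {φ : ℝ → ℝ} {a b : ℝ} (h : Sm φ a b) (w v : ℝ) :
    Lap φ (((v + w : ℝ) : ℂ) * I) = 𝓕 (SM2_sch h w) (-(v / (2 * Real.pi))) := by
  rw [SchwartzMap.fourier_coe, Real.fourier_real_eq_integral_exp_smul]
  unfold Lap
  refine integral_congr_ae (Eventually.of_forall fun x => ?_)
  simp only [SM2_sch_apply, SM2_tw, smul_eq_mul]
  have hpi : (Real.pi : ℝ) ≠ 0 := Real.pi_ne_zero
  have h1 : (-2 * Real.pi * x * -(v / (2 * Real.pi)) : ℝ) = v * x := by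
    field_simp
  rw [h1]
  have h2 : Complex.exp (((v + w : ℝ) : ℂ) * I * (x : ℂ)) =
      Complex.exp (((v * x : ℝ) : ℂ) * I) * Complex.exp (((w * x : ℝ) : ℂ) * I) := by
    rw [← Complex.exp_add]
    congr 1
    push_cast
    ring
  rw [h2]
  ring

private theorem SM2_prod_integrable {φ : ℝ → ℝ} {a b : ℝ} (h : Sm φ a b) (w : ℝ) :
    Integrable (fun v : ℝ => Lap φ (((v + w : ℝ) : ℂ) * I) *
      (starRingEnd ℂ) (Lap φ (((v : ℝ) : ℂ) * I))) := by
  have h1 : Integrable (fun ξ : ℝ => 𝓕 (SM2_sch h w) ξ *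
      (starRingEnd ℂ) (𝓕 (SM2_sch h 0) ξ)) := by
    obtain ⟨C, hC0, hC⟩ := (𝓕 (SM2_sch h 0)).decay 0 0
    refine (𝓕 (SM2_sch h w)).integrable.mul_bdd (c := C) ?_ ?_
    · exact (Complex.continuous_conj.comp (𝓕 (SM2_sch h 0)).continuous).aestronglyMeasurable
    · refine Eventually.of_forall fun ξ => ?_
      have h2 := hC ξ
      rw [pow_zero, one_mul, norm_iteratedFDeriv_zero] at h2
      rw [RCLike.norm_conj]
      exact h2
  have h2 := h1.comp_mul_left' (R := -(1 / (2 * Real.pi)))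
    (by have := Real.pi_pos; exact neg_ne_zero.2 (by positivity))
  refine h2.congr (Eventually.of_forall fun v => ?_)
  have h3 := SM2_lap h w v
  have h4 := SM2_lap h 0 v
  rw [add_zero] at h4
  have h5 : -(1 / (2 * Real.pi)) * v = -(v / (2 * Real.pi)) := by ring
  simp only [h3, h4, h5]

private theorem SM2_prod_integral {φ : ℝ → ℝ} {a b : ℝ} (h : Sm φ a b) (w : ℝ) :
    (∫ v : ℝ, Lap φ (((v + w : ℝ) : ℂ) * I) * (starRingEnd ℂ) (Lap φ (((v : ℝ) : ℂ) * I))).re =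
      2 * Real.pi * ∫ x : ℝ, φ x ^ 2 * Real.cos (w * x) := by
  have hpi := Real.pi_pos
  have h1 : ∫ v : ℝ, Lap φ (((v + w : ℝ) : ℂ) * I) *
      (starRingEnd ℂ) (Lap φ (((v : ℝ) : ℂ) * I)) =
      (2 * Real.pi) • ∫ ξ : ℝ, 𝓕 (SM2_sch h w) ξ * (starRingEnd ℂ) (𝓕 (SM2_sch h 0) ξ) := by
    have h2 := MeasureTheory.Measure.integral_comp_mul_left
      (fun ξ : ℝ => 𝓕 (SM2_sch h w) ξ * (starRingEnd ℂ) (𝓕 (SM2_sch h 0) ξ))
      (-(1 / (2 * Real.pi)))
    have h3 : |(-(1 / (2 * Real.pi)))⁻¹| = 2 * Real.pi := by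
      rw [inv_neg, abs_neg, one_div, inv_inv, abs_of_pos (by positivity)]
    rw [h3] at h2
    rw [← h2]
    refine integral_congr_ae (Eventually.of_forall fun v => ?_)
    have h3 := SM2_lap h w v
    have h4 := SM2_lap h 0 v
    rw [add_zero] at h4
    have h5 : -(1 / (2 * Real.pi)) * v = -(v / (2 * Real.pi)) := by ring
    simp only [h3, h4, h5]
  have h2 := SchwartzMap.integral_inner_fourier_fourier (SM2_sch h 0) (SM2_sch h w)
  simp only [RCLike.inner_apply] at h2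
  rw [h1, h2, Complex.smul_re, smul_eq_mul]
  congr 1
  have h3 : Integrable (fun x : ℝ => SM2_sch h w x * (starRingEnd ℂ) (SM2_sch h 0 x)) := by
    obtain ⟨C, hC0, hC⟩ := (SM2_sch h 0).decay 0 0
    refine (SM2_sch h w).integrable.mul_bdd (c := C) ?_ ?_
    · exact (Complex.continuous_conj.comp (SM2_sch h 0).continuous).aestronglyMeasurable
    · refine Eventually.of_forall fun ξ => ?_
      have h2 := hC ξ
      rw [pow_zero, one_mul, norm_iteratedFDeriv_zero] at h2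
      rw [RCLike.norm_conj]
      exact h2
  have h4 := Complex.reCLM.integral_comp_comm h3
  simp only [Complex.reCLM_apply] at h4
  rw [← h4]
  refine integral_congr_ae (Eventually.of_forall fun x => ?_)
  simp only [SM2_sch_apply, SM2_tw]
  rw [map_mul, Complex.conj_ofReal, zero_mul, Complex.ofReal_zero, zero_mul, Complex.exp_zero,
    map_one, mul_one, mul_assoc, mul_comm (Complex.exp _), ← mul_assoc, ← Complex.ofReal_mul,
    Complex.re_ofReal_mul, Complex.exp_ofReal_mul_I_re, pow_two]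

/-- the term of a pair of zeros -/
private noncomputable def SM2_F (φ : ℝ → ℝ) (T : ℝ) (p : ℂ × ℂ) (t : ℝ) : ℂ :=
  Lap φ (((Real.log T * (p.1.im - t) : ℝ) : ℂ) * I) *
    (starRingEnd ℂ) (Lap φ (((Real.log T * (p.2.im - t) : ℝ) : ℂ) * I))

private theorem SM2_F_eq (φ : ℝ → ℝ) (T : ℝ) (p : ℂ × ℂ) (t : ℝ) :
    SM2_F φ T p t = (fun y : ℝ => Lap φ (((y + Real.log T * (p.1.im - p.2.im) : ℝ) : ℂ) * I) *
      (starRingEnd ℂ) (Lap φ (((y : ℝ) : ℂ) * I))) (Real.log T * p.2.im - Real.log T * t) := by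
  unfold SM2_F
  simp only
  congr 4
  · ring
  · congr 2
    ring

private theorem SM2_F_integrable {φ : ℝ → ℝ} {a b : ℝ} (h : Sm φ a b) {T : ℝ} (hT : 1 < T)
    (p : ℂ × ℂ) : Integrable (SM2_F φ T p) := by
  have hL : Real.log T ≠ 0 := (Real.log_pos hT).ne'
  have h1 := SM2_prod_integrable h (Real.log T * (p.1.im - p.2.im))
  have h2 := (h1.comp_sub_left (Real.log T * p.2.im)).comp_mul_left' hL
  refine h2.congr (Eventually.of_forall fun t => ?_)
  exact (SM2_F_eq φ T p t).symm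

private theorem SM2_F_integral {φ : ℝ → ℝ} {a b : ℝ} (h : Sm φ a b) {T : ℝ} (hT : 1 < T)
    (p : ℂ × ℂ) : (∫ t, SM2_F φ T p t).re =
      (2 * Real.pi / Real.log T) * Cs (fun α => φ α ^ 2) (nd T p) := by
  have hL : 0 < Real.log T := Real.log_pos hT
  have h1 := SM2_prod_integral h (Real.log T * (p.1.im - p.2.im))
  obtain ⟨g, hg⟩ : ∃ g : ℝ → ℂ, g = fun y : ℝ =>
      Lap φ (((y + Real.log T * (p.1.im - p.2.im) : ℝ) : ℂ) * I) *
      (starRingEnd ℂ) (Lap φ (((y : ℝ) : ℂ) * I)) := ⟨_, rfl⟩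
  have h2 : ∫ t, SM2_F φ T p t = (Real.log T)⁻¹ • ∫ y, g y := by
    have e : ∀ t, SM2_F φ T p t = g (Real.log T * p.2.im - Real.log T * t) := by
      intro t
      rw [hg]
      exact SM2_F_eq φ T p t
    simp only [e]
    have h3 := MeasureTheory.Measure.integral_comp_mul_left
      (fun x => g (Real.log T * p.2.im - x)) (Real.log T)
    rw [h3, integral_sub_left_eq_self g volume, abs_of_pos (inv_pos.2 hL)]
  rw [h2, hg, Complex.smul_re, h1]
  have hw : ∀ x : ℝ, Real.log T * (p.1.im - p.2.im) * x = 2 * Real.pi * nd T p * x := by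
    intro x
    unfold nd
    field_simp
  simp only [hw]
  unfold Cs
  rw [smul_eq_mul]
  ring

private theorem SM2_sq (φ : ℝ → ℝ) (T t : ℝ) : ‖SP0 φ T t‖ ^ 2 =
    (∑ p ∈ Zf T ×ˢ Zf T, ((mx p.1 * mx p.2 : ℝ) : ℂ) * SM2_F φ T p t).re := by
  have h1 : ((‖SP0 φ T t‖ ^ 2 : ℝ) : ℂ) =
      ∑ p ∈ Zf T ×ˢ Zf T, ((mx p.1 * mx p.2 : ℝ) : ℂ) * SM2_F φ T p t := by
    have h2 := Complex.mul_conj' (SP0 φ T t)
    rw [Complex.ofReal_pow, ← h2]
    unfold SP0
    rw [map_sum, Finset.sum_mul_sum, Finset.sum_product]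
    refine Finset.sum_congr rfl fun ρ _ => Finset.sum_congr rfl fun ρ' _ => ?_
    unfold SM2_F z0
    rw [map_mul, Complex.conj_ofReal]
    push_cast
    ring
  rw [← h1, Complex.ofReal_re]

theorem SP0_sq_integrable {φ : ℝ → ℝ} {a b : ℝ} (h : Sm φ a b) {T : ℝ} (hT : 1 < T) :
    Integrable (fun t => ‖SP0 φ T t‖ ^ 2) := by
  simp only [SM2_sq]
  exact Complex.reCLM.integrable_comp (integrable_finset_sum _ fun p _ =>
    (SM2_F_integrable h hT p).const_mul _)

theorem SP0_second_moment {φ : ℝ → ℝ} {a b : ℝ} (h : Sm φ a b) {T : ℝ} (hT : 1 < T) :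
    ∫ t, ‖SP0 φ T t‖ ^ 2 = (2 * Real.pi / Real.log T) * WP T (Cs (fun α => φ α ^ 2)) := by
  simp only [SM2_sq]
  have h1 : Integrable (fun t => ∑ p ∈ Zf T ×ˢ Zf T,
      ((mx p.1 * mx p.2 : ℝ) : ℂ) * SM2_F φ T p t) :=
    integrable_finset_sum _ fun p _ => (SM2_F_integrable h hT p).const_mul _
  have h2 := Complex.reCLM.integral_comp_comm h1
  simp only [Complex.reCLM_apply] at h2
  rw [h2, integral_finset_sum _ fun p _ => (SM2_F_integrable h hT p).const_mul _, Complex.re_sum]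
  have h3 : ∀ p ∈ Zf T ×ˢ Zf T, (∫ t, ((mx p.1 * mx p.2 : ℝ) : ℂ) * SM2_F φ T p t).re =
      (2 * Real.pi / Real.log T) *
        ((mult p.1 : ℝ) * (mult p.2 : ℝ) * Cs (fun α => φ α ^ 2) (nd T p)) := by
    intro p hp
    rw [Finset.mem_product] at hp
    have e1 : mx p.1 = (mult p.1 : ℝ) := by
      unfold mx
      rw [mult_eq (mem_Zf.1 hp.1).1]
    have e2 : mx p.2 = (mult p.2 : ℝ) := by
      unfold mx
      rw [mult_eq (mem_Zf.1 hp.2).1]
    rw [integral_const_mul, Complex.re_ofReal_mul, SM2_F_integral h hT, e1, e2]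
    ring
  rw [Finset.sum_congr rfl h3, ← Finset.mul_sum]
  rfl

end Pool.Agent.Helper69.GMU
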