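import Pool.Agent.Helper69.GMU.CM
import Pool.Agent.Helper69.GMU.SM2
import Pool.Agent.Helper69.GMU.FF2

/-!
# GMU block EQ: the capped mean square law for `φ` is the pair law for `Cs φ²` when almost all zeros are on the line

`W = WP T (Cs φ²)/SN T = (1/T) ∫_ℝ ‖SP0‖²` (`SP0_second_moment`, `SN T = T L/2π`). Models: `GGM/MCU.lean` (`ptwise`, `upper_comparison`),
`GGM/MCL.lean` (`trunc`, `lower_comparison`), `GGM/MC.lean` (`meanSq_iff`).
Upper: on `[δT,(1-δ)T]`: `min(‖PP‖²,B) ≤ (1+θ)‖SP0‖² + (1+1/θ) min(‖PP+SP0‖²,B)`; outside it in `[0,T]`: `≤ B`, total `2δBT`; `PP_add_SP0`.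
Lower: `‖SP0‖² ≤ min(‖SP0‖²,B) + ‖SP0‖⁴/B`, `min(‖SP0‖²,B) ≤ (1+θ) min(‖PP‖²,B) + (1+1/θ) min(‖PP+SP0‖²,B)` on `[δT,(1-δ)T]`,
`SP0_edges` outside; `δ` small, `B₀` large (depending on `θ`, `φ`).
`PLaw_iff`: ε-management as in `GGM/MC.lean` (`VP φ ≥ 0` because `φ = 0` on `(-∞,0]`).
-/

open Complex Set MeasureTheory Filter Topology
open Pool.Agent.Helper57.LH Pool.Agent.Helper57.PC Pool.Agent.Helper57.Zeta
open Pool.Agent.Helper69.GGM
open scoped ContDiff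

namespace Pool.Agent.Helper69.GMU

private lemma EQ_ptwise {θ B : ℝ} (hθ : 0 < θ) (hB : 0 < B) (u x : ℂ) :
    min (‖x‖ ^ 2) B ≤ (1 + θ) * ‖u‖ ^ 2 + (1 + 1 / θ) * min (‖x + u‖ ^ 2) B := by
  have h1 : ‖x‖ ≤ ‖u‖ + ‖x + u‖ := by
    have := norm_add_le (x + u) (-u)
    rw [add_neg_cancel_right, norm_neg] at this
    linarith
  have hu := norm_nonneg u
  have hr := norm_nonneg (x + u)
  have hx := norm_nonneg x
  have hθi : 0 < 1 / θ := by positivity
  have hθθ : θ * (1 / θ) = 1 := by field_simp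
  rcases le_total (‖x + u‖ ^ 2) B with h | h
  · rw [min_eq_left h]
    refine (min_le_left _ _).trans ?_
    have h2 : ‖x‖ ^ 2 ≤ (‖u‖ + ‖x + u‖) ^ 2 := by gcongr
    refine h2.trans ?_
    have h3 : 2 * (‖u‖ * ‖x + u‖) ≤ θ * ‖u‖ ^ 2 + (1 / θ) * ‖x + u‖ ^ 2 := by
      have h4 : 0 ≤ (1 / θ) * (θ * ‖u‖ - ‖x + u‖) ^ 2 := by positivity
      have h5 : (1 / θ) * (θ * ‖u‖ - ‖x + u‖) ^ 2
          = θ * (θ * (1 / θ)) * ‖u‖ ^ 2 - 2 * (θ * (1 / θ)) * (‖u‖ * ‖x + u‖)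
            + (1 / θ) * ‖x + u‖ ^ 2 := by ring
      rw [h5, hθθ] at h4
      linarith
    nlinarith
  · rw [min_eq_right h]
    refine (min_le_right _ _).trans ?_
    have : 0 ≤ (1 + θ) * ‖u‖ ^ 2 := by positivity
    nlinarith [mul_pos hθi hB]

private lemma EQ_ptwise2 {θ B : ℝ} (hθ : 0 < θ) (hB : 0 < B) (u x : ℂ) :
    min (‖u‖ ^ 2) B ≤ (1 + θ) * min (‖x‖ ^ 2) B + (1 + 1 / θ) * min (‖x + u‖ ^ 2) B := by
  have hθi : 0 < 1 / θ := by positivity
  rcases le_total (‖x‖ ^ 2) B with h | h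
  · rw [min_eq_left h]
    have := EQ_ptwise hθ hB x u
    rwa [add_comm u x] at this
  · rw [min_eq_right h]
    have h1 : 0 ≤ (1 + 1 / θ) * min (‖x + u‖ ^ 2) B :=
      mul_nonneg (by positivity) (le_min (by positivity) hB.le)
    have h2 := min_le_right (‖u‖ ^ 2) B
    nlinarith [mul_pos hθ hB]

private lemma EQ_trunc {x B : ℝ} (_hx : 0 ≤ x) (hB : 0 < B) :
    x ^ 2 ≤ min (x ^ 2) B + (1 / B) * x ^ 4 := by
  rcases le_total (x ^ 2) B with h | h
  · rw [min_eq_left h]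
    have : 0 ≤ (1 / B) * x ^ 4 := by positivity
    linarith
  · rw [min_eq_right h]
    have h1 : x ^ 2 ≤ (1 / B) * x ^ 4 := by
      rw [one_div, ← div_eq_inv_mul, le_div_iff₀ hB]
      have h2 : x ^ 4 = x ^ 2 * x ^ 2 := by ring
      rw [h2]
      exact mul_le_mul_of_nonneg_left h (by positivity)
    linarith

private lemma EQ_int {φ : ℝ → ℝ} {a b : ℝ} (h : Sm φ a b) {T : ℝ} (hT : 1 < T) :
    ∫ t, ‖SP0 φ T t‖ ^ 2 = T * (WP T (Cs (fun α => φ α ^ 2)) / SN T) := by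
  have hL : 0 < Real.log T := Real.log_pos hT
  rw [SP0_second_moment h hT]
  unfold SN
  have hT0 : T ≠ 0 := by positivity
  have hpi : Real.pi ≠ 0 := Real.pi_ne_zero
  field_simp

private lemma EQ_bd {B : ℝ} (hB : 0 < B) {g : ℝ → ℂ} (hg : Continuous g) (x y : ℝ) :
    IntervalIntegrable (fun t => min (‖g t‖ ^ 2) B) volume x y :=
  ((hg.norm.pow 2).min continuous_const).intervalIntegrable _ _

theorem PP_upper {l : Filter ℝ} (hl : l ≤ atTop) (hOff : OffLine l) {φ : ℝ → ℝ} {a b : ℝ} (h : Sm φ a b)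
    (ha : 0 < a) (hab : a ≤ b) {θ : ℝ} (hθ : 0 < θ) {B : ℝ} (hB : 0 < B) :
    ∀ᶠ T : ℝ in l, MP φ T B ≤ (1 + θ) * (WP T (Cs (fun α => φ α ^ 2)) / SN T) + θ := by
  obtain ⟨δ, hδ, hδ2, hδB⟩ : ∃ δ : ℝ, 0 < δ ∧ δ < 1 / 2 ∧ 2 * δ * B ≤ θ / 2 := by
    refine ⟨min (1 / 4) (θ / (4 * B)), by positivity, ?_, ?_⟩
    · exact (min_le_left _ _).trans_lt (by norm_num)
    · have : min (1 / 4) (θ / (4 * B)) ≤ θ / (4 * B) := min_le_right _ _
      have h2 : 2 * (θ / (4 * B)) * B = θ / 2 := by field_simp; ring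
      nlinarith
  have hθi : 0 < 1 + 1 / θ := by positivity
  set ε : ℝ := (θ / 2) / (1 + 1 / θ) with hεd
  have hε : 0 < ε := by positivity
  filter_upwards [PP_add_SP0 hl hOff h ha hab hδ hδ2 hB hε, hl (eventually_gt_atTop 1)] with T hT1 hT
  have hT0 : 0 < T := by linarith
  have hPc : Continuous (fun t => PP φ T t) := PP_continuous h hT
  have hSc : Continuous (fun t => SP0 φ T t) := SP0_continuous h T
  have hI := EQ_bd hB hPc
  have hR := EQ_bd hB (g := fun t => PP φ T t + SP0 φ T t) (hPc.add hSc)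
  have hu2 : Continuous (fun t => ‖SP0 φ T t‖ ^ 2) := hSc.norm.pow 2
  have hδT : 0 ≤ δ * T := by positivity
  have hδT' : δ * T ≤ (1 - δ) * T := by nlinarith
  have hδT'' : (1 - δ) * T ≤ T := by nlinarith
  have hsplit : ∫ t in (0:ℝ)..T, min (‖PP φ T t‖ ^ 2) B =
      (∫ t in (0:ℝ)..(δ * T), min (‖PP φ T t‖ ^ 2) B) +
      (∫ t in (δ * T)..((1 - δ) * T), min (‖PP φ T t‖ ^ 2) B) +
      ∫ t in ((1 - δ) * T)..T, min (‖PP φ T t‖ ^ 2) B := by
    rw [intervalIntegral.integral_add_adjacent_intervals (hI _ _) (hI _ _),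
      intervalIntegral.integral_add_adjacent_intervals (hI _ _) (hI _ _)]
  have hA1 : ∫ t in (0:ℝ)..(δ * T), min (‖PP φ T t‖ ^ 2) B ≤ δ * T * B := by
    have := intervalIntegral.integral_mono_on hδT (hI _ _) (intervalIntegrable_const (c := B))
      (fun t _ => min_le_right _ _)
    simpa using this
  have hA3 : ∫ t in ((1 - δ) * T)..T, min (‖PP φ T t‖ ^ 2) B ≤ δ * T * B := by
    have := intervalIntegral.integral_mono_on hδT'' (hI _ _) (intervalIntegrable_const (c := B))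
      (fun t _ => min_le_right _ _)
    have h3 : ∫ _ in ((1 - δ) * T)..T, B = δ * T * B := by
      rw [intervalIntegral.integral_const, smul_eq_mul]; ring
    rw [h3] at this
    exact this
  have hA2 : ∫ t in (δ * T)..((1 - δ) * T), min (‖PP φ T t‖ ^ 2) B ≤
      (1 + θ) * (∫ t in (δ * T)..((1 - δ) * T), ‖SP0 φ T t‖ ^ 2) +
      (1 + 1 / θ) * ∫ t in (δ * T)..((1 - δ) * T), min (‖PP φ T t + SP0 φ T t‖ ^ 2) B := by
    rw [← intervalIntegral.integral_const_mul, ← intervalIntegral.integral_const_mul,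
      ← intervalIntegral.integral_add ((hu2.intervalIntegrable _ _).const_mul _)
        ((hR _ _).const_mul _)]
    refine intervalIntegral.integral_mono_on hδT' (hI _ _)
      (((hu2.intervalIntegrable _ _).const_mul _).add ((hR _ _).const_mul _)) (fun t _ => ?_)
    exact EQ_ptwise hθ hB (SP0 φ T t) (PP φ T t)
  have hu3 : ∫ t in (δ * T)..((1 - δ) * T), ‖SP0 φ T t‖ ^ 2 ≤
      T * (WP T (Cs (fun α => φ α ^ 2)) / SN T) := by
    rw [← EQ_int h hT, intervalIntegral.integral_of_le hδT']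
    exact setIntegral_le_integral (SP0_sq_integrable h hT)
      (Filter.Eventually.of_forall (fun t => by positivity))
  have hfin : ∫ t in (0:ℝ)..T, min (‖PP φ T t‖ ^ 2) B ≤
      T * ((1 + θ) * (WP T (Cs (fun α => φ α ^ 2)) / SN T) + θ) := by
    rw [hsplit]
    have h5 : (1 + 1 / θ) * (ε * T) = θ / 2 * T := by
      rw [hεd]; field_simp
    have h6 : (1 + 1 / θ) * (∫ t in (δ * T)..((1 - δ) * T), min (‖PP φ T t + SP0 φ T t‖ ^ 2) B) ≤
        (1 + 1 / θ) * (ε * T) := mul_le_mul_of_nonneg_left hT1 hθi.le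
    have h7 : (1 + θ) * (∫ t in (δ * T)..((1 - δ) * T), ‖SP0 φ T t‖ ^ 2) ≤
        (1 + θ) * (T * (WP T (Cs (fun α => φ α ^ 2)) / SN T)) :=
      mul_le_mul_of_nonneg_left hu3 (by positivity)
    have h8 : 2 * (δ * T * B) ≤ θ / 2 * T := by nlinarith
    nlinarith
  unfold MP
  rw [div_mul_eq_mul_div, one_mul, div_le_iff₀ hT0]
  linarith

theorem PP_lower {l : Filter ℝ} (hl : l ≤ atTop) (hOff : OffLine l) {φ : ℝ → ℝ} {a b : ℝ} (h : Sm φ a b)
    (ha : 0 < a) (hab : a ≤ b) {θ : ℝ} (hθ : 0 < θ) :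
    ∃ B₀ : ℝ, ∀ B : ℝ, B₀ ≤ B → ∀ᶠ T : ℝ in l, WP T (Cs (fun α => φ α ^ 2)) / SN T ≤ (1 + θ) * MP φ T B + θ := by
  obtain ⟨C4, T4, hC4, h4⟩ := SP0_fourth h
  obtain ⟨Ce, hCe, he⟩ := SP0_edges h
  have hθi : 0 < 1 + 1 / θ := by positivity
  obtain ⟨δ, hδ, hδ2, hδθ⟩ : ∃ δ : ℝ, 0 < δ ∧ δ < 1 / 2 ∧ Ce * Real.sqrt δ ≤ θ / 4 := by
    refine ⟨min (1 / 4) ((θ / (4 * Ce)) ^ 2), by positivity, ?_, ?_⟩
    · exact (min_le_left _ _).trans_lt (by norm_num)
    · have h1 : Real.sqrt (min (1 / 4) ((θ / (4 * Ce)) ^ 2)) ≤ θ / (4 * Ce) := by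
        rw [← Real.sqrt_sq (show 0 ≤ θ / (4 * Ce) by positivity)]
        apply Real.sqrt_le_sqrt
        rw [Real.sqrt_sq (show 0 ≤ θ / (4 * Ce) by positivity)]
        exact min_le_right _ _
      have h2 : Ce * (θ / (4 * Ce)) = θ / 4 := by field_simp
      have h3 := mul_le_mul_of_nonneg_left h1 hCe.le
      linarith
  set ε : ℝ := (θ / 4) / (1 + 1 / θ) with hεd
  have hε : 0 < ε := by positivity
  have hεθ : (1 + 1 / θ) * ε = θ / 4 := by rw [hεd]; field_simp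
  refine ⟨4 * C4 / θ, fun B hB => ?_⟩
  have hB0 : 0 < B := lt_of_lt_of_le (by positivity) hB
  have hBθ : 1 / B * C4 ≤ θ / 4 := by
    rw [div_le_iff₀ hθ] at hB
    rw [one_div, ← div_eq_inv_mul, div_le_div_iff₀ hB0 (by norm_num)]
    linarith
  filter_upwards [PP_add_SP0 hl hOff h ha hab hδ hδ2 hB0 hε, hl (eventually_gt_atTop 1),
    hl (eventually_ge_atTop T4), hl (he δ hδ hδ2)] with T hcm hT hT4 hTe
  have hT0 : 0 < T := by linarith
  obtain ⟨hf4i, hf4⟩ := h4 T hT4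
  have hPc : Continuous (fun t => PP φ T t) := PP_continuous h hT
  have hSc : Continuous (fun t => SP0 φ T t) := SP0_continuous h T
  have hSi : Integrable (fun t => ‖SP0 φ T t‖ ^ 2) := SP0_sq_integrable h hT
  have hδT : 0 ≤ δ * T := by positivity
  have hδT' : δ * T ≤ (1 - δ) * T := by nlinarith
  have hδT'' : (1 - δ) * T ≤ T := by nlinarith
  have s2 : ∫ t, ‖SP0 φ T t‖ ^ 2 ≤ (∫ t in (δ * T)..((1 - δ) * T), ‖SP0 φ T t‖ ^ 2) +
      Ce * Real.sqrt δ * T := by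
    rw [← integral_add_compl (measurableSet_Icc (a := δ * T) (b := (1 - δ) * T)) hSi,
      intervalIntegral.integral_of_le hδT', ← integral_Icc_eq_integral_Ioc]
    linarith
  have hS2c : Continuous (fun t => ‖SP0 φ T t‖ ^ 2) := hSc.norm.pow 2
  have hS4c : Continuous (fun t => ‖SP0 φ T t‖ ^ 4) := hSc.norm.pow 4
  have hSb := EQ_bd hB0 hSc
  have hXi := EQ_bd hB0 hPc
  have hRi := EQ_bd hB0 (g := fun t => PP φ T t + SP0 φ T t) (hPc.add hSc)
  have s3 : ∫ t in (δ * T)..((1 - δ) * T), ‖SP0 φ T t‖ ^ 2 ≤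
      (∫ t in (δ * T)..((1 - δ) * T), min (‖SP0 φ T t‖ ^ 2) B) + 1 / B * C4 * T := by
    have h1 : ∫ t in (δ * T)..((1 - δ) * T), ‖SP0 φ T t‖ ^ 2 ≤
        ∫ t in (δ * T)..((1 - δ) * T), (min (‖SP0 φ T t‖ ^ 2) B + 1 / B * ‖SP0 φ T t‖ ^ 4) := by
      refine intervalIntegral.integral_mono_on hδT' (hS2c.intervalIntegrable _ _)
        ((hSb _ _).add ((hS4c.intervalIntegrable _ _).const_mul _)) (fun t _ => ?_)
      exact EQ_trunc (norm_nonneg _) hB0
    rw [intervalIntegral.integral_add (hSb _ _)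
      ((hS4c.intervalIntegrable _ _).const_mul _), intervalIntegral.integral_const_mul] at h1
    have h2 : ∫ t in (δ * T)..((1 - δ) * T), ‖SP0 φ T t‖ ^ 4 ≤ C4 * T := by
      rw [intervalIntegral.integral_of_le hδT']
      refine (setIntegral_le_integral hf4i (Filter.Eventually.of_forall (fun t => by positivity))).trans hf4
    have h3 : 1 / B * (∫ t in (δ * T)..((1 - δ) * T), ‖SP0 φ T t‖ ^ 4) ≤ 1 / B * (C4 * T) :=
      mul_le_mul_of_nonneg_left h2 (by positivity)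
    linarith
  have s4 : ∫ t in (δ * T)..((1 - δ) * T), min (‖SP0 φ T t‖ ^ 2) B ≤
      (1 + θ) * (∫ t in (δ * T)..((1 - δ) * T), min (‖PP φ T t‖ ^ 2) B) +
      (1 + 1 / θ) * ∫ t in (δ * T)..((1 - δ) * T), min (‖PP φ T t + SP0 φ T t‖ ^ 2) B := by
    rw [← intervalIntegral.integral_const_mul, ← intervalIntegral.integral_const_mul,
      ← intervalIntegral.integral_add ((hXi _ _).const_mul _) ((hRi _ _).const_mul _)]
    refine intervalIntegral.integral_mono_on hδT' (hSb _ _)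
      (((hXi _ _).const_mul _).add ((hRi _ _).const_mul _)) (fun t _ => ?_)
    exact EQ_ptwise2 hθ hB0 (SP0 φ T t) (PP φ T t)
  have p1 : ∫ t in (δ * T)..((1 - δ) * T), min (‖PP φ T t‖ ^ 2) B ≤ T * MP φ T B := by
    have e1 : T * MP φ T B = ∫ t in (0:ℝ)..T, min (‖PP φ T t‖ ^ 2) B := by
      unfold MP
      rw [← mul_assoc, mul_one_div_cancel hT0.ne', one_mul]
    rw [e1]
    refine intervalIntegral.integral_mono_interval hδT hδT' hδT''
      (Filter.Eventually.of_forall (fun t => ?_)) (hXi _ _)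
    exact le_min (by positivity) hB0.le
  have r1 := mul_le_mul_of_nonneg_left p1 (show 0 ≤ 1 + θ by positivity)
  have r2 := mul_le_mul_of_nonneg_left hcm hθi.le
  have r3 : (1 + 1 / θ) * (ε * T) = θ / 4 * T := by rw [← mul_assoc, hεθ]
  have r4 := mul_le_mul_of_nonneg_right hBθ hT0.le
  have r5 := mul_le_mul_of_nonneg_right hδθ hT0.le
  have q : T * (WP T (Cs (fun α => φ α ^ 2)) / SN T) ≤ T * ((1 + θ) * MP φ T B + θ) := by
    rw [← EQ_int h hT]
    have : 0 ≤ θ * T := by positivity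
    linarith
  exact le_of_mul_le_mul_left q hT0

private lemma EQ_up {v θ x y ε : ℝ} (hv : 0 ≤ v) (hθ : 0 < θ) (hθ1 : θ ≤ 1) (hε : θ * (v + 4) ≤ ε)
    (h1 : x ≤ (1 + θ) * y + θ) (h2 : y ≤ v + θ) : x ≤ v + ε - θ := by
  have : (1 + θ) * y ≤ (1 + θ) * (v + θ) := by gcongr
  nlinarith

private lemma EQ_low {v θ x y ε : ℝ} (hv : 0 ≤ v) (hθ : 0 < θ) (hθ1 : θ ≤ 1) (hε : θ * (v + 4) ≤ ε)
    (h1 : y ≤ (1 + θ) * x + θ) (h2 : v - θ ≤ y) : v - ε + θ ≤ x := by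
  by_contra hx
  push Not at hx
  have h3 : (1 + θ) * x < (1 + θ) * (v - ε + θ) := by gcongr
  nlinarith [mul_nonneg hθ.le hv, mul_pos hθ hθ, mul_nonneg hθ.le (sub_nonneg.mpr hε)]

theorem PLaw_iff {l : Filter ℝ} (hl : l ≤ atTop) (hOff : OffLine l) {φ : ℝ → ℝ} {a b : ℝ} (h : Sm φ a b)
    (ha : 0 < a) (hab : a ≤ b) : PLaw l φ ↔ CLaw l (fun α => φ α ^ 2) := by
  have hv : 0 ≤ VP φ := by
    unfold VP
    refine integral_nonneg fun α => ?_
    simp only [Pi.zero_apply]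
    rcases le_or_gt α 0 with h0 | h0
    · rw [h.supp α (fun hc => absurd hc.1 (by linarith))]
      simp
    · exact mul_nonneg (sq_nonneg _) (le_min h0.le zero_le_one)
  have hCdef : CLaw l (fun α => φ α ^ 2) ↔
      Tendsto (fun T : ℝ => WP T (Cs (fun α => φ α ^ 2)) / SN T) l (𝓝 (VP φ)) := Iff.rfl
  rw [hCdef]
  set v := VP φ with hvdef
  have hθ : ∀ ε : ℝ, 0 < ε → ∃ θ : ℝ, 0 < θ ∧ θ ≤ 1 ∧ θ * (v + 4) ≤ ε := by
    intro ε hε
    refine ⟨min 1 (ε / (v + 4)), by positivity, min_le_left _ _, ?_⟩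
    calc min 1 (ε / (v + 4)) * (v + 4) ≤ ε / (v + 4) * (v + 4) := by
          gcongr
          exact min_le_right _ _
      _ = ε := by field_simp
  constructor
  · intro hP
    rw [Metric.tendsto_nhds]
    intro ε hε
    obtain ⟨θ, h0, h1, h2⟩ := hθ ε hε
    obtain ⟨B₁, hB₁⟩ := hP θ h0
    obtain ⟨B₂, hB₂⟩ := PP_lower hl hOff h ha hab h0
    set B := max (max B₁ B₂) 1 with hB
    have hBpos : 0 < B := lt_of_lt_of_le one_pos (le_max_right _ _)
    filter_upwards [hB₁ B ((le_max_left _ _).trans (le_max_left _ _)),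
      hB₂ B ((le_max_right _ _).trans (le_max_left _ _)), PP_upper hl hOff h ha hab h0 hBpos] with T e1 e2 e3
    rw [abs_le] at e1
    have u1 := EQ_up hv h0 h1 h2 e2 (by linarith)
    have u2 := EQ_low hv h0 h1 h2 e3 (by linarith)
    rw [Real.dist_eq, abs_lt]
    constructor <;> linarith
  · intro hC ε hε
    obtain ⟨θ, h0, h1, h2⟩ := hθ ε hε
    obtain ⟨B₂, hB₂⟩ := PP_lower hl hOff h ha hab h0
    refine ⟨max B₂ 1, fun B hB => ?_⟩
    have hBpos : 0 < B := lt_of_lt_of_le one_pos ((le_max_right _ _).trans hB)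
    have hU : ∀ᶠ T : ℝ in l, |WP T (Cs (fun α => φ α ^ 2)) / SN T - v| < θ := by
      have := Metric.tendsto_nhds.mp hC θ h0
      simpa [Real.dist_eq] using this
    filter_upwards [hU, hB₂ B ((le_max_left _ _).trans hB), PP_upper hl hOff h ha hab h0 hBpos] with T e1 e2 e3
    rw [abs_lt] at e1
    have u1 := EQ_up hv h0 h1 h2 e3 (by linarith)
    have u2 := EQ_low hv h0 h1 h2 e2 (by linarith)
    rw [abs_le]
    constructor <;> linarith

end Pool.Agent.Helper69.GMU
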