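import Pool.Agent.Helper69.GMU.Defs
import Pool.Agent.Helper69.GGM.TL
import Pool.Agent.Helper69.GGM.E3b

/-!
# GMU block GS: a positive proportion of the `t` sees a zero of the band

`n(t) = ∑_{band} mx 1_{L|Im ρ - t| ≤ 1/2}`, `∫ n = (1/L) ∑_{band} mx ≥ κ SN T/L = κ T/2π`, `n ≤ (5/4) Phi`, so `∫ n² ≤ C T` (`Phi_fourth`,
`tl_sq_integrable`). The part of `∫ n` over `t < δT` or `t > (1-δ)T` is `≤ √(|{t ∈ [-1,δT] ∪ [(1-δ)T,T+1]}|) √(∫ n²) ≤ C√δ T` (`n = 0` outside `[-1,T+1]`). So for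
`δ` small `∫_{[δT,(1-δ)T]} n ≥ κT/(4π)`, and by Cauchy-Schwarz the set where `n > 0` in `[δT,(1-δ)T]` has measure `≥ (κT/4π)²/(CT)`.
Copy from `good_measure` in `GGM/E3b.lean` (same argument with more conditions).
-/

open Complex Set MeasureTheory Filter Topology
open Pool.Agent.Helper57.LH Pool.Agent.Helper57.PC Pool.Agent.Helper57.Zeta
open Pool.Agent.Helper69.GGM
open scoped ContDiff

namespace Pool.Agent.Helper69.GMU

theorem good_set {a₁ a₂ κ : ℝ} (h1 : 0 < a₁) (h12 : a₁ ≤ a₂) (hκ : 0 < κ) :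
    ∃ δ c : ℝ, 0 < δ ∧ δ < 1 / 2 ∧ 0 < c ∧ ∃ T₀ : ℝ, ∀ T : ℝ, T₀ ≤ T →
      κ * SN T ≤ ∑ ρ ∈ (Zf T).filter (fun ρ => a₁ ≤ Real.log T * (ρ.re - 1 / 2) ∧
        Real.log T * (ρ.re - 1 / 2) ≤ a₂), mx ρ →
      ENNReal.ofReal (c * T) ≤ volume {t : ℝ | δ * T ≤ t ∧ t ≤ (1 - δ) * T ∧
        ∃ ρ ∈ Zf T, a₁ ≤ Real.log T * (ρ.re - 1 / 2) ∧ Real.log T * (ρ.re - 1 / 2) ≤ a₂ ∧
          Real.log T * |ρ.im - t| ≤ 1 / 2} := by
  obtain ⟨C, T₁, hC, hPhi⟩ := Phi_fourth
  obtain ⟨T₂, hNT⟩ := (eventually_atTop).1 NT_le_ev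
  set k0 : ℝ := κ / (2 * Real.pi) with hk0
  have hk : 0 < k0 := by rw [hk0]; positivity
  set M : ℝ := 12 * (5 / 4) ^ 4 * C / k0 with hM
  have hM0 : 0 < M := by rw [hM]; positivity
  set A : ℝ := M + 1 with hA
  have hA0 : 0 < A := by linarith
  have hA1 : 1 ≤ A := by linarith
  set K₁ : ℝ := 12 * A * C / k0 + 1 with hK₁
  have hK1 : 1 ≤ K₁ := by
    have : 0 < 12 * A * C / k0 := by positivity
    linarith
  set δ : ℝ := min (1 / 8) (k0 / (48 * A)) with hδ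
  have hδ0 : 0 < δ := by rw [hδ]; positivity
  have hδ1 : δ ≤ 1 / 8 := min_le_left _ _
  have hδ2 : δ ≤ k0 / (48 * A) := min_le_right _ _
  refine ⟨2 * δ, 2 / 5 * k0 / K₁, by linarith, by linarith, by positivity,
    max (max T₁ T₂) (max 3 (12 * A / k0)), fun T hT hbad => ?_⟩
  have hT1 : T₁ ≤ T := le_trans (le_trans (le_max_left _ _) (le_max_left _ _)) hT
  have hT2 : T₂ ≤ T := le_trans (le_trans (le_max_right _ _) (le_max_left _ _)) hT
  have hT3 : 3 ≤ T := le_trans (le_trans (le_max_left _ _) (le_max_right _ _)) hT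
  have hT4 : 12 * A / k0 ≤ T := le_trans (le_trans (le_max_right _ _) (le_max_right _ _)) hT
  have hT0 : 0 < T := by linarith
  have hNT' := hNT T hT2
  obtain ⟨hPi, hPb⟩ := hPhi T hT1
  have hL1 : 1 ≤ Real.log T := one_le_log hT3
  set L := Real.log T with hL
  have hL0 : 0 < L := by linarith
  set F := (Zf T).filter (fun ρ => a₁ ≤ L * (ρ.re - 1 / 2) ∧ L * (ρ.re - 1 / 2) ≤ a₂) with hF
  set S : Set ℝ := {t₀ : ℝ | 2 * δ * T ≤ t₀ ∧ t₀ ≤ (1 - 2 * δ) * T ∧ Phi T t₀ ≤ K₁ ∧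
      ∃ ρ ∈ Zf T, a₁ ≤ L * (ρ.re - 1 / 2) ∧ L * (ρ.re - 1 / 2) ≤ a₂ ∧
        L * |ρ.im - t₀| ≤ 1 / 2} with hS
  refine le_trans ?_ (measure_mono (μ := volume) (s := S) fun t ht => ⟨ht.1, ht.2.1, ht.2.2.2⟩)
  have hSsub : S ⊆ Icc (2 * δ * T) ((1 - 2 * δ) * T) := fun t ht => ⟨ht.1, ht.2.1⟩
  have hSfin : volume S ≠ ⊤ :=
    ne_top_of_le_ne_top (by simp) (measure_mono (μ := volume) hSsub)
  set S' := toMeasurable volume S with hS'
  have hS'm : MeasurableSet S' := measurableSet_toMeasurable _ _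
  have hS'v : volume S' = volume S := measure_toMeasurable S
  have hSS' : S ⊆ S' := subset_toMeasurable _ _
  have hs'int : Integrable (S'.indicator (1 : ℝ → ℝ)) := by
    refine (integrable_indicator_iff hS'm).2 ?_
    refine (integrableOn_const (μ := volume) (s := S') (C := (1 : ℝ)) ?_)
    rw [hS'v]; exact hSfin
  have hs'I : ∫ t, S'.indicator (1 : ℝ → ℝ) t = (volume S).toReal := by
    rw [integral_indicator_one hS'm, Measure.real, hS'v]
  set e1 := (Icc (-(1 / (2 * L))) (2 * δ * T)).indicator (1 : ℝ → ℝ) with he1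
  set e2 := (Icc ((1 - 2 * δ) * T) (T + 1 / (2 * L))).indicator (1 : ℝ → ℝ) with he2
  have he1n : ∀ t, 0 ≤ e1 t := fun t => indicator_nonneg (fun _ _ => zero_le_one) _
  have he2n : ∀ t, 0 ≤ e2 t := fun t => indicator_nonneg (fun _ _ => zero_le_one) _
  -- the pointwise inequality
  have hpt : ∀ t, e3b_nbd F L t ≤ 5 / 4 * K₁ * S'.indicator (1 : ℝ → ℝ) t + (A * e1 t + (A * e2 t +
      ((A / K₁ ^ 4 + (5 / 4) ^ 4 / A ^ 3) * Phi T t ^ 4))) := by
    intro t
    have n0 := e3b_nbd_nonneg F L t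
    have n1 : e3b_nbd F L t ≤ 5 / 4 * Phi T t := e3b_nbd_le_Phi (T := T) hL0 (Finset.filter_subset _ _) t
    have n2 := e3b_Phi_nonneg T t
    have n5 : 0 ≤ S'.indicator (1 : ℝ → ℝ) t := indicator_nonneg (fun _ _ => zero_le_one) _
    have m1 : 0 ≤ 5 / 4 * K₁ * S'.indicator (1 : ℝ → ℝ) t := by positivity
    have m2 : 0 ≤ A * e1 t := mul_nonneg hA0.le (he1n t)
    have m3 : 0 ≤ A * e2 t := mul_nonneg hA0.le (he2n t)
    have m4 : 0 ≤ A / K₁ ^ 4 * Phi T t ^ 4 := by positivity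
    have m5 : 0 ≤ (5 / 4) ^ 4 / A ^ 3 * Phi T t ^ 4 := by positivity
    rcases n0.eq_or_lt with hz | hpos
    · rw [← hz]
      linarith only [m1, m2, m3, m4, m5]
    obtain ⟨ρ, hρ, hρt⟩ := e3b_exists_of_nbd_pos hL0 hpos
    rw [hF, Finset.mem_filter] at hρ
    by_cases hSt : t ∈ S
    · have : S'.indicator (1 : ℝ → ℝ) t = 1 := by rw [indicator_of_mem (hSS' hSt)]; rfl
      rw [this]
      have hp : Phi T t ≤ K₁ := hSt.2.2.1
      linarith only [m1, m2, m3, m4, m5, n1, hp]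
    · -- `n ≤ A + n⁴/A³`
      have h4 : e3b_nbd F L t ≤ A + (5 / 4) ^ 4 / A ^ 3 * Phi T t ^ 4 := by
        refine (e3b_le_add_pow hA0 n0).trans ?_
        have : e3b_nbd F L t ^ 4 ≤ (5 / 4 * Phi T t) ^ 4 := pow_le_pow_left₀ n0 n1 4
        have h5 : e3b_nbd F L t ^ 4 / A ^ 3 ≤ (5 / 4 * Phi T t) ^ 4 / A ^ 3 :=
          div_le_div_of_nonneg_right this (by positivity)
        have h6 : (5 / 4 * Phi T t) ^ 4 / A ^ 3 = (5 / 4) ^ 4 / A ^ 3 * Phi T t ^ 4 := by ring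
        linarith only [h5, h6]
      have key : A ≤ A * e1 t + A * e2 t + A / K₁ ^ 4 * Phi T t ^ 4 := by
        have hρ1 : 0 ≤ ρ.im := (mem_Zf.1 hρ.1).2.1
        have hρ2 : ρ.im ≤ T := (mem_Zf.1 hρ.1).2.2
        have hw := (e3b_mem_window hL0 ρ.im t).2 hρt
        rw [mem_Icc] at hw
        by_cases c1 : t < 2 * δ * T
        · have : e1 t = 1 := by
            rw [he1, indicator_of_mem]
            · rfl
            · exact ⟨by linarith only [hw.1, hρ1], c1.le⟩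
          rw [this]
          linarith only [m3, m4]
        by_cases c2 : (1 - 2 * δ) * T < t
        · have : e2 t = 1 := by
            rw [he2, indicator_of_mem]
            · rfl
            · exact ⟨c2.le, by linarith only [hw.2, hρ2]⟩
          rw [this]
          linarith only [m2, m4]
        push Not at c1 c2
        by_cases c3 : K₁ < Phi T t
        · have hh : 1 ≤ Phi T t ^ 4 / K₁ ^ 4 := by
            rw [le_div_iff₀ (by positivity), one_mul]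
            exact pow_le_pow_left₀ (zero_le_one.trans hK1) c3.le 4
          have : A ≤ A / K₁ ^ 4 * Phi T t ^ 4 := by
            have e : A / K₁ ^ 4 * Phi T t ^ 4 = A * (Phi T t ^ 4 / K₁ ^ 4) := by ring
            rw [e]
            exact le_mul_of_one_le_right hA0.le hh
          linarith only [m2, m3, this]
        push Not at c3
        exact absurd ⟨c1, c2, c3, ρ, hρ.1, hρ.2.1, hρ.2.2, hρt⟩ hSt
      have h9 : (A / K₁ ^ 4 + (5 / 4) ^ 4 / A ^ 3) * Phi T t ^ 4 =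
        A / K₁ ^ 4 * Phi T t ^ 4 + (5 / 4) ^ 4 / A ^ 3 * Phi T t ^ 4 := by ring
      rw [h9]
      linarith only [h4, key, m1]
  -- integrate
  have i1 : Integrable (fun t => 5 / 4 * K₁ * S'.indicator (1 : ℝ → ℝ) t) := hs'int.const_mul _
  have i2 : Integrable (fun t => A * e1 t) := (e3b_integrable_ind _ _).const_mul _
  have i3 : Integrable (fun t => A * e2 t) := (e3b_integrable_ind _ _).const_mul _
  have i4 : Integrable (fun t => (A / K₁ ^ 4 + (5 / 4) ^ 4 / A ^ 3) * Phi T t ^ 4) := hPi.const_mul _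
  have i3456 : Integrable (fun t => A * e2 t + ((A / K₁ ^ 4 + (5 / 4) ^ 4 / A ^ 3) * Phi T t ^ 4)) := i3.add i4
  have i23456 : Integrable (fun t => A * e1 t + (A * e2 t +
      ((A / K₁ ^ 4 + (5 / 4) ^ 4 / A ^ 3) * Phi T t ^ 4))) := i2.add i3456
  have hint := integral_mono (e3b_integrable_nbd F L) (i1.add i23456) hpt
  have hE : ∫ t, (5 / 4 * K₁ * S'.indicator (1 : ℝ → ℝ) t + (A * e1 t + (A * e2 t +
      ((A / K₁ ^ 4 + (5 / 4) ^ 4 / A ^ 3) * Phi T t ^ 4)))) =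
      5 / 4 * K₁ * (volume S).toReal + (A * (2 * δ * T + 1 / (2 * L)) + (A * (2 * δ * T + 1 / (2 * L)) +
      ((A / K₁ ^ 4 + (5 / 4) ^ 4 / A ^ 3) * (∫ t, Phi T t ^ 4)))) := by
    have hLi : 0 < 1 / (2 * L) := by positivity
    have hδT : 0 < 2 * δ * T := by positivity
    have hδT2 : (1 - 2 * δ) * T ≤ T := by linarith only [hδT]
    have j1 : ∫ t, e1 t = 2 * δ * T + 1 / (2 * L) := by
      rw [he1, e3b_integral_ind (by linarith only [hδT, hLi])]; ring
    have j2 : ∫ t, e2 t = 2 * δ * T + 1 / (2 * L) := by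
      rw [he2, e3b_integral_ind (by linarith only [hδT2, hLi])]; ring
    rw [integral_add i1 i23456, integral_add i2 i3456, integral_add i3 i4,
      integral_const_mul, integral_const_mul, integral_const_mul, integral_const_mul, hs'I, j1, j2]
  have hint2 : ∫ t, e3b_nbd F L t ≤ 5 / 4 * K₁ * (volume S).toReal + (A * (2 * δ * T + 1 / (2 * L)) +
      (A * (2 * δ * T + 1 / (2 * L)) +
      ((A / K₁ ^ 4 + (5 / 4) ^ 4 / A ^ 3) * (∫ t, Phi T t ^ 4)))) := by
    rw [← hE]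
    exact hint
  rw [e3b_integral_nbd F hL0] at hint2
  -- lower bound for the left side
  have hlow : k0 * T ≤ (∑ ρ ∈ F, mx ρ) / L := by
    rw [le_div_iff₀ hL0]
    refine le_trans (le_of_eq ?_) hbad
    rw [hk0]
    unfold SN
    rw [← hL]
    ring
  -- the error terms
  have u1 : A * (2 * δ * T) ≤ k0 * T / 24 := by
    have : A * δ ≤ k0 / 48 := by
      have := mul_le_mul_of_nonneg_left hδ2 hA0.le
      refine this.trans (le_of_eq ?_)
      field_simp
    have h2 := mul_le_mul_of_nonneg_right this hT0.le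
    linarith only [h2]
  have u2 : A * (1 / (2 * L)) ≤ k0 * T / 24 := by
    have h5 : 1 / (2 * L) ≤ 1 / 2 := by
      rw [div_le_div_iff₀ (by positivity) (by norm_num)]
      linarith only [hL1]
    have h6 : 12 * A ≤ k0 * T := by
      rw [div_le_iff₀ hk] at hT4
      linarith only [hT4]
    have h7 := mul_le_mul_of_nonneg_left h5 hA0.le
    linarith only [h6, h7]
  have hPn : 0 ≤ ∫ t, Phi T t ^ 4 := integral_nonneg fun t => by positivity
  have u3 : A / K₁ ^ 4 * (∫ t, Phi T t ^ 4) ≤ k0 * T / 12 := by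
    have h5 : 12 * A * C / k0 ≤ K₁ ^ 4 := by
      have h6 : K₁ ≤ K₁ ^ 4 := le_self_pow₀ hK1 (by norm_num)
      linarith only [h6, hK₁]
    have h7 : 12 * A * C ≤ K₁ ^ 4 * k0 := by rwa [div_le_iff₀ hk] at h5
    have h8 : A / K₁ ^ 4 * (∫ t, Phi T t ^ 4) ≤ A / K₁ ^ 4 * (C * T) :=
      mul_le_mul_of_nonneg_left hPb (by positivity)
    refine h8.trans ?_
    rw [div_mul_eq_mul_div, div_le_iff₀ (by positivity)]
    have h12 := mul_le_mul_of_nonneg_right h7 hT0.le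
    linarith only [h12]
  have u4 : (5 / 4) ^ 4 / A ^ 3 * (∫ t, Phi T t ^ 4) ≤ k0 * T / 12 := by
    have h5 : M ≤ A ^ 3 := by
      have h6 : A ≤ A ^ 3 := le_self_pow₀ hA1 (by norm_num)
      linarith only [h6, hA]
    have h7 : 12 * (5 / 4) ^ 4 * C ≤ A ^ 3 * k0 := by
      rw [hM, div_le_iff₀ hk] at h5
      exact h5
    have h8 : (5 / 4) ^ 4 / A ^ 3 * (∫ t, Phi T t ^ 4) ≤ (5 / 4) ^ 4 / A ^ 3 * (C * T) :=
      mul_le_mul_of_nonneg_left hPb (by positivity)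
    refine h8.trans ?_
    rw [div_mul_eq_mul_div, div_le_iff₀ (by positivity)]
    have h12 := mul_le_mul_of_nonneg_right h7 hT0.le
    linarith only [h12]
  have hfinal : k0 * T / 2 ≤ 5 / 4 * K₁ * (volume S).toReal := by
    have h9 : (A / K₁ ^ 4 + (5 / 4) ^ 4 / A ^ 3) * (∫ t, Phi T t ^ 4) =
      A / K₁ ^ 4 * (∫ t, Phi T t ^ 4) + (5 / 4) ^ 4 / A ^ 3 * (∫ t, Phi T t ^ 4) := by ring
    rw [h9] at hint2
    have h10 : A * (2 * δ * T + 1 / (2 * L)) = A * (2 * δ * T) + A * (1 / (2 * L)) := by ring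
    rw [h10] at hint2
    linarith only [hint2, hlow, u1, u2, u3, u4, show 0 ≤ k0 * T by positivity]
  rw [ENNReal.ofReal_le_iff_le_toReal hSfin]
  have h11 : 2 / 5 * k0 / K₁ * T = (k0 * T / 2) / (5 / 4 * K₁) := by field_simp; ring
  rw [h11, div_le_iff₀ (by positivity)]
  linarith only [hfinal]

end Pool.Agent.Helper69.GMU
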