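import Pool.Agent.Helper69.GMU.CSD

/-!
# GMU block KAP: a smooth positive definite bump

`κ = k * k` (convolution), `k ≥ 0` a smooth even bump supported in `[-1/2,1/2]`: smooth, even, nonnegative, supported in `[-1,1]`,
`κ 0 = ∫ k² > 0`, `Cs κ = (Cs k)²` (Fubini, `k` even).
-/

open Complex Set MeasureTheory Filter Topology
open Pool.Agent.Helper57.LH Pool.Agent.Helper57.PC Pool.Agent.Helper57.Zeta
open Pool.Agent.Helper69.GGM
open scoped ContDiff

namespace Pool.Agent.Helper69.GMU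

namespace KAPaux

/-- the smooth even bump -/
noncomputable def bmp : ContDiffBump (0 : ℝ) := ⟨1 / 4, 1 / 2, by norm_num, by norm_num⟩

/-- the self convolution of the bump -/
noncomputable def kap (x : ℝ) : ℝ := ∫ t : ℝ, bmp t * bmp (x - t)

theorem kap_eq : kap = convolution (bmp : ℝ → ℝ) (bmp : ℝ → ℝ) (ContinuousLinearMap.mul ℝ ℝ) volume :=
  rfl

theorem bmp_cont : Continuous (bmp : ℝ → ℝ) := bmp.continuous

theorem bmp_zero {x : ℝ} (hx : 1 / 2 ≤ |x|) : bmp x = 0 := by
  refine bmp.zero_of_le_dist ?_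
  rw [Real.dist_eq, sub_zero]
  exact hx

theorem kap_smooth : ContDiff ℝ ∞ kap := by
  rw [kap_eq]
  exact bmp.hasCompactSupport.contDiff_convolution_right _ bmp_cont.locallyIntegrable
    bmp.contDiff

theorem kap_supp (x : ℝ) (hx : x ∉ Icc (-1 : ℝ) 1) : kap x = 0 := by
  have hx' : 1 < |x| := by
    by_contra h
    exact hx (abs_le.1 (not_lt.1 h))
  have h0 : ∀ t : ℝ, bmp t * bmp (x - t) = 0 := by
    intro t
    by_cases ht : 1 / 2 ≤ |t|
    · rw [bmp_zero ht, zero_mul]
    · rw [bmp_zero (x := x - t), mul_zero]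
      have h1 := abs_sub_abs_le_abs_sub x t
      linarith
  rw [kap]
  simp only [h0]
  exact integral_zero _ _

theorem kap_even (x : ℝ) : kap (-x) = kap x := by
  rw [kap, kap, ← integral_neg_eq_self]
  refine integral_congr_ae (Eventually.of_forall fun t => ?_)
  dsimp only
  rw [ContDiffBump.neg]
  have h1 : -x - -t = -(x - t) := by ring
  rw [h1, ContDiffBump.neg]

theorem kap_nonneg (x : ℝ) : 0 ≤ kap x :=
  integral_nonneg fun _ => mul_nonneg bmp.nonneg bmp.nonneg

theorem kap_pos : 0 < kap 0 := by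
  rw [kap]
  have h1 : (fun t : ℝ => bmp t * bmp (0 - t)) = fun t => bmp t * bmp t := by
    funext t
    rw [zero_sub, ContDiffBump.neg]
  rw [h1]
  refine Continuous.integral_pos_of_hasCompactSupport_nonneg_nonzero (x := 0)
    (bmp_cont.mul bmp_cont) bmp.hasCompactSupport.mul_right
    (fun t => mul_nonneg bmp.nonneg bmp.nonneg) ?_
  rw [bmp.one_of_mem_closedBall (Metric.mem_closedBall_self bmp.rIn_pos.le)]
  norm_num

/-- the twisted bump -/
noncomputable def tw (u x : ℝ) : ℂ := (bmp x : ℂ) * Complex.exp ((2 * Real.pi * u * x : ℝ) * I)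

theorem tw_cont (u : ℝ) : Continuous (tw u) := by
  unfold tw
  exact (Complex.continuous_ofReal.comp bmp_cont).mul (by fun_prop)

theorem tw_supp (u : ℝ) : HasCompactSupport (tw u) := by
  refine HasCompactSupport.of_support_subset_isCompact (K := Metric.closedBall 0 (1 / 2))
    (isCompact_closedBall _ _) ?_
  intro x hx
  rw [Function.mem_support] at hx
  rw [Metric.mem_closedBall, Real.dist_eq, sub_zero]
  by_contra h
  apply hx
  rw [tw, bmp_zero (not_le.1 h).le, Complex.ofReal_zero, zero_mul]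

theorem tw_int (u : ℝ) : Integrable (tw u) := (tw_cont u).integrable_of_hasCompactSupport (tw_supp u)

theorem tw_im (u : ℝ) : (∫ x : ℝ, tw u x).im = 0 := by
  have h1 : (starRingEnd ℂ) (∫ x : ℝ, tw u x) = ∫ x : ℝ, tw u x := by
    rw [← integral_conj, ← integral_neg_eq_self]
    refine integral_congr_ae (Eventually.of_forall fun t => ?_)
    dsimp only
    rw [tw, tw, map_mul, ← Complex.exp_conj, map_mul, Complex.conj_I, Complex.conj_ofReal,
      Complex.conj_ofReal, ContDiffBump.neg]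
    congr 2
    push_cast
    ring
  exact Complex.conj_eq_iff_im.1 h1

theorem kap_exp_cont (u : ℝ) :
    Integrable (fun x : ℝ => (kap x : ℂ) * Complex.exp ((2 * Real.pi * u * x : ℝ) * I)) := by
  refine Continuous.integrable_of_hasCompactSupport ?_ ?_
  · exact (Complex.continuous_ofReal.comp kap_smooth.continuous).mul (by fun_prop)
  · refine HasCompactSupport.of_support_subset_isCompact (K := Icc (-1) 1) isCompact_Icc ?_
    intro x hx
    rw [Function.mem_support] at hx
    by_contra h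
    apply hx
    rw [kap_supp x h, Complex.ofReal_zero, zero_mul]

theorem kap_cs (u : ℝ) : Cs kap u = (∫ x : ℝ, tw u x).re ^ 2 := by
  have h1 : ∫ x : ℝ, (kap x : ℂ) * Complex.exp ((2 * Real.pi * u * x : ℝ) * I) =
      (∫ x : ℝ, tw u x) * ∫ x : ℝ, tw u x := by
    have h2 := integral_convolution (μ := (volume : Measure ℝ)) (ν := (volume : Measure ℝ))
      (ContinuousLinearMap.mul ℂ ℂ) (tw_int u) (tw_int u)
    rw [ContinuousLinearMap.mul_apply'] at h2
    rw [← h2]
    refine integral_congr_ae (Eventually.of_forall fun x => ?_)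
    dsimp only
    rw [convolution, kap, ← integral_complex_ofReal, ← integral_mul_const]
    refine integral_congr_ae (Eventually.of_forall fun t => ?_)
    dsimp only
    rw [ContinuousLinearMap.mul_apply', tw, tw]
    have h3 : Complex.exp ((2 * Real.pi * u * x : ℝ) * I) =
        Complex.exp ((2 * Real.pi * u * t : ℝ) * I) *
          Complex.exp ((2 * Real.pi * u * (x - t) : ℝ) * I) := by
      rw [← Complex.exp_add]
      congr 1
      push_cast
      ring
    rw [h3]
    push_cast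
    ring
  have h4 : (∫ x : ℝ, (kap x : ℂ) * Complex.exp ((2 * Real.pi * u * x : ℝ) * I)).re = Cs kap u := by
    rw [Cs, ← Complex.reCLM_apply, ← Complex.reCLM.integral_comp_comm (kap_exp_cont u)]
    refine integral_congr_ae (Eventually.of_forall fun x => ?_)
    dsimp only
    rw [Complex.reCLM_apply, Complex.re_ofReal_mul, Complex.exp_ofReal_mul_I_re]
  rw [← h4, h1, Complex.mul_re, tw_im]
  ring

end KAPaux

open KAPaux

theorem exists_posdef : ∃ κ : ℝ → ℝ, Sm κ (-1) 1 ∧ (∀ x : ℝ, κ (-x) = κ x) ∧ (∀ x : ℝ, 0 ≤ κ x) ∧ 0 < κ 0 ∧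
    ∀ u : ℝ, 0 ≤ Cs κ u :=
  ⟨kap, ⟨kap_smooth, kap_supp⟩, kap_even, kap_nonneg, kap_pos, fun u => by
    rw [kap_cs]
    exact sq_nonneg _⟩

/-- a smooth even cutoff, equal to `1` near `0` -/
theorem exists_cutoff : ∃ χ : ℝ → ℝ, Sm χ (-1) 1 ∧ (∀ x : ℝ, χ (-x) = χ x) ∧ (∀ x : ℝ, 0 ≤ χ x) ∧ (∀ x : ℝ, χ x ≤ 1) ∧
    ∀ x : ℝ, |x| ≤ 1 / 2 → χ x = 1 := by
  let f : ContDiffBump (0 : ℝ) := ⟨1 / 2, 1, by norm_num, by norm_num⟩
  refine ⟨f, ⟨f.contDiff, fun x hx => ?_⟩, fun x => f.neg x, fun x => f.nonneg, fun x => f.le_one,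
    fun x hx => ?_⟩
  · refine f.zero_of_le_dist ?_
    rw [Real.dist_eq, sub_zero]
    by_contra h
    exact hx (abs_le.1 (not_le.1 h).le)
  · refine f.one_of_mem_closedBall ?_
    rw [Metric.mem_closedBall, Real.dist_eq, sub_zero]
    exact hx

/-- a smooth step: `1` on `(-∞,p]`, `0` on `[q,∞)` -/
theorem exists_step {p q : ℝ} (h : p < q) : ∃ s : ℝ → ℝ, ContDiff ℝ ∞ s ∧ (∀ x : ℝ, 0 ≤ s x) ∧ (∀ x : ℝ, s x ≤ 1) ∧
    (∀ x : ℝ, x ≤ p → s x = 1) ∧ ∀ x : ℝ, q ≤ x → s x = 0 := by
  have hpq : 0 < q - p := sub_pos.2 h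
  refine ⟨fun x => Real.smoothTransition ((q - x) / (q - p)), ?_, fun x =>
    Real.smoothTransition.nonneg _, fun x => Real.smoothTransition.le_one _, fun x hx => ?_,
    fun x hx => ?_⟩
  · exact Real.smoothTransition.contDiff.comp ((contDiff_const.sub contDiff_id).div_const _)
  · refine Real.smoothTransition.one_of_one_le ?_
    rw [le_div_iff₀ hpq]
    linarith
  · refine Real.smoothTransition.zero_of_nonpos ?_
    exact div_nonpos_of_nonpos_of_nonneg (by linarith) hpq.le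

/-- a smooth bump, equal to `1` on `[a,b]`, zero off `[a',b']` -/
theorem exists_bump {a' a b b' : ℝ} (h1 : a' < a) (h2 : a ≤ b) (h3 : b < b') : ∃ κ : ℝ → ℝ, Sm κ a' b' ∧
    (∀ x : ℝ, 0 ≤ κ x) ∧ (∀ x : ℝ, κ x ≤ 1) ∧ ∀ x ∈ Icc a b, κ x = 1 := by
  obtain ⟨s, hs, hs0, hs1, hs2, hs3⟩ := exists_step h3
  obtain ⟨r, hr, hr0, hr1, hr2, hr3⟩ := exists_step (neg_lt_neg h1)
  refine ⟨fun x => s x * r (-x), ⟨hs.mul (hr.comp contDiff_neg), fun x hx => ?_⟩,
    fun x => mul_nonneg (hs0 x) (hr0 _), fun x => mul_le_one₀ (hs1 x) (hr0 _) (hr1 _),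
    fun x hx => ?_⟩
  · rw [mem_Icc, not_and_or, not_le, not_le] at hx
    rcases hx with hx | hx
    · rw [hr3 (-x) (by linarith), mul_zero]
    · rw [hs3 x hx.le, zero_mul]
  · change s x * r (-x) = 1
    rw [hs2 x hx.2, hr2 (-x) (by linarith [hx.1]), one_mul]

end Pool.Agent.Helper69.GMU
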