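import Pool.Agent.Helper69.GMU.CSD

/-!
# GMU block NR: the pair law near frequency zero, from the large scale law

`Pool.Agent.Helper57.UB.large_scale_full` (`M/H.lean`; see `Pool/Agent/Results/MP_8958e8_nt/LargeScaleLaw.lean` for its use): for every Schwartz `g`
there is `C` with `|WP T (g(·/R)) - SN T (g 0 + ∫ g(u/R)(F(u)+KD T u) du)| ≤ C/R² SN T` for `T ≥ T₀`, `0 < R ≤ T^(1/250)` (centre `s = 0`), and
`|KD T u| ≤ c(1+|u|)/log T` (`KD_small`). Write `χ_δ α = χ(α/δ)`, `G = Cs χ` (Schwartz, even, `∫ G = χ 0 = 1`): `Cs χ_δ u = δ G(δu)` (`Cs_dilate`).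
With `R = 1/δ`: `WP T (Cs χ_δ)/SN T = δ G 0 + δ∫ G(δu) pcDensity u du + o(1) + O(δ³)`; `δ∫ G(δu) pcDensity u du = 1 - O(δ)`
(`pcDensity = 1 - sq`, `∫ sq = 1`, `0 ≤ sq`). Next `h - h 0 = O(α²)` near `0` (`h` even, `C²`), so `ψ_δ α = (h α - h 0) χ(α/δ)` is `δ² k_δ(α/δ)` with
`k_δ(y) = δ^(-2)(h(δy) - h 0) χ y`, whose derivatives up to order two are bounded uniformly in `0 < δ ≤ 1`; so
`|Cs ψ_δ u| ≤ C δ² · δ/(1+(δu)²) ≤ C' δ² Pk (2π/δ) u` and `WP_le_of_Pk` (`c = 2π/δ ≤ 5 log T` eventually) gives `|WP T (Cs ψ_δ)| ≤ C'' δ² SN T`.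
Total: `WP T (Cs (h χ_δ))/SN T = h 0 + O(δ) + o(1)`.
-/

open Complex Set MeasureTheory Filter Topology
open Pool.Agent.Helper57.LH Pool.Agent.Helper57.PC Pool.Agent.Helper57.Zeta
open Pool.Agent.Helper69.GGM
open scoped ContDiff SchwartzMap FourierTransform

namespace Pool.Agent.Helper69.GMU

theorem nr63_hcs {χ : ℝ → ℝ} {a b : ℝ} (h : Sm χ a b) : HasCompactSupport χ :=
  HasCompactSupport.intro (isCompact_Icc (a := a) (b := b)) (fun x hx => h.supp x hx)

theorem nr63_int {χ : ℝ → ℝ} {a b : ℝ} (h : Sm χ a b) : Integrable χ :=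
  h.smooth.continuous.integrable_of_hasCompactSupport (nr63_hcs h)

theorem nr63_schwartz {χ : ℝ → ℝ} {a b : ℝ} (h : Sm χ a b) (he : ∀ x : ℝ, χ (-x) = χ x) :
    ∃ G : 𝓢(ℝ, ℝ), ∀ u : ℝ, G u = Cs χ u := by
  have hs : ContDiff ℝ ∞ fun x : ℝ => ((χ x : ℝ) : ℂ) := Complex.ofRealCLM.contDiff.comp h.smooth
  have hc : HasCompactSupport fun x : ℝ => ((χ x : ℝ) : ℂ) :=
    (nr63_hcs h).comp_left (g := fun x : ℝ => (x : ℂ)) (by simp)
  refine ⟨(𝓕 (hc.toSchwartzMap hs)).postcompCLM (𝕜 := ℝ) Complex.reCLM, fun u => ?_⟩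
  rw [SchwartzMap.postcompCLM_apply, SchwartzMap.fourier_coe]
  have h1 := Pool.Agent.Helper4.PC.fourier_eq_CT (nr63_int h) he u
  have h2 : ((hc.toSchwartzMap hs : 𝓢(ℝ, ℂ)) : ℝ → ℂ) = fun x : ℝ => ((χ x : ℝ) : ℂ) := rfl
  rw [h2, h1]
  rfl

/-- two integrations by parts -/
theorem nr63_ibp {k k1 k2 : ℝ → ℝ} (hk : ∀ y, HasDerivAt k (k1 y) y)
    (hk1 : ∀ y, HasDerivAt k1 (k2 y) y) (c2 : Continuous k2) (s0 : HasCompactSupport k)
    (s1 : HasCompactSupport k1) (s2 : HasCompactSupport k2) (v : ℝ) :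
    |Cs k v| * (1 + (2 * Real.pi * v) ^ 2) ≤ (∫ y, |k y|) + ∫ y, |k2 y| := by
  have c0 : Continuous k := continuous_iff_continuousAt.2 fun y => (hk y).continuousAt
  have c1 : Continuous k1 := continuous_iff_continuousAt.2 fun y => (hk1 y).continuousAt
  obtain ⟨w, hw⟩ : ∃ w, w = 2 * Real.pi * v := ⟨_, rfl⟩
  have hsin : ∀ y : ℝ, HasDerivAt (fun y => Real.sin (w * y)) (w * Real.cos (w * y)) y := by
    intro y
    have h1 : HasDerivAt (fun y : ℝ => w * y) w y := by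
      simpa using (hasDerivAt_id y).const_mul w
    have h2 := h1.sin
    rw [mul_comm] at h2
    exact h2
  have hcos : ∀ y : ℝ, HasDerivAt (fun y => Real.cos (w * y)) (-(w * Real.sin (w * y))) y := by
    intro y
    have h1 : HasDerivAt (fun y : ℝ => w * y) w y := by
      simpa using (hasDerivAt_id y).const_mul w
    have h2 := h1.cos
    have h3 : -Real.sin (w * y) * w = -(w * Real.sin (w * y)) := by ring
    rw [h3] at h2
    exact h2
  have hi : ∀ f g : ℝ → ℝ, Continuous f → HasCompactSupport f → Continuous g →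
      Integrable (f * g) := fun f g hf hs hg =>
    (hf.mul hg).integrable_of_hasCompactSupport hs.mul_right
  have hA := integral_mul_deriv_eq_deriv_mul_of_integrable (fun x _ => hk x) (fun x _ => hsin x)
    (hi _ _ c0 s0 (by fun_prop)) (hi _ _ c1 s1 (by fun_prop)) (hi _ _ c0 s0 (by fun_prop))
  have hB := integral_mul_deriv_eq_deriv_mul_of_integrable (fun x _ => hk1 x) (fun x _ => hcos x)
    (hi _ _ c1 s1 (by fun_prop)) (hi _ _ c2 s2 (by fun_prop)) (hi _ _ c1 s1 (by fun_prop))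
  have hA' : w * Cs k v = - ∫ y, k1 y * Real.sin (w * y) := by
    rw [← hA]
    unfold Cs
    rw [← integral_const_mul]
    congr 1
    funext y
    rw [← hw]
    ring
  have hB' : w * (∫ y, k1 y * Real.sin (w * y)) = ∫ y, k2 y * Real.cos (w * y) := by
    have h1 : (∫ y, k1 y * -(w * Real.sin (w * y))) = -(w * ∫ y, k1 y * Real.sin (w * y)) := by
      rw [← integral_const_mul, ← integral_neg]
      congr 1
      funext y
      ring
    rw [h1] at hB
    linarith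
  have h3 : w ^ 2 * Cs k v = - ∫ y, k2 y * Real.cos (w * y) := by
    rw [← hB']
    linear_combination w * hA'
  have hbd : ∀ f : ℝ → ℝ, Continuous f → HasCompactSupport f →
      |∫ y, f y * Real.cos (w * y)| ≤ ∫ y, |f y| := by
    intro f hf hs
    refine (norm_integral_le_integral_norm (fun y => f y * Real.cos (w * y))).trans ?_
    refine integral_mono_of_nonneg (Eventually.of_forall fun y => norm_nonneg _)
      (hf.abs.integrable_of_hasCompactSupport (hs.comp_left (g := fun x => |x|) abs_zero)) ?_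
    refine Eventually.of_forall fun y => ?_
    show ‖f y * Real.cos (w * y)‖ ≤ |f y|
    rw [norm_mul]
    exact mul_le_of_le_one_right (norm_nonneg _) (Real.abs_cos_le_one _)
  have h4 : |Cs k v| ≤ ∫ y, |k y| := by
    have h5 := hbd k c0 s0
    unfold Cs
    rw [← hw]
    exact h5
  have h5 : |w ^ 2 * Cs k v| ≤ ∫ y, |k2 y| := by
    rw [h3, abs_neg]
    exact hbd k2 c2 s2
  rw [← hw]
  calc |Cs k v| * (1 + w ^ 2) = |Cs k v| + |w ^ 2 * Cs k v| := by
        rw [abs_mul, abs_of_nonneg (sq_nonneg w)]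
        ring
    _ ≤ _ := add_le_add h4 h5

theorem nr63_zero_deriv {f : ℝ → ℝ} {a b : ℝ} (h : ∀ x : ℝ, x ∉ Icc a b → f x = 0) :
    ∀ x : ℝ, x ∉ Icc a b → deriv f x = 0 := by
  intro x hx
  have h1 : f =ᶠ[𝓝 x] fun _ => 0 := by
    filter_upwards [isClosed_Icc.isOpen_compl.mem_nhds hx] with y hy
    exact h y hy
  rw [h1.deriv_eq]
  exact deriv_const _ _

theorem nr63_L1 {f : ℝ → ℝ} {B : ℝ} (h : ∀ x : ℝ, x ∉ Icc (-1 : ℝ) 1 → f x = 0)
    (hB : ∀ x ∈ Icc (-1 : ℝ) 1, |f x| ≤ B) : ∫ x, |f x| ≤ 2 * B := by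
  have h1 : ∫ x, |f x| = ∫ x in Icc (-1 : ℝ) 1, |f x| :=
    (setIntegral_eq_integral_of_forall_compl_eq_zero fun x hx => by rw [h x hx, abs_zero]).symm
  rw [h1]
  have h2 := norm_setIntegral_le_of_norm_le_const (μ := volume) (s := Icc (-1 : ℝ) 1)
    (f := fun x => |f x|) (C := B) (by rw [Real.volume_Icc]; exact ENNReal.ofReal_lt_top)
    (fun x hx => by rw [Real.norm_eq_abs, abs_abs]; exact hB x hx)
  have h3 : (volume : Measure ℝ).real (Icc (-1 : ℝ) 1) = 2 := by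
    rw [Real.volume_real_Icc]
    norm_num
  rw [h3] at h2
  exact (le_abs_self _).trans (h2.trans (le_of_eq (mul_comm _ _)))

theorem nr63_bdd {f : ℝ → ℝ} (hf : Continuous f) (hs : HasCompactSupport f) :
    ∃ C : ℝ, 0 ≤ C ∧ ∀ x, |f x| ≤ C := by
  obtain ⟨C, hC⟩ := hf.bounded_above_of_compact_support hs
  exact ⟨C, (norm_nonneg _).trans (hC 0), hC⟩

/-- uniform bound for `(h (δ y) - h 0) χ y` -/
theorem nr63_unif {h χ : ℝ → ℝ} {b : ℝ} (hh : Sm h (-b) b) (hχ : Sm χ (-1) 1) :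
    ∃ C : ℝ, 0 ≤ C ∧ ∀ δ : ℝ, 0 < δ → δ ≤ 1 → ∀ v : ℝ,
      |Cs (fun y => (h (δ * y) - h 0) * χ y) v| * (1 + (2 * Real.pi * v) ^ 2) ≤ C * δ := by
  have hd : ∀ {f : ℝ → ℝ} {a b : ℝ}, Sm f a b → Sm (deriv f) a b := by
    intro f a b hf
    refine ⟨?_, nr63_zero_deriv hf.supp⟩
    have h1 := hf.smooth
    exact (contDiff_infty_iff_deriv.1 h1).2
  have hdiff : ∀ {f : ℝ → ℝ} {a b : ℝ}, Sm f a b → ∀ x, HasDerivAt f (deriv f x) x := by
    intro f a b hf x
    exact ((hf.smooth.differentiable (by simp)) x).hasDerivAt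
  have hh1 := hd hh
  have hh2 := hd hh1
  have hχ1 := hd hχ
  have hχ2 := hd hχ1
  obtain ⟨H1, hH1, bH1⟩ := nr63_bdd hh1.smooth.continuous (nr63_hcs hh1)
  obtain ⟨H2, hH2, bH2⟩ := nr63_bdd hh2.smooth.continuous (nr63_hcs hh2)
  obtain ⟨X0, hX0, bX0⟩ := nr63_bdd hχ.smooth.continuous (nr63_hcs hχ)
  obtain ⟨X1, hX1, bX1⟩ := nr63_bdd hχ1.smooth.continuous (nr63_hcs hχ1)
  obtain ⟨X2, hX2, bX2⟩ := nr63_bdd hχ2.smooth.continuous (nr63_hcs hχ2)
  refine ⟨2 * (H1 * X0) + 2 * (H2 * X0 + 2 * (H1 * X1) + H1 * X2), by positivity, ?_⟩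
  intro δ hδ hδ1 v
  have hmvt : ∀ y ∈ Icc (-1 : ℝ) 1, |h (δ * y) - h 0| ≤ H1 * δ := by
    intro y hy
    have h1 := Convex.norm_image_sub_le_of_norm_deriv_le (f := h) (C := H1) (s := univ) (x := 0)
      (y := δ * y) (fun x _ => (hdiff hh x).differentiableAt) (fun x _ => bH1 x) convex_univ
      (mem_univ _) (mem_univ _)
    rw [sub_zero, Real.norm_eq_abs, Real.norm_eq_abs, abs_mul, abs_of_pos hδ] at h1
    refine h1.trans ?_
    refine mul_le_mul_of_nonneg_left ?_ hH1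
    exact mul_le_of_le_one_right hδ.le (abs_le.2 hy)
  have hlin : ∀ {f : ℝ → ℝ} {a b : ℝ}, Sm f a b → ∀ y : ℝ,
      HasDerivAt (fun y => f (δ * y)) (δ * deriv f (δ * y)) y := by
    intro f a b hf y
    have h1 : HasDerivAt (fun y : ℝ => δ * y) δ y := by
      simpa using (hasDerivAt_id y).const_mul δ
    have h2 := (hdiff hf (δ * y)).comp y h1
    rw [mul_comm] at h2
    exact h2
  have e0 : ∀ y, HasDerivAt (fun y => (h (δ * y) - h 0) * χ y)
      (δ * deriv h (δ * y) * χ y + (h (δ * y) - h 0) * deriv χ y) y := fun y =>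
    ((hlin hh y).sub_const _).mul (hdiff hχ y)
  have e1 : ∀ y, HasDerivAt (fun y => δ * deriv h (δ * y) * χ y + (h (δ * y) - h 0) * deriv χ y)
      (δ ^ 2 * deriv (deriv h) (δ * y) * χ y + 2 * (δ * deriv h (δ * y) * deriv χ y) +
        (h (δ * y) - h 0) * deriv (deriv χ) y) y := by
    intro y
    have h1 := (((hlin hh1 y).const_mul δ).mul (hdiff hχ y)).add
      (((hlin hh y).sub_const (h 0)).mul (hdiff hχ1 y))
    refine h1.congr_deriv ?_
    ring
  have z0 : ∀ y, y ∉ Icc (-1 : ℝ) 1 → (h (δ * y) - h 0) * χ y = 0 := fun y hy => by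
    rw [hχ.supp y hy, mul_zero]
  have z1 : ∀ y, y ∉ Icc (-1 : ℝ) 1 →
      δ * deriv h (δ * y) * χ y + (h (δ * y) - h 0) * deriv χ y = 0 := fun y hy => by
    rw [hχ.supp y hy, hχ1.supp y hy]; ring
  have z2 : ∀ y, y ∉ Icc (-1 : ℝ) 1 →
      δ ^ 2 * deriv (deriv h) (δ * y) * χ y + 2 * (δ * deriv h (δ * y) * deriv χ y) +
        (h (δ * y) - h 0) * deriv (deriv χ) y = 0 := fun y hy => by
    rw [hχ.supp y hy, hχ1.supp y hy, hχ2.supp y hy]; ring
  have c2 : Continuous (fun y => δ ^ 2 * deriv (deriv h) (δ * y) * χ y +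
      2 * (δ * deriv h (δ * y) * deriv χ y) + (h (δ * y) - h 0) * deriv (deriv χ) y) := by
    have a0 := hh.smooth.continuous
    have a1 := hh1.smooth.continuous
    have a2 := hh2.smooth.continuous
    have b0 := hχ.smooth.continuous
    have b1 := hχ1.smooth.continuous
    have b2 := hχ2.smooth.continuous
    have l : Continuous fun y : ℝ => δ * y := by fun_prop
    exact (((continuous_const.mul (a2.comp l)).mul b0).add
      (continuous_const.mul ((continuous_const.mul (a1.comp l)).mul b1))).add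
      (((a0.comp l).sub continuous_const).mul b2)
  have h1 := nr63_ibp e0 e1 c2 (HasCompactSupport.intro isCompact_Icc z0)
    (HasCompactSupport.intro isCompact_Icc z1) (HasCompactSupport.intro isCompact_Icc z2) v
  refine h1.trans ?_
  have h2 := nr63_L1 (B := H1 * X0 * δ) z0 (fun y hy => by
    rw [abs_mul]
    calc |h (δ * y) - h 0| * |χ y| ≤ (H1 * δ) * X0 :=
          mul_le_mul (hmvt y hy) (bX0 y) (abs_nonneg _) (by positivity)
      _ = H1 * X0 * δ := by ring)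
  have h3 := nr63_L1 (B := (H2 * X0 + 2 * (H1 * X1) + H1 * X2) * δ) z2 (fun y hy => by
    have t1 : |δ ^ 2 * deriv (deriv h) (δ * y) * χ y| ≤ δ * (H2 * X0) := by
      rw [abs_mul, abs_mul, abs_of_nonneg (by positivity : 0 ≤ δ ^ 2)]
      have t2 : δ ^ 2 ≤ δ := by nlinarith
      calc δ ^ 2 * |deriv (deriv h) (δ * y)| * |χ y| ≤ δ * H2 * X0 := by
            refine mul_le_mul (mul_le_mul t2 (bH2 _) (abs_nonneg _) hδ.le) (bX0 y)
              (abs_nonneg _) (by positivity)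
        _ = δ * (H2 * X0) := by ring
    have t3 : |2 * (δ * deriv h (δ * y) * deriv χ y)| ≤ δ * (2 * (H1 * X1)) := by
      rw [abs_mul, abs_mul, abs_mul, abs_of_pos hδ, abs_of_pos (by norm_num : (0 : ℝ) < 2)]
      calc 2 * (δ * |deriv h (δ * y)| * |deriv χ y|) ≤ 2 * (δ * H1 * X1) := by
            refine mul_le_mul_of_nonneg_left ?_ (by norm_num)
            refine mul_le_mul (mul_le_mul_of_nonneg_left (bH1 _) hδ.le) (bX1 y)
              (abs_nonneg _) (by positivity)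
        _ = δ * (2 * (H1 * X1)) := by ring
    have t4 : |(h (δ * y) - h 0) * deriv (deriv χ) y| ≤ δ * (H1 * X2) := by
      rw [abs_mul]
      calc |h (δ * y) - h 0| * |deriv (deriv χ) y| ≤ (H1 * δ) * X2 :=
            mul_le_mul (hmvt y hy) (bX2 y) (abs_nonneg _) (by positivity)
        _ = δ * (H1 * X2) := by ring
    refine (abs_add_three _ _ _).trans ?_
    calc _ ≤ δ * (H2 * X0) + δ * (2 * (H1 * X1)) + δ * (H1 * X2) := by
          linarith
      _ = (H2 * X0 + 2 * (H1 * X1) + H1 * X2) * δ := by ring)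
  calc _ ≤ 2 * (H1 * X0 * δ) + 2 * ((H2 * X0 + 2 * (H1 * X1) + H1 * X2) * δ) :=
        add_le_add h2 h3
    _ = _ := by ring


/-- the law for the dilated window -/
theorem nr63_main {χ : ℝ → ℝ} (hχ : Sm χ (-1) 1) (hχe : ∀ x : ℝ, χ (-x) = χ x) (hχ0 : χ 0 = 1) :
    ∃ C : ℝ, 0 ≤ C ∧ ∀ δ : ℝ, 0 < δ → δ ≤ 1 → ∀ᶠ T : ℝ in atTop,
      |WP T (Cs (fun α => χ (α / δ))) / SN T - 1| ≤ C * δ := by
  obtain ⟨G, hG⟩ := nr63_schwartz hχ hχe
  have hGf : (G : ℝ → ℝ) = Cs χ := funext hG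
  have hCT : Cs χ = Pool.Agent.Helper4.PC.CT χ := rfl
  have hGint : Integrable (G : ℝ → ℝ) := G.integrable
  have hGone : ∫ u, G u = 1 := by
    have h1 := Pool.Agent.Helper4.PC.CT_CT hχ.smooth.continuous (nr63_int hχ) hχe
      (by rw [← hCT, ← hGf]; exact hGint) 0
    rw [hχ0] at h1
    rw [← h1]
    unfold Pool.Agent.Helper4.PC.CT
    congr 1
    funext ξ
    rw [hG ξ]
    unfold Cs
    simp
  obtain ⟨M, hM, bM⟩ : ∃ M : ℝ, 0 ≤ M ∧ ∀ u, |G u| ≤ M := by
    refine ⟨∫ x, |χ x|, integral_nonneg fun x => abs_nonneg _, fun u => ?_⟩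
    rw [hG u]
    unfold Cs
    refine (norm_integral_le_integral_norm (fun α => χ α * Real.cos (2 * Real.pi * u * α))).trans ?_
    refine integral_mono_of_nonneg (Eventually.of_forall fun y => norm_nonneg _)
      (nr63_int hχ).abs (Eventually.of_forall fun y => ?_)
    show ‖χ y * Real.cos (2 * Real.pi * u * y)‖ ≤ |χ y|
    rw [norm_mul]
    exact mul_le_of_le_one_right (norm_nonneg _) (Real.abs_cos_le_one _)
  obtain ⟨T₀, hT₀, hls⟩ := Pool.Agent.Helper57.UB.large_scale_full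
  obtain ⟨K, hK, hKT⟩ := hls G
  obtain ⟨c, hc⟩ : ∃ c : ℝ, ∀ T : ℝ, 3 ≤ T → ∀ u : ℝ,
      |Pool.Agent.Helper57.UB.KD T u| ≤ c * (1 + |u|) / Real.log T :=
    ⟨_, fun T hT u => Pool.Agent.Helper57.UB.KD_small hT u⟩
  refine ⟨K + M + M + 1, by positivity, ?_⟩
  intro δ hδ hδ1
  -- integrability of dilations
  have hδ0 : δ ≠ 0 := hδ.ne'
  have i1 : Integrable (fun u => G (δ * u)) := hGint.comp_mul_left' hδ0
  have i2 : Integrable (fun u => |G (δ * u)| * (1 + |u|)) := by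
    have h1 : Integrable (fun x : ℝ => ‖x‖ ^ 1 * ‖G x‖) := G.integrable_pow_mul volume 1
    have h2 := (h1.comp_mul_left' hδ0).const_mul (1 / δ)
    refine (i1.abs.add h2).congr (Eventually.of_forall fun u => ?_)
    show |G (δ * u)| + 1 / δ * (‖δ * u‖ ^ 1 * ‖G (δ * u)‖) = |G (δ * u)| * (1 + |u|)
    rw [pow_one, Real.norm_eq_abs, Real.norm_eq_abs, abs_mul, abs_of_pos hδ]
    field_simp
  have hint1 : ∫ u, G (δ * u) = 1 / δ := by
    have h1 := Measure.integral_comp_mul_left (fun x => G x) δ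
    rw [h1, hGone, abs_of_pos (inv_pos.2 hδ), smul_eq_mul, mul_one, one_div]
  obtain ⟨J, hJ⟩ : ∃ J : ℝ, J = ∫ u, |G (δ * u)| * (1 + |u|) := ⟨_, rfl⟩
  have hev1 : ∀ᶠ T : ℝ in atTop, 1 / δ ≤ T ^ (1 / 250 : ℝ) :=
    (tendsto_rpow_atTop (by norm_num)).eventually_ge_atTop _
  have hev2 : ∀ᶠ T : ℝ in atTop, |c| * J ≤ Real.log T :=
    Real.tendsto_log_atTop.eventually_ge_atTop _
  filter_upwards [hev1, hev2, eventually_ge_atTop T₀, eventually_ge_atTop (3 : ℝ)] with T h1 h2 h3 h4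
  have hlog : 0 < Real.log T := Real.log_pos (by linarith)
  have hSN : 0 < SN T := by
    unfold SN
    have := Real.pi_pos
    have : 0 < T := by linarith
    positivity
  have h5 := hKT T h3 (1 / δ) 0 (by positivity) h1 (by rw [abs_zero]; positivity)
  have h6 : (fun u : ℝ => G ((u - 0) / (1 / δ))) = fun u => G (δ * u) := by
    funext u
    congr 1
    field_simp
    ring
  rw [h6] at h5
  have h7 : Cs (fun α => χ (α / δ)) = fun u => δ * G (δ * u) := by
    funext u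
    have h8 := Cs_dilate χ (lam := 1 / δ) (by positivity) u
    have h9 := Cs_smul δ (fun α => 1 / δ * χ (1 / δ * α)) u
    rw [h8] at h9
    have h10 : (fun α => δ * (1 / δ * χ (1 / δ * α))) = fun α => χ (α / δ) := by
      funext α
      rw [← mul_assoc, mul_one_div_cancel hδ0, one_mul]
      congr 1
      field_simp
    rw [h10] at h9
    rw [h9, hG]
    congr 2
    field_simp
  rw [h7, WP_smul]
  -- the density
  have hKDm : AEStronglyMeasurable (Pool.Agent.Helper57.UB.KD T) volume :=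
    (Pool.Agent.Helper57.UB.KD_cont T).aestronglyMeasurable
  have i3 : Integrable (fun u => G (δ * u) * Helper57.PC.sq u) := by
    refine (i1.abs).mono' (i1.aestronglyMeasurable.mul measurable_sq.aestronglyMeasurable)
      (Eventually.of_forall fun u => ?_)
    rw [norm_mul]
    exact mul_le_of_le_one_right (norm_nonneg _) (norm_sq_le_one u)
  have hcu : ∀ u, ‖G (δ * u) * Pool.Agent.Helper57.UB.KD T u‖ ≤
      |c| / Real.log T * (|G (δ * u)| * (1 + |u|)) := by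
    intro u
    rw [norm_mul, Real.norm_eq_abs, Real.norm_eq_abs]
    have h8 := hc T h4 u
    have h9 : c * (1 + |u|) / Real.log T ≤ |c| * (1 + |u|) / Real.log T := by
      refine div_le_div_of_nonneg_right ?_ hlog.le
      exact mul_le_mul_of_nonneg_right (le_abs_self c) (by positivity)
    calc |G (δ * u)| * |Pool.Agent.Helper57.UB.KD T u|
        ≤ |G (δ * u)| * (|c| * (1 + |u|) / Real.log T) :=
          mul_le_mul_of_nonneg_left (h8.trans h9) (abs_nonneg _)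
      _ = _ := by ring
  have i4 : Integrable (fun u => G (δ * u) * Pool.Agent.Helper57.UB.KD T u) :=
    (i2.const_mul (|c| / Real.log T)).mono' (i1.aestronglyMeasurable.mul hKDm)
      (Eventually.of_forall hcu)
  have h8 : ∫ u, G (δ * u) * Pool.Agent.Helper57.UB.rh T u =
      1 / δ - (∫ u, G (δ * u) * Helper57.PC.sq u) + ∫ u, G (δ * u) * Pool.Agent.Helper57.UB.KD T u := by
    have i5 : Integrable (fun u => G (δ * u) - G (δ * u) * Helper57.PC.sq u) := i1.sub i3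
    rw [← hint1, ← integral_sub i1 i3, ← integral_add i5 i4]
    congr 1
    funext u
    unfold Pool.Agent.Helper57.UB.rh
    rw [pcDensity_eq]
    ring
  have h9 : |∫ u, G (δ * u) * Helper57.PC.sq u| ≤ M := by
    have h10 : ∫ u, Helper57.PC.sq u = 1 := by
      rw [← Pool.Agent.Helper57.LH.sc_integral]
      exact (integral_congr_ae Pool.Agent.Helper57.LH.sc_ae).symm
    have h11 : Integrable Helper57.PC.sq := Pool.Agent.Helper57.LH.sc_integrable.congr
      Pool.Agent.Helper57.LH.sc_ae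
    refine (norm_integral_le_integral_norm (fun u => G (δ * u) * Helper57.PC.sq u)).trans ?_
    calc ∫ u, ‖G (δ * u) * Helper57.PC.sq u‖ ≤ ∫ u, M * Helper57.PC.sq u := by
          refine integral_mono i3.norm (h11.const_mul M) fun u => ?_
          show ‖G (δ * u) * Helper57.PC.sq u‖ ≤ M * Helper57.PC.sq u
          rw [norm_mul, Real.norm_of_nonneg (sq_nonneg' u)]
          exact mul_le_mul_of_nonneg_right (bM _) (sq_nonneg' u)
      _ = M := by rw [integral_const_mul, h10, mul_one]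
  have h10 : |∫ u, G (δ * u) * Pool.Agent.Helper57.UB.KD T u| ≤ 1 := by
    refine (norm_integral_le_integral_norm
      (fun u => G (δ * u) * Pool.Agent.Helper57.UB.KD T u)).trans ?_
    calc ∫ u, ‖G (δ * u) * Pool.Agent.Helper57.UB.KD T u‖
        ≤ ∫ u, |c| / Real.log T * (|G (δ * u)| * (1 + |u|)) :=
          integral_mono i4.norm (i2.const_mul _) hcu
      _ = |c| * J / Real.log T := by rw [integral_const_mul, ← hJ]; ring
      _ ≤ 1 := by rw [div_le_one hlog]; exact h2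
  have h11 : |WP T (fun u => G (δ * u)) / SN T - (G 0 + ∫ u, G (δ * u) *
      Pool.Agent.Helper57.UB.rh T u)| ≤ K * δ ^ 2 := by
    unfold Pool.Agent.Helper57.UB.EF at h5
    simp only [mul_zero] at h5
    have h12 : K / (1 / δ) ^ 2 = K * δ ^ 2 := by field_simp
    rw [h12] at h5
    have h13 : WP T (fun u => G (δ * u)) / SN T - (G 0 + ∫ u, G (δ * u) *
        Pool.Agent.Helper57.UB.rh T u) = (WP T (fun u => G (δ * u)) - SN T * (G 0 + ∫ u, G (δ * u) *
        Pool.Agent.Helper57.UB.rh T u)) / SN T := by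
      field_simp
    rw [h13, abs_div, abs_of_pos hSN, div_le_iff₀ hSN]
    exact h5
  have h12 : δ * WP T (fun u => G (δ * u)) / SN T - 1 = δ * ((WP T (fun u => G (δ * u)) / SN T -
      (G 0 + ∫ u, G (δ * u) * Pool.Agent.Helper57.UB.rh T u)) + G 0 - (∫ u, G (δ * u) * Helper57.PC.sq u) +
        ∫ u, G (δ * u) * Pool.Agent.Helper57.UB.KD T u) := by
    rw [h8]
    field_simp
    ring
  rw [h12, abs_mul, abs_of_pos hδ, mul_comm]
  refine mul_le_mul_of_nonneg_right ?_ hδ.le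
  have h13 : K * δ ^ 2 ≤ K := mul_le_of_le_one_right hK (by nlinarith)
  have h14 := bM 0
  obtain ⟨a, ha⟩ : ∃ a : ℝ, a = WP T (fun u => G (δ * u)) / SN T - (G 0 + ∫ u, G (δ * u) *
      Pool.Agent.Helper57.UB.rh T u) := ⟨_, rfl⟩
  obtain ⟨b, hb⟩ : ∃ b : ℝ, b = ∫ u, G (δ * u) * Helper57.PC.sq u := ⟨_, rfl⟩
  obtain ⟨d, hd⟩ : ∃ d : ℝ, d = ∫ u, G (δ * u) * Pool.Agent.Helper57.UB.KD T u := ⟨_, rfl⟩
  rw [← ha] at h11 ⊢
  rw [← hb] at h9 ⊢
  rw [← hd] at h10 ⊢
  rw [abs_le] at h9 h10 h11 h14 ⊢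
  constructor <;> linarith [h9.1, h9.2, h10.1, h10.2, h11.1, h11.2, h14.1, h14.2]

theorem near_zero_law {h χ : ℝ → ℝ} {b : ℝ} (hh : Sm h (-b) b) (he : ∀ x : ℝ, h (-x) = h x)
    (hχ : Sm χ (-1) 1) (hχe : ∀ x : ℝ, χ (-x) = χ x) (hχ0 : χ 0 = 1) {ε : ℝ} (hε : 0 < ε) :
    ∃ δ₀ : ℝ, 0 < δ₀ ∧ ∀ δ : ℝ, 0 < δ → δ ≤ δ₀ → ∀ᶠ T : ℝ in atTop,
      |WP T (Cs (fun α => h α * χ (α / δ))) / SN T - h 0| ≤ ε := by
  obtain ⟨C1, hC1, hmain⟩ := nr63_main hχ hχe hχ0
  obtain ⟨C2, hC2, hunif⟩ := nr63_unif hh hχ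
  obtain ⟨C3, T₃, hC3, hWP⟩ := WP_le_of_Pk
  obtain ⟨D, hD⟩ : ∃ D : ℝ, D = |h 0| * C1 + C3 * C2 + 1 := ⟨_, rfl⟩
  have hDpos : 0 < D := by rw [hD]; positivity
  refine ⟨min 1 (ε / D), lt_min one_pos (div_pos hε hDpos), ?_⟩
  intro δ hδ hδ0
  have hδ1 : δ ≤ 1 := hδ0.trans (min_le_left _ _)
  have hδ2 : D * δ ≤ ε := by
    have h1 : δ ≤ ε / D := hδ0.trans (min_le_right _ _)
    rw [le_div_iff₀ hDpos] at h1
    linarith
  have hδn : δ ≠ 0 := hδ.ne'
  have hev1 : ∀ᶠ T : ℝ in atTop, 1 / δ / 5 ≤ Real.log T :=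
    Real.tendsto_log_atTop.eventually_ge_atTop _
  filter_upwards [hmain δ hδ hδ1, hev1, eventually_ge_atTop T₃, eventually_ge_atTop (3 : ℝ)]
    with T h1 h2 h3 h4
  have hlog : 0 < Real.log T := Real.log_pos (by linarith)
  have hSN : 0 < SN T := by
    unfold SN
    have := Real.pi_pos
    have : 0 < T := by linarith
    positivity
  have hin : ∀ α : ℝ, α ∉ Icc (-δ) δ → α / δ ∉ Icc (-1 : ℝ) 1 := by
    intro α hα hα'
    refine hα ⟨?_, ?_⟩
    · have := hα'.1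
      rw [le_div_iff₀ hδ] at this
      linarith
    · have := hα'.2
      rw [div_le_iff₀ hδ] at this
      linarith
  have sm1 : Sm (fun α => h 0 * χ (α / δ)) (-δ) δ := by
    refine ⟨contDiff_const.mul (hχ.smooth.comp (by fun_prop)), fun x hx => ?_⟩
    rw [hχ.supp _ (hin x hx), mul_zero]
  have sm2 : Sm (fun α => (h α - h 0) * χ (α / δ)) (-δ) δ := by
    refine ⟨(hh.smooth.sub contDiff_const).mul (hχ.smooth.comp (by fun_prop)), fun x hx => ?_⟩
    rw [hχ.supp _ (hin x hx), mul_zero]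
  have hsplit : Cs (fun α => h α * χ (α / δ)) = fun u => h 0 * Cs (fun α => χ (α / δ)) u +
      Cs (fun α => (h α - h 0) * χ (α / δ)) u := by
    funext u
    rw [← Cs_smul (h 0) (fun α => χ (α / δ)) u, ← Cs_add sm1 sm2 u]
    congr 1
    funext α
    ring
  have hWPs : WP T (Cs (fun α => h α * χ (α / δ))) = h 0 * WP T (Cs (fun α => χ (α / δ))) +
      WP T (Cs (fun α => (h α - h 0) * χ (α / δ))) := by
    rw [hsplit, WP_add T (fun u => h 0 * Cs (fun α => χ (α / δ)) u), WP_smul]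
  have hdil : ∀ u, Cs (fun α => (h α - h 0) * χ (α / δ)) u =
      δ * Cs (fun y => (h (δ * y) - h 0) * χ y) (δ * u) := by
    intro u
    have h8 := Cs_dilate (fun y => (h (δ * y) - h 0) * χ y) (lam := 1 / δ) (by positivity) u
    have h9 := Cs_smul δ (fun α => 1 / δ * ((h (δ * (1 / δ * α)) - h 0) * χ (1 / δ * α))) u
    rw [h8] at h9
    have h10 : (fun α => δ * (1 / δ * ((h (δ * (1 / δ * α)) - h 0) * χ (1 / δ * α)))) =
        fun α => (h α - h 0) * χ (α / δ) := by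
      funext α
      rw [← mul_assoc, mul_one_div_cancel hδn, one_mul, ← mul_assoc, mul_one_div_cancel hδn,
        one_mul]
      congr 2
      field_simp
    rw [h10] at h9
    rw [h9]
    congr 2
    field_simp
  have hb := hWP T h3 (1 / δ) (by rw [le_div_iff₀ hδ]; linarith) (by linarith)
    (Cs (fun α => (h α - h 0) * χ (α / δ))) (C2 * δ) (by positivity) (by
      intro u
      rw [hdil u, abs_mul, abs_of_pos hδ]
      have h8 := hunif δ hδ hδ1 (δ * u)
      have h9 : 0 < 1 + (2 * Real.pi * (δ * u)) ^ 2 := by positivity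
      have h10 : |Cs (fun y => (h (δ * y) - h 0) * χ y) (δ * u)| ≤
          C2 * δ / (1 + (2 * Real.pi * (δ * u)) ^ 2) := by
        rw [le_div_iff₀ h9]
        exact h8
      have h11 : Pk (1 / δ) u = δ / (1 + (2 * Real.pi * (δ * u)) ^ 2) := by
        unfold Pk
        have h12 : 0 < (1 / δ) ^ 2 + (2 * Real.pi * u) ^ 2 := by positivity
        rw [div_eq_div_iff h12.ne' h9.ne']
        field_simp
      rw [h11]
      calc δ * |Cs (fun y => (h (δ * y) - h 0) * χ y) (δ * u)|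
          ≤ δ * (C2 * δ / (1 + (2 * Real.pi * (δ * u)) ^ 2)) :=
            mul_le_mul_of_nonneg_left h10 hδ.le
        _ = C2 * δ * (δ / (1 + (2 * Real.pi * (δ * u)) ^ 2)) := by ring)
  rw [hWPs]
  have h5 : (h 0 * WP T (Cs (fun α => χ (α / δ))) +
      WP T (Cs (fun α => (h α - h 0) * χ (α / δ)))) / SN T - h 0 =
      h 0 * (WP T (Cs (fun α => χ (α / δ))) / SN T - 1) +
        WP T (Cs (fun α => (h α - h 0) * χ (α / δ))) / SN T := by
    ring
  rw [h5]
  refine (abs_add_le _ _).trans ?_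
  have h6 : |h 0 * (WP T (Cs (fun α => χ (α / δ))) / SN T - 1)| ≤ |h 0| * (C1 * δ) := by
    rw [abs_mul]
    exact mul_le_mul_of_nonneg_left h1 (abs_nonneg _)
  have h7 : |WP T (Cs (fun α => (h α - h 0) * χ (α / δ))) / SN T| ≤ C3 * (C2 * δ) := by
    rw [abs_div, abs_of_pos hSN, div_le_iff₀ hSN]
    exact hb
  calc _ ≤ |h 0| * (C1 * δ) + C3 * (C2 * δ) := add_le_add h6 h7
    _ ≤ D * δ := by rw [hD]; nlinarith
    _ ≤ ε := hδ2


end Pool.Agent.Helper69.GMU
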