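import Pool.Agent.Helper69.GMU.CSD
import Pool.Agent.Helper69.GMU.KAP
import Pool.Agent.Helper69.GMU.NR

/-!
# GMU block IVa: the pair law for even band-limited kernels

`χ` = `exists_cutoff`, `χ_δ α = χ(α/δ)`. `h = h χ_δ + h(1-χ_δ)`; `near_zero_law` for the first part. The second is even and vanishes near `0`:
`Cs (h(1-χ_δ)) = 2 Cs P`, `P α = h α (1-χ_δ α)` for `α > 0`, `0` else (smooth, supported in `[δ/2, b]`): `hC`. Its value `2∫ P min α 1` tends to
`∫ h min |α| 1` as `δ → 0` (difference `≤ sup|h| δ²`). (If `b ≤ 0` then `h = 0` except possibly at... `Sm h (-b) b` with `b < 0` gives `h = 0`.)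
-/

open Complex Set MeasureTheory Filter Topology
open Pool.Agent.Helper57.LH Pool.Agent.Helper57.PC Pool.Agent.Helper57.Zeta
open Pool.Agent.Helper69.GGM
open scoped ContDiff

namespace Pool.Agent.Helper69.GMU

theorem IVa_compact {φ : ℝ → ℝ} {a b : ℝ} (h : Sm φ a b) : HasCompactSupport φ :=
  HasCompactSupport.intro isCompact_Icc (fun x hx => h.supp x hx)

theorem IVa_integrable_mul {φ e : ℝ → ℝ} {a b : ℝ} (h : Sm φ a b) (he : Continuous e) :
    Integrable (fun α : ℝ => φ α * e α) :=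
  (h.smooth.continuous.mul he).integrable_of_hasCompactSupport (IVa_compact h).mul_right

theorem law_even {l : Filter ℝ} (hl : l ≤ atTop)
    (hC : ∀ (ψ : ℝ → ℝ) (a b : ℝ), 0 < a → a ≤ b → Sm ψ a b → CLaw l ψ)
    {h : ℝ → ℝ} {b : ℝ} (hh : Sm h (-b) b) (he : ∀ x : ℝ, h (-x) = h x) :
    Tendsto (fun T : ℝ => WP T (Cs h) / SN T) l (𝓝 (h 0 + ∫ α, h α * min |α| 1)) := by
  obtain ⟨χ, hχ, hχe, hχ0, hχ1, hχh⟩ := exists_cutoff
  obtain ⟨M, hM⟩ := hh.smooth.continuous.bounded_above_of_compact_support (IVa_compact hh)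
  have hM0 : 0 ≤ M := (norm_nonneg _).trans (hM 0)
  have hχz : χ 0 = 1 := hχh 0 (by simp)
  rw [Metric.tendsto_nhds]
  intro ε hε
  obtain ⟨δ₀, hδ₀, hnear⟩ := near_zero_law hh he hχ hχe hχz (show 0 < ε / 4 by positivity)
  obtain ⟨δ, hδ, hδδ₀, hδ1, hMδ⟩ : ∃ δ : ℝ, 0 < δ ∧ δ ≤ δ₀ ∧ δ ≤ 1 ∧ 2 * M * δ ≤ ε / 4 := by
    refine ⟨min (min δ₀ 1) (ε / (8 * (M + 1))), by positivity, (min_le_left _ _).trans (min_le_left _ _),
      (min_le_left _ _).trans (min_le_right _ _), ?_⟩
    have h1 : min (min δ₀ 1) (ε / (8 * (M + 1))) ≤ ε / (8 * (M + 1)) := min_le_right _ _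
    calc 2 * M * min (min δ₀ 1) (ε / (8 * (M + 1))) ≤ 2 * (M + 1) * (ε / (8 * (M + 1))) := by
          apply mul_le_mul _ h1 (by positivity) (by positivity)
          linarith
      _ = ε / 4 := by
          field_simp
          ring
  have hn := hl (hnear δ hδ hδδ₀)
  -- the two parts
  let h₁ : ℝ → ℝ := fun α => h α * χ (α / δ)
  let h₂ : ℝ → ℝ := fun α => h α * (1 - χ (α / δ))
  let P : ℝ → ℝ := fun α => if 0 < α then h₂ α else 0
  have hcd : ContDiff ℝ ∞ (fun α : ℝ => χ (α / δ)) :=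
    hχ.smooth.comp (contDiff_id.div_const δ)
  have hs1 : Sm h₁ (-b) b := ⟨hh.smooth.mul hcd, fun x hx => by
    simp only [h₁, hh.supp x hx, zero_mul]⟩
  have hs2 : Sm h₂ (-b) b := ⟨hh.smooth.mul (contDiff_const.sub hcd), fun x hx => by
    simp only [h₂, hh.supp x hx, zero_mul]⟩
  have hχsmall : ∀ α : ℝ, |α| ≤ δ / 2 → χ (α / δ) = 1 := by
    intro α hα
    apply hχh
    rw [abs_div, abs_of_pos hδ, div_le_iff₀ hδ]
    linarith
  have hPsmall : ∀ α : ℝ, α < δ / 2 → P α = 0 := by
    intro α hα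
    simp only [P]
    split_ifs with h0
    · simp only [h₂]
      rw [hχsmall α (by rw [abs_of_pos h0]; exact hα.le)]
      ring
    · rfl
  have hsP : Sm P (δ / 2) (max b (δ / 2)) := by
    constructor
    · rw [contDiff_iff_contDiffAt]
      intro x
      by_cases hx : 0 < x
      · have h1 : P =ᶠ[𝓝 x] h₂ := by
          filter_upwards [Ioi_mem_nhds hx] with y hy
          simp only [P]
          rw [if_pos (mem_Ioi.mp hy)]
        exact (hs2.smooth.contDiffAt).congr_of_eventuallyEq h1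
      · have h1 : P =ᶠ[𝓝 x] (fun _ => (0:ℝ)) := by
          filter_upwards [Iio_mem_nhds (show x < δ / 2 by linarith)] with y hy
          exact hPsmall y hy
        exact contDiffAt_const.congr_of_eventuallyEq h1
    · intro x hx
      by_cases h1 : x < δ / 2
      · exact hPsmall x h1
      · have h2 : max b (δ / 2) < x := by
          by_contra h3
          exact hx ⟨not_lt.mp h1, not_lt.mp h3⟩
        have h3 : b < x := (le_max_left _ _).trans_lt h2
        have h4 : 0 < x := by linarith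
        simp only [P]
        rw [if_pos h4]
        apply hs2.supp
        rintro ⟨_, h5⟩
        linarith
  have hlawP := hC P (δ / 2) (max b (δ / 2)) (by positivity) (le_max_right _ _) hsP
  unfold CLaw at hlawP
  rw [Metric.tendsto_nhds] at hlawP
  have hP' := hlawP (ε / 8) (by positivity)
  -- evenness
  have h2e : ∀ x : ℝ, h₂ (-x) = h₂ x := by
    intro x
    simp only [h₂]
    rw [he x, neg_div, hχe]
  have hsplit : ∀ α : ℝ, h₂ α = P α + P (-α) := by
    intro α
    simp only [P]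
    rcases lt_trichotomy α 0 with h0 | h0 | h0
    · rw [if_neg (by linarith), if_pos (by linarith), h2e]
      ring
    · subst h0
      rw [if_neg (by simp), if_neg (by simp)]
      simp only [h₂]
      rw [zero_div, hχz]
      ring
    · rw [if_pos h0, if_neg (by linarith)]
      ring
  have hint2 : ∀ e : ℝ → ℝ, Continuous e → (∀ x : ℝ, e (-x) = e x) →
      ∫ α, h₂ α * e α = 2 * ∫ α, P α * e α := by
    intro e hec hee
    have h1 : (fun α => h₂ α * e α) = fun α => P α * e α + P (-α) * e (-α) := by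
      funext α
      rw [hsplit, hee]
      ring
    have h2 : Integrable (fun α => P α * e α) := IVa_integrable_mul hsP hec
    have h3 : Integrable (fun α => P (-α) * e (-α)) := h2.comp_neg
    rw [h1, integral_add h2 h3, integral_neg_eq_self (fun α => P α * e α)]
    ring
  have hCs2 : ∀ u : ℝ, Cs h₂ u = 2 * Cs P u := by
    intro u
    unfold Cs
    exact hint2 (fun α => Real.cos (2 * Real.pi * u * α)) (by fun_prop) (fun x => by
      rw [mul_neg, Real.cos_neg])
  have hh12 : h = fun α => h₁ α + h₂ α := by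
    funext α
    simp only [h₁, h₂]
    ring
  have hWP : ∀ T : ℝ, WP T (Cs h) = WP T (Cs h₁) + 2 * WP T (Cs P) := by
    intro T
    have h1 : Cs h = fun u => Cs h₁ u + 2 * Cs P u := by
      funext u
      rw [← hCs2 u, ← Cs_add hs1 hs2 u]
      conv_lhs => rw [hh12]
    rw [h1, WP_add, WP_smul]
  -- the value
  have hval2 : ∫ α, h₂ α * min |α| 1 = 2 * ∫ α, P α * min α 1 := by
    rw [hint2 (fun α => min |α| 1) (by fun_prop) (fun x => by simp only [abs_neg])]
    congr 2
    funext α
    by_cases h0 : 0 < α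
    · rw [abs_of_pos h0]
    · rw [hPsmall α (by linarith)]
      ring
  have hval1 : |∫ α, h₁ α * min |α| 1| ≤ 2 * M * δ := by
    have h1 : ∫ α, h₁ α * min |α| 1 = ∫ α in Icc (-δ) δ, h₁ α * min |α| 1 := by
      symm
      apply setIntegral_eq_integral_of_forall_compl_eq_zero
      intro x hx
      have h2 : χ (x / δ) = 0 := by
        apply hχ.supp
        rintro ⟨h3, h4⟩
        apply hx
        constructor
        · have := (le_div_iff₀ hδ).mp h3
          linarith
        · have := (div_le_iff₀ hδ).mp h4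
          linarith
      simp only [h₁, h2]
      ring
    rw [h1, ← Real.norm_eq_abs]
    have h2 : ∀ x ∈ Icc (-δ) δ, ‖h₁ x * min |x| 1‖ ≤ M := by
      intro x _
      rw [norm_mul]
      have h3 : ‖h₁ x‖ ≤ M := by
        simp only [h₁]
        rw [norm_mul]
        have h4 : ‖χ (x / δ)‖ ≤ 1 := by
          rw [Real.norm_of_nonneg (hχ0 _)]
          exact hχ1 _
        calc ‖h x‖ * ‖χ (x / δ)‖ ≤ M * 1 := mul_le_mul (hM x) h4 (norm_nonneg _) hM0
          _ = M := mul_one M
      have h5 : ‖min |x| 1‖ ≤ 1 := by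
        rw [Real.norm_of_nonneg (by positivity)]
        exact min_le_right _ _
      calc ‖h₁ x‖ * ‖min |x| 1‖ ≤ M * 1 := mul_le_mul h3 h5 (norm_nonneg _) hM0
        _ = M := mul_one M
    have h6 := norm_setIntegral_le_of_norm_le_const (μ := volume) (s := Icc (-δ) δ)
      (by rw [Real.volume_Icc]; exact ENNReal.ofReal_lt_top) h2
    have h7 : volume.real (Icc (-δ) δ) = 2 * δ := by
      rw [Real.volume_real_Icc, max_eq_left (by linarith)]
      ring
    rw [h7] at h6
    linarith
  have hvaladd : ∫ α, h α * min |α| 1 = (∫ α, h₁ α * min |α| 1) + 2 * ∫ α, P α * min α 1 := by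
    rw [← hval2, ← integral_add (IVa_integrable_mul hs1 (by fun_prop))
      (IVa_integrable_mul hs2 (by fun_prop))]
    congr 1
    funext α
    simp only [h₁, h₂]
    ring
  filter_upwards [hn, hP'] with T hT1 hT2
  rw [Real.dist_eq] at hT2 ⊢
  rw [hWP, hvaladd]
  have h1 : (WP T (Cs h₁) + 2 * WP T (Cs P)) / SN T -
      (h 0 + ((∫ α, h₁ α * min |α| 1) + 2 * ∫ α, P α * min α 1)) =
      (WP T (Cs h₁) / SN T - h 0) + 2 * (WP T (Cs P) / SN T - ∫ α, P α * min α 1) -
        ∫ α, h₁ α * min |α| 1 := by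
    ring
  rw [h1]
  have h2 : |WP T (Cs h₁) / SN T - h 0| ≤ ε / 4 := hT1
  have h3 := abs_add_le ((WP T (Cs h₁) / SN T - h 0) + 2 * (WP T (Cs P) / SN T - ∫ α, P α * min α 1))
    (-∫ α, h₁ α * min |α| 1)
  have h4 := abs_add_le (WP T (Cs h₁) / SN T - h 0) (2 * (WP T (Cs P) / SN T - ∫ α, P α * min α 1))
  rw [abs_neg, ← sub_eq_add_neg] at h3
  rw [abs_mul, abs_two] at h4
  linarith

end Pool.Agent.Helper69.GMU
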