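import Pool.Agent.Helper69.GMU.CSD
import Pool.Agent.Helper69.GMU.KAP

/-!
# GMU block IVb: band-limited approximation with a weight

`h(α) = (Cs φ α) χ(α/lam)`, `χ` = `exists_cutoff`, `lam` large. `Cs φ` is smooth (`φ` continuous with compact support) and even. By Fubini
`Cs h u = ∫ φ(s) K(u-s) ds` with `K u = Cs (χ(·/lam)) u = lam G(lam u)`, `G = Cs χ`, `∫ K = χ 0 = 1`, `|G v| ≤ C(1+|v|)^(-3)` (`Cs_decay`)
[`cos(2πuα) cos(2πsα)` and evenness of `φ`]. If `φ = 0` off `[-R,R]`: for `|u| ≤ R+1` uniform continuity of `φ` and `∫|K|` bounded,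
`∫_{|s| ≥ η}|K| → 0`; for `|u| > R+1`: `|Cs h u| ≤ sup|φ| ∫_{|s| ≥ |u|-R} |K| ≤ C/(lam² (|u|-R)²)`. Both are `≤ ε Pk 1 u = ε/(1+4π²u²)` for `lam` large.
-/

open Complex Set MeasureTheory Filter Topology
open Pool.Agent.Helper57.LH Pool.Agent.Helper57.PC Pool.Agent.Helper57.Zeta
open Pool.Agent.Helper69.GGM
open scoped ContDiff

namespace Pool.Agent.Helper69.GMU

namespace IVb80

theorem fourier_even {f : ℝ → ℝ} (hc : Continuous f) (hs : HasCompactSupport f)
    (he : ∀ x : ℝ, f (-x) = f x) (u : ℝ) :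
    FourierTransform.fourier (fun x : ℝ => (f x : ℂ)) u = (Cs f u : ℂ) := by
  rw [Real.fourier_real_eq_integral_exp_smul]
  simp only [smul_eq_mul]
  set I0 : ℝ → ℂ := fun v => Complex.exp ((-2 * Real.pi * v * u : ℝ) * I) * (f v : ℂ) with hI0
  have hcont : Continuous I0 := by
    rw [hI0]
    exact (by fun_prop : Continuous fun v : ℝ =>
      Complex.exp ((-2 * Real.pi * v * u : ℝ) * I)).mul (Complex.continuous_ofReal.comp hc)
  have hsupp : HasCompactSupport I0 := by
    refine hs.mono fun x hx => ?_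
    rw [Function.mem_support] at hx ⊢
    intro h
    apply hx
    rw [hI0]
    simp only [h, Complex.ofReal_zero, mul_zero]
  have hint : Integrable I0 := hcont.integrable_of_hasCompactSupport hsupp
  have h1 : ∫ v : ℝ, I0 (-v) = ∫ v : ℝ, I0 v := integral_neg_eq_self I0 volume
  have h2 : ∫ v : ℝ, (I0 v + I0 (-v)) = 2 * ∫ v : ℝ, I0 v := by
    rw [integral_add hint hint.comp_neg, h1, two_mul]
  have h3 : ∀ v : ℝ, I0 v + I0 (-v) = ((2 * (f v * Real.cos (2 * Real.pi * u * v)) : ℝ) : ℂ) := by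
    intro v
    rw [hI0]
    simp only [he]
    have h4 : Complex.exp ((-2 * Real.pi * v * u : ℝ) * I) +
        Complex.exp ((-2 * Real.pi * -v * u : ℝ) * I) =
        ((2 * Real.cos (2 * Real.pi * u * v) : ℝ) : ℂ) := by
      push_cast
      rw [Complex.two_cos]
      rw [add_comm]
      congr 2
      · ring
      · ring
    rw [← add_mul, h4]
    push_cast
    ring
  simp_rw [h3] at h2
  rw [integral_complex_ofReal, integral_const_mul] at h2
  have h5 : (2 : ℂ) * ∫ v : ℝ, I0 v = 2 * (Cs f u : ℂ) := by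
    rw [← h2, Cs]
    push_cast
    ring
  exact mul_left_cancel₀ two_ne_zero h5

theorem Cs_contDiff {f : ℝ → ℝ} (hc : Continuous f) (hs : HasCompactSupport f)
    (he : ∀ x : ℝ, f (-x) = f x) : ContDiff ℝ ∞ (Cs f) := by
  have h1 : ContDiff ℝ ∞ (FourierTransform.fourier (fun x : ℝ => (f x : ℂ))) := by
    refine Real.contDiff_fourier fun n _ => ?_
    refine Continuous.integrable_of_hasCompactSupport ?_ ?_
    · exact (by fun_prop : Continuous fun v : ℝ => ‖v‖ ^ n).mul
        (Complex.continuous_ofReal.comp hc).norm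
    · refine hs.mono fun x hx => ?_
      rw [Function.mem_support] at hx ⊢
      intro h
      apply hx
      simp only [h, Complex.ofReal_zero, norm_zero, mul_zero]
  have h2 : Cs f = fun u => (FourierTransform.fourier (fun x : ℝ => (f x : ℂ)) u).re := by
    funext u
    rw [fourier_even hc hs he, Complex.ofReal_re]
  rw [h2]
  exact Complex.reCLM.contDiff.comp h1

theorem Sm_supp {χ : ℝ → ℝ} {a b : ℝ} (h : Sm χ a b) : HasCompactSupport χ := by
  refine HasCompactSupport.of_support_subset_isCompact (K := Icc a b) isCompact_Icc ?_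
  intro x hx
  rw [Function.mem_support] at hx
  by_contra h'
  exact hx (h.supp x h')

theorem int_Cs {χ : ℝ → ℝ} {a b : ℝ} (h : Sm χ a b) (he : ∀ x : ℝ, χ (-x) = χ x) :
    ∫ u : ℝ, Cs χ u = χ 0 := by
  have hc : Continuous χ := h.smooth.continuous
  have hs := Sm_supp h
  have hF : FourierTransform.fourier (fun x : ℝ => (χ x : ℂ)) = fun u => (Cs χ u : ℂ) := by
    funext u
    exact fourier_even hc hs he u
  have hi : Integrable (fun x : ℝ => (χ x : ℂ)) :=
    (hc.integrable_of_hasCompactSupport hs).ofReal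
  have hFi : Integrable (FourierTransform.fourier (fun x : ℝ => (χ x : ℂ))) := by
    rw [hF]
    exact (Cs_integrable h).ofReal
  have h1 := hi.fourierInv_fourier_eq hFi (v := 0) (Complex.continuous_ofReal.comp hc).continuousAt
  rw [Real.fourierInv_eq', hF] at h1
  simp only [inner_zero_right, mul_zero, Complex.ofReal_zero, zero_mul, Complex.exp_zero,
    one_smul] at h1
  rw [integral_complex_ofReal] at h1
  exact_mod_cast h1

/-- the kernel -/
theorem Cs_scale (χ : ℝ → ℝ) {lam : ℝ} (hl : 0 < lam) (x : ℝ) :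
    ∫ α : ℝ, χ (α / lam) * Real.cos (2 * Real.pi * x * α) = lam * Cs χ (lam * x) := by
  have h1 := Measure.integral_comp_div
    (fun α : ℝ => χ α * Real.cos (2 * Real.pi * (lam * x) * α)) lam
  rw [abs_of_pos hl, smul_eq_mul] at h1
  rw [Cs, ← h1]
  congr 1
  funext α
  congr 2
  field_simp

theorem Cs_conv {φ χ : ℝ → ℝ} (hφ : Continuous φ) (hs : HasCompactSupport φ)
    (he : ∀ x : ℝ, φ (-x) = φ x) (hχ : Sm χ (-1) 1) {lam : ℝ} (hl : 0 < lam) (u : ℝ) :
    Cs (fun α => Cs φ α * χ (α / lam)) u = ∫ s : ℝ, φ s * (lam * Cs χ (lam * (u - s))) := by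
  have hχc : Continuous χ := hχ.smooth.continuous
  have hχs := Sm_supp hχ
  have hφi : Integrable φ := hφ.integrable_of_hasCompactSupport hs
  have hχi : Integrable (fun α : ℝ => χ (α / lam)) :=
    (hχc.integrable_of_hasCompactSupport hχs).comp_div hl.ne'
  -- Fubini
  have hF : Integrable (fun z : ℝ × ℝ => φ z.2 * Real.cos (2 * Real.pi * z.1 * z.2) *
      χ (z.1 / lam) * Real.cos (2 * Real.pi * u * z.1)) (volume.prod volume) := by
    refine (hχi.mul_prod hφi).mono ?_ (Eventually.of_forall fun z => ?_)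
    · exact (((hφ.comp continuous_snd).mul (by fun_prop)).mul
        (hχc.comp (by fun_prop))).mul (by fun_prop) |>.aestronglyMeasurable
    · simp only [norm_mul, Real.norm_eq_abs]
      have h1 := Real.abs_cos_le_one (2 * Real.pi * z.1 * z.2)
      have h2 := Real.abs_cos_le_one (2 * Real.pi * u * z.1)
      have h3 := abs_nonneg (φ z.2)
      have h4 := abs_nonneg (χ (z.1 / lam))
      have h5 := abs_nonneg (Real.cos (2 * Real.pi * z.1 * z.2))
      have h6 := abs_nonneg (Real.cos (2 * Real.pi * u * z.1))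
      calc |φ z.2| * |Real.cos (2 * Real.pi * z.1 * z.2)| * |χ (z.1 / lam)| *
            |Real.cos (2 * Real.pi * u * z.1)|
          ≤ |φ z.2| * 1 * |χ (z.1 / lam)| * 1 := by gcongr
        _ = |χ (z.1 / lam)| * |φ z.2| := by ring
  have h1 : Cs (fun α => Cs φ α * χ (α / lam)) u = ∫ α : ℝ, ∫ s : ℝ,
      φ s * Real.cos (2 * Real.pi * α * s) * χ (α / lam) * Real.cos (2 * Real.pi * u * α) := by
    rw [Cs]
    congr 1
    funext α
    rw [Cs, ← integral_mul_const, ← integral_mul_const]
  rw [h1, integral_integral_swap hF]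
  have h2 : ∀ s : ℝ, ∫ α : ℝ, φ s * Real.cos (2 * Real.pi * α * s) * χ (α / lam) *
      Real.cos (2 * Real.pi * u * α) =
      1 / 2 * (φ s * (lam * Cs χ (lam * (u - s)))) +
      1 / 2 * (φ s * (lam * Cs χ (lam * (u + s)))) := by
    intro s
    rw [← Cs_scale χ hl, ← Cs_scale χ hl, ← integral_const_mul, ← integral_const_mul,
      ← integral_const_mul, ← integral_const_mul, ← integral_add]
    · congr 1
      funext α
      have h3 : Real.cos (2 * Real.pi * α * s) * Real.cos (2 * Real.pi * u * α) =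
          1 / 2 * Real.cos (2 * Real.pi * (u - s) * α) +
          1 / 2 * Real.cos (2 * Real.pi * (u + s) * α) := by
        have e1 : 2 * Real.pi * (u - s) * α = 2 * Real.pi * u * α - 2 * Real.pi * α * s := by ring
        have e2 : 2 * Real.pi * (u + s) * α = 2 * Real.pi * u * α + 2 * Real.pi * α * s := by ring
        rw [e1, e2, Real.cos_sub, Real.cos_add]
        ring
      calc φ s * Real.cos (2 * Real.pi * α * s) * χ (α / lam) * Real.cos (2 * Real.pi * u * α)
          = φ s * χ (α / lam) * (Real.cos (2 * Real.pi * α * s) *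
              Real.cos (2 * Real.pi * u * α)) := by ring
        _ = _ := by rw [h3]; ring
    · refine Integrable.const_mul (Integrable.const_mul ?_ _) _
      refine hχi.mul_bdd (c := 1) ?_ (Eventually.of_forall fun x => ?_)
      · exact (by fun_prop : Continuous fun α : ℝ =>
          Real.cos (2 * Real.pi * (u - s) * α)).aestronglyMeasurable
      · rw [Real.norm_eq_abs]; exact Real.abs_cos_le_one _
    · refine Integrable.const_mul (Integrable.const_mul ?_ _) _
      refine hχi.mul_bdd (c := 1) ?_ (Eventually.of_forall fun x => ?_)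
      · exact (by fun_prop : Continuous fun α : ℝ =>
          Real.cos (2 * Real.pi * (u + s) * α)).aestronglyMeasurable
      · rw [Real.norm_eq_abs]; exact Real.abs_cos_le_one _
  simp_rw [h2]
  have hGc : Continuous (Cs χ) := Cs_continuous hχ
  have hi1 : Integrable (fun s : ℝ => φ s * (lam * Cs χ (lam * (u - s)))) := by
    refine Continuous.integrable_of_hasCompactSupport
      (hφ.mul (continuous_const.mul (hGc.comp (by fun_prop)))) hs.mul_right
  have hi2 : Integrable (fun s : ℝ => φ s * (lam * Cs χ (lam * (u + s)))) := by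
    refine Continuous.integrable_of_hasCompactSupport
      (hφ.mul (continuous_const.mul (hGc.comp (by fun_prop)))) hs.mul_right
  have h3 : ∫ s : ℝ, φ s * (lam * Cs χ (lam * (u + s))) =
      ∫ s : ℝ, φ s * (lam * Cs χ (lam * (u - s))) := by
    rw [← integral_neg_eq_self]
    congr 1
    funext s
    rw [he, ← sub_eq_add_neg]
  rw [integral_add (hi1.const_mul _) (hi2.const_mul _), integral_const_mul, integral_const_mul,
    h3]
  ring

theorem near_eq {φ χ : ℝ → ℝ} (hφ : Continuous φ) (hs : HasCompactSupport φ)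
    (hχ : Sm χ (-1) 1) (hχe : ∀ x : ℝ, χ (-x) = χ x) (hχ0 : χ 0 = 1)
    {lam : ℝ} (hl : 0 < lam) (u : ℝ) :
    φ u - ∫ s : ℝ, φ s * (lam * Cs χ (lam * (u - s))) =
      ∫ w : ℝ, (φ u - φ (u - w / lam)) * Cs χ w := by
  have hGi : Integrable (Cs χ) := Cs_integrable hχ
  have hGc : Continuous (Cs χ) := Cs_continuous hχ
  obtain ⟨M, hM⟩ := hφ.bounded_above_of_compact_support hs
  have h1 : ∫ s : ℝ, φ s * (lam * Cs χ (lam * (u - s))) = ∫ w : ℝ, φ (u - w / lam) * Cs χ w := by
    have e1 : ∫ s : ℝ, φ s * (lam * Cs χ (lam * (u - s))) =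
        ∫ v : ℝ, φ (u - v) * (lam * Cs χ (lam * v)) := by
      rw [← integral_sub_left_eq_self (fun s : ℝ => φ s * (lam * Cs χ (lam * (u - s)))) volume u]
      congr 1
      funext v
      rw [sub_sub_cancel]
    have e2 := Measure.integral_comp_mul_left (fun w : ℝ => φ (u - w / lam) * Cs χ w) lam
    rw [abs_of_pos (inv_pos.2 hl), smul_eq_mul] at e2
    rw [e1]
    have e3 : ∫ v : ℝ, φ (u - v) * (lam * Cs χ (lam * v)) =
        lam * ∫ v : ℝ, φ (u - lam * v / lam) * Cs χ (lam * v) := by
      rw [← integral_const_mul]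
      congr 1
      funext v
      rw [mul_div_cancel_left₀ _ hl.ne']
      ring
    rw [e3, e2, ← mul_assoc, mul_inv_cancel₀ hl.ne', one_mul]
  have h2 : Integrable (fun w : ℝ => φ (u - w / lam) * Cs χ w) := by
    refine hGi.bdd_mul (c := M) ?_ (Eventually.of_forall fun x => hM _)
    exact (hφ.comp (by fun_prop)).aestronglyMeasurable
  have h3 : φ u = ∫ w : ℝ, φ u * Cs χ w := by
    rw [integral_const_mul, int_Cs hχ hχe, hχ0, mul_one]
  rw [h1]
  conv_lhs => rw [h3]
  rw [← integral_sub (hGi.const_mul _) h2]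
  congr 1
  funext w
  ring

end IVb80

open IVb80

theorem approx_Cs {φ : ℝ → ℝ} (hφ : Continuous φ) (hs : HasCompactSupport φ) (he : ∀ x : ℝ, φ (-x) = φ x)
    {ε : ℝ} (hε : 0 < ε) : ∃ (h : ℝ → ℝ) (b : ℝ), Sm h (-b) b ∧ (∀ x : ℝ, h (-x) = h x) ∧
      ∀ u : ℝ, |φ u - Cs h u| ≤ ε * Pk 1 u := by
  obtain ⟨χ, hχ, hχe, -, -, hχ1⟩ := exists_cutoff
  have hχ0 : χ 0 = 1 := hχ1 0 (by norm_num)
  obtain ⟨C, hC0, hC⟩ := Cs_decay hχ
  have hGi : Integrable (Cs χ) := Cs_integrable hχ
  have hGc : Continuous (Cs χ) := Cs_continuous hχ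
  obtain ⟨M0, hM0⟩ := hφ.bounded_above_of_compact_support hs
  obtain ⟨M, hM1, hM⟩ : ∃ M : ℝ, 0 < M ∧ ∀ x, |φ x| ≤ M :=
    ⟨max M0 1, by positivity, fun x => (hM0 x).trans (le_max_left _ _)⟩
  obtain ⟨R, hR, hR0⟩ : ∃ R : ℝ, 0 < R ∧ ∀ x : ℝ, R < |x| → φ x = 0 := by
    obtain ⟨r, hr⟩ := hs.isCompact.isBounded.subset_closedBall 0
    refine ⟨max r 1, by positivity, fun x hx => ?_⟩
    by_contra h
    have h1 := hr (subset_tsupport φ (Function.mem_support.2 h))
    rw [Metric.mem_closedBall, Real.dist_eq, sub_zero] at h1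
    exact absurd (h1.trans (le_max_left r 1)) (not_le.2 hx)
  -- decay
  have hwG : ∀ w : ℝ, |w| * |Cs χ w| ≤ C * (1 + w ^ 2)⁻¹ := by
    intro w
    have h1 := hC w
    have h2 : (0:ℝ) < 1 + w ^ 2 := by positivity
    rw [← div_eq_mul_inv, le_div_iff₀ h2]
    refine le_trans ?_ h1
    have h3 := abs_nonneg w
    have h4 := abs_nonneg (Cs χ w)
    have h5 : |w| * (1 + w ^ 2) ≤ (1 + |w|) ^ 3 := by
      rw [← sq_abs w]
      nlinarith [h3, mul_nonneg h3 h3]
    calc |w| * |Cs χ w| * (1 + w ^ 2) = |Cs χ w| * (|w| * (1 + w ^ 2)) := by ring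
      _ ≤ |Cs χ w| * (1 + |w|) ^ 3 := mul_le_mul_of_nonneg_left h5 h4
  have hwi : Integrable (fun w : ℝ => |w| * |Cs χ w|) := by
    refine (integrable_inv_one_add_sq.const_mul C).mono' ?_ (Eventually.of_forall fun w => ?_)
    · exact (continuous_abs.mul hGc.abs).aestronglyMeasurable
    · rw [Real.norm_of_nonneg (by positivity)]
      exact hwG w
  set A : ℝ := ∫ w : ℝ, |Cs χ w| with hA
  set A1 : ℝ := ∫ w : ℝ, |w| * |Cs χ w| with hA1
  have hA0 : 0 ≤ A := integral_nonneg fun _ => abs_nonneg _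
  have hA10 : 0 ≤ A1 := integral_nonneg fun _ => by positivity
  set κ : ℝ := Pk 1 (R + 1) with hκ
  have hPk : ∀ u : ℝ, Pk 1 u = 1 / (1 + (2 * Real.pi * u) ^ 2) := by
    intro u
    rw [Pk, one_pow]
  have hκ0 : 0 < κ := by rw [hκ, hPk]; positivity
  obtain ⟨η, hη, huc⟩ : ∃ η : ℝ, 0 < η ∧ ∀ x y : ℝ, |x - y| < η →
      |φ x - φ y| < ε * κ / (2 * (A + 1)) := by
    have h1 := hs.uniformContinuous_of_continuous hφ
    rw [Metric.uniformContinuous_iff] at h1
    obtain ⟨η, hη, h2⟩ := h1 (ε * κ / (2 * (A + 1))) (by positivity)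
    exact ⟨η, hη, fun x y hxy => h2 (by rw [Real.dist_eq]; exact hxy)⟩
  set lam : ℝ := 1 + 4 * M * A1 / (η * (ε * κ)) + 100 * R * M * C * (R + 1) ^ 2 / ε with hlam
  have hp1 : 0 ≤ 4 * M * A1 / (η * (ε * κ)) := by positivity
  have hp2 : 0 ≤ 100 * R * M * C * (R + 1) ^ 2 / ε := by positivity
  have hl1 : 1 ≤ lam := by rw [hlam]; linarith
  have hl : 0 < lam := by linarith
  have hl2 : 4 * M * A1 / (η * (ε * κ)) ≤ lam := by rw [hlam]; linarith
  have hl3 : 100 * R * M * C * (R + 1) ^ 2 / ε ≤ lam := by rw [hlam]; linarith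
  refine ⟨fun α => Cs φ α * χ (α / lam), lam, ⟨?_, ?_⟩, ?_, ?_⟩
  · exact (Cs_contDiff hφ hs he).mul (hχ.smooth.comp (contDiff_id.div_const lam))
  · intro x hx
    have h1 : χ (x / lam) = 0 := by
      refine hχ.supp _ fun h => hx ?_
      rw [mem_Icc, le_div_iff₀ hl, div_le_iff₀ hl] at h
      exact ⟨by linarith [h.1], by linarith [h.2]⟩
    simp only [h1, mul_zero]
  · intro x
    simp only
    rw [Cs_even, neg_div, hχe]
  · intro u
    rw [Cs_conv hφ hs he hχ hl]
    by_cases hu : |u| ≤ R + 1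
    · -- near
      rw [near_eq hφ hs hχ hχe hχ0 hl]
      have h1 : κ ≤ Pk 1 u := by
        rw [hκ, hPk, hPk]
        refine one_div_le_one_div_of_le (by positivity) ?_
        have h2 : u ^ 2 ≤ (R + 1) ^ 2 := by
          rw [← sq_abs u]
          exact pow_le_pow_left₀ (abs_nonneg u) hu 2
        have h3 : (0:ℝ) ≤ (2 * Real.pi) ^ 2 := by positivity
        nlinarith
      refine le_trans ?_ (mul_le_mul_of_nonneg_left h1 hε.le)
      set δ : ℝ := ε * κ / (2 * (A + 1)) with hδ
      have hδ0 : 0 < δ := by positivity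
      have hb : ∀ w : ℝ, ‖(φ u - φ (u - w / lam)) * Cs χ w‖ ≤
          δ * |Cs χ w| + 2 * M / (lam * η) * (|w| * |Cs χ w|) := by
        intro w
        rw [norm_mul, Real.norm_eq_abs, Real.norm_eq_abs]
        have h4 : |φ u - φ (u - w / lam)| ≤ δ + 2 * M / (lam * η) * |w| := by
          by_cases hw : |w / lam| < η
          · have h5 := huc u (u - w / lam) (by rw [sub_sub_cancel]; exact hw)
            have h6 : 0 ≤ 2 * M / (lam * η) * |w| := by positivity
            linarith
          · rw [not_lt, abs_div, abs_of_pos hl, le_div_iff₀ hl] at hw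
            have h5 : |φ u - φ (u - w / lam)| ≤ 2 * M := by
              have h6 := abs_sub (φ u) (φ (u - w / lam))
              have h7 := hM u
              have h8 := hM (u - w / lam)
              linarith
            have h6 : 2 * M ≤ 2 * M / (lam * η) * |w| := by
              rw [div_mul_eq_mul_div, le_div_iff₀ (by positivity)]
              nlinarith
            linarith
        calc |φ u - φ (u - w / lam)| * |Cs χ w| ≤
              (δ + 2 * M / (lam * η) * |w|) * |Cs χ w| :=
              mul_le_mul_of_nonneg_right h4 (abs_nonneg _)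
          _ = _ := by ring
      have hbi : Integrable (fun w : ℝ => δ * |Cs χ w| + 2 * M / (lam * η) * (|w| * |Cs χ w|)) :=
        (hGi.abs.const_mul _).add (hwi.const_mul _)
      have h5 := norm_integral_le_of_norm_le hbi (Eventually.of_forall hb)
      rw [integral_add (hGi.abs.const_mul _) (hwi.const_mul _), integral_const_mul,
        integral_const_mul, Real.norm_eq_abs] at h5
      refine h5.trans ?_
      rw [← hA, ← hA1]
      have h6 : δ * A ≤ ε * κ / 2 := by
        rw [hδ, div_mul_eq_mul_div, div_le_div_iff₀ (by positivity) (by norm_num)]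
        nlinarith [mul_pos hε hκ0]
      have h7 : 2 * M / (lam * η) * A1 ≤ ε * κ / 2 := by
        rw [div_le_iff₀ (by positivity)] at hl2
        rw [div_mul_eq_mul_div, div_le_div_iff₀ (by positivity) (by norm_num)]
        nlinarith
      linarith
    · -- far
      rw [not_le] at hu
      rw [hR0 u (by linarith), zero_sub, abs_neg]
      have hd : 1 < |u| - R := by linarith
      have hu1 : 1 < |u| := by linarith
      have h1 : ∫ s : ℝ, φ s * (lam * Cs χ (lam * (u - s))) =
          ∫ s in Icc (-R) R, φ s * (lam * Cs χ (lam * (u - s))) := by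
        rw [setIntegral_eq_integral_of_forall_compl_eq_zero]
        intro s hs'
        rw [hR0 s, zero_mul]
        by_contra h
        exact hs' (abs_le.1 (not_lt.1 h))
      have h2 : ∀ s ∈ Icc (-R) R, ‖φ s * (lam * Cs χ (lam * (u - s)))‖ ≤
          M * (C / (lam ^ 2 * (|u| - R) ^ 3)) := by
        intro s hs'
        rw [norm_mul, Real.norm_eq_abs, Real.norm_eq_abs]
        refine mul_le_mul (hM s) ?_ (abs_nonneg _) hM1.le
        have h3 : |u| - R ≤ |u - s| := by
          have h4 := abs_sub_abs_le_abs_sub u s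
          have h5 : |s| ≤ R := abs_le.2 hs'
          linarith
        rw [abs_mul, abs_of_pos hl, le_div_iff₀ (by positivity)]
        have h4 := hC (lam * (u - s))
        rw [abs_mul lam, abs_of_pos hl] at h4
        have h5 : lam ^ 3 * (|u| - R) ^ 3 ≤ (1 + lam * |u - s|) ^ 3 := by
          rw [← mul_pow]
          refine pow_le_pow_left₀ (by positivity) ?_ 3
          nlinarith
        calc lam * |Cs χ (lam * (u - s))| * (lam ^ 2 * (|u| - R) ^ 3) =
              |Cs χ (lam * (u - s))| * (lam ^ 3 * (|u| - R) ^ 3) := by ring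
          _ ≤ |Cs χ (lam * (u - s))| * (1 + lam * |u - s|) ^ 3 :=
              mul_le_mul_of_nonneg_left h5 (abs_nonneg _)
          _ ≤ C := h4
      have h3 := norm_setIntegral_le_of_norm_le_const (μ := volume) (s := Icc (-R) R)
        (by rw [Real.volume_Icc]; exact ENNReal.ofReal_lt_top) h2
      rw [h1, ← Real.norm_eq_abs]
      refine h3.trans ?_
      rw [Real.volume_real_Icc_of_le (by linarith), hPk]
      have hpi : Real.pi < 3.15 := Real.pi_lt_d2
      have hpi0 := Real.pi_pos
      have hu2 : 1 < u ^ 2 := by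
        rw [← sq_abs u]
        nlinarith
      have h4 : 1 + (2 * Real.pi * u) ^ 2 ≤ 50 * u ^ 2 := by
        have h5 : Real.pi ^ 2 ≤ 10 := by nlinarith
        have : (2 * Real.pi * u) ^ 2 = 4 * Real.pi ^ 2 * u ^ 2 := by ring
        rw [this]
        nlinarith
      have h5 : |u| ^ 2 ≤ (R + 1) ^ 2 * (|u| - R) ^ 3 := by
        have h6 : |u| ≤ (R + 1) * (|u| - R) := by nlinarith
        have h7 : |u| ^ 2 ≤ ((R + 1) * (|u| - R)) ^ 2 :=
          pow_le_pow_left₀ (abs_nonneg u) h6 2
        have h8 : (|u| - R) ^ 2 ≤ (|u| - R) ^ 3 := by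
          have : (0:ℝ) ≤ (|u| - R) ^ 2 := by positivity
          nlinarith
        calc |u| ^ 2 ≤ (R + 1) ^ 2 * (|u| - R) ^ 2 := by rw [← mul_pow]; exact h7
          _ ≤ (R + 1) ^ 2 * (|u| - R) ^ 3 := mul_le_mul_of_nonneg_left h8 (by positivity)
      rw [sq_abs] at h5
      have hd3 : 0 < (|u| - R) ^ 3 := by positivity
      have h6 : 100 * R * M * C * (R + 1) ^ 2 ≤ lam ^ 2 * ε := by
        rw [div_le_iff₀ hε] at hl3
        refine hl3.trans ?_
        rw [pow_two, mul_assoc]
        exact le_mul_of_one_le_left (by positivity) hl1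
      have h7 : ε * (1 / (1 + (2 * Real.pi * u) ^ 2)) = ε / (1 + (2 * Real.pi * u) ^ 2) := by ring
      have h8 : M * (C / (lam ^ 2 * (|u| - R) ^ 3)) * (R - -R) =
          2 * R * M * C / (lam ^ 2 * (|u| - R) ^ 3) := by
        field_simp
        ring
      rw [h7, h8, div_le_div_iff₀ (by positivity) (by positivity)]
      calc 2 * R * M * C * (1 + (2 * Real.pi * u) ^ 2) ≤ 2 * R * M * C * (50 * u ^ 2) :=
            mul_le_mul_of_nonneg_left h4 (by positivity)
        _ ≤ 2 * R * M * C * (50 * ((R + 1) ^ 2 * (|u| - R) ^ 3)) := by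
            refine mul_le_mul_of_nonneg_left ?_ (by positivity)
            linarith
        _ = 100 * R * M * C * (R + 1) ^ 2 * (|u| - R) ^ 3 := by ring
        _ ≤ lam ^ 2 * ε * (|u| - R) ^ 3 := mul_le_mul_of_nonneg_right h6 hd3.le
        _ = ε * (lam ^ 2 * (|u| - R) ^ 3) := by ring

end Pool.Agent.Helper69.GMU
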