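import Pool.Agent.Helper69.GMU.CVL
import Pool.Agent.Helper69.GMU.IVb
import Pool.Agent.Helper69.GGM.SWb

/-!
# GMU block IVc: the pair law for band-limited kernels gives the windows law

First `WP T φ/SN T → φ 0 + ∫ φ pcDensity` for `φ` continuous, even, compactly supported: `approx_Cs`, `WP_le_of_Pk` (`c = 1`), `Cs_value`,
`|∫ (φ - Cs h) pcDensity| ≤ ε ∫ Pk 1`. Then copy the second half of `law_of_poisson` (`GGM/SWb.lean` line 267 ff., trapezoids; it uses `law_cc_h48`
only through this statement).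
-/

open Complex Set MeasureTheory Filter Topology
open Pool.Agent.Helper57.LH Pool.Agent.Helper57.PC Pool.Agent.Helper57.Zeta
open Pool.Agent.Helper69.GGM
open scoped ContDiff

namespace Pool.Agent.Helper69.GMU

private theorem IVc_cc {l : Filter ℝ} (hl : l ≤ atTop)
    (hE : ∀ (h : ℝ → ℝ) (b : ℝ), Sm h (-b) b → (∀ x : ℝ, h (-x) = h x) →
      Tendsto (fun T : ℝ => WP T (Cs h) / SN T) l (𝓝 (h 0 + ∫ α, h α * min |α| 1)))
    {φ : ℝ → ℝ} (hφ : Continuous φ) (hs : HasCompactSupport φ) (he : ∀ u, φ (-u) = φ u) :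
    Tendsto (fun T : ℝ => WP T φ / SN T) l (𝓝 (φ 0 + ∫ u, φ u * pcDensity u)) := by
  rw [Metric.tendsto_nhds]
  intro ε hε
  obtain ⟨C, T₀, hC, hPk⟩ := WP_le_of_Pk
  set M : ℝ := Pk 1 0 + ∫ u, Pk 1 u * pcDensity u with hM
  have hI0 : 0 ≤ ∫ u, Pk 1 u * pcDensity u :=
    integral_nonneg fun u => mul_nonneg (Pk_nonneg one_pos u) (pcDensity_nonneg u)
  have hM0 : 0 ≤ M := add_nonneg (Pk_nonneg one_pos 0) hI0
  set η := ε / (4 * (M + C + 1)) with hη
  have hη0 : 0 < η := by positivity
  have hηM : η * (M + C + 1) = ε / 4 := by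
    rw [hη]
    field_simp
  obtain ⟨h, b, hSm, heh, happ⟩ := approx_Cs hφ hs he hη0
  have hp : Tendsto (fun T : ℝ => WP T (Cs h) / SN T) l
      (𝓝 (Cs h 0 + ∫ u, Cs h u * pcDensity u)) := by
    rw [Cs_value hSm]
    exact hE h b hSm heh
  have hφint : Integrable (fun u => φ u * pcDensity u) :=
    int_mul_F_h48 (hφ.integrable_of_hasCompactSupport hs)
  have hpint : Integrable (fun u => Cs h u * pcDensity u) := int_mul_F_h48 (Cs_integrable hSm)
  have hP1int : Integrable (fun u => Pk 1 u * pcDensity u) := int_mul_F_h48 (Pk_int_h48 one_pos)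
  have hval : |(Cs h 0 + ∫ u, Cs h u * pcDensity u) - (φ 0 + ∫ u, φ u * pcDensity u)| ≤
      η * M := by
    have h1 := abs_le.mp (happ 0)
    have h2 : (∫ u, Cs h u * pcDensity u) ≤
        (∫ u, φ u * pcDensity u) + η * ∫ u, Pk 1 u * pcDensity u := by
      rw [← integral_const_mul, ← integral_add hφint (hP1int.const_mul η)]
      refine integral_mono hpint (hφint.add (hP1int.const_mul η)) fun u => ?_
      have h3 := (abs_le.mp (happ u)).1
      have h4 := pcDensity_nonneg u
      simp only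
      nlinarith
    have h5 : (∫ u, φ u * pcDensity u) ≤
        (∫ u, Cs h u * pcDensity u) + η * ∫ u, Pk 1 u * pcDensity u := by
      rw [← integral_const_mul, ← integral_add hpint (hP1int.const_mul η)]
      refine integral_mono hφint (hpint.add (hP1int.const_mul η)) fun u => ?_
      have h3 := (abs_le.mp (happ u)).2
      have h4 := pcDensity_nonneg u
      simp only
      nlinarith
    rw [abs_le, hM, mul_add]
    constructor <;> linarith [h1.1, h1.2]
  filter_upwards [(Metric.tendsto_nhds.mp hp) (ε / 4) (by linarith),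
    hl (eventually_gt_atTop 1), hl (eventually_ge_atTop T₀),
    hl (Real.tendsto_log_atTop.eventually (eventually_ge_atTop 1))] with T h1 hT hT0 hlog
  have hS := SN_pos hT
  rw [Real.dist_eq] at h1 ⊢
  have h3 : |WP T φ / SN T - WP T (Cs h) / SN T| ≤ ε / 4 := by
    rw [← sub_div, abs_div, abs_of_pos hS, div_le_iff₀ hS]
    have h4 : WP T (fun u => φ u + (-1) * Cs h u) = WP T φ - WP T (Cs h) := by
      rw [WP_add, WP_smul]
      ring
    have h5 := hPk T hT0 1 le_rfl (by linarith) (fun u => φ u + (-1) * Cs h u) η hη0.le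
      (fun u => by
        have h6 : φ u + (-1) * Cs h u = φ u - Cs h u := by ring
        simp only [h6]
        exact happ u)
    rw [h4] at h5
    calc |WP T φ - WP T (Cs h)| ≤ C * η * SN T := h5
      _ ≤ ε / 4 * SN T := by
          refine mul_le_mul_of_nonneg_right ?_ hS.le
          rw [← hηM]
          nlinarith
  have h7 : η * M ≤ ε / 4 := by
    rw [← hηM]
    nlinarith
  have h8 := abs_le.mp h3
  have h9 := abs_lt.mp h1
  have h10 := abs_le.mp hval
  rw [abs_lt]
  constructor <;> linarith [h8.1, h8.2, h9.1, h9.2, h10.1, h10.2]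

theorem law_windows {l : Filter ℝ} (hl : l ≤ atTop)
    (hE : ∀ (h : ℝ → ℝ) (b : ℝ), Sm h (-b) b → (∀ x : ℝ, h (-x) = h x) →
      Tendsto (fun T : ℝ => WP T (Cs h) / SN T) l (𝓝 (h 0 + ∫ α, h α * min |α| 1))) :
    ∀ α β : ℝ, 0 < α → α < β →
      Tendsto (fun T : ℝ => pairCount T α β / SN T) l (𝓝 (∫ u in α..β, pcDensity u)) := by
  intro α β hα hαβ
  rw [Metric.tendsto_nhds]
  intro ε hε
  obtain ⟨δ, hδ0, hδε, hδα, hδβ⟩ : ∃ δ : ℝ, 0 < δ ∧ δ ≤ ε / 4 ∧ 2 * δ ≤ α ∧ 2 * δ ≤ β - α := by
    refine ⟨min (ε / 4) (min (α / 2) ((β - α) / 2)), ?_, min_le_left _ _, ?_, ?_⟩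
    · exact lt_min (by linarith) (lt_min (by linarith) (by linarith))
    · have := (min_le_right (ε / 4) _).trans (min_le_left (α / 2) ((β - α) / 2))
      linarith
    · have := (min_le_right (ε / 4) _).trans (min_le_right (α / 2) ((β - α) / 2))
      linarith
  have hlow := IVc_cc hl hE (tz48_cont (α + δ) (β - δ) δ) (tz48_supp hδ0)
    (tz48_even (α + δ) (β - δ) δ)
  have hup := IVc_cc hl hE (tz48_cont α β δ) (tz48_supp hδ0) (tz48_even α β δ)
  have h0 : tz48 (α + δ) (β - δ) δ 0 = 0 := by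
    apply tz48_zero hδ0
    rw [abs_zero]
    rintro ⟨h1, _⟩
    linarith
  have h0' : tz48 α β δ 0 = 0 := by
    apply tz48_zero hδ0
    rw [abs_zero]
    rintro ⟨h1, _⟩
    linarith
  rw [h0, zero_add] at hlow
  rw [h0', zero_add] at hup
  -- the integrals
  have hA1 : 2 * (∫ u in α..β, pcDensity u) - 4 * δ ≤ ∫ u, tz48 (α + δ) (β - δ) δ u * pcDensity u := by
    have h1 : ∫ u, ic2_48 (α + δ) (β - δ) u * pcDensity u ≤
        ∫ u, tz48 (α + δ) (β - δ) δ u * pcDensity u := by
      refine integral_mono (int_mul_F_h48 (ic2_int_h48 _ _)) (int_mul_F_h48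
        ((tz48_cont _ _ _).integrable_of_hasCompactSupport (tz48_supp hδ0))) fun u => ?_
      exact mul_le_mul_of_nonneg_right (ic2_le_tz48 (by linarith) hδ0 u) (pcDensity_nonneg u)
    rw [int_ic2_h48 (by linarith)] at h1
    have h2 := intervalIntegral.integral_add_adjacent_intervals
      (intervalIntegrable_pcDensity α (α + δ)) (intervalIntegrable_pcDensity (α + δ) (β - δ))
    have h3 := intervalIntegral.integral_add_adjacent_intervals
      (intervalIntegrable_pcDensity α (β - δ)) (intervalIntegrable_pcDensity (β - δ) β)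
    have h4 := int_F_le (show α ≤ α + δ by linarith)
    have h5 := int_F_le (show β - δ ≤ β by linarith)
    linarith
  have hA2 : ∫ u, tz48 α β δ u * pcDensity u ≤ 2 * (∫ u in α..β, pcDensity u) + 4 * δ := by
    have h1 : ∫ u, tz48 α β δ u * pcDensity u ≤ ∫ u, ic2_48 (α - δ) (β + δ) u * pcDensity u := by
      refine integral_mono (int_mul_F_h48
        ((tz48_cont _ _ _).integrable_of_hasCompactSupport (tz48_supp hδ0)))
        (int_mul_F_h48 (ic2_int_h48 _ _)) fun u => ?_
      exact mul_le_mul_of_nonneg_right (tz48_le_ic2 (by linarith) hδ0 u) (pcDensity_nonneg u)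
    rw [int_ic2_h48 (by linarith)] at h1
    have h2 := intervalIntegral.integral_add_adjacent_intervals
      (intervalIntegrable_pcDensity (α - δ) α) (intervalIntegrable_pcDensity α β)
    have h3 := intervalIntegral.integral_add_adjacent_intervals
      (intervalIntegrable_pcDensity (α - δ) β) (intervalIntegrable_pcDensity β (β + δ))
    have h4 := int_F_le (show α - δ ≤ α by linarith)
    have h5 := int_F_le (show β ≤ β + δ by linarith)
    linarith
  filter_upwards [(Metric.tendsto_nhds.mp hlow) δ hδ0, (Metric.tendsto_nhds.mp hup) δ hδ0,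
    hl (eventually_gt_atTop 1)] with T h1 h2 hT
  have hS := SN_pos hT
  rw [Real.dist_eq] at h1 h2 ⊢
  have h3 : WP T (ic2_48 α β) = 2 * pairCount T α β := by
    have h4 : WP T (ic2_48 α β) = WP T (ic (Icc α β)) + WP T (ic (Icc (-β) (-α))) := by
      rw [← WP_add]
      rfl
    rw [h4, ← pairCount_WP, ← pairCount_WP, pairCount_neg, two_mul]
  have h5 : WP T (tz48 (α + δ) (β - δ) δ) ≤ 2 * pairCount T α β := by
    rw [← h3]
    refine WP_mono fun u => ?_
    have := tz48_le_ic2 (a := α + δ) (b := β - δ) (δ := δ) (by linarith) hδ0 u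
    rwa [show α + δ - δ = α by ring, show β - δ + δ = β by ring] at this
  have h6 : 2 * pairCount T α β ≤ WP T (tz48 α β δ) := by
    rw [← h3]
    exact WP_mono fun u => ic2_le_tz48 hα hδ0 u
  have h7 : WP T (tz48 (α + δ) (β - δ) δ) / SN T ≤ 2 * (pairCount T α β / SN T) := by
    rw [← mul_div_assoc]
    gcongr
  have h8 : 2 * (pairCount T α β / SN T) ≤ WP T (tz48 α β δ) / SN T := by
    rw [← mul_div_assoc]
    gcongr
  have h9 := abs_lt.mp h1
  have h10 := abs_lt.mp h2
  rw [abs_lt]
  constructor <;> linarith [h9.1, h9.2, h10.1, h10.2]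

end Pool.Agent.Helper69.GMU
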