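import Pool.Agent.Helper69.GMU.CVL
import Pool.Agent.Helper69.GGM.SWb
import Pool.Agent.Helper69.GGM.PL

/-!
# GMU block KL: the windows law gives the pair law for all kernels `Cs ψ`

`poisson_of_law` (`GGM/PL.lean`) gives the law for `Pk c`, then `law_cc_h48` (`GGM/SWb.lean`) gives it for continuous, even, compactly
supported kernels. `K = Cs ψ` is even, continuous, `|K u| ≤ C(1+|u|)^(-3)`: multiply by a continuous even cutoff `χ_R` (1 on `[-R,R]`, 0 outside
`[-2R,2R]`): `|K - K χ_R| ≤ ε Pk 1` for `R` large, use `WP_le_of_Pk` with `c = 1` and the same bound for `∫ (K - Kχ_R) pcDensity` (`0 ≤ pcDensity ≤ 1`).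
Value by `Cs_value`.
-/

open Complex Set MeasureTheory Filter Topology
open Pool.Agent.Helper57.LH Pool.Agent.Helper57.PC Pool.Agent.Helper57.Zeta
open Pool.Agent.Helper69.GGM
open scoped ContDiff

namespace Pool.Agent.Helper69.GMU

/-- continuous even cutoff -/
private noncomputable def KLchi (R u : ℝ) : ℝ := max 0 (min 1 (2 - |u| / R))

private lemma KLchi_cont (R : ℝ) : Continuous (KLchi R) := by
  unfold KLchi
  fun_prop

private lemma KLchi_even (R u : ℝ) : KLchi R (-u) = KLchi R u := by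
  unfold KLchi
  rw [abs_neg]

private lemma KLchi_nonneg (R u : ℝ) : 0 ≤ KLchi R u := le_max_left _ _

private lemma KLchi_le_one (R u : ℝ) : KLchi R u ≤ 1 := max_le zero_le_one (min_le_left _ _)

private lemma KLchi_one {R u : ℝ} (hR : 0 < R) (hu : |u| ≤ R) : KLchi R u = 1 := by
  unfold KLchi
  have : |u| / R ≤ 1 := by
    rw [div_le_iff₀ hR]
    linarith
  rw [min_eq_left (by linarith)]
  exact max_eq_right zero_le_one

private lemma KLchi_zero {R u : ℝ} (hR : 0 < R) (hu : 2 * R ≤ |u|) : KLchi R u = 0 := by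
  unfold KLchi
  have : 2 ≤ |u| / R := by
    rw [le_div_iff₀ hR]
    linarith
  apply max_eq_left
  exact (min_le_right _ _).trans (by linarith)

private lemma KLchi_supp {R : ℝ} (hR : 0 < R) : HasCompactSupport (KLchi R) := by
  apply HasCompactSupport.of_support_subset_isCompact (isCompact_Icc (a := -(2 * R)) (b := 2 * R))
  intro u hu
  by_contra hcon
  apply hu
  apply KLchi_zero hR
  by_contra h2
  exact hcon (abs_le.mp (not_le.mp h2).le)

private lemma KL_bound {K : ℝ → ℝ} {C R : ℝ} (hC : ∀ u : ℝ, |K u| * (1 + |u|) ^ 3 ≤ C) (hR : 0 < R) (u : ℝ) :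
    |K u - K u * KLchi R u| ≤ 4 * Real.pi ^ 2 * C / R * Pk 1 u := by
  have hC0 : 0 ≤ C := le_trans (by positivity) (hC u)
  have hpi := Real.pi_gt_three
  have hP : Pk 1 u = 1 / (1 + (2 * Real.pi * u) ^ 2) := by unfold Pk; norm_num
  rcases le_total |u| R with hu | hu
  · rw [KLchi_one hR hu, mul_one, sub_self, abs_zero]
    have := Pk_nonneg one_pos u
    positivity
  · have h1 : |K u - K u * KLchi R u| ≤ |K u| := by
      have e : K u - K u * KLchi R u = K u * (1 - KLchi R u) := by ring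
      rw [e, abs_mul]
      have h2 : |1 - KLchi R u| ≤ 1 := by
        rw [abs_le]
        have := KLchi_nonneg R u
        have := KLchi_le_one R u
        constructor <;> linarith
      calc |K u| * |1 - KLchi R u| ≤ |K u| * 1 := by gcongr
        _ = |K u| := mul_one _
    refine h1.trans ?_
    have ha : 0 ≤ |u| := abs_nonneg u
    have h2 : |K u| ≤ C / (1 + |u|) ^ 3 := by
      rw [le_div_iff₀ (by positivity)]
      exact hC u
    refine h2.trans ?_
    rw [hP, mul_one_div, div_div, div_le_div_iff₀ (by positivity) (by positivity)]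
    have h3 : 1 + (2 * Real.pi * u) ^ 2 ≤ 4 * Real.pi ^ 2 * (1 + |u|) ^ 2 := by
      have e : u ^ 2 = |u| ^ 2 := (sq_abs u).symm
      have e2 : (2 * Real.pi * u) ^ 2 = 4 * Real.pi ^ 2 * |u| ^ 2 := by rw [← e]; ring
      rw [e2]
      have : (1:ℝ) ≤ 4 * Real.pi ^ 2 := by nlinarith
      nlinarith [mul_nonneg (mul_nonneg (by norm_num : (0:ℝ) ≤ 4) (sq_nonneg Real.pi)) ha]
    have h4 : R * (1 + (2 * Real.pi * u) ^ 2) ≤ 4 * Real.pi ^ 2 * (1 + |u|) ^ 3 := by
      calc R * (1 + (2 * Real.pi * u) ^ 2) ≤ (1 + |u|) * (4 * Real.pi ^ 2 * (1 + |u|) ^ 2) := by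
            gcongr
            linarith
        _ = _ := by ring
    nlinarith [mul_le_mul_of_nonneg_left h4 hC0]

theorem law_Cs_of_windows {l : Filter ℝ} (hl : l ≤ atTop)
    (hL : ∀ α β : ℝ, α ≤ β → Tendsto (fun T : ℝ => pairCount T α β / SN T) l
      (𝓝 ((∫ u in α..β, pcDensity u) + if α ≤ 0 ∧ 0 ≤ β then 1 else 0)))
    {ψ : ℝ → ℝ} {a b : ℝ} (h : Sm ψ a b) :
    Tendsto (fun T : ℝ => WP T (Cs ψ) / SN T) l (𝓝 (ψ 0 + ∫ α, ψ α * min |α| 1)) := by
  rw [← Cs_value h]
  obtain ⟨C, hC0, hC⟩ := Cs_decay h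
  obtain ⟨C1, T0, hC1, hW⟩ := WP_le_of_Pk
  have hPk : ∀ c : ℝ, 0 < c → Tendsto (fun T : ℝ => WP T (Pk c) / SN T) l
      (𝓝 (Pk c 0 + ∫ u, Pk c u * pcDensity u)) := by
    intro c hc
    refine poisson_of_law hl ?_ hc
    intro α β hαβ
    convert hL α β hαβ
  rw [Metric.tendsto_nhds]
  intro ε hε
  have hpi := Real.pi_pos
  set J : ℝ := ∫ u, Pk 1 u with hJ
  have hJ0 : 0 ≤ J := integral_nonneg fun u => Pk_nonneg one_pos u
  set R : ℝ := 16 * Real.pi ^ 2 * C * (C1 + J) / ε + 1 with hRdef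
  have hR : 0 < R := by positivity
  set M : ℝ := 4 * Real.pi ^ 2 * C / R with hM
  have hM0 : 0 ≤ M := by positivity
  have hMb : M * (C1 + J) ≤ ε / 4 := by
    rw [hM, div_mul_eq_mul_div, div_le_iff₀ hR]
    have e : ε / 4 * R = 4 * Real.pi ^ 2 * C * (C1 + J) + ε / 4 := by
      rw [hRdef]
      field_simp
      ring
    rw [e]
    linarith
  have hMC : C1 * M ≤ ε / 4 := by nlinarith [mul_nonneg hM0 hJ0]
  have hMJ : M * J ≤ ε / 4 := by nlinarith [mul_nonneg hM0 hC1.le]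
  have hb : ∀ u, |Cs ψ u - Cs ψ u * KLchi R u| ≤ M * Pk 1 u := KL_bound hC hR
  have hφc : Continuous (fun u => Cs ψ u * KLchi R u) := (Cs_continuous h).mul (KLchi_cont R)
  have hφs : HasCompactSupport (fun u => Cs ψ u * KLchi R u) := (KLchi_supp hR).mul_left
  have hlaw := law_cc_h48 hl hPk hφc hφs (fun u => by
    show Cs ψ (-u) * KLchi R (-u) = Cs ψ u * KLchi R u
    rw [Cs_even, KLchi_even])
  have h0 : Cs ψ 0 * KLchi R 0 = Cs ψ 0 := by
    rw [KLchi_one hR (by rw [abs_zero]; exact hR.le), mul_one]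
  rw [h0] at hlaw
  have hKi : Integrable (fun u => Cs ψ u * pcDensity u) := int_mul_F_h48 (Cs_integrable h)
  have hφi : Integrable (fun u => Cs ψ u * KLchi R u * pcDensity u) :=
    int_mul_F_h48 (hφc.integrable_of_hasCompactSupport hφs)
  have hval : |(∫ u, Cs ψ u * pcDensity u) - ∫ u, Cs ψ u * KLchi R u * pcDensity u| ≤ ε / 4 := by
    rw [← integral_sub hKi hφi]
    refine (norm_integral_le_integral_norm (fun u => Cs ψ u * pcDensity u - Cs ψ u * KLchi R u * pcDensity u)).trans ?_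
    refine le_trans ?_ hMJ
    rw [hJ, ← integral_const_mul]
    refine integral_mono (hKi.sub hφi).norm ((Pk_int_h48 one_pos).const_mul M) fun u => ?_
    show ‖Cs ψ u * pcDensity u - Cs ψ u * KLchi R u * pcDensity u‖ ≤ M * Pk 1 u
    rw [← sub_mul, norm_mul, Real.norm_of_nonneg (pcDensity_nonneg u), Real.norm_eq_abs]
    calc |Cs ψ u - Cs ψ u * KLchi R u| * pcDensity u ≤ M * Pk 1 u * 1 := by
          apply mul_le_mul (hb u) (pcDensity_le_one u) (pcDensity_nonneg u)
          exact mul_nonneg hM0 (Pk_nonneg one_pos u)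
      _ = M * Pk 1 u := mul_one _
  have hlog : ∀ᶠ T : ℝ in l, 1 ≤ 5 * Real.log T := by
    have h1 : Tendsto (fun T : ℝ => 5 * Real.log T) l atTop :=
      (Real.tendsto_log_atTop.mono_left hl).const_mul_atTop (by norm_num)
    exact h1.eventually_ge_atTop 1
  filter_upwards [(Metric.tendsto_nhds.mp hlaw) (ε / 4) (by linarith), hl (eventually_ge_atTop T0),
    hl (eventually_gt_atTop 1), hlog] with T h1 hT0 hT1 hT2
  have hS := SN_pos hT1
  have h2 := hW T hT0 1 le_rfl hT2 (fun u => Cs ψ u - Cs ψ u * KLchi R u) M hM0 hb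
  have h3 : WP T (Cs ψ) = WP T (fun u => Cs ψ u * KLchi R u) + WP T (fun u => Cs ψ u - Cs ψ u * KLchi R u) := by
    rw [← Pool.Agent.Helper69.GMU.WP_add]
    congr 1
    funext u
    ring
  have h4 : |WP T (fun u => Cs ψ u - Cs ψ u * KLchi R u) / SN T| ≤ ε / 4 := by
    rw [abs_div, abs_of_pos hS, div_le_iff₀ hS]
    refine h2.trans ?_
    gcongr
  rw [Real.dist_eq] at h1 ⊢
  rw [h3, add_div]
  have h5 := abs_le.mp h4
  have h6 := abs_lt.mp h1
  have h7 := abs_le.mp hval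
  rw [abs_lt]
  constructor <;> linarith [h5.1, h5.2, h6.1, h6.2, h7.1, h7.2]

theorem CLaw_of_windows {l : Filter ℝ} (hl : l ≤ atTop)
    (hL : ∀ α β : ℝ, α ≤ β → Tendsto (fun T : ℝ => pairCount T α β / SN T) l
      (𝓝 ((∫ u in α..β, pcDensity u) + if α ≤ 0 ∧ 0 ≤ β then 1 else 0)))
    {ψ : ℝ → ℝ} {a b : ℝ} (h : Sm ψ a b) (ha : 0 < a) : CLaw l ψ := by
  have h1 := law_Cs_of_windows hl hL h
  have h0 : ψ 0 = 0 := h.supp 0 (fun hc => by linarith [hc.1])
  have h2 : ∫ α, ψ α * min |α| 1 = ∫ α, ψ α * min α 1 := by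
    congr 1
    funext α
    by_cases hα : α ∈ Icc a b
    · rw [abs_of_pos (lt_of_lt_of_le ha hα.1)]
    · rw [h.supp α hα, zero_mul, zero_mul]
  unfold CLaw
  rw [h0, zero_add, h2] at h1
  exact h1

end Pool.Agent.Helper69.GMU
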