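import Pool.Agent.Helper69.GMU.PM
import Pool.Agent.Helper78.SG.MV
import Pool.Agent.Helper78.SG.Diag

/-!
# GMU block MV2: mean square of the prime sum, support in `(0,1)`, upper bound

`PP_eq_sum` with `N = ⌈T^b⌉`: `PP φ T t = ∑_{n ≤ N} c n n^(-it)`, `c n = Λ(n) n^(-1/2) φ(log n/L)/L` real, so
`‖PP‖² = (∑ c n cos(t log n))² + (∑ c n sin(t log n))²`, and `mv_cplx` (`Helper78/SG/MV.lean`):
`∫_0^T ‖PP‖² ≤ (T + 20 N (1+log N)) ∑ c n²`, `N ≤ T^b + 1`, `b < 1`, so the factor is `≤ (1+ε) T` eventually.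
`∑ c n² = (1/L²) ∑ Λ(n)²/n φ(log n/L)² → ∫ φ(α)² α dα` : copy `Helper78/SG/Diag.lean` (`psum_gen` with `X = L`, function `y ↦ y φ(y/L)²`, and the
replacement of `Λ²/n` by `(Λ/n) log n`). On the support `α ≤ 1`, so `α = min α 1`.
-/

open Complex Set MeasureTheory Filter Topology
open Pool.Agent.Helper57.LH Pool.Agent.Helper57.PC Pool.Agent.Helper57.Zeta
open Pool.Agent.Helper69.GGM
open scoped ContDiff

namespace Pool.Agent.Helper69.GMU

open Pool.Agent.Helper57.LS Pool.Agent.Helper57.UB in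
open scoped ArithmeticFunction in
private theorem mv2_diag {φ : ℝ → ℝ} {a b c : ℝ} (h : Sm φ a b) (hc : 0 < c) (hbc : b < c) :
    ∃ C : ℝ, ∀ L : ℝ, 1 ≤ L →
    ‖(∑ n ∈ Finset.range (NX (c * L) + 1),
      (Λ n / Real.sqrt n * φ (Real.log n / L) / L) ^ 2) -
      ∫ y in (0:ℝ)..c, y * φ y ^ 2‖ ≤ C / L := by
  have hsm0 : Continuous φ := h.smooth.continuous
  have hsm1 : Continuous (deriv φ) := h.smooth.continuous_deriv (by norm_cast)
  obtain ⟨M, hM⟩ := (isCompact_Icc (a := (0:ℝ)) (b := c)).exists_bound_of_continuousOn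
    (hsm0.continuousOn)
  obtain ⟨M', hM'⟩ := (isCompact_Icc (a := (0:ℝ)) (b := c)).exists_bound_of_continuousOn
    (hsm1.continuousOn)
  have hM0 : 0 ≤ M := (norm_nonneg _).trans (hM 0 ⟨le_rfl, hc.le⟩)
  have hM0' : 0 ≤ M' := (norm_nonneg _).trans (hM' 0 ⟨le_rfl, hc.le⟩)
  have hend0 : φ c = 0 := h.supp _ (fun hx => absurd hx.2 (not_le.2 hbc))
  refine ⟨c * M ^ 2 * CNP + CMe * (c * (M ^ 2 + 2 * c * (M * M'))), fun L hL => ?_⟩
  have hL0 : 0 < L := by linarith
  have hX : 0 < c * L := by positivity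
  have hCM := CMe_pos
  set K : ℝ := M ^ 2 + 2 * c * (M * M') with hK
  have hrange : ∀ y : ℝ, 0 ≤ y → y ≤ c * L → y / L ∈ Icc (0:ℝ) c := by
    intro y h0 h1
    refine ⟨by positivity, ?_⟩
    rw [div_le_iff₀ hL0]; linarith
  have hder : ∀ y : ℝ, HasDerivAt (fun y => y * φ (y / L) ^ 2)
      (φ (y / L) ^ 2 + y * (2 * φ (y / L) * (deriv φ (y / L) / L))) y := by
    intro y
    have h1 : HasDerivAt (fun y : ℝ => y / L) (1 / L) y := (hasDerivAt_id y).div_const L
    have h2 : HasDerivAt φ (deriv φ (y / L)) (y / L) :=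
      ((h.smooth.differentiable (by simp)) _).hasDerivAt
    have h3 : HasDerivAt (fun y : ℝ => φ (y / L)) (deriv φ (y / L) * (1 / L)) y :=
      HasDerivAt.comp y h2 h1
    have h4 := (hasDerivAt_id y).mul (h3.pow 2)
    refine (h4.congr_deriv ?_).congr_of_eventuallyEq (Eventually.of_forall fun x => ?_)
    · simp only [id, Pi.pow_apply]
      push_cast
      ring
    · simp
  have hcont : Continuous (fun y => φ (y / L) ^ 2 +
      y * (2 * φ (y / L) * (deriv φ (y / L) / L))) := by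
    fun_prop
  have hKb : ∀ y, 0 ≤ y → y ≤ c * L →
      |φ (y / L) ^ 2 + y * (2 * φ (y / L) * (deriv φ (y / L) / L))| ≤ K := by
    intro y h0 h1
    have a1 : |φ (y / L)| ≤ M := hM _ (hrange y h0 h1)
    have a2 : |deriv φ (y / L)| ≤ M' := hM' _ (hrange y h0 h1)
    have a3 : 0 ≤ y / L := (hrange y h0 h1).1
    have a4 : y / L ≤ c := (hrange y h0 h1).2
    have e1 : y * (2 * φ (y / L) * (deriv φ (y / L) / L)) =
        2 * (y / L) * (φ (y / L) * deriv φ (y / L)) := by
      field_simp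
    rw [e1]
    refine (abs_add_le _ _).trans ?_
    have b1 : |φ (y / L) ^ 2| ≤ M ^ 2 := by
      rw [abs_pow]
      exact pow_le_pow_left₀ (abs_nonneg _) a1 2
    have b2 : |2 * (y / L) * (φ (y / L) * deriv φ (y / L))| ≤ (2 * c) * (M * M') := by
      rw [abs_mul, abs_mul (φ _)]
      refine mul_le_mul ?_ (mul_le_mul a1 a2 (abs_nonneg _) hM0) (by positivity) (by positivity)
      rw [abs_of_nonneg (by positivity)]
      linarith
    rw [hK]; linarith
  have h1 := psum_gen hX hder hcont (by simp) hKb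
  have hend : c * L * φ (c * L / L) ^ 2 = 0 := by
    have : c * L / L = c := by field_simp
    rw [this, hend0]; simp
  rw [hend, abs_zero, zero_add] at h1
  have hint : ∫ y in (0:ℝ)..(c * L), y * φ (y / L) ^ 2 =
      L ^ 2 * ∫ y in (0:ℝ)..c, y * φ y ^ 2 := by
    have h := intervalIntegral.integral_comp_mul_left (a := 0) (b := c)
      (fun y => y * φ (y / L) ^ 2) hL0.ne'
    rw [mul_zero, smul_eq_mul, show L * c = c * L by ring] at h
    have h2 : ∫ y in (0:ℝ)..(c * L), y * φ (y / L) ^ 2 =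
        L * ∫ y in (0:ℝ)..c, (L * y) * φ (L * y / L) ^ 2 := by
      rw [h, ← mul_assoc, mul_inv_cancel₀ hL0.ne', one_mul]
    rw [h2, ← intervalIntegral.integral_const_mul, ← intervalIntegral.integral_const_mul]
    apply intervalIntegral.integral_congr
    intro t _
    simp only
    rw [show L * t / L = t by field_simp]
    ring
  rw [hint] at h1
  set A := ∑ n ∈ Finset.range (NX (c * L) + 1), Λ n ^ 2 / n * φ (Real.log n / L) ^ 2 with hA
  set B := ∑ n ∈ Finset.range (NX (c * L) + 1),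
    (Λ n / n) * (Real.log n * φ (Real.log n / L) ^ 2) with hB
  set J := ∫ y in (0:ℝ)..c, y * φ y ^ 2 with hJ
  have h2 : |A - B| ≤ c * L * M ^ 2 * CNP := by
    rw [hA, hB, ← Finset.sum_sub_distrib]
    refine (Finset.abs_sum_le_sum_abs _ _).trans ?_
    have h3 : ∀ n ∈ Finset.range (NX (c * L) + 1),
        |Λ n ^ 2 / n * φ (Real.log n / L) ^ 2 -
          (Λ n / n) * (Real.log n * φ (Real.log n / L) ^ 2)| ≤ c * L * M ^ 2 * (aN n / n) := by
      intro n hn
      rw [Finset.mem_range] at hn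
      rcases Nat.eq_zero_or_pos n with rfl | hn0
      · simp
      have hn0' : (0:ℝ) < n := by exact_mod_cast hn0
      have h4 : (n:ℝ) ≤ Real.exp (c * L) :=
        (Nat.le_floor_iff (Real.exp_pos _).le).mp (by unfold NX at hn; omega)
      have h5 : Real.log n ≤ c * L := by rwa [Real.log_le_iff_le_exp hn0']
      have h50 : 0 ≤ Real.log n := Real.log_natCast_nonneg n
      have e2 : Λ n ^ 2 / n * φ (Real.log n / L) ^ 2 -
          (Λ n / n) * (Real.log n * φ (Real.log n / L) ^ 2) =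
            (Λ n * (Λ n - Real.log n) / n) * φ (Real.log n / L) ^ 2 := by ring
      rw [e2, abs_mul]
      have h6 : |Λ n * (Λ n - Real.log n) / n| ≤ c * L * (aN n / n) := by
        unfold aN
        split_ifs with hp
        · rw [ArithmeticFunction.vonMangoldt_apply_prime hp, sub_self]; simp
        · have h9 := @ArithmeticFunction.vonMangoldt_nonneg n
          have h10 := @ArithmeticFunction.vonMangoldt_le_log n
          rw [abs_div, abs_mul, abs_of_nonneg h9, abs_of_nonpos (by linarith only [h10]),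
            abs_of_pos hn0']
          calc Λ n * -(Λ n - Real.log n) / n ≤ Λ n * (c * L) / n := by
                gcongr
                linarith only [h5, h9]
            _ = _ := by ring
      have h7 : |φ (Real.log n / L) ^ 2| ≤ M ^ 2 := by
        rw [abs_pow]
        exact pow_le_pow_left₀ (abs_nonneg _) (hM _ (hrange _ h50 h5)) 2
      have h8 : 0 ≤ c * L * (aN n / n) := by
        have := aN_nonneg n
        positivity
      calc _ ≤ c * L * (aN n / n) * M ^ 2 :=
            mul_le_mul h6 h7 (abs_nonneg _) h8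
        _ = _ := by ring
    refine (Finset.sum_le_sum h3).trans ?_
    rw [← Finset.mul_sum]
    exact mul_le_mul_of_nonneg_left (nonprime_sum (NX (c * L))) (by positivity)
  have hsum : ∑ n ∈ Finset.range (NX (c * L) + 1),
      (Λ n / Real.sqrt n * φ (Real.log n / L) / L) ^ 2 = 1 / L ^ 2 * A := by
    rw [hA, Finset.mul_sum]
    refine Finset.sum_congr rfl fun n _ => ?_
    rw [div_pow, mul_pow, div_pow, Real.sq_sqrt (Nat.cast_nonneg n)]
    ring
  rw [hsum, Real.norm_eq_abs]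
  have e : 1 / L ^ 2 * A - J = 1 / L ^ 2 * ((A - B) + (B - L ^ 2 * J)) := by
    field_simp
    ring
  rw [e, abs_mul, abs_of_pos (by positivity)]
  have h10 : |(A - B) + (B - L ^ 2 * J)| ≤ c * L * M ^ 2 * CNP + CMe * (K * (c * L)) :=
    (abs_add_le _ _).trans (add_le_add h2 h1)
  calc 1 / L ^ 2 * |(A - B) + (B - L ^ 2 * J)|
      ≤ 1 / L ^ 2 * (c * L * M ^ 2 * CNP + CMe * (K * (c * L))) :=
        mul_le_mul_of_nonneg_left h10 (by positivity)
    _ = _ := by
        field_simp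

private theorem mv2_cpow (n : ℕ) (hn : 1 ≤ n) (t : ℝ) :
    (n : ℂ) ^ (-((1 / 2 : ℂ) + (t : ℂ) * I)) =
      ((1 / Real.sqrt n : ℝ) : ℂ) * ((Real.cos (Real.log n * t) : ℂ) -
        (Real.sin (Real.log n * t) : ℂ) * I) := by
  have hn0 : (0 : ℝ) < n := by exact_mod_cast hn
  have hnC : (n : ℂ) ≠ 0 := by
    have : n ≠ 0 := by omega
    exact_mod_cast this
  rw [Complex.cpow_def_of_ne_zero hnC, ← Complex.natCast_log]
  have h1 : (1 / Real.sqrt n : ℝ) = Real.exp (Real.log n * (-(1 / 2))) := by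
    rw [← Real.rpow_def_of_pos hn0, Real.rpow_neg hn0.le, ← Real.sqrt_eq_rpow, one_div]
  have h2 : (Real.log n : ℂ) * (-((1 / 2 : ℂ) + (t : ℂ) * I)) =
      ((Real.log n * (-(1 / 2)) : ℝ) : ℂ) + ((-(Real.log n * t) : ℝ) : ℂ) * I := by
    push_cast
    ring
  rw [h2, Complex.exp_add_mul_I, ← Complex.ofReal_exp, ← h1, ← Complex.ofReal_cos,
    ← Complex.ofReal_sin, Real.cos_neg, Real.sin_neg]
  push_cast
  ring

open scoped ArithmeticFunction in
private theorem mv2_norm {φ : ℝ → ℝ} {a b : ℝ} (h : Sm φ a b) {T : ℝ} (hT : 1 < T) {N : ℕ}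
    (hN : T ^ b ≤ N) (t : ℝ) :
    ‖PP φ T t‖ ^ 2 =
      (∑ n ∈ Finset.range (N + 1), (Λ n / Real.sqrt n * φ (Real.log n / Real.log T) /
        Real.log T) * Real.cos (Real.log n * t)) ^ 2 +
      (∑ n ∈ Finset.range (N + 1), (Λ n / Real.sqrt n * φ (Real.log n / Real.log T) /
        Real.log T) * Real.sin (Real.log n * t)) ^ 2 := by
  set A := ∑ n ∈ Finset.range (N + 1), (Λ n / Real.sqrt n * φ (Real.log n / Real.log T) /
        Real.log T) * Real.cos (Real.log n * t) with hA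
  set B := ∑ n ∈ Finset.range (N + 1), (Λ n / Real.sqrt n * φ (Real.log n / Real.log T) /
        Real.log T) * Real.sin (Real.log n * t) with hB
  have h1 : PP φ T t = (A : ℂ) - (B : ℂ) * I := by
    rw [PP_eq_sum h hT hN t, hA, hB, Finset.sum_div]
    push_cast
    rw [Finset.sum_mul, ← Finset.sum_sub_distrib]
    refine Finset.sum_congr rfl fun n _ => ?_
    rcases Nat.eq_zero_or_pos n with rfl | hn
    · simp
    · rw [mv2_cpow n hn t]
      push_cast
      ring
  rw [h1, ← Complex.normSq_eq_norm_sq, Complex.normSq_apply]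
  simp
  ring

private theorem mv2_VP {φ : ℝ → ℝ} {a b c : ℝ} (h : Sm φ a b) (ha : 0 < a) (hab : a ≤ b)
    (hbc : b < c) (hc : c < 1) : VP φ = ∫ y in (0:ℝ)..c, y * φ y ^ 2 := by
  unfold VP
  rw [intervalIntegral.integral_of_le (by linarith)]
  rw [← MeasureTheory.setIntegral_eq_integral_of_forall_compl_eq_zero (s := Ioc (0:ℝ) c)]
  · refine setIntegral_congr_fun measurableSet_Ioc fun y hy => ?_
    rw [min_eq_left (hy.2.trans hc.le)]
    ring
  · intro y hy
    have : φ y = 0 := by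
      apply h.supp
      intro hy2
      exact hy ⟨by linarith [hy2.1], by linarith [hy2.2]⟩
    rw [this]
    ring

open scoped ArithmeticFunction in
theorem PP_mean_upper {φ : ℝ → ℝ} {a b : ℝ} (h : Sm φ a b) (ha : 0 < a) (hab : a ≤ b) (hb : b < 1) {ε : ℝ} (hε : 0 < ε) :
    ∀ᶠ T : ℝ in atTop, (1 / T) * ∫ t in (0:ℝ)..T, ‖PP φ T t‖ ^ 2 ≤ VP φ + ε := by
  obtain ⟨c, hbc, hc1⟩ := exists_between hb
  have hb0 : 0 < b := by linarith
  have hc0 : 0 < c := by linarith
  obtain ⟨C, hC⟩ := mv2_diag h hc0 hbc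
  rw [← mv2_VP h ha hab hbc hc1] at hC
  set S : ℝ → ℝ := fun T => ∑ n ∈ Finset.range (NX (c * Real.log T) + 1),
      (Λ n / Real.sqrt n * φ (Real.log n / Real.log T) / Real.log T) ^ 2 with hS
  have hSlim : Tendsto S atTop (𝓝 (VP φ)) := by
    rw [tendsto_iff_norm_sub_tendsto_zero]
    refine squeeze_zero' (Eventually.of_forall fun _ => norm_nonneg _)
      ((Real.tendsto_log_atTop.eventually_ge_atTop 1).mono fun T hT => hC _ hT) ?_
    exact tendsto_const_nhds.div_atTop Real.tendsto_log_atTop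
  have hlim1 : Tendsto (fun T : ℝ => T ^ (-(1 - c))) atTop (𝓝 0) :=
    tendsto_rpow_neg_atTop (by linarith)
  have hlim2 : Tendsto (fun T : ℝ => Real.log T / T ^ (1 - c)) atTop (𝓝 0) :=
    (isLittleO_log_rpow_atTop (by linarith)).tendsto_div_nhds_zero
  have hlim3 : Tendsto (fun T : ℝ => (1 + 20 * (T ^ (-(1 - c)) + Real.log T / T ^ (1 - c))) * S T)
      atTop (𝓝 (VP φ)) := by
    have := ((hlim1.add hlim2).const_mul 20).const_add 1
    have h2 := this.mul hSlim
    simpa using h2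
  have hev1 : ∀ᶠ T : ℝ in atTop,
      (1 + 20 * (T ^ (-(1 - c)) + Real.log T / T ^ (1 - c))) * S T < VP φ + ε :=
    hlim3.eventually_lt_const (by linarith)
  have hev2 : ∀ᶠ T : ℝ in atTop, (2 : ℝ) ≤ T ^ (c - b) :=
    (tendsto_rpow_atTop (by linarith)).eventually_ge_atTop 2
  filter_upwards [hev1, hev2, eventually_gt_atTop 1] with T h1 h2 hT
  have hT0 : 0 < T := by linarith
  have hL : 0 < Real.log T := Real.log_pos hT
  have hexp : Real.exp (c * Real.log T) = T ^ c := by
    rw [Real.rpow_def_of_pos hT0, mul_comm]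
  have hTb : 1 ≤ T ^ b := Real.one_le_rpow hT.le hb0.le
  have hTc : 2 * T ^ b ≤ T ^ c := by
    have : T ^ c = T ^ (c - b) * T ^ b := by
      rw [← Real.rpow_add hT0]; congr 1; ring
    rw [this]
    exact mul_le_mul_of_nonneg_right h2 (by linarith)
  set N := NX (c * Real.log T) with hN
  have hN1 : (N : ℝ) ≤ T ^ c := by
    rw [← hexp]
    exact Nat.floor_le (Real.exp_pos _).le
  have hN2 : T ^ c < N + 1 := by
    rw [← hexp]
    exact Nat.lt_floor_add_one _
  have hN3 : T ^ b ≤ N := by linarith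
  have hN4 : (1 : ℝ) ≤ N := by linarith
  have hN5 : 1 ≤ N := by exact_mod_cast hN4
  have hlogN : Real.log N ≤ Real.log T := by
    refine Real.log_le_log (by linarith) (hN1.trans ?_)
    calc T ^ c ≤ T ^ (1 : ℝ) := Real.rpow_le_rpow_of_exponent_le hT.le hc1.le
      _ = T := Real.rpow_one T
  have hmv := Pool.Agent.Helper78.SG.mv_cplx hN5
    (fun n => Λ n / Real.sqrt n * φ (Real.log n / Real.log T) / Real.log T) (by simp) hT0.le
  have hint : ∫ t in (0:ℝ)..T, ‖PP φ T t‖ ^ 2 =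
      ∫ t in (0:ℝ)..T, ((∑ n ∈ Finset.range (N + 1), (Λ n / Real.sqrt n *
        φ (Real.log n / Real.log T) / Real.log T) * Real.cos (Real.log n * t)) ^ 2 +
      (∑ n ∈ Finset.range (N + 1), (Λ n / Real.sqrt n * φ (Real.log n / Real.log T) /
        Real.log T) * Real.sin (Real.log n * t)) ^ 2) := by
    congr 1
    funext t
    exact mv2_norm h hT hN3 t
  rw [hint]
  have hS0 : 0 ≤ S T := Finset.sum_nonneg fun n _ => sq_nonneg _
  have h20 : 20 * (N : ℝ) * (1 + Real.log N) ≤ 20 * T ^ c * (1 + Real.log T) := by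
    have : 0 ≤ Real.log N := Real.log_nonneg hN4
    have hTc0 : 0 < T ^ c := by positivity
    gcongr
  have hrw : (1 / T) * ((T - 0 + 20 * T ^ c * (1 + Real.log T)) * S T) =
      (1 + 20 * (T ^ (-(1 - c)) + Real.log T / T ^ (1 - c))) * S T := by
    have e1 : T ^ (-(1 - c)) = T ^ c / T := by
      rw [show -(1 - c) = c - 1 by ring, Real.rpow_sub_one hT0.ne']
    have e2 : T ^ (1 - c) = T / T ^ c := by
      rw [Real.rpow_sub hT0, Real.rpow_one]
    rw [e1, e2]
    have : T ^ c ≠ 0 := by positivity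
    field_simp
    ring
  calc (1 / T) * _ ≤ (1 / T) * ((T - 0 + 20 * N * (1 + Real.log N)) * S T) := by
        refine mul_le_mul_of_nonneg_left hmv (by positivity)
    _ ≤ (1 / T) * ((T - 0 + 20 * T ^ c * (1 + Real.log T)) * S T) := by
        refine mul_le_mul_of_nonneg_left (mul_le_mul_of_nonneg_right ?_ hS0) (by positivity)
        linarith
    _ = _ := hrw
    _ ≤ _ := h1.le

end Pool.Agent.Helper69.GMU
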