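import Pool.Agent.Helper69.GMU.CSD
import Pool.Agent.Helper69.GMU.SM2
import Pool.Agent.Helper69.GMU.KAP

/-!
# GMU block NA: upper bound for nonnegative test functions, from the upper bound for squares

`Q a b` says which support intervals are allowed (an open condition: `hQ`; it will be used with `θ < a` and with `0 < a ∧ b < 1`).
Given `ψ ≥ 0` zero off `[a,b]`, take `a' < a`, `b < b'` with `0 < a'`, `Q a' b'`, and `κ` smooth, `κ = 1` on `[a,b]`, zero off `[a',b']` (`exists_bump`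
after shrinking, or directly). For `e > 0`, `φ = √(ψ + e²) κ` is smooth and `φ² = ψ + e² κ²`. `WP T (Cs κ²) ≥ 0` (`SP0_second_moment`, `T > 1`), so
`WP T (Cs ψ) ≤ WP T (Cs φ²)`, and `∫ φ² min α 1 = ∫ ψ min α 1 + e² ∫ κ² min α 1`.
Second statement (`upper_all`): `ψ = ψ s + ψ (1-s)` with a smooth step `s` (`exists_step`), `max θ 0 < p < q < 1`.
-/

open Complex Set MeasureTheory Filter Topology
open Pool.Agent.Helper57.LH Pool.Agent.Helper57.PC Pool.Agent.Helper57.Zeta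
open Pool.Agent.Helper69.GGM
open scoped ContDiff

namespace Pool.Agent.Helper69.GMU

private theorem na_cs {φ : ℝ → ℝ} {a b : ℝ} (h : Sm φ a b) : HasCompactSupport φ := by
  refine HasCompactSupport.of_support_subset_isCompact (isCompact_Icc (a := a) (b := b)) ?_
  intro x hx
  by_contra hne
  exact hx (h.supp x hne)

private theorem na_int {φ : ℝ → ℝ} {a b : ℝ} (h : Sm φ a b) :
    Integrable (fun α : ℝ => φ α * min α 1) := by
  have h1 := h.smooth.continuous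
  refine Continuous.integrable_of_hasCompactSupport (by fun_prop) ?_
  exact (na_cs h).mul_right

private theorem na_sq {φ : ℝ → ℝ} {a b : ℝ} (h : Sm φ a b) : Sm (fun α => φ α ^ 2) a b := by
  refine ⟨h.smooth.pow 2, fun x hx => ?_⟩
  rw [h.supp x hx]
  norm_num

private theorem na_WP_nonneg {κ : ℝ → ℝ} {a b : ℝ} (h : Sm κ a b) {T : ℝ} (hT : 1 < T) :
    0 ≤ WP T (Cs (fun α => κ α ^ 2)) := by
  have h1 := SP0_second_moment h hT
  have h2 : 0 ≤ ∫ t, ‖SP0 κ T t‖ ^ 2 := integral_nonneg fun t => by positivity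
  rw [h1] at h2
  have h3 : 0 < 2 * Real.pi / Real.log T := div_pos (by positivity) (Real.log_pos hT)
  exact nonneg_of_mul_nonneg_right h2 h3

private theorem na_SN_pos {T : ℝ} (hT : 1 < T) : 0 < SN T := by
  unfold SN
  have := Real.log_pos hT
  positivity

theorem upper_nonneg {l : Filter ℝ} (hl : l ≤ atTop) {Q : ℝ → ℝ → Prop}
    (hQ : ∀ a b : ℝ, 0 < a → a ≤ b → Q a b → ∃ a' b' : ℝ, 0 < a' ∧ a' < a ∧ b < b' ∧ Q a' b')
    (h : ∀ (φ : ℝ → ℝ) (a b : ℝ), 0 < a → a ≤ b → Q a b → Sm φ a b → ∀ ε : ℝ, 0 < ε → ∀ᶠ T : ℝ in l,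
      WP T (Cs (fun α => φ α ^ 2)) / SN T ≤ (∫ α, φ α ^ 2 * min α 1) + ε) :
    ∀ (ψ : ℝ → ℝ) (a b : ℝ), 0 < a → a ≤ b → Q a b → Sm ψ a b → (∀ x : ℝ, 0 ≤ ψ x) → ∀ ε : ℝ, 0 < ε →
      ∀ᶠ T : ℝ in l, WP T (Cs ψ) / SN T ≤ (∫ α, ψ α * min α 1) + ε := by
  intro ψ a b ha hab hq hψ hψ0 ε hε
  obtain ⟨a', b', ha', haa, hbb, hq'⟩ := hQ a b ha hab hq
  have hab' : a' ≤ b' := by linarith
  obtain ⟨κ, hκ, -, -, hκ1⟩ := exists_bump haa hab hbb
  have hκ2 := na_sq hκ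
  obtain ⟨I, hI⟩ : ∃ I : ℝ, I = ∫ α, κ α ^ 2 * min α 1 := ⟨_, rfl⟩
  obtain ⟨e, he0, he⟩ : ∃ e : ℝ, 0 < e ∧ e ^ 2 * I ≤ ε / 2 := by
    refine ⟨Real.sqrt (ε / (2 * (|I| + 1))), Real.sqrt_pos.2 (by positivity), ?_⟩
    rw [Real.sq_sqrt (by positivity)]
    have h1 : I ≤ |I| + 1 := (le_abs_self I).trans (by linarith)
    calc ε / (2 * (|I| + 1)) * I ≤ ε / (2 * (|I| + 1)) * (|I| + 1) :=
          mul_le_mul_of_nonneg_left h1 (by positivity)
      _ = ε / 2 := by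
          field_simp
  have hpos : ∀ x, 0 < ψ x + e ^ 2 := fun x => by
    have := hψ0 x
    positivity
  have hφ : Sm (fun x => Real.sqrt (ψ x + e ^ 2) * κ x) a' b' := by
    refine ⟨((hψ.smooth.add contDiff_const).sqrt fun x => (hpos x).ne').mul hκ.smooth,
      fun x hx => ?_⟩
    rw [hκ.supp x hx, mul_zero]
  have hsq : (fun x => (Real.sqrt (ψ x + e ^ 2) * κ x) ^ 2) =
      fun x => ψ x + e ^ 2 * κ x ^ 2 := by
    funext x
    rw [mul_pow, Real.sq_sqrt (hpos x).le, add_mul]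
    congr 1
    by_cases hx : x ∈ Icc a b
    · rw [hκ1 x hx]
      ring
    · rw [hψ.supp x hx, zero_mul]
  have hκe : Sm (fun x => e ^ 2 * κ x ^ 2) a' b' := by
    refine ⟨contDiff_const.mul hκ2.smooth, fun x hx => ?_⟩
    have h1 : κ x ^ 2 = 0 := hκ2.supp x hx
    rw [h1, mul_zero]
  have hCs : Cs (fun x => (Real.sqrt (ψ x + e ^ 2) * κ x) ^ 2) =
      fun u => Cs ψ u + e ^ 2 * Cs (fun x => κ x ^ 2) u := by
    rw [hsq]
    funext u
    rw [Cs_add hψ hκe, Cs_smul]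
  have hint : ∫ α, (Real.sqrt (ψ α + e ^ 2) * κ α) ^ 2 * min α 1 =
      (∫ α, ψ α * min α 1) + e ^ 2 * I := by
    have h1 : (fun α => (Real.sqrt (ψ α + e ^ 2) * κ α) ^ 2 * min α 1) =
        fun α => ψ α * min α 1 + e ^ 2 * (κ α ^ 2 * min α 1) := by
      funext α
      have h2 := congrFun hsq α
      rw [h2]
      ring
    rw [h1, integral_add (na_int hψ) ((na_int hκ2).const_mul _), integral_const_mul, hI]
  have hmain := h _ a' b' ha' hab' hq' hφ (ε / 2) (half_pos hε)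
  filter_upwards [hmain, hl (eventually_gt_atTop (1 : ℝ))] with T hT hT1
  rw [hCs, WP_add, WP_smul, hint] at hT
  have h3 : WP T (Cs ψ) / SN T ≤ (WP T (Cs ψ) + e ^ 2 * WP T (Cs fun x => κ x ^ 2)) / SN T := by
    refine div_le_div_of_nonneg_right ?_ (na_SN_pos hT1).le
    have h4 := mul_nonneg (sq_nonneg e) (na_WP_nonneg hκ hT1)
    linarith
  linarith

theorem upper_all {l : Filter ℝ} (hl : l ≤ atTop) {θ : ℝ} (hθ : θ < 1)
    (h1 : ∀ (φ : ℝ → ℝ) (a b : ℝ), 0 < a → a ≤ b → b < 1 → Sm φ a b → ∀ ε : ℝ, 0 < ε → ∀ᶠ T : ℝ in l,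
      WP T (Cs (fun α => φ α ^ 2)) / SN T ≤ (∫ α, φ α ^ 2 * min α 1) + ε)
    (h2 : ∀ (φ : ℝ → ℝ) (a b : ℝ), θ < a → 0 < a → a ≤ b → Sm φ a b → ∀ ε : ℝ, 0 < ε → ∀ᶠ T : ℝ in l,
      WP T (Cs (fun α => φ α ^ 2)) / SN T ≤ (∫ α, φ α ^ 2 * min α 1) + ε) :
    ∀ (ψ : ℝ → ℝ) (a b : ℝ), 0 < a → a ≤ b → Sm ψ a b → (∀ x : ℝ, 0 ≤ ψ x) → ∀ ε : ℝ, 0 < ε →
      ∀ᶠ T : ℝ in l, WP T (Cs ψ) / SN T ≤ (∫ α, ψ α * min α 1) + ε := by
  intro ψ a b ha hab hψ hψ0 ε hε
  obtain ⟨p, hp0, hp1⟩ := exists_between (max_lt hθ (zero_lt_one' ℝ))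
  obtain ⟨q, hpq, hq1⟩ := exists_between hp1
  have hθp : θ < p := (le_max_left _ _).trans_lt hp0
  have hp : 0 < p := (le_max_right _ _).trans_lt hp0
  obtain ⟨s, hs, hs0, hs1, hsp, hsq⟩ := exists_step hpq
  have u1 := upper_nonneg hl (Q := fun _ b => b < 1)
    (fun a b ha hab hb => ⟨a / 2, (b + 1) / 2, by linarith, by linarith, by linarith, by linarith⟩)
    (fun φ a b ha hab hb hφ => h1 φ a b ha hab hb hφ)
  have u2 := upper_nonneg hl (Q := fun a _ => θ < a)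
    (fun a b ha hab hb => ⟨(max θ 0 + a) / 2, b + 1, by
        have := le_max_right θ 0
        linarith, by
        have := max_lt hb ha
        linarith, by linarith, by
        have h3 := le_max_left θ 0
        have h4 : θ < a := hb
        linarith⟩)
    (fun φ a b ha hab hb hφ => h2 φ a b hb ha hab hφ)
  have hψ1 : Sm (fun x => ψ x * s x) (min a q) q := by
    refine ⟨hψ.smooth.mul hs, fun x hx => ?_⟩
    by_cases hxq : q ≤ x
    · rw [hsq x hxq, mul_zero]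
    · rw [hψ.supp x, zero_mul]
      intro hx2
      exact hx ⟨(min_le_left _ _).trans hx2.1, (not_le.1 hxq).le⟩
  have hψ2 : Sm (fun x => ψ x * (1 - s x)) (max a p) (max b p) := by
    refine ⟨hψ.smooth.mul (contDiff_const.sub hs), fun x hx => ?_⟩
    by_cases hxp : x ≤ p
    · rw [hsp x hxp, sub_self, mul_zero]
    · rw [hψ.supp x, zero_mul]
      intro hx2
      exact hx ⟨max_le hx2.1 (not_le.1 hxp).le, hx2.2.trans (le_max_left _ _)⟩
  have v1 := u1 _ (min a q) q (lt_min ha (hp.trans hpq)) (min_le_right _ _) hq1 hψ1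
    (fun x => mul_nonneg (hψ0 x) (hs0 x)) (ε / 2) (half_pos hε)
  have v2 := u2 _ (max a p) (max b p) (ha.trans_le (le_max_left _ _))
    (max_le_max hab le_rfl) (hθp.trans_le (le_max_right _ _)) hψ2
    (fun x => mul_nonneg (hψ0 x) (sub_nonneg.2 (hs1 x))) (ε / 2) (half_pos hε)
  have hsum : ψ = fun x => ψ x * s x + ψ x * (1 - s x) := by
    funext x
    ring
  have hCs : Cs ψ = fun u => Cs (fun x => ψ x * s x) u + Cs (fun x => ψ x * (1 - s x)) u := by
    funext u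
    rw [← Cs_add hψ1 hψ2]
    exact congrArg (fun f => Cs f u) hsum
  have hint : ∫ α, ψ α * min α 1 = (∫ α, ψ α * s α * min α 1) +
      ∫ α, ψ α * (1 - s α) * min α 1 := by
    rw [← integral_add (na_int hψ1) (na_int hψ2)]
    refine integral_congr_ae (Eventually.of_forall fun α => ?_)
    change ψ α * min α 1 = ψ α * s α * min α 1 + ψ α * (1 - s α) * min α 1
    ring
  filter_upwards [v1, v2] with T w1 w2
  rw [hCs, WP_add, add_div, hint]
  linarith

end Pool.Agent.Helper69.GMU
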