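import Pool.Agent.Helper69.GMU.NB

/-!
# GMU block NC: the pair law for all test functions supported in `(0,∞)`

`lower_nonneg` + `hup`: `CLaw` for `0 ≤ ψ ≤ 1`; scaling: for all `ψ ≥ 0`; `ψ = (ψ + Cκ) - Cκ` with `κ ≥ 0` a bump equal to `1`
on `supp ψ`, supported in `[a/2, b+1]` (`exists_bump`) and `C ≥ sup|ψ|`: for all real `ψ`.
-/

open Complex Set MeasureTheory Filter Topology
open Pool.Agent.Helper57.LH Pool.Agent.Helper57.PC Pool.Agent.Helper57.Zeta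
open Pool.Agent.Helper69.GGM
open scoped ContDiff

namespace Pool.Agent.Helper69.GMU

theorem NC_mono67 {ψ : ℝ → ℝ} {a b a' b' : ℝ} (h : Sm ψ a b) (ha : a' ≤ a) (hb : b ≤ b') :
    Sm ψ a' b' :=
  ⟨h.smooth, fun x hx => h.supp x fun hx' => hx ⟨ha.trans hx'.1, hx'.2.trans hb⟩⟩

theorem NC_hcs67 {ψ : ℝ → ℝ} {a b : ℝ} (h : Sm ψ a b) : HasCompactSupport ψ :=
  HasCompactSupport.intro isCompact_Icc h.supp

theorem NC_int67 {ψ : ℝ → ℝ} {a b : ℝ} (h : Sm ψ a b) :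
    Integrable (fun α : ℝ => ψ α * min α 1) := by
  refine Continuous.integrable_of_hasCompactSupport
    (h.smooth.continuous.mul (continuous_id.min continuous_const)) ?_
  exact HasCompactSupport.intro isCompact_Icc fun x hx => by rw [h.supp x hx, zero_mul]

theorem NC_add67 {l : Filter ℝ} {ψ₁ ψ₂ : ℝ → ℝ} {a b a' b' : ℝ} (h₁ : Sm ψ₁ a b)
    (h₂ : Sm ψ₂ a' b') (c₁ : CLaw l ψ₁) (c₂ : CLaw l ψ₂) : CLaw l (fun α => ψ₁ α + ψ₂ α) := by
  unfold CLaw at *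
  have e1 : Cs (fun α => ψ₁ α + ψ₂ α) = fun u => Cs ψ₁ u + Cs ψ₂ u :=
    funext fun u => Cs_add h₁ h₂ u
  have e2 : ∫ α : ℝ, (ψ₁ α + ψ₂ α) * min α 1 =
      (∫ α : ℝ, ψ₁ α * min α 1) + ∫ α : ℝ, ψ₂ α * min α 1 := by
    rw [← integral_add (NC_int67 h₁) (NC_int67 h₂)]
    exact integral_congr_ae (Eventually.of_forall fun α => by simp only; ring)
  rw [e2]
  refine (c₁.add c₂).congr fun T => ?_
  rw [e1, WP_add, add_div]

theorem NC_smul67 {l : Filter ℝ} {ψ : ℝ → ℝ} (c : ℝ) (h : CLaw l ψ) :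
    CLaw l (fun α => c * ψ α) := by
  unfold CLaw at *
  have e1 : Cs (fun α => c * ψ α) = fun u => c * Cs ψ u := funext fun u => Cs_smul c ψ u
  have e2 : ∫ α : ℝ, (c * ψ α) * min α 1 = c * ∫ α : ℝ, ψ α * min α 1 := by
    rw [← integral_const_mul]
    exact integral_congr_ae (Eventually.of_forall fun α => by simp only; ring)
  rw [e2]
  refine (h.const_mul c).congr fun T => ?_
  rw [e1, WP_smul, mul_div_assoc]

theorem NC_unit67 {l : Filter ℝ} (hl : l ≤ atTop)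
    (hup : ∀ (ψ : ℝ → ℝ) (a b : ℝ), 0 < a → a ≤ b → Sm ψ a b → (∀ x : ℝ, 0 ≤ ψ x) → ∀ ε : ℝ, 0 < ε →
      ∀ᶠ T : ℝ in l, WP T (Cs ψ) / SN T ≤ (∫ α, ψ α * min α 1) + ε)
    (ψ : ℝ → ℝ) (a b : ℝ) (ha : 0 < a) (hab : a ≤ b) (h : Sm ψ a b)
    (h0 : ∀ x : ℝ, 0 ≤ ψ x) (h1 : ∀ x : ℝ, ψ x ≤ 1) : CLaw l ψ := by
  unfold CLaw
  rw [Metric.tendsto_nhds]
  intro ε hε
  filter_upwards [hup ψ a b ha hab h h0 (ε / 2) (by positivity),
    lower_nonneg hl hup ψ a b ha hab h h0 h1 (ε / 2) (by positivity)] with T h2 h3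
  rw [Real.dist_eq, abs_lt]
  constructor <;> linarith

theorem NC_real67 {l : Filter ℝ} (hl : l ≤ atTop)
    (hup : ∀ (ψ : ℝ → ℝ) (a b : ℝ), 0 < a → a ≤ b → Sm ψ a b → (∀ x : ℝ, 0 ≤ ψ x) → ∀ ε : ℝ, 0 < ε →
      ∀ᶠ T : ℝ in l, WP T (Cs ψ) / SN T ≤ (∫ α, ψ α * min α 1) + ε)
    (ψ : ℝ → ℝ) (a b : ℝ) (ha : 0 < a) (hab : a ≤ b) (h : Sm ψ a b) :
    CLaw l ψ := by
  obtain ⟨κ, hκ, hκ0, hκ1, hκe⟩ := exists_bump (show a / 2 < a by linarith) hab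
    (show b < b + 1 by linarith)
  obtain ⟨C₀, hC₀⟩ := (NC_hcs67 h).exists_bound_of_continuous h.smooth.continuous
  set C : ℝ := |C₀| + 1 with hC
  have hCpos : 0 < C := by positivity
  have hbd : ∀ x, |ψ x| ≤ C := fun x => by
    have := hC₀ x
    rw [Real.norm_eq_abs] at this
    linarith [le_abs_self C₀]
  have hψ' : Sm ψ (a / 2) (b + 1) := NC_mono67 h (by linarith) (by linarith)
  have hs1 : Sm (fun x => (1 / (2 * C)) * (ψ x + C * κ x)) (a / 2) (b + 1) := by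
    refine ⟨contDiff_const.mul (h.smooth.add (contDiff_const.mul hκ.smooth)), fun x hx => ?_⟩
    rw [hψ'.supp x hx, hκ.supp x hx]
    ring
  have hb1 : ∀ x, 0 ≤ ψ x + C * κ x ∧ ψ x + C * κ x ≤ 2 * C := by
    intro x
    by_cases hx : x ∈ Icc a b
    · rw [hκe x hx]
      have := abs_le.1 (hbd x)
      constructor <;> linarith [this.1, this.2]
    · rw [h.supp x hx]
      have h1 := hκ0 x
      have h2 := hκ1 x
      constructor
      · have := mul_nonneg hCpos.le h1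
        linarith
      · nlinarith
  have c1 : CLaw l (fun x => (1 / (2 * C)) * (ψ x + C * κ x)) := by
    refine NC_unit67 hl hup _ (a / 2) (b + 1) (by linarith) (by linarith)
      hs1 (fun x => ?_) (fun x => ?_)
    · exact mul_nonneg (by positivity) (hb1 x).1
    · calc (1 / (2 * C)) * (ψ x + C * κ x) ≤ (1 / (2 * C)) * (2 * C) :=
            mul_le_mul_of_nonneg_left (hb1 x).2 (by positivity)
        _ = 1 := by field_simp
  have c2 : CLaw l κ := NC_unit67 hl hup κ (a / 2) (b + 1) (by linarith)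
    (by linarith) hκ hκ0 hκ1
  have c3 := NC_smul67 (2 * C) c1
  have c4 := NC_smul67 (-C) c2
  have s3 : Sm (fun x => (2 * C) * ((1 / (2 * C)) * (ψ x + C * κ x))) (a / 2) (b + 1) :=
    ⟨contDiff_const.mul hs1.smooth, fun x hx => by rw [hs1.supp x hx, mul_zero]⟩
  have s4 : Sm (fun x => (-C) * κ x) (a / 2) (b + 1) :=
    ⟨contDiff_const.mul hκ.smooth, fun x hx => by rw [hκ.supp x hx, mul_zero]⟩
  have c5 := NC_add67 s3 s4 c3 c4
  have e : (fun α => (2 * C) * ((1 / (2 * C)) * (ψ α + C * κ α)) + (-C) * κ α) = ψ := by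
    funext x
    field_simp
    ring
  rwa [e] at c5

theorem CLaw_all {l : Filter ℝ} (hl : l ≤ atTop)
    (hup : ∀ (ψ : ℝ → ℝ) (a b : ℝ), 0 < a → a ≤ b → Sm ψ a b → (∀ x : ℝ, 0 ≤ ψ x) → ∀ ε : ℝ, 0 < ε →
      ∀ᶠ T : ℝ in l, WP T (Cs ψ) / SN T ≤ (∫ α, ψ α * min α 1) + ε) :
    ∀ (ψ : ℝ → ℝ) (a b : ℝ), 0 < a → a ≤ b → Sm ψ a b → CLaw l ψ := by
  exact fun ψ a b ha hab h => NC_real67 hl hup ψ a b ha hab h

end Pool.Agent.Helper69.GMU
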