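import Pool.Agent.Helper69.GMU.X0
import Pool.Agent.Helper69.GMU.PM

/-!
# GMU block X2: expectation of the weighted `L²` norm

`MP φ_α T (G²)`, `φ_α β = η(β-α)`, is nonnegative and `≤ G²` for `T > 0`. `PUp` with `B = G²`: for each `α ∈ [2,A]` (support in `[1,A+1]`,
`θ < 1`), every `ε > 0`: eventually `MP φ_α T G² ≤ VP φ_α + ε ≤ Cb + ε` (`VP φ_α = ∫ η(β-α)² min β 1 dβ ≤ ∫ η² ≤ Cb ∫ η`). So
`g_T(α) = max (MP φ_α T G² - Cb) 0 → 0` along `l`, bounded by `G²`, measurable in `α` (`PP_joint`, Fubini; compare `MM_measurable` in `GGM/E3a.lean`), hence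
`∫_2^A g_T → 0` (dominated convergence, `l` countably generated), and
`∫_0^T ∫_2^A min(‖PP φ_α‖²,G²) e^(-bα) = T ∫_2^A MP φ_α T G² e^(-bα) ≤ T (Cb/b + ∫ g_T)` (Fubini for a bounded continuous function).
-/

open Complex Set MeasureTheory Filter Topology
open Pool.Agent.Helper57.LH Pool.Agent.Helper57.PC Pool.Agent.Helper57.Zeta
open Pool.Agent.Helper69.GGM
open scoped ContDiff

namespace Pool.Agent.Helper69.GMU

private lemma X2_cont {η : ℝ → ℝ} (hη : Sm η (-1) 1) {T : ℝ} (hT : 1 < T) (B : ℝ) :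
    Continuous (fun p : ℝ × ℝ => min (‖PP (fun β => η (β - p.1)) T p.2‖ ^ 2) B) :=
  (((PP_joint hη hT).norm).pow 2).min continuous_const

private lemma X2_MP_cont {η : ℝ → ℝ} (hη : Sm η (-1) 1) {T : ℝ} (hT : 1 < T) (B : ℝ) :
    Continuous (fun α : ℝ => MP (fun β => η (β - α)) T B) := by
  unfold MP
  refine Continuous.mul continuous_const ?_
  exact intervalIntegral.continuous_parametric_intervalIntegral_of_continuous' (X2_cont hη hT B) 0 T

private lemma X2_MP_nonneg (φ : ℝ → ℝ) {T B : ℝ} (hT : 0 < T) (hB : 0 ≤ B) : 0 ≤ MP φ T B := by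
  unfold MP
  refine mul_nonneg (by positivity) (intervalIntegral.integral_nonneg hT.le fun t _ => ?_)
  exact le_min (by positivity) hB

private lemma X2_MP_le (φ : ℝ → ℝ) {T B : ℝ} (hT : 0 < T) (hB : 0 ≤ B) : MP φ T B ≤ B := by
  unfold MP
  have h : ‖∫ t in (0:ℝ)..T, min (‖PP φ T t‖ ^ 2) B‖ ≤ B * |T - 0| := by
    refine intervalIntegral.norm_integral_le_of_norm_le_const fun t _ => ?_
    rw [Real.norm_eq_abs, abs_of_nonneg (le_min (by positivity) hB)]
    exact min_le_right _ _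
  rw [sub_zero, abs_of_pos hT, Real.norm_eq_abs] at h
  calc 1 / T * ∫ t in (0:ℝ)..T, min (‖PP φ T t‖ ^ 2) B ≤ 1 / T * (B * T) :=
        mul_le_mul_of_nonneg_left ((le_abs_self _).trans h) (by positivity)
    _ = B := by field_simp

private lemma X2_VP_le {η : ℝ → ℝ} {Cb : ℝ} (hη : Sm η (-1) 1) (h0 : ∀ x : ℝ, 0 ≤ η x) (hb : ∀ x : ℝ, η x ≤ Cb)
    (h1 : ∫ x, η x = 1) {α : ℝ} (hα : 2 ≤ α) : VP (fun β => η (β - α)) ≤ Cb := by
  have hint : Integrable η := by
    by_contra hc
    rw [integral_undef hc] at h1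
    exact zero_ne_one h1
  have hint2 : Integrable (fun β : ℝ => Cb * η (β - α)) := (hint.comp_sub_right α).const_mul Cb
  unfold VP
  have h2 : ∫ β : ℝ, Cb * η (β - α) = Cb := by
    rw [integral_const_mul, integral_sub_right_eq_self (fun x => η x) α, h1, mul_one]
  rw [← h2]
  refine integral_mono_of_nonneg (Eventually.of_forall fun β => ?_) hint2 (Eventually.of_forall fun β => ?_)
  · show 0 ≤ η (β - α) ^ 2 * min β 1
    rcases le_or_gt 0 β with hβ | hβ
    · exact mul_nonneg (sq_nonneg _) (le_min hβ zero_le_one)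
    · have : η (β - α) = 0 := hη.supp _ fun hc => by linarith [hc.1]
      rw [this]; simp
  · show η (β - α) ^ 2 * min β 1 ≤ Cb * η (β - α)
    have h3 : η (β - α) ^ 2 * min β 1 ≤ η (β - α) ^ 2 * 1 :=
      mul_le_mul_of_nonneg_left (min_le_right _ _) (sq_nonneg _)
    have h4 : η (β - α) ^ 2 * 1 ≤ Cb * η (β - α) := by
      rw [mul_one, pow_two]
      exact mul_le_mul_of_nonneg_right (hb _) (h0 _)
    exact h3.trans h4

private lemma X2_exp {b A : ℝ} (hb : 0 < b) (hA : 2 ≤ A) : ∫ α in (2:ℝ)..A, Real.exp (-(b * α)) ≤ 1 / b := by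
  have hd : ∀ x ∈ uIcc 2 A, HasDerivAt (fun α : ℝ => -(Real.exp (-(b * α)) / b)) (Real.exp (-(b * x))) x := by
    intro x _
    have h1 : HasDerivAt (fun α : ℝ => -(b * α)) (-(b * 1)) x := ((hasDerivAt_id' x).const_mul b).neg
    have h2 : HasDerivAt (fun α : ℝ => -(Real.exp (-(b * α)) / b)) (-(Real.exp (-(b * x)) * -(b * 1) / b)) x :=
      (h1.exp.div_const b).neg
    have h3 : -(Real.exp (-(b * x)) * -(b * 1) / b) = Real.exp (-(b * x)) := by
      field_simp
    rw [h3] at h2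
    exact h2
  rw [intervalIntegral.integral_eq_sub_of_hasDerivAt hd
    (Continuous.intervalIntegrable (by fun_prop) _ _)]
  have h3 : 0 < Real.exp (-(b * A)) / b := by positivity
  have h4 : Real.exp (-(b * 2)) / b ≤ 1 / b := by
    refine div_le_div_of_nonneg_right ?_ hb.le
    rw [Real.exp_le_one_iff]
    linarith
  linarith

private lemma X2_swap {F : ℝ → ℝ → ℝ} (hF : Continuous (fun q : ℝ × ℝ => F q.1 q.2)) {a b c d : ℝ} (hab : a ≤ b) (hcd : c ≤ d) :
    ∫ t in a..b, (∫ α in c..d, F t α) = ∫ α in c..d, (∫ t in a..b, F t α) := by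
  simp_rw [intervalIntegral.integral_of_le hab, intervalIntegral.integral_of_le hcd]
  refine integral_integral_swap ?_
  have hon : IntegrableOn (fun q : ℝ × ℝ => F q.1 q.2) (Icc a b ×ˢ Icc c d) (volume.prod volume) :=
    hF.continuousOn.integrableOn_compact (isCompact_Icc.prod isCompact_Icc)
  have h2 := hon.mono_set (Set.prod_mono (Ioc_subset_Icc_self (a := a) (b := b))
    (Ioc_subset_Icc_self (a := c) (b := d)))
  rw [IntegrableOn, ← Measure.prod_restrict] at h2
  exact h2

private lemma X2_core {K : ℝ → ℝ → ℝ} (hK : Continuous (fun p : ℝ × ℝ => K p.1 p.2)) {T b A Cb : ℝ} (hT0 : 0 < T)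
    (hb0 : 0 < b) (hA : 2 ≤ A) (hCb : 0 ≤ Cb)
    (hT : ∫ α in (2:ℝ)..A, max (1 / T * (∫ t in (0:ℝ)..T, K α t) - Cb) 0 < 1) :
    ∫ t in (0:ℝ)..T, (∫ α in (2:ℝ)..A, K α t * Real.exp (-(b * α))) ≤ (Cb / b + 1) * T := by
  have hMc : Continuous (fun α : ℝ => 1 / T * (∫ t in (0:ℝ)..T, K α t)) :=
    continuous_const.mul (intervalIntegral.continuous_parametric_intervalIntegral_of_continuous' hK 0 T)
  have hc2 : Continuous (fun q : ℝ × ℝ => K q.2 q.1 * Real.exp (-(b * q.2))) :=
    (hK.comp (continuous_snd.prodMk continuous_fst)).mul (by fun_prop)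
  rw [X2_swap (F := fun t α => K α t * Real.exp (-(b * α))) hc2 hT0.le hA]
  set M : ℝ → ℝ := fun α => 1 / T * (∫ t in (0:ℝ)..T, K α t) with hM
  have hin : ∀ α : ℝ, (∫ t in (0:ℝ)..T, K α t * Real.exp (-(b * α))) = T * (M α * Real.exp (-(b * α))) := by
    intro α
    rw [intervalIntegral.integral_mul_const, hM]
    field_simp
  simp_rw [hin]
  rw [intervalIntegral.integral_const_mul]
  have hi1 : IntervalIntegrable (fun α => M α * Real.exp (-(b * α))) volume 2 A :=
    (hMc.mul (by fun_prop)).intervalIntegrable _ _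
  have hi2 : IntervalIntegrable (fun α => max (M α - Cb) 0) volume 2 A :=
    ((hMc.sub continuous_const).max continuous_const).intervalIntegrable _ _
  have hi3 : IntervalIntegrable (fun α : ℝ => Cb * Real.exp (-(b * α))) volume 2 A :=
    Continuous.intervalIntegrable (by fun_prop) _ _
  have hmain : ∫ α in (2:ℝ)..A, M α * Real.exp (-(b * α)) ≤ Cb / b + 1 := by
    calc ∫ α in (2:ℝ)..A, M α * Real.exp (-(b * α))
        ≤ ∫ α in (2:ℝ)..A, (Cb * Real.exp (-(b * α)) + max (M α - Cb) 0) := by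
          refine intervalIntegral.integral_mono_on hA hi1 (hi3.add hi2) fun α hα => ?_
          have e1 : Real.exp (-(b * α)) ≤ 1 := by
            rw [Real.exp_le_one_iff]
            have := mul_nonneg hb0.le (by linarith [hα.1] : (0:ℝ) ≤ α)
            linarith
          have e0 := Real.exp_pos (-(b * α))
          generalize M α = x
          have e2 : x ≤ Cb + max (x - Cb) 0 := by
            have := le_max_left (x - Cb) 0
            linarith
          have e3 : 0 ≤ max (x - Cb) 0 := le_max_right _ _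
          generalize max (x - Cb) 0 = R at e2 e3 ⊢
          calc x * Real.exp (-(b * α)) ≤ (Cb + R) * Real.exp (-(b * α)) :=
                mul_le_mul_of_nonneg_right e2 e0.le
            _ = Cb * Real.exp (-(b * α)) + R * Real.exp (-(b * α)) := by ring
            _ ≤ Cb * Real.exp (-(b * α)) + R * 1 := by
                have := mul_le_mul_of_nonneg_left e1 e3
                linarith
            _ = Cb * Real.exp (-(b * α)) + R := by ring
      _ = Cb * (∫ α in (2:ℝ)..A, Real.exp (-(b * α))) + ∫ α in (2:ℝ)..A, max (M α - Cb) 0 := by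
          rw [intervalIntegral.integral_add hi3 hi2, intervalIntegral.integral_const_mul]
      _ ≤ Cb * (1 / b) + 1 := by
          have := mul_le_mul_of_nonneg_left (X2_exp hb0 hA) hCb
          linarith
      _ = Cb / b + 1 := by ring
  calc T * ∫ α in (2:ℝ)..A, M α * Real.exp (-(b * α))
      ≤ T * (Cb / b + 1) := mul_le_mul_of_nonneg_left hmain hT0.le
    _ = (Cb / b + 1) * T := mul_comm _ _

theorem J_bound {l : Filter ℝ} [l.IsCountablyGenerated] (hl : l ≤ atTop) {θ : ℝ} (hθ : θ < 1)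
    (h : ∀ (φ : ℝ → ℝ) (a b : ℝ), θ < a → 0 < a → a ≤ b → Sm φ a b → PUp l φ)
    {η : ℝ → ℝ} {Cb : ℝ} (hη : Sm η (-1) 1) (h0 : ∀ x : ℝ, 0 ≤ η x) (hb : ∀ x : ℝ, η x ≤ Cb) (h1 : ∫ x, η x = 1)
    {b A G : ℝ} (hb0 : 0 < b) (hA : 2 ≤ A) (hG : 0 ≤ G) :
    ∀ᶠ T : ℝ in l, ∫ t in (0:ℝ)..T, (∫ α in (2:ℝ)..A,
      min (‖PP (fun β => η (β - α)) T t‖ ^ 2) (G ^ 2) * Real.exp (-(b * α))) ≤ (Cb / b + 1) * T := by
  have hpos : ∀ᶠ T : ℝ in l, 1 < T := hl (eventually_gt_atTop 1)
  have hCb : 0 ≤ Cb := (h0 0).trans (hb 0)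
  have hG2 : 0 ≤ G ^ 2 := sq_nonneg G
  have hlim : Tendsto (fun T : ℝ => ∫ α in (2:ℝ)..A, max (MP (fun β => η (β - α)) T (G ^ 2) - Cb) 0) l
      (𝓝 (∫ _α in (2:ℝ)..A, (0:ℝ))) := by
    refine intervalIntegral.tendsto_integral_filter_of_dominated_convergence (fun _ => G ^ 2) ?_ ?_
      (by simp) ?_
    · filter_upwards [hpos] with T hT
      exact (((X2_MP_cont hη hT (G ^ 2)).sub continuous_const).max continuous_const).aestronglyMeasurable
    · filter_upwards [hpos] with T hT
      refine Eventually.of_forall fun α _ => ?_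
      rw [Real.norm_eq_abs, abs_of_nonneg (le_max_right _ _)]
      refine max_le ?_ hG2
      have := X2_MP_le (fun β => η (β - α)) (T := T) (by linarith) hG2
      linarith
    · refine Eventually.of_forall fun α hα => ?_
      rw [uIoc_of_le hA] at hα
      rw [Metric.tendsto_nhds]
      intro ε hε
      have hs : Sm (fun β => η (β - α)) 1 (A + 1) := by
        refine ⟨hη.smooth.comp (contDiff_id.sub contDiff_const), fun x hx => hη.supp _ fun hc => hx ?_⟩
        have := hα.1
        have := hα.2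
        exact ⟨by linarith [hc.1], by linarith [hc.2]⟩
      filter_upwards [h _ 1 (A + 1) hθ one_pos (by linarith) hs (G ^ 2) (ε / 2) (by positivity), hpos] with T hT hT0
      rw [dist_zero_right, Real.norm_eq_abs, abs_of_nonneg (le_max_right _ _)]
      have h2 := X2_VP_le hη h0 hb h1 hα.1.le
      refine max_lt ?_ hε
      linarith
  rw [intervalIntegral.integral_const, smul_zero] at hlim
  have h2 : ∀ᶠ T : ℝ in l, ∫ α in (2:ℝ)..A, max (MP (fun β => η (β - α)) T (G ^ 2) - Cb) 0 < 1 :=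
    hlim.eventually (gt_mem_nhds one_pos)
  filter_upwards [h2, hpos] with T hT hT1
  have hT0 : 0 < T := by linarith
  unfold MP at hT
  exact X2_core (K := fun α t => min (‖PP (fun β => η (β - α)) T t‖ ^ 2) (G ^ 2)) (X2_cont hη hT1 (G ^ 2))
    hT0 hb0 hA hCb hT

/-- the inner integral is measurable in `t` -/
theorem J_measurable {η : ℝ → ℝ} (hη : Sm η (-1) 1) {b A G T : ℝ} (hT : 1 < T) :
    Measurable (fun t : ℝ => ∫ α in (2:ℝ)..A,
      min (‖PP (fun β => η (β - α)) T t‖ ^ 2) (G ^ 2) * Real.exp (-(b * α))) := by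
  have hc : Continuous (fun q : ℝ × ℝ => min (‖PP (fun β => η (β - q.2)) T q.1‖ ^ 2) (G ^ 2) *
      Real.exp (-(b * q.2))) :=
    ((X2_cont hη hT (G ^ 2)).comp (continuous_snd.prodMk continuous_fst)).mul (by fun_prop)
  exact (intervalIntegral.continuous_parametric_intervalIntegral_of_continuous' hc 2 A).measurable

end Pool.Agent.Helper69.GMU
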