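import Pool.Agent.Helper69.GMU.X5
import Pool.Agent.Helper69.GMU.X2
import Pool.Agent.Helper69.GMU.GS
import Pool.Agent.Helper69.GMU.DN
import Pool.Agent.Helper69.GGM.FF
import Pool.Agent.Helper69.GGM.M2

/-!
# GMU block X6: upper bounds for prime sums force almost all zeros onto the line

`band_rare_P`: by contradiction, frequently along `l` the band has mass `≥ κ SN T`. `good_set` gives `δ, c`; `ε₁ = c/4`. `density_good`: `C₀`, `K` for `ε₁`. `K₁` with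
`∫ Phi ≤ ε₁ K₁ T` (`Phi_integral`, `NT T ≤ T log T` eventually: `NT_le_ev`), so `|{Phi > K₁}| ≤ ε₁ T`. `no_band_zero`: `Cb, b`; `M₀ = (Cb/b + 1)/ε₁`; then `η, A, G, T₀`. `J_bound`
and Markov: `|{t ∈ [0,T] : J(t) > M₀}| ≤ ε₁ T` (`J_measurable`, `J ≥ 0` bounded). `3ε₁ < c`, so some `t` in the good set avoids the three bad sets: contradiction with
`no_band_zero`. `offLine_of_upper`: copy the end of `GGM/E3c.lean` (`offCount_le`, `offLine_of_meanSq`), which uses only `band_rare` and `sum_x2`.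
-/

open Complex Set MeasureTheory Filter Topology
open Pool.Agent.Helper57.LH Pool.Agent.Helper57.PC Pool.Agent.Helper57.Zeta
open Pool.Agent.Helper69.GGM
open scoped ContDiff

namespace Pool.Agent.Helper69.GMU

private lemma x6_markov {μ : Measure ℝ} {f : ℝ → ℝ} (h0 : ∀ t, 0 ≤ f t) (hf : Integrable f μ) {M e : ℝ}
    (hM : 0 < M) (h : ∫ t, f t ∂μ ≤ M * e) : μ {t | M ≤ f t} ≤ ENNReal.ofReal e := by
  have h1 := mul_meas_ge_le_lintegral₀ (μ := μ) (f := fun t => ENNReal.ofReal (f t))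
    hf.aestronglyMeasurable.aemeasurable.ennreal_ofReal (ENNReal.ofReal M)
  have h2 : {t | ENNReal.ofReal M ≤ ENNReal.ofReal (f t)} = {t | M ≤ f t} := by
    ext t
    simp only [mem_ofPred_eq]
    exact ENNReal.ofReal_le_ofReal_iff (h0 t)
  rw [h2, ← ofReal_integral_eq_lintegral_ofReal hf (Eventually.of_forall h0)] at h1
  have h3 : ENNReal.ofReal M * μ {t | M ≤ f t} ≤ ENNReal.ofReal M * ENNReal.ofReal e := by
    refine h1.trans ?_
    rw [← ENNReal.ofReal_mul hM.le]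
    exact ENNReal.ofReal_le_ofReal h
  have hM0 : ENNReal.ofReal M ≠ 0 := by
    rw [Ne, ENNReal.ofReal_eq_zero, not_le]
    exact hM
  calc μ {t | M ≤ f t} = (ENNReal.ofReal M)⁻¹ * (ENNReal.ofReal M * μ {t | M ≤ f t}) := by
        rw [← mul_assoc, ENNReal.inv_mul_cancel hM0 ENNReal.ofReal_ne_top, one_mul]
    _ ≤ (ENNReal.ofReal M)⁻¹ * (ENNReal.ofReal M * ENNReal.ofReal e) := by gcongr
    _ = ENNReal.ofReal e := by
        rw [← mul_assoc, ENNReal.inv_mul_cancel hM0 ENNReal.ofReal_ne_top, one_mul]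

/-- the inner integral -/
private noncomputable def x6J (η : ℝ → ℝ) (b A G T t : ℝ) : ℝ :=
  ∫ α in (2:ℝ)..A, min (‖PP (fun β => η (β - α)) T t‖ ^ 2) (G ^ 2) * Real.exp (-(b * α))

private lemma x6J_nonneg {η : ℝ → ℝ} {b A G T t : ℝ} (hA : 2 ≤ A) : 0 ≤ x6J η b A G T t := by
  unfold x6J
  apply intervalIntegral.integral_nonneg hA
  intro α _
  exact mul_nonneg (le_min (by positivity) (by positivity)) (Real.exp_pos _).le

private lemma x6J_le {η : ℝ → ℝ} {b A G T t : ℝ} (hA : 2 ≤ A) (hb : 0 < b) :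
    x6J η b A G T t ≤ G ^ 2 * (A - 2) := by
  have h1 : ‖x6J η b A G T t‖ ≤ G ^ 2 * |A - 2| := by
    unfold x6J
    apply intervalIntegral.norm_integral_le_of_norm_le_const
    intro α hα
    rw [uIoc_of_le hA] at hα
    have hα0 : 0 < α := by linarith [hα.1]
    rw [Real.norm_eq_abs, abs_of_nonneg (mul_nonneg (le_min (by positivity) (by positivity)) (Real.exp_pos _).le)]
    have h2 : Real.exp (-(b * α)) ≤ 1 := by
      rw [Real.exp_le_one_iff]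
      have := mul_pos hb hα0
      linarith
    calc min (‖PP (fun β => η (β - α)) T t‖ ^ 2) (G ^ 2) * Real.exp (-(b * α))
        ≤ G ^ 2 * 1 := mul_le_mul (min_le_right _ _) h2 (Real.exp_pos _).le (by positivity)
      _ = G ^ 2 := mul_one _
  rw [abs_of_nonneg (by linarith : (0:ℝ) ≤ A - 2), Real.norm_eq_abs, abs_of_nonneg (x6J_nonneg hA)] at h1
  exact h1

private lemma x6J_integrable {η : ℝ → ℝ} (hη : Sm η (-1) 1) {b A G T : ℝ} (hT : 1 < T) (hA : 2 ≤ A) (hb : 0 < b) :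
    Integrable (fun t => x6J η b A G T t) (volume.restrict (Ioc 0 T)) := by
  have hm : Measurable (fun t => x6J η b A G T t) := J_measurable hη hT
  refine Measure.integrableOn_of_bounded (M := G ^ 2 * (A - 2)) (by simp) hm.aestronglyMeasurable
    (Eventually.of_forall fun t => ?_)
  rw [Real.norm_eq_abs, abs_of_nonneg (x6J_nonneg hA)]
  exact x6J_le hA hb

/-- the combination of the three bad sets -/
private lemma x6_combine {η : ℝ → ℝ} {Cb b K K₁ C₀ M₀ δ c A G T a₁ a₂ : ℝ} (hT : 1 < T) (hδ : 0 < δ) (hc : 0 < c)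
    (hA : 2 ≤ A) (hb : 0 < b) (hK₁ : 0 < K₁) (hM₀ : 0 < M₀) (hη : Sm η (-1) 1)
    (hPhi : Real.pi * T ≤ K₁ * (c / 4 * T)) (hNT : NT T ≤ T * Real.log T)
    (hJM : (Cb / b + 1) * T ≤ M₀ * (c / 4 * T))
    (hbad1 : volume {t : ℝ | ∃ ρ ∈ Zf T, K + C₀ * Real.log (1 + |Real.log T * (ρ.im - t)|) <
      |Real.log T * (ρ.re - 1 / 2)|} ≤ ENNReal.ofReal (c / 4 * T))
    (hJ : ∫ t in (0:ℝ)..T, x6J η b A G T t ≤ (Cb / b + 1) * T)
    (hgood : ENNReal.ofReal (c * T) ≤ volume {t : ℝ | δ * T ≤ t ∧ t ≤ (1 - δ) * T ∧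
        ∃ ρ ∈ Zf T, a₁ ≤ Real.log T * (ρ.re - 1 / 2) ∧ Real.log T * (ρ.re - 1 / 2) ≤ a₂ ∧
          Real.log T * |ρ.im - t| ≤ 1 / 2}) :
    ∃ t : ℝ, δ * T ≤ t ∧ t ≤ (1 - δ) * T ∧
      (∃ ρ ∈ Zf T, a₁ ≤ Real.log T * (ρ.re - 1 / 2) ∧ Real.log T * (ρ.re - 1 / 2) ≤ a₂ ∧
          Real.log T * |ρ.im - t| ≤ 1 / 2) ∧
      (∀ ρ ∈ Zf T, |Real.log T * (ρ.re - 1 / 2)| ≤ K + C₀ * Real.log (1 + |Real.log T * (ρ.im - t)|)) ∧
      Phi T t ≤ K₁ ∧ x6J η b A G T t ≤ M₀ := by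
  have hT0 : 0 < T := by linarith
  have hlog : 0 < Real.log T := Real.log_pos hT
  set B1 : Set ℝ := {t : ℝ | ∃ ρ ∈ Zf T, K + C₀ * Real.log (1 + |Real.log T * (ρ.im - t)|) <
      |Real.log T * (ρ.re - 1 / 2)|} with hB1
  set B2 : Set ℝ := {t : ℝ | K₁ ≤ Phi T t} with hB2
  set B3 : Set ℝ := {t : ℝ | M₀ ≤ x6J η b A G T t} with hB3
  set GS : Set ℝ := {t : ℝ | δ * T ≤ t ∧ t ≤ (1 - δ) * T ∧
        ∃ ρ ∈ Zf T, a₁ ≤ Real.log T * (ρ.re - 1 / 2) ∧ Real.log T * (ρ.re - 1 / 2) ≤ a₂ ∧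
          Real.log T * |ρ.im - t| ≤ 1 / 2} with hGS
  have hbad2 : volume B2 ≤ ENNReal.ofReal (c / 4 * T) := by
    refine x6_markov (Phi_nonneg' T) (Phi_integral hlog).1 hK₁ ?_
    rw [(Phi_integral hlog).2]
    calc Real.pi / Real.log T * NT T ≤ Real.pi / Real.log T * (T * Real.log T) := by
          gcongr
      _ = Real.pi * T := by field_simp
      _ ≤ K₁ * (c / 4 * T) := hPhi
  have hbad3 : volume (B3 ∩ Ioc 0 T) ≤ ENNReal.ofReal (c / 4 * T) := by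
    have h1 := x6_markov (μ := volume.restrict (Ioc 0 T)) (f := fun t => x6J η b A G T t) (M := M₀)
      (e := c / 4 * T) (fun t => x6J_nonneg hA) (x6J_integrable hη hT hA hb) hM₀ (by
        rw [intervalIntegral.integral_of_le hT0.le] at hJ
        exact hJ.trans hJM)
    refine le_trans ?_ h1
    exact Measure.le_restrict_apply _ _
  by_contra hcon
  have hsub : GS ⊆ B1 ∪ (B2 ∪ (B3 ∩ Ioc 0 T)) := by
    intro t ht
    obtain ⟨ht1, ht2, ht3⟩ := ht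
    by_contra hnot
    simp only [mem_union, not_or] at hnot
    obtain ⟨n1, n2, n3⟩ := hnot
    apply hcon
    refine ⟨t, ht1, ht2, ht3, ?_, ?_, ?_⟩
    · intro ρ hρ
      by_contra hlt
      push Not at hlt
      exact n1 ⟨ρ, hρ, hlt⟩
    · by_contra hlt
      push Not at hlt
      exact n2 hlt.le
    · by_contra hlt
      push Not at hlt
      apply n3
      refine ⟨hlt.le, ?_, ?_⟩
      · have : 0 < δ * T := by positivity
        linarith
      · have : 0 < δ * T := by positivity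
        nlinarith
  have hvol : volume GS ≤ ENNReal.ofReal (3 * (c / 4 * T)) := by
    calc volume GS ≤ volume (B1 ∪ (B2 ∪ (B3 ∩ Ioc 0 T))) := measure_mono hsub
      _ ≤ volume B1 + volume (B2 ∪ (B3 ∩ Ioc 0 T)) := measure_union_le _ _
      _ ≤ volume B1 + (volume B2 + volume (B3 ∩ Ioc 0 T)) := by
          gcongr
          exact measure_union_le _ _
      _ ≤ ENNReal.ofReal (c / 4 * T) + (ENNReal.ofReal (c / 4 * T) + ENNReal.ofReal (c / 4 * T)) := by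
          gcongr
      _ = ENNReal.ofReal (3 * (c / 4 * T)) := by
          rw [← ENNReal.ofReal_add (by positivity) (by positivity), ← ENNReal.ofReal_add (by positivity) (by positivity)]
          congr 1
          ring
  have h5 := hgood.trans hvol
  rw [ENNReal.ofReal_le_ofReal_iff (by positivity)] at h5
  have : 0 < c * T := by positivity
  nlinarith

theorem band_rare_P {l : Filter ℝ} [l.IsCountablyGenerated] (hl : l ≤ atTop) {θ : ℝ} (hθ : θ < 1)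
    (h : ∀ (φ : ℝ → ℝ) (a b : ℝ), θ < a → 0 < a → a ≤ b → Sm φ a b → PUp l φ)
    {a₁ a₂ κ : ℝ} (h1 : 0 < a₁) (h12 : a₁ ≤ a₂) (hκ : 0 < κ) :
    ∀ᶠ T : ℝ in l, ∑ ρ ∈ (Zf T).filter (fun ρ => a₁ ≤ Real.log T * (ρ.re - 1 / 2) ∧
      Real.log T * (ρ.re - 1 / 2) ≤ a₂), mx ρ < κ * SN T := by
  by_contra hcon
  rw [not_eventually] at hcon
  obtain ⟨δ, c, hδ, hδ2, hc, T₁, hgood⟩ := good_set h1 h12 hκ
  obtain ⟨Cb, b, hCb, hb, hnb⟩ := no_band_zero h1 h12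
  obtain ⟨C₀, hC₀, hdg⟩ := density_good
  obtain ⟨K, hK, hKev⟩ := hdg (c / 4) (by positivity)
  have hpi := Real.pi_pos
  set K₁ : ℝ := Real.pi / (c / 4) with hK₁
  have hK₁0 : 0 < K₁ := by positivity
  set M₀ : ℝ := (Cb / b + 1) / (c / 4) with hM₀
  have hM₀0 : 0 < M₀ := by positivity
  obtain ⟨η, A, G, hη, hη0, hηb, hη1, hA, hG, T₀, hno⟩ := hnb K K₁ C₀ M₀ δ hK hK₁0 hC₀ hM₀0 hδ hδ2
  have e1 := J_bound hl hθ h hη hη0 hηb hη1 hb hA hG
  have e2 : ∀ᶠ T : ℝ in l, volume {t : ℝ | ∃ ρ ∈ Zf T, K + C₀ * Real.log (1 + |Real.log T * (ρ.im - t)|) <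
      |Real.log T * (ρ.re - 1 / 2)|} ≤ ENNReal.ofReal (c / 4 * T) := hl hKev
  have e3 : ∀ᶠ T : ℝ in l, NT T ≤ T * Real.log T := hl NT_le_ev
  have e4 : ∀ᶠ T : ℝ in l, T₁ ≤ T ∧ T₀ ≤ T ∧ 1 < T :=
    hl ((eventually_ge_atTop _).and ((eventually_ge_atTop _).and (eventually_gt_atTop _)))
  obtain ⟨T, hT, e1, e2, e3, h41, h42, h43⟩ := (hcon.and_eventually (e1.and (e2.and (e3.and e4)))).exists
  rw [not_lt] at hT
  have hT0 : 0 < T := by linarith
  obtain ⟨t, ht1, ht2, ht3, ht4, ht5, ht6⟩ := x6_combine (η := η) (Cb := Cb) (b := b) (K := K) (K₁ := K₁) (C₀ := C₀)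
    (M₀ := M₀) (δ := δ) (c := c) (A := A) (G := G) (T := T) (a₁ := a₁) (a₂ := a₂) h43 hδ hc hA hb hK₁0 hM₀0 hη
    (by rw [hK₁]; apply le_of_eq; field_simp) e3 (by rw [hM₀]; apply le_of_eq; field_simp) e2 e1
    (hgood T h41 hT)
  exact hno T h42 t ht1 ht2 ht4 ht5 ht6 ht3

private lemma x6_refl_mem_Zf {T : ℝ} {ρ : ℂ} (h : ρ ∈ Zf T) : 1 - starRingEnd ℂ ρ ∈ Zf T := by
  rw [mem_Zf] at h ⊢
  obtain ⟨h1, h2, h3⟩ := h
  refine ⟨?_, ?_, ?_⟩
  · rw [isNontrivialZero_iff] at h1 ⊢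
    rw [xi_one_sub, xi_conj, h1, map_zero]
  · simpa using h2
  · simpa using h3

private lemma x6_mx_refl (ρ : ℂ) : mx (1 - starRingEnd ℂ ρ) = mx ρ := by
  unfold mx
  rw [order_one_sub, order_conj]

open Classical in
private lemma x6_offCount_le {T ε A : ℝ} (hε : 0 < ε) (hA : ε ≤ A) :
    offCount T ε ≤ 2 * (∑ ρ ∈ (Zf T).filter (fun ρ => ε ≤ Real.log T * (ρ.re - 1 / 2) ∧
      Real.log T * (ρ.re - 1 / 2) ≤ A), mx ρ) +
      2 * ((∑ ρ ∈ Zf T, mx ρ * (Real.log T * (ρ.re - 1 / 2)) ^ 2) / A ^ 2) := by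
  set x : ℂ → ℝ := fun ρ => Real.log T * (ρ.re - 1 / 2) with hx
  have hA0 : 0 < A := lt_of_lt_of_le hε hA
  have hxr : ∀ ρ : ℂ, x (1 - starRingEnd ℂ ρ) = - x ρ := by
    intro ρ
    simp only [hx, sub_re, one_re, conj_re]
    ring
  have e0 : offCount T ε = ∑ ρ ∈ (Zf T).filter (fun ρ => ε ≤ |x ρ|), mx ρ := rfl
  have e1 : ∑ ρ ∈ (Zf T).filter (fun ρ => ε ≤ |x ρ|), mx ρ ≤
      ∑ ρ ∈ (Zf T).filter (fun ρ => ε ≤ x ρ), mx ρ + ∑ ρ ∈ (Zf T).filter (fun ρ => ε ≤ -x ρ), mx ρ := by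
    rw [Finset.sum_filter, Finset.sum_filter, Finset.sum_filter, ← Finset.sum_add_distrib]
    refine Finset.sum_le_sum fun ρ _ => ?_
    have hm := mx_nonneg ρ
    by_cases h1 : ε ≤ |x ρ|
    · rcases le_abs.mp h1 with h2 | h2
      · rw [if_pos h1, if_pos h2]
        have : 0 ≤ (if ε ≤ -x ρ then mx ρ else 0) := by split_ifs <;> simp [hm]
        linarith
      · rw [if_pos h1, if_pos h2]
        have : 0 ≤ (if ε ≤ x ρ then mx ρ else 0) := by split_ifs <;> simp [hm]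
        linarith
    · rw [if_neg h1]
      have h3 : 0 ≤ (if ε ≤ x ρ then mx ρ else 0) := by split_ifs <;> simp [hm]
      have h4 : 0 ≤ (if ε ≤ -x ρ then mx ρ else 0) := by split_ifs <;> simp [hm]
      linarith
  have e2 : ∑ ρ ∈ (Zf T).filter (fun ρ => ε ≤ -x ρ), mx ρ = ∑ ρ ∈ (Zf T).filter (fun ρ => ε ≤ x ρ), mx ρ := by
    apply Finset.sum_nbij' (fun ρ => 1 - starRingEnd ℂ ρ) (fun ρ => 1 - starRingEnd ℂ ρ)
    · intro ρ hρ
      rw [Finset.mem_filter] at hρ ⊢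
      exact ⟨x6_refl_mem_Zf hρ.1, by rw [hxr]; exact hρ.2⟩
    · intro ρ hρ
      rw [Finset.mem_filter] at hρ ⊢
      exact ⟨x6_refl_mem_Zf hρ.1, by rw [hxr, neg_neg]; exact hρ.2⟩
    · intro ρ _; simp
    · intro ρ _; simp
    · intro ρ _; exact (x6_mx_refl ρ).symm
  have e3 : ∑ ρ ∈ (Zf T).filter (fun ρ => ε ≤ x ρ), mx ρ ≤
      ∑ ρ ∈ (Zf T).filter (fun ρ => ε ≤ x ρ ∧ x ρ ≤ A), mx ρ + (∑ ρ ∈ Zf T, mx ρ * x ρ ^ 2) / A ^ 2 := by
    rw [Finset.sum_filter, Finset.sum_filter, Finset.sum_div, ← Finset.sum_add_distrib]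
    refine Finset.sum_le_sum fun ρ _ => ?_
    have hm := mx_nonneg ρ
    have hq : 0 ≤ mx ρ * x ρ ^ 2 / A ^ 2 := by positivity
    by_cases h1 : ε ≤ x ρ
    · by_cases h2 : x ρ ≤ A
      · rw [if_pos h1, if_pos ⟨h1, h2⟩]; linarith
      · rw [if_pos h1, if_neg (fun h => h2 h.2)]
        push Not at h2
        rw [zero_add, le_div_iff₀ (by positivity)]
        gcongr
    · rw [if_neg h1]
      have h4 : 0 ≤ (if ε ≤ x ρ ∧ x ρ ≤ A then mx ρ else 0) := by split_ifs <;> simp [hm]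
      linarith
  rw [e0]
  rw [e2] at e1
  linarith

theorem offLine_of_upper {l : Filter ℝ} [l.IsCountablyGenerated] (hl : l ≤ atTop) {θ : ℝ} (hθ : θ < 1)
    (h : ∀ (φ : ℝ → ℝ) (a b : ℝ), θ < a → 0 < a → a ≤ b → Sm φ a b → PUp l φ) : OffLine l := by
  classical
  intro ε hε
  obtain ⟨C, T₀, hC, hx2⟩ := sum_x2
  rw [Metric.tendsto_nhds]
  intro κ hκ
  have hpi := Real.pi_pos
  obtain ⟨A, hA1, hA2⟩ : ∃ A : ℝ, ε ≤ A ∧ 2 * (C * (2 * Real.pi) / A ^ 2) ≤ κ / 3 := by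
    refine ⟨max ε (Real.sqrt (6 * (C * (2 * Real.pi)) / κ)), le_max_left _ _, ?_⟩
    set A := max ε (Real.sqrt (6 * (C * (2 * Real.pi)) / κ)) with hAdef
    have hA0 : 0 < A := lt_of_lt_of_le hε (le_max_left _ _)
    have h1 : 6 * (C * (2 * Real.pi)) / κ ≤ A ^ 2 := by
      rw [← Real.sqrt_le_left hA0.le]
      exact le_max_right _ _
    rw [div_le_iff₀ hκ] at h1
    rw [← mul_div_assoc, div_le_iff₀ (by positivity)]
    linarith
  have hA0 : 0 < A := lt_of_lt_of_le hε hA1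
  filter_upwards [band_rare_P hl hθ h hε hA1 (κ := κ / 6) (by positivity), hl (eventually_ge_atTop T₀),
    hl (eventually_gt_atTop 1)] with T h1 h2 h3
  have hS := SN_pos h3
  have h4 := x6_offCount_le (T := T) hε hA1
  have h5 := hx2 T h2
  have h6 : (∑ ρ ∈ Zf T, mx ρ * (Real.log T * (ρ.re - 1 / 2)) ^ 2) / A ^ 2 ≤
      C * (2 * Real.pi) / A ^ 2 * SN T := by
    rw [div_mul_eq_mul_div]
    gcongr
    refine h5.trans (le_of_eq ?_)
    unfold SN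
    field_simp
  have h7 : 2 * (C * (2 * Real.pi) / A ^ 2 * SN T) ≤ κ / 3 * SN T := by
    have := mul_le_mul_of_nonneg_right hA2 hS.le
    linarith
  have h8 : 0 ≤ offCount T ε := by
    unfold offCount
    exact Finset.sum_nonneg fun ρ _ => mx_nonneg ρ
  rw [Real.dist_eq, sub_zero, abs_of_nonneg (by positivity), div_lt_iff₀ hS]
  have h9 : 0 < κ * SN T := by positivity
  nlinarith

end Pool.Agent.Helper69.GMU
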