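import Pool.Agent.Helper69.GMU.EQ
import Pool.Agent.Helper69.GMU.MV2
import Pool.Agent.Helper69.GMU.KL
import Pool.Agent.Helper69.GMU.NA
import Pool.Agent.Helper69.GMU.NC
import Pool.Agent.Helper69.GMU.IVa
import Pool.Agent.Helper69.GMU.IVc
import Pool.Agent.Helper69.GMU.X6
import Pool.Agent.Helper69.GGM.OD

/-!
# GMU project: assembly
-/

open Complex Set MeasureTheory Filter Topology
open Pool.Agent.Helper57.LH Pool.Agent.Helper57.PC Pool.Agent.Helper57.Zeta
open Pool.Agent.Helper69.GGM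
open scoped ContDiff

namespace Pool.Agent.Helper69.GMU

lemma sm_of_tsupport {φ : ℝ → ℝ} {θ : ℝ} (hθ : 0 ≤ θ) (h1 : ContDiff ℝ ∞ φ) (h2 : HasCompactSupport φ)
    (h3 : tsupport φ ⊆ Ioi θ) : ∃ a b : ℝ, θ < a ∧ 0 < a ∧ a ≤ b ∧ Sm φ a b := by
  by_cases hne : (tsupport φ).Nonempty
  · obtain ⟨m, hm, hmin⟩ := h2.isCompact.exists_isLeast hne
    obtain ⟨M, hM, hmax⟩ := h2.isCompact.exists_isGreatest hne
    have hm' : θ < m := h3 hm
    refine ⟨m, M, hm', by linarith, hmin hM, h1, fun x hx => ?_⟩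
    by_contra hne'
    apply hx
    have : x ∈ tsupport φ := subset_tsupport φ hne'
    exact ⟨hmin this, hmax this⟩
  · rw [not_nonempty_iff_eq_empty] at hne
    refine ⟨θ + 1, θ + 1, by linarith, by linarith, le_rfl, h1, fun x _ => ?_⟩
    by_contra hne'
    have : x ∈ tsupport φ := subset_tsupport φ hne'
    rw [hne] at this
    exact this

lemma Sm.sq {φ : ℝ → ℝ} {a b : ℝ} (h : Sm φ a b) : Sm (fun α => φ α ^ 2) a b := by
  refine ⟨h.smooth.pow 2, fun x hx => ?_⟩
  simp only [h.supp x hx]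
  norm_num

lemma Sm.tsupport {φ : ℝ → ℝ} {a b : ℝ} (h : Sm φ a b) : tsupport φ ⊆ Icc a b := by
  apply closure_minimal _ isClosed_Icc
  intro x hx
  by_contra hne
  exact hx (h.supp x hne)

lemma MP_mono {φ : ℝ → ℝ} {a b : ℝ} (h : Sm φ a b) {T B B' : ℝ} (hT : 1 < T) (hB : B ≤ B') :
    MP φ T B ≤ MP φ T B' := by
  unfold MP
  have hT0 : 0 < T := by linarith
  refine mul_le_mul_of_nonneg_left ?_ (by positivity)
  have hc := PP_continuous h hT
  refine intervalIntegral.integral_mono_on hT0.le ?_ ?_ fun t _ => min_le_min_left _ hB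
  · exact ((hc.norm.pow 2).min continuous_const).intervalIntegrable _ _
  · exact ((hc.norm.pow 2).min continuous_const).intervalIntegrable _ _

lemma MP_le_full {φ : ℝ → ℝ} {a b : ℝ} (h : Sm φ a b) {T B : ℝ} (hT : 1 < T) :
    MP φ T B ≤ (1 / T) * ∫ t in (0:ℝ)..T, ‖PP φ T t‖ ^ 2 := by
  unfold MP
  have hT0 : 0 < T := by linarith
  refine mul_le_mul_of_nonneg_left ?_ (by positivity)
  have hc := PP_continuous h hT
  refine intervalIntegral.integral_mono_on hT0.le ?_ ?_ fun t _ => min_le_left _ _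
  · exact ((hc.norm.pow 2).min continuous_const).intervalIntegrable _ _
  · exact (hc.norm.pow 2).intervalIntegrable _ _

lemma VP_nonneg {φ : ℝ → ℝ} {a b : ℝ} (h : Sm φ a b) (ha : 0 < a) : 0 ≤ VP φ := by
  unfold VP
  refine integral_nonneg fun α => ?_
  by_cases hα : α ∈ Icc a b
  · have h1 : 0 < α := ha.trans_le hα.1
    have h2 : 0 < min α 1 := lt_min h1 one_pos
    positivity
  · simp [h.supp α hα]

/-- upper bound for the pair sum from the upper bound for the capped mean squares -/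
lemma upper_of_MP {l : Filter ℝ} (hl : l ≤ atTop) (hOff : OffLine l) {φ : ℝ → ℝ} {a b : ℝ} (h : Sm φ a b)
    (ha : 0 < a) (hab : a ≤ b) (hM : PUp l φ) {ε : ℝ} (hε : 0 < ε) :
    ∀ᶠ T : ℝ in l, WP T (Cs (fun α => φ α ^ 2)) / SN T ≤ (∫ α, φ α ^ 2 * min α 1) + ε := by
  have hV := VP_nonneg h ha
  set θ : ℝ := min 1 (ε / (VP φ + 4)) with hθ
  have hθ0 : 0 < θ := lt_min one_pos (by positivity)
  have hθ1 : θ ≤ 1 := min_le_left _ _
  have hθ2 : θ * (VP φ + 4) ≤ ε := by
    have := min_le_right 1 (ε / (VP φ + 4))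
    rwa [← hθ, le_div_iff₀ (by positivity)] at this
  obtain ⟨B₀, hB₀⟩ := PP_lower hl hOff h ha hab hθ0
  filter_upwards [hB₀ B₀ le_rfl, hM B₀ θ hθ0] with T h1 h2
  change _ ≤ VP φ + ε
  nlinarith

theorem main_tfae {l : Filter ℝ} [l.IsCountablyGenerated] (hl : l ≤ atTop) {θ : ℝ} (hθ0 : 0 ≤ θ) (hθ : θ < 1) :
    List.TFAE [
      ∀ α β : ℝ, 0 < α → α < β → Tendsto (fun T : ℝ => pairCount T α β / SN T) l (𝓝 (∫ u in α..β, pcDensity u)),
      ∀ φ : ℝ → ℝ, ContDiff ℝ ∞ φ → HasCompactSupport φ → tsupport φ ⊆ Ioi 0 → PLaw l φ,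
      ∀ φ : ℝ → ℝ, ContDiff ℝ ∞ φ → HasCompactSupport φ → tsupport φ ⊆ Ioi θ → PUp l φ] := by
  tfae_have 1 → 2 := by
    intro h φ h1 h2 h3
    have hLow : LowHalf l := by
      intro α β hα hαβ δ hδ
      have h1 := h α β hα hαβ
      filter_upwards [h1.eventually (lt_mem_nhds (show (∫ u in α..β, pcDensity u) - δ < ∫ u in α..β, pcDensity u by linarith)),
        hl (eventually_gt_atTop 1)] with T h2 hT
      have hS := SN_pos hT
      have h3 := (lt_div_iff₀ hS).mp h2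
      unfold SN at h3
      exact h3.le
    have hfull : ∀ α β : ℝ, α ≤ β → Tendsto (fun T : ℝ => pairCount T α β / SN T) l
        (𝓝 ((∫ u in α..β, pcDensity u) + if α ≤ 0 ∧ 0 ≤ β then 1 else 0)) :=
      fun α β hαβ => full_law hl hLow hαβ
    have hOff : OffLine l := by
      apply offLine_of_diag hl
      have h0 := hfull 0 0 le_rfl
      simpa using h0
    obtain ⟨a, b, _, ha, hab, hS⟩ := sm_of_tsupport le_rfl h1 h2 h3
    exact (PLaw_iff hl hOff hS ha hab).mpr (CLaw_of_windows hl hfull hS.sq ha)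
  tfae_have 2 → 3 := by
    intro h φ h1 h2 h3 B ε hε
    obtain ⟨a, b, _, ha, hab, hS⟩ := sm_of_tsupport hθ0 h1 h2 h3
    obtain ⟨B₀, hB₀⟩ := h φ h1 h2 (h3.trans (Ioi_subset_Ioi hθ0)) ε hε
    filter_upwards [hB₀ (max B₀ B) (le_max_left _ _), hl (eventually_gt_atTop 1)] with T h4 hT
    have h5 := MP_mono hS hT (le_max_right B₀ B)
    have h6 := (abs_le.mp h4).2
    linarith
  tfae_have 3 → 1 := by
    intro h
    have hS : ∀ (φ : ℝ → ℝ) (a b : ℝ), θ < a → 0 < a → a ≤ b → Sm φ a b → PUp l φ := by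
      intro φ a b h1 _ _ h4
      refine h φ h4.smooth h4.hasCompactSupport (h4.tsupport.trans fun x hx => ?_)
      exact lt_of_lt_of_le h1 hx.1
    have hOff : OffLine l := offLine_of_upper hl hθ hS
    have hup := upper_all hl hθ
      (fun φ a b ha hab hb hφ ε hε => upper_of_MP hl hOff hφ ha hab (fun B ε' hε' => by
        filter_upwards [hl (PP_mean_upper hφ ha hab hb hε'), hl (eventually_gt_atTop 1)] with T h1 hT
        exact (MP_le_full hφ hT).trans h1) hε)
      (fun φ a b hθa ha hab hφ ε hε => upper_of_MP hl hOff hφ ha hab (hS φ a b hθa ha hab hφ) hε)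
    have hC := CLaw_all hl hup
    exact law_windows hl fun h' b hh he => law_even hl hC hh he
  tfae_finish

end Pool.Agent.Helper69.GMU
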