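import Pool.Agent.Helper69.GMU.CSD
import Pool.Agent.Helper69.GMU.KAP
import Pool.Agent.Helper69.GMU.NR

/-!
# GMU block NB: the positivity argument (upper bounds imply lower bounds)

Write `W(ψ) = WP T (Cs ψ)/SN T`, `I(ψ) = ∫ ψ(α) min(|α|,1) dα`. Given `ψ`, `0 ≤ ψ ≤ 1`, supported in `[a,b]`, `0 < a ≤ b`, and `ε`.
Let `κ` be `exists_posdef`, `0 < lam ≤ 1`, `H(α) = lam κ(lam α)` (even, smooth, `≥ 0`, supported in `[-1/lam, 1/lam]`), `χ` = `exists_cutoff`,
`χ_δ α = χ(α/δ)`, `0 < δ < a`. `Cs H u = Cs κ (u/lam) ≥ 0` (`Cs_dilate`), so keeping only the pairs `(ρ,ρ)`: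
`WP T (Cs H) ≥ Cs H 0 · NT T` (`mult² ≥ mult`), `NT T/SN T → 1` (`diag_lower`/`NT` asymptotics in `M/E.lean`, `M/Z.lean`), `Cs H 0 = ∫ H`.
Decompose `H = H χ_δ + H(1-χ_δ)`. The second part is even; let `P α = H α (1 - χ_δ α)` for `α > 0`, `0` for `α ≤ 0` (smooth, `≥ 0`, supported
in `[δ/2, 1/lam]`): `Cs (H(1-χ_δ)) = 2 Cs P`. Let `e = lam κ(0)/2`; for `lam` small `κ(lam α) ≥ κ(0)/2` on `[0,b]` and `b ≤ 1/lam`, so
`P - e ψ ≥ 0` (on `supp ψ`: `χ_δ = 0` as `δ < a`), smooth, supported in `[δ/2, 1/lam]`: upper bound `hup`. Hence eventually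
`(∫H)(1 - ε₁) ≤ W(H) = W(Hχ_δ) + 2W(P - eψ) + 2e W(ψ) ≤ H(0) + ε₁ + 2(I(P - eψ) + ε₁) + 2e W(ψ)`
(`near_zero_law` for `δ ≤ δ₀`), so `2e W(ψ) ≥ 2e I(ψ) + (∫H - H(0) - 2I(P)) - ε₂`, `2I(P) ≤ I(H)`, and
`∫H - H(0) - I(H) = ∫ (H(α) - H(0)) (1-|α|)_+ dα ≥ - C lam³` (`κ` even and `C²`: `|κ y - κ 0| ≤ C y²` on `[-1,1]`). Divide by `2e = lam κ(0)`:
`W(ψ) ≥ I(ψ) - C' lam² - ε₂/(lam κ(0))`. Choose `lam`, then `ε₁`, then `δ`.
-/

open Complex Set MeasureTheory Filter Topology
open Pool.Agent.Helper57.LH Pool.Agent.Helper57.PC Pool.Agent.Helper57.Zeta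
open Pool.Agent.Helper69.GGM
open scoped ContDiff

namespace Pool.Agent.Helper69.GMU

section NBaux

variable {f g : ℝ → ℝ} {a b : ℝ}

lemma NB_mul (hf : Sm f a b) (hg : ContDiff ℝ ∞ g) : Sm (fun x => f x * g x) a b :=
  ⟨hf.smooth.mul hg, fun x hx => by
    show f x * g x = 0
    rw [hf.supp x hx, zero_mul]⟩

lemma NB_sub (hf : Sm f a b) (hg : Sm g a b) : Sm (fun x => f x - g x) a b :=
  ⟨hf.smooth.sub hg.smooth, fun x hx => by
    show f x - g x = 0
    rw [hf.supp x hx, hg.supp x hx, sub_zero]⟩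

lemma NB_smul (hf : Sm f a b) (c : ℝ) : Sm (fun x => c * f x) a b :=
  ⟨contDiff_const.mul hf.smooth, fun x hx => by
    show c * f x = 0
    rw [hf.supp x hx, mul_zero]⟩

lemma NB_mono (hf : Sm f a b) {a' b' : ℝ} (h1 : a' ≤ a) (h2 : b ≤ b') : Sm f a' b' :=
  ⟨hf.smooth, fun x hx => hf.supp x fun h => hx ⟨h1.trans h.1, h.2.trans h2⟩⟩

lemma NB_int (hf : Sm f a b) (hg : Continuous g) : Integrable (fun x => f x * g x) := by
  apply Continuous.integrable_of_hasCompactSupport (hf.smooth.continuous.mul hg)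
  apply HasCompactSupport.intro (isCompact_Icc (a := a) (b := b))
  intro x hx
  show f x * g x = 0
  rw [hf.supp x hx, zero_mul]

lemma NB_add3 {f g h : ℝ → ℝ} (hf : Integrable f) (hg : Integrable g) (hh : Integrable h) :
    ∫ x, (f x + (g x + h x)) = (∫ x, f x) + ((∫ x, g x) + ∫ x, h x) := by
  have h1 := integral_add hf (hg.add hh)
  have h2 := integral_add hg hh
  simp only [Pi.add_apply] at h1
  rw [h1, h2]

lemma NB_int1 (hf : Sm f a b) : Integrable f := by
  have h := NB_int hf (continuous_const (y := (1 : ℝ)))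
  simpa using h

lemma NB_neg (hf : Sm f a b) : Sm (fun x => f (-x)) (-b) (-a) :=
  ⟨hf.smooth.comp contDiff_neg, fun x hx => hf.supp (-x) fun h => hx
    ⟨by linarith [h.2], by linarith [h.1]⟩⟩

lemma NB_Cs_neg (f : ℝ → ℝ) (u : ℝ) : Cs (fun x => f (-x)) u = Cs f u := by
  unfold Cs
  rw [← integral_neg_eq_self]
  congr 1
  funext α
  simp only [neg_neg, mul_neg, Real.cos_neg]

lemma NB_tri : ∫ x : ℝ, (1 - min |x| 1) = 1 := by
  have h1 := integral_comp_abs (f := fun x : ℝ => 1 - min x 1)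
  rw [h1]
  have h2 : ∫ x in Ioi (0 : ℝ), (1 - min x 1) = ∫ x in Ioc (0 : ℝ) 1, (1 - x) := by
    rw [← integral_indicator measurableSet_Ioi, ← integral_indicator measurableSet_Ioc]
    congr 1
    funext x
    by_cases hx : x ∈ Ioc (0 : ℝ) 1
    · rw [indicator_of_mem hx, indicator_of_mem (show x ∈ Ioi (0 : ℝ) from hx.1), min_eq_left hx.2]
    · rw [indicator_of_notMem hx]
      by_cases hx0 : x ∈ Ioi (0 : ℝ)
      · rw [indicator_of_mem hx0]
        have h3 : 1 ≤ x := by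
          by_contra h4
          exact hx ⟨hx0, (not_le.mp h4).le⟩
        rw [min_eq_right h3, sub_self]
      · rw [indicator_of_notMem hx0]
  rw [h2, ← intervalIntegral.integral_of_le zero_le_one, intervalIntegral.integral_sub
    intervalIntegrable_const intervalIntegral.intervalIntegrable_id, intervalIntegral.integral_const,
    integral_id]
  norm_num

/-- keeping only the diagonal pairs -/
lemma NB_diag {T : ℝ} {φ : ℝ → ℝ} (h : ∀ u, 0 ≤ φ u) : φ 0 * pairCount T 0 0 ≤ WP T φ := by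
  classical
  rw [pairCount_eq]
  unfold WP
  rw [Finset.mul_sum]
  refine Finset.sum_le_sum fun p _ => ?_
  by_cases hp : nd T p ∈ Icc (0 : ℝ) 0
  · rw [if_pos hp]
    have h0 : nd T p = 0 := le_antisymm hp.2 hp.1
    rw [h0]
    exact le_of_eq (by ring)
  · rw [if_neg hp, mul_zero]
    have := h (nd T p)
    positivity

end NBaux

/-- The choice of the auxiliary functions and the identity `H = H χ_δ + 2 (P3 + e ψ)` on the cosine side. -/
lemma NB_decomp {κ χ ψ : ℝ → ℝ} {a b lam δ : ℝ} (hκ : Sm κ (-1) 1) (hκe : ∀ x, κ (-x) = κ x)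
    (hκ0 : ∀ x, 0 ≤ κ x) (hκp : 0 < κ 0) (hχe : ∀ x, χ (-x) = χ x) (hχ : Sm χ (-1) 1)
    (hχ0 : ∀ x, 0 ≤ χ x) (hχ1 : ∀ x, χ x ≤ 1) (hχ2 : ∀ x : ℝ, |x| ≤ 1 / 2 → χ x = 1)
    (ha : 0 < a) (hψ : Sm ψ a b)
    (hψ1 : ∀ x, ψ x ≤ 1) (hl : 0 < lam) (hlb : b ≤ 1 / lam)
    (hκl : ∀ y : ℝ, |y| ≤ lam * b → κ 0 / 2 ≤ κ y) (hδ : 0 < δ) (hδa : δ < a) :
    ∃ P3 : ℝ → ℝ, Sm P3 (δ / 2) (1 / lam) ∧ (∀ x, 0 ≤ P3 x) ∧
      (∀ u, Cs (fun α => lam * κ (lam * α)) u = Cs (fun α => lam * κ (lam * α) * χ (α / δ)) u +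
        2 * (Cs P3 u + lam * κ 0 / 2 * Cs ψ u)) ∧
      2 * ((∫ α, P3 α * min α 1) + lam * κ 0 / 2 * ∫ α, ψ α * min α 1) ≤
        ∫ α, lam * κ (lam * α) * min |α| 1 := by
  obtain ⟨s0, hs0, hs00, hs01, hs0a, hs0b⟩ := exists_step (p := δ / 8) (q := δ / 4) (by linarith)
  set H : ℝ → ℝ := fun α => lam * κ (lam * α) with hH
  have hHsm : Sm H (-(1 / lam)) (1 / lam) := by
    refine ⟨contDiff_const.mul (hκ.smooth.comp (contDiff_const.mul contDiff_id)), fun x hx => ?_⟩
    show lam * κ (lam * x) = 0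
    rw [hκ.supp (lam * x) fun h => hx ?_, mul_zero]
    have h1 := h.1
    have h2 := h.2
    constructor
    · rw [← neg_div, div_le_iff₀ hl]
      linarith
    · rw [le_div_iff₀ hl]
      linarith
  have hH0 : ∀ x, 0 ≤ H x := fun x => mul_nonneg hl.le (hκ0 _)
  have hHe : ∀ x, H (-x) = H x := fun x => by
    show lam * κ (lam * -x) = lam * κ (lam * x)
    rw [mul_neg, hκe]
  have hχδ : ContDiff ℝ ∞ (fun α => χ (α / δ)) := hχ.smooth.comp (contDiff_id.div_const _)
  set P : ℝ → ℝ := fun α => H α * ((1 - χ (α / δ)) * (1 - s0 α)) with hP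
  have hPn : ∀ x, 0 ≤ P x := fun x => mul_nonneg (hH0 x) (mul_nonneg (by linarith [hχ1 (x / δ)])
    (by linarith [hs01 x]))
  have hPsm0 : Sm P (-(1 / lam)) (1 / lam) :=
    NB_mul hHsm ((contDiff_const.sub hχδ).mul (contDiff_const.sub hs0))
  have hPz : ∀ x, x < δ / 2 → P x = 0 := by
    intro x hx
    show H x * ((1 - χ (x / δ)) * (1 - s0 x)) = 0
    rcases le_or_gt x (δ / 8) with h1 | h1
    · rw [hs0a x h1, sub_self, mul_zero, mul_zero]
    · have h2 : χ (x / δ) = 1 := by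
        apply hχ2
        rw [abs_of_pos (div_pos (by linarith) hδ), div_le_iff₀ hδ]
        linarith
      rw [h2, sub_self, zero_mul, mul_zero]
  have hPsm : Sm P (δ / 2) (1 / lam) := ⟨hPsm0.smooth, fun x hx => by
    rcases lt_or_ge x (δ / 2) with h1 | h1
    · exact hPz x h1
    · refine hPsm0.supp x fun h2 => hx ⟨h1, h2.2⟩⟩
  have hPsum : ∀ x, H x * (1 - χ (x / δ)) = P x + P (-x) := by
    intro x
    rcases lt_trichotomy x 0 with h1 | h1 | h1
    · have e1 : P x = 0 := hPz x (by linarith)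
      have e2 : P (-x) = H x * ((1 - χ (x / δ)) * (1 - s0 (-x))) := by
        show H (-x) * ((1 - χ (-x / δ)) * (1 - s0 (-x))) = _
        rw [hHe, neg_div, hχe]
      rcases le_or_gt (-x) (δ / 2) with h2 | h2
      · have h3 : χ (x / δ) = 1 := by
          apply hχ2
          rw [abs_div, abs_of_pos hδ, abs_of_neg h1, div_le_iff₀ hδ]
          linarith
        rw [e1, e2, h3, sub_self, zero_mul, mul_zero, zero_add]
      · have h3 : s0 (-x) = 0 := hs0b _ (by linarith)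
        rw [e1, e2, h3, sub_zero, mul_one, zero_add]
    · subst h1
      have h2 : χ (0 / δ) = 1 := by
        apply hχ2
        simp
      rw [h2, neg_zero, hPz 0 (by linarith)]
      ring
    · have e1 : P (-x) = 0 := hPz (-x) (by linarith)
      rcases le_or_gt x (δ / 2) with h2 | h2
      · have h3 : χ (x / δ) = 1 := by
          apply hχ2
          rw [abs_of_pos (div_pos h1 hδ), div_le_iff₀ hδ]
          linarith
        rw [e1, add_zero]
        show _ = H x * ((1 - χ (x / δ)) * (1 - s0 x))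
        rw [h3, sub_self, zero_mul]
      · have h3 : s0 x = 0 := hs0b _ (by linarith)
        rw [e1, add_zero]
        show _ = H x * ((1 - χ (x / δ)) * (1 - s0 x))
        rw [h3, sub_zero, mul_one]
  set e : ℝ := lam * κ 0 / 2 with he
  have he0 : 0 < e := by positivity
  set P3 : ℝ → ℝ := fun α => P α - e * ψ α with hP3
  have hψsm : Sm ψ (δ / 2) (1 / lam) := NB_mono hψ (by linarith) hlb
  have hP3sm : Sm P3 (δ / 2) (1 / lam) := NB_sub hPsm (NB_smul hψsm e)
  have hP30 : ∀ x, 0 ≤ P3 x := by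
    intro x
    show 0 ≤ P x - e * ψ x
    by_cases hx : x ∈ Icc a b
    · have e1 : χ (x / δ) = 0 := hχ.supp _ fun h2 => by
        have h3 := h2.2
        rw [div_le_iff₀ hδ] at h3
        linarith [hx.1]
      have e2 : s0 x = 0 := hs0b x (by linarith [hx.1])
      have e4 : P x = H x := by
        show H x * ((1 - χ (x / δ)) * (1 - s0 x)) = H x
        rw [e1, e2]
        ring
      rw [e4]
      have e5 : κ 0 / 2 ≤ κ (lam * x) := by
        apply hκl
        rw [abs_of_pos (mul_pos hl (by linarith [hx.1]))]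
        exact mul_le_mul_of_nonneg_left hx.2 hl.le
      have e6 : e ≤ H x := by
        show lam * κ 0 / 2 ≤ lam * κ (lam * x)
        nlinarith
      nlinarith [hψ1 x]
    · rw [hψ.supp x hx, mul_zero, sub_zero]
      exact hPn x
  refine ⟨P3, hP3sm, hP30, ?_, ?_⟩
  · intro u
    have hcos : Continuous (fun α : ℝ => Real.cos (2 * Real.pi * u * α)) := by fun_prop
    have hHχ : Sm (fun α => H α * χ (α / δ)) (-(1 / lam)) (1 / lam) := NB_mul hHsm hχδ
    have hi1 := NB_int hHχ hcos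
    have hi2 := NB_int hPsm hcos
    have hi3 := NB_int (NB_neg hPsm) hcos
    have e2 : Cs H u = Cs (fun α => H α * χ (α / δ)) u + (Cs P u + Cs (fun α => P (-α)) u) := by
      unfold Cs
      rw [← NB_add3 hi1 hi2 hi3]
      congr 1
      funext α
      show H α * _ = H α * χ (α / δ) * _ + (P α * _ + P (-α) * _)
      calc H α * Real.cos (2 * Real.pi * u * α) = (H α * χ (α / δ) + (P α + P (-α))) *
            Real.cos (2 * Real.pi * u * α) := by
            rw [← hPsum α]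
            ring
        _ = _ := by ring
    have hi5 := NB_int hP3sm hcos
    have hi6 := NB_int hψ hcos
    have e3 : Cs P u = Cs P3 u + e * Cs ψ u := by
      unfold Cs
      rw [← integral_const_mul, ← integral_add hi5 (hi6.const_mul e)]
      congr 1
      funext α
      show P α * _ = (P α - e * ψ α) * _ + e * (ψ α * _)
      ring
    rw [e2, NB_Cs_neg, e3]
    ring
  · have hmin : Continuous (fun α : ℝ => min α 1) := by fun_prop
    have hmina : Continuous (fun α : ℝ => min |α| 1) := by fun_prop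
    have hi5 := NB_int hP3sm hmin
    have hi6 := NB_int hψ hmin
    have e3 : ∫ α, P α * min α 1 = (∫ α, P3 α * min α 1) +
        e * ∫ α, ψ α * min α 1 := by
      rw [← integral_const_mul, ← integral_add hi5 (hi6.const_mul e)]
      congr 1
      funext α
      show P α * _ = (P α - e * ψ α) * _ + e * (ψ α * _)
      ring
    rw [← e3]
    have e4 : ∫ α, P α * min α 1 = ∫ α, P α * min |α| 1 := by
      congr 1
      funext α
      rcases lt_or_ge α (δ / 2) with h1 | h1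
      · rw [hPz α h1, zero_mul, zero_mul]
      · rw [abs_of_pos (by linarith)]
    have e5 : ∫ α, P α * min |α| 1 = ∫ α, P (-α) * min |α| 1 := by
      rw [← integral_neg_eq_self]
      congr 1
      funext α
      simp only [abs_neg]
    have hi7 := NB_int hPsm hmina
    have hi8 := NB_int (NB_neg hPsm) hmina
    have hi9 := NB_int hHsm hmina
    have e6 : 2 * ∫ α, P α * min α 1 = ∫ α, (P α * min |α| 1 + P (-α) * min |α| 1) := by
      rw [integral_add hi7 hi8, ← e5, e4]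
      ring
    rw [e6]
    refine integral_mono (hi7.add hi8) hi9 fun α => ?_
    show P α * min |α| 1 + P (-α) * min |α| 1 ≤ H α * min |α| 1
    rw [← add_mul, ← hPsum α]
    apply mul_le_mul_of_nonneg_right _ (le_min (abs_nonneg α) zero_le_one)
    nlinarith [hH0 α, hχ0 (α / δ)]

/-- `∫ H - H 0 - ∫ H min(|α|,1) ≥ - lam η` -/
lemma NB_mass {κ : ℝ → ℝ} {lam η : ℝ} (hκ : Sm κ (-1) 1)
    (hl : 0 < lam) (hκl : ∀ y : ℝ, |y| ≤ lam → |κ y - κ 0| ≤ η) :
    lam * κ 0 - lam * η + (∫ α, lam * κ (lam * α) * min |α| 1) ≤ ∫ α, lam * κ (lam * α) := by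
  have hHsm : Sm (fun α => lam * κ (lam * α)) (-(1 / lam)) (1 / lam) := by
    refine ⟨contDiff_const.mul (hκ.smooth.comp (contDiff_const.mul contDiff_id)), fun x hx => ?_⟩
    show lam * κ (lam * x) = 0
    rw [hκ.supp (lam * x) fun h => hx ?_, mul_zero]
    have h1 := h.1
    have h2 := h.2
    constructor
    · rw [← neg_div, div_le_iff₀ hl]
      linarith
    · rw [le_div_iff₀ hl]
      linarith
  have hmina : Continuous (fun α : ℝ => min |α| 1) := by fun_prop
  have htri : Continuous (fun α : ℝ => 1 - min |α| 1) := by fun_prop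
  have hi1 := NB_int hHsm hmina
  have hi2 := NB_int hHsm htri
  have e1 : ∫ α, lam * κ (lam * α) = (∫ α, lam * κ (lam * α) * min |α| 1) +
      ∫ α, lam * κ (lam * α) * (1 - min |α| 1) := by
    rw [← integral_add hi1 hi2]
    congr 1
    funext α
    ring
  have hti : Integrable (fun α : ℝ => 1 - min |α| 1) := by
    apply htri.integrable_of_hasCompactSupport
    apply HasCompactSupport.intro (isCompact_Icc (a := (-1 : ℝ)) (b := 1))
    intro x hx
    have h1 : 1 ≤ |x| := by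
      by_contra h2
      rw [not_le, abs_lt] at h2
      exact hx ⟨h2.1.le, h2.2.le⟩
    rw [min_eq_right h1, sub_self]
  have e2 : lam * κ 0 - lam * η ≤ ∫ α, lam * κ (lam * α) * (1 - min |α| 1) := by
    have h1 : ∫ α : ℝ, (lam * κ 0 - lam * η) * (1 - min |α| 1) = lam * κ 0 - lam * η := by
      rw [integral_const_mul, NB_tri, mul_one]
    rw [← h1]
    refine integral_mono (hti.const_mul _) hi2 fun α => ?_
    show (lam * κ 0 - lam * η) * (1 - min |α| 1) ≤ lam * κ (lam * α) * (1 - min |α| 1)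
    rcases le_or_gt |α| 1 with h2 | h2
    · apply mul_le_mul_of_nonneg_right _ (by
        have := min_le_right |α| (1 : ℝ)
        linarith)
      have h3 := hκl (lam * α) (by
        rw [abs_mul, abs_of_pos hl]
        nlinarith)
      have h4 := (abs_le.mp h3).1
      nlinarith
    · rw [min_eq_right h2.le, sub_self, mul_zero, mul_zero]
  rw [e1]
  linarith

theorem lower_nonneg {l : Filter ℝ} (hl : l ≤ atTop)
    (hup : ∀ (ψ : ℝ → ℝ) (a b : ℝ), 0 < a → a ≤ b → Sm ψ a b → (∀ x : ℝ, 0 ≤ ψ x) → ∀ ε : ℝ, 0 < ε →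
      ∀ᶠ T : ℝ in l, WP T (Cs ψ) / SN T ≤ (∫ α, ψ α * min α 1) + ε) :
    ∀ (ψ : ℝ → ℝ) (a b : ℝ), 0 < a → a ≤ b → Sm ψ a b → (∀ x : ℝ, 0 ≤ ψ x) → (∀ x : ℝ, ψ x ≤ 1) →
      ∀ ε : ℝ, 0 < ε → ∀ᶠ T : ℝ in l, (∫ α, ψ α * min α 1) - ε ≤ WP T (Cs ψ) / SN T := by
  intro ψ a b ha hab hψ hψ0 hψ1 ε hε
  obtain ⟨κ, hκ, hκe, hκ0, hκp, hκC⟩ := exists_posdef
  obtain ⟨χ, hχ, hχe, hχ0, hχ1, hχ2⟩ := exists_cutoff
  have hb : 0 < b := by linarith
  -- the scale `lam`
  set η : ℝ := min (κ 0 / 2) (ε * κ 0 / 4) with hη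
  have hη0 : 0 < η := lt_min (by positivity) (by positivity)
  obtain ⟨r, hr, hκr⟩ := Metric.continuous_iff.mp hκ.smooth.continuous 0 η hη0
  set lam : ℝ := min (1 / (b + 1)) (r / (2 * (b + 1))) with hlam
  have hl0 : 0 < lam := lt_min (by positivity) (by positivity)
  have hlb1 : lam * (b + 1) ≤ 1 := by
    have h1 : lam ≤ 1 / (b + 1) := min_le_left _ _
    rwa [le_div_iff₀ (by positivity)] at h1
  have hlr : lam * (b + 1) ≤ r / 2 := by
    have h1 : lam ≤ r / (2 * (b + 1)) := min_le_right _ _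
    rw [le_div_iff₀ (by positivity)] at h1
    linarith
  have hκs : ∀ y : ℝ, |y| ≤ lam * (b + 1) → |κ y - κ 0| ≤ η := by
    intro y hy
    have h1 : dist y 0 < r := by
      rw [Real.dist_eq, sub_zero]
      linarith
    have h2 := hκr y h1
    rw [Real.dist_eq] at h2
    exact h2.le
  have hκl : ∀ y : ℝ, |y| ≤ lam → |κ y - κ 0| ≤ η := fun y hy => hκs y (by nlinarith)
  have hκl2 : ∀ y : ℝ, |y| ≤ lam * b → κ 0 / 2 ≤ κ y := by
    intro y hy
    have h1 := (abs_le.mp (hκs y (by linarith))).1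
    have h2 : η ≤ κ 0 / 2 := min_le_left _ _
    linarith
  -- the size of the errors
  set J : ℝ := ∫ α, lam * κ (lam * α) with hJ
  have hJ0 : 0 ≤ J := integral_nonneg fun α => mul_nonneg hl0.le (hκ0 _)
  set ε₁ : ℝ := ε * (lam * κ 0) / (4 * (J + 5)) with hε₁
  have hε₁0 : 0 < ε₁ := by positivity
  -- the scale `δ`
  have hHsm : Sm (fun α => lam * κ (lam * α)) (-(1 / lam)) (1 / lam) := by
    refine ⟨contDiff_const.mul (hκ.smooth.comp (contDiff_const.mul contDiff_id)), fun x hx => ?_⟩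
    show lam * κ (lam * x) = 0
    rw [hκ.supp (lam * x) fun h => hx ?_, mul_zero]
    have h1 := h.1
    have h2 := h.2
    constructor
    · rw [← neg_div, div_le_iff₀ hl0]
      linarith
    · rw [le_div_iff₀ hl0]
      linarith
  obtain ⟨δ₀, hδ₀, hnear⟩ := near_zero_law hHsm (fun x => by
    show lam * κ (lam * -x) = lam * κ (lam * x)
    rw [mul_neg, hκe]) hχ hχe (hχ2 0 (by simp)) hε₁0
  have hδ : 0 < min δ₀ (a / 2) := lt_min hδ₀ (by positivity)
  have hδa : min δ₀ (a / 2) < a := lt_of_le_of_lt (min_le_right _ _) (by linarith)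
  have hn := hnear (min δ₀ (a / 2)) hδ (min_le_left _ _)
  set δ : ℝ := min δ₀ (a / 2) with hδdef
  have h1lam : b ≤ 1 / lam := by
    rw [le_div_iff₀ hl0]
    nlinarith
  obtain ⟨P3, hP3, hP30, hCs, hI⟩ := NB_decomp hκ hκe hκ0 hκp hχe hχ hχ0 hχ1 hχ2 ha
    hψ hψ1 hl0 h1lam hκl2 hδ hδa
  have hlaw3 := hup P3 (δ / 2) (1 / lam) (by positivity) (by linarith) hP3 hP30
    ε₁ hε₁0
  have hmass := NB_mass (η := η) hκ hl0 hκl
  have hCsH : ∀ u, 0 ≤ Cs (fun α => lam * κ (lam * α)) u := fun u => by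
    rw [Cs_dilate κ hl0 u]
    exact hκC _
  have hCs0 : Cs (fun α => lam * κ (lam * α)) 0 = J := by
    unfold Cs
    rw [hJ]
    congr 1
    funext α
    simp
  filter_upwards [hl hn, hlaw3, diag_lower hl hε₁0, hl (eventually_gt_atTop 1)] with
    T h1 h3 h4 hT
  have hSN := SN_pos hT
  have h5 : J * (1 - ε₁) ≤ WP T (Cs (fun α => lam * κ (lam * α))) / SN T := by
    rw [le_div_iff₀ hSN]
    have h6 := NB_diag (T := T) hCsH
    rw [hCs0] at h6
    calc J * (1 - ε₁) * SN T = J * ((1 - ε₁) * SN T) := by ring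
      _ ≤ J * pairCount T 0 0 := mul_le_mul_of_nonneg_left h4 hJ0
      _ ≤ _ := h6
  have h6 : WP T (Cs (fun α => lam * κ (lam * α))) =
      WP T (Cs (fun α => lam * κ (lam * α) * χ (α / δ))) +
        2 * (WP T (Cs P3) + lam * κ 0 / 2 * WP T (Cs ψ)) := by
    have e1 : Cs (fun α => lam * κ (lam * α)) = fun u =>
        Cs (fun α => lam * κ (lam * α) * χ (α / δ)) u +
          2 * (Cs P3 u + lam * κ 0 / 2 * Cs ψ u) := funext hCs
    rw [e1]
    unfold WP
    simp only [Finset.mul_sum, ← Finset.sum_add_distrib]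
    refine Finset.sum_congr rfl fun p _ => ?_
    ring
  rw [h6, add_div, mul_div_assoc, add_div, mul_div_assoc] at h5
  have h7 := (abs_le.mp h1).2
  simp only [mul_zero] at h7
  set w : ℝ := WP T (Cs ψ) / SN T with hw
  set I : ℝ := ∫ α, ψ α * min α 1 with hIdef
  have hlk : 0 < lam * κ 0 := by positivity
  -- the final computation
  have h9 : lam * κ 0 * I - lam * η - (J + 5) * ε₁ ≤ lam * κ 0 * w := by
    nlinarith
  have h10 : lam * η ≤ lam * κ 0 * (ε / 4) := by
    have h11 : η ≤ ε * κ 0 / 4 := min_le_right _ _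
    nlinarith
  have h11 : (J + 5) * ε₁ = lam * κ 0 * (ε / 4) := by
    rw [hε₁]
    field_simp
  rw [h11] at h9
  have h12 : lam * κ 0 * (I - ε) ≤ lam * κ 0 * w := by nlinarith
  exact le_of_mul_le_mul_left h12 hlk

end Pool.Agent.Helper69.GMU
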