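import Pool.Agent.Helper69.GMU.Lap

/-!
# GMU block SB: sums over the zeros at a good point

`x = L(Re ρ - 1/2)`, `v = L(Im ρ - t)` (`e2_zz_re`, `e2_zz_im` in `GGM/E2.lean`, or directly). `hg`: `|x| ≤ K + C₀ log(1+|v|)`, so
`e^(s|x|) ≤ e^(sK) (1+|v|)^(sC₀)`. First sum, term by term with `k = 2`: if `|v| ≤ 2N`, `‖Lap η z‖ e^(A|x|) ≤ Ck 2 e^((A+1)K) (1+|v|)^((A+1)C₀) (1+|v|)^(-2)
≤ Ck 2 e^((A+1)K) (2N+1)^N (1+|v|)^(-2)`; if `|v| > 2N` use `h2`: factor `((1+|v|)^((A+1)C₀) (2N/|v|)^N ≤ (2N)^N (1+1/|v|)^N ≤ (2N+1)^N`.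
`(1+|v|)^(-2) ≤ (1+v²)^(-1)` and `∑ mx (1+v²)^(-1) = Phi T t ≤ K₁`. Second sum: `k ≥ 3C₀ + 2`. Third: `#{‖zz - c₀‖ ≤ 4R}`: `|v| ≤ 4R + 1/2` for these, `mx ≥ 1`, so
`1 ≤ mx (1+v²)^(-1)(1+(4R+1)²)`.
-/

open Complex Set MeasureTheory Filter Topology
open Pool.Agent.Helper57.LH Pool.Agent.Helper57.PC Pool.Agent.Helper57.Zeta
open Pool.Agent.Helper69.GGM
open scoped ContDiff

namespace Pool.Agent.Helper69.GMU

private theorem sb_re (T t : ℝ) (ρ : ℂ) : (zz T t ρ).re = Real.log T * (ρ.re - 1 / 2) := by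
  unfold zz; simp

private theorem sb_im (T t : ℝ) (ρ : ℂ) : (zz T t ρ).im = Real.log T * (ρ.im - t) := by
  unfold zz; simp

private theorem sb_mx {T : ℝ} {ρ : ℂ} (h : ρ ∈ Zf T) : 1 ≤ mx ρ := by
  rw [mem_Zf] at h
  have h1 := isNontrivialZero_iff.mp h.1
  have h2 := (order_pos_iff differentiable_xi xi_two_ne ρ).mpr h1
  unfold mx
  have : 1 ≤ analyticOrderNatAt xi ρ := Nat.one_le_iff_ne_zero.mpr h2
  exact_mod_cast this

private theorem sb_exp {K C₀ x v s : ℝ} (hs : 0 ≤ s)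
    (h : |x| ≤ K + C₀ * Real.log (1 + |v|)) :
    Real.exp (s * |x|) ≤ Real.exp (s * K) * (1 + |v|) ^ (s * C₀) := by
  have h1 : 0 < 1 + |v| := by positivity
  rw [Real.rpow_def_of_pos h1, ← Real.exp_add]
  apply Real.exp_le_exp.2
  have := mul_le_mul_of_nonneg_left h hs
  linarith

/-- sum from a pointwise bound -/
private theorem sb_sum {T t K₁ B : ℝ} {f : ℂ → ℝ} (hB : 0 ≤ B)
    (hf : ∀ ρ ∈ Zf T, f ρ * (1 + |(zz T t ρ).im|) ^ 2 ≤ B) (hf0 : ∀ ρ ∈ Zf T, 0 ≤ f ρ)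
    (hPhi : Phi T t ≤ K₁) :
    ∑ ρ ∈ Zf T, mx ρ * f ρ ≤ B * K₁ := by
  calc ∑ ρ ∈ Zf T, mx ρ * f ρ ≤
      ∑ ρ ∈ Zf T, B * (mx ρ * (1 + (Real.log T * (ρ.im - t)) ^ 2)⁻¹) := by
        refine Finset.sum_le_sum fun ρ hρ => ?_
        have h1 := hf ρ hρ
        rw [sb_im] at h1
        set v := Real.log T * (ρ.im - t)
        have h2 : 1 + v ^ 2 ≤ (1 + |v|) ^ 2 := by
          have := sq_abs v
          nlinarith [abs_nonneg v]
        have h3 : f ρ ≤ B * (1 + v ^ 2)⁻¹ := by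
          rw [← div_eq_mul_inv, le_div_iff₀ (by positivity)]
          exact (mul_le_mul_of_nonneg_left h2 (hf0 ρ hρ)).trans h1
        calc mx ρ * f ρ ≤ mx ρ * (B * (1 + v ^ 2)⁻¹) :=
              mul_le_mul_of_nonneg_left h3 (mx_nonneg ρ)
          _ = _ := by ring
    _ = B * Phi T t := by rw [← Finset.mul_sum]; rfl
    _ ≤ B * K₁ := mul_le_mul_of_nonneg_left hPhi hB

theorem sum_A {T t K C₀ K₁ A : ℝ} {N : ℕ} {η : ℝ → ℝ} {Ck : ℕ → ℝ} (hC₀ : 0 ≤ C₀) (hA : 0 ≤ A) (hN1 : 1 ≤ N) (hN : (A + 1) * C₀ ≤ N)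
    (hCk : 0 ≤ Ck 2)
    (h1 : ∀ (k : ℕ) (z : ℂ), ‖Lap η z‖ * (1 + |z.im|) ^ k ≤ Ck k * Real.exp |z.re|)
    (h2 : ∀ (k : ℕ) (z : ℂ), ‖Lap η z‖ * (1 + |z.im|) ^ k * |z.im| ^ N ≤ Ck k * Real.exp |z.re| * (2 * N) ^ N)
    (hg : ∀ ρ ∈ Zf T, |Real.log T * (ρ.re - 1 / 2)| ≤ K + C₀ * Real.log (1 + |Real.log T * (ρ.im - t)|))
    (hPhi : Phi T t ≤ K₁) :
    ∑ ρ ∈ Zf T, mx ρ * ‖Lap η (zz T t ρ)‖ * Real.exp (A * |(zz T t ρ).re|) ≤
      Ck 2 * K₁ * Real.exp ((A + 1) * K) * (2 * N + 1) ^ N := by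
  have hNR : (1 : ℝ) ≤ N := by exact_mod_cast hN1
  have key := sb_sum (T := T) (t := t) (K₁ := K₁)
    (B := Ck 2 * Real.exp ((A + 1) * K) * (2 * N + 1) ^ N)
    (f := fun ρ => ‖Lap η (zz T t ρ)‖ * Real.exp (A * |(zz T t ρ).re|)) (by positivity) ?_
    (fun ρ _ => by positivity) hPhi
  · calc _ = ∑ ρ ∈ Zf T, mx ρ * (‖Lap η (zz T t ρ)‖ * Real.exp (A * |(zz T t ρ).re|)) :=
          Finset.sum_congr rfl fun ρ _ => by ring
      _ ≤ _ := key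
      _ = _ := by ring
  · intro ρ hρ
    have hgρ := hg ρ hρ
    rw [← sb_re T t ρ, ← sb_im T t ρ] at hgρ
    set z := zz T t ρ
    have hE := sb_exp (s := A + 1) (by linarith) hgρ
    have hv1 : 1 ≤ 1 + |z.im| := by linarith [abs_nonneg z.im]
    have hpow : (1 + |z.im|) ^ ((A + 1) * C₀) ≤ (1 + |z.im|) ^ N := by
      rw [← Real.rpow_natCast]
      exact Real.rpow_le_rpow_of_exponent_le hv1 hN
    have hE2 : Real.exp ((A + 1) * |z.re|) ≤ Real.exp ((A + 1) * K) * (1 + |z.im|) ^ N :=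
      hE.trans (mul_le_mul_of_nonneg_left hpow (Real.exp_pos _).le)
    have hEE : Real.exp |z.re| * Real.exp (A * |z.re|) = Real.exp ((A + 1) * |z.re|) := by
      rw [← Real.exp_add]; congr 1; ring
    by_cases hc : |z.im| ≤ 2 * N
    · have a1 := h1 2 z
      calc ‖Lap η z‖ * Real.exp (A * |z.re|) * (1 + |z.im|) ^ 2
          = (‖Lap η z‖ * (1 + |z.im|) ^ 2) * Real.exp (A * |z.re|) := by ring
        _ ≤ (Ck 2 * Real.exp |z.re|) * Real.exp (A * |z.re|) :=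
            mul_le_mul_of_nonneg_right a1 (Real.exp_pos _).le
        _ = Ck 2 * Real.exp ((A + 1) * |z.re|) := by rw [mul_assoc, hEE]
        _ ≤ Ck 2 * (Real.exp ((A + 1) * K) * (1 + |z.im|) ^ N) :=
            mul_le_mul_of_nonneg_left hE2 hCk
        _ ≤ Ck 2 * (Real.exp ((A + 1) * K) * (2 * N + 1) ^ N) := by
            have : (1 + |z.im|) ^ N ≤ (2 * (N : ℝ) + 1) ^ N :=
              pow_le_pow_left₀ (by positivity) (by linarith) N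
            gcongr
        _ = _ := by ring
    · push Not at hc
      have hv0 : 0 < |z.im| := by linarith
      have hvN : 0 < |z.im| ^ N := by positivity
      have a2 := h2 2 z
      have a3 : (1 + |z.im|) ^ N * (2 * (N : ℝ)) ^ N ≤ (2 * (N : ℝ) + 1) ^ N * |z.im| ^ N := by
        rw [← mul_pow, ← mul_pow]
        refine pow_le_pow_left₀ (by positivity) ?_ N
        nlinarith
      have a4 : (‖Lap η z‖ * Real.exp (A * |z.re|) * (1 + |z.im|) ^ 2) * |z.im| ^ N ≤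
          (Ck 2 * Real.exp ((A + 1) * K) * (2 * N + 1) ^ N) * |z.im| ^ N := by
        calc (‖Lap η z‖ * Real.exp (A * |z.re|) * (1 + |z.im|) ^ 2) * |z.im| ^ N
            = (‖Lap η z‖ * (1 + |z.im|) ^ 2 * |z.im| ^ N) * Real.exp (A * |z.re|) := by ring
          _ ≤ (Ck 2 * Real.exp |z.re| * (2 * N) ^ N) * Real.exp (A * |z.re|) :=
              mul_le_mul_of_nonneg_right a2 (Real.exp_pos _).le
          _ = Ck 2 * (2 * N) ^ N * (Real.exp |z.re| * Real.exp (A * |z.re|)) := by ring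
          _ = Ck 2 * (2 * N) ^ N * Real.exp ((A + 1) * |z.re|) := by rw [hEE]
          _ ≤ Ck 2 * (2 * N) ^ N * (Real.exp ((A + 1) * K) * (1 + |z.im|) ^ N) := by gcongr
          _ = Ck 2 * Real.exp ((A + 1) * K) * ((1 + |z.im|) ^ N * (2 * N) ^ N) := by ring
          _ ≤ Ck 2 * Real.exp ((A + 1) * K) * ((2 * (N : ℝ) + 1) ^ N * |z.im| ^ N) := by
              gcongr
          _ = _ := by ring
      exact le_of_mul_le_mul_right a4 hvN

theorem sum_two {T t K C₀ K₁ : ℝ} {k : ℕ} {η : ℝ → ℝ} {Ck : ℕ → ℝ} (hC₀ : 0 ≤ C₀) (hk : 3 * C₀ + 2 ≤ k) (hCk : 0 ≤ Ck k)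
    (h1 : ∀ (k : ℕ) (z : ℂ), ‖Lap η z‖ * (1 + |z.im|) ^ k ≤ Ck k * Real.exp |z.re|)
    (hg : ∀ ρ ∈ Zf T, |Real.log T * (ρ.re - 1 / 2)| ≤ K + C₀ * Real.log (1 + |Real.log T * (ρ.im - t)|))
    (hPhi : Phi T t ≤ K₁) :
    ∑ ρ ∈ Zf T, mx ρ * ‖Lap η (zz T t ρ)‖ * Real.exp (2 * |(zz T t ρ).re|) ≤ Ck k * K₁ * Real.exp (3 * K) := by
  have key := sb_sum (T := T) (t := t) (K₁ := K₁)
    (B := Ck k * Real.exp (3 * K))
    (f := fun ρ => ‖Lap η (zz T t ρ)‖ * Real.exp (2 * |(zz T t ρ).re|)) (by positivity) ?_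
    (fun ρ _ => by positivity) hPhi
  · calc _ = ∑ ρ ∈ Zf T, mx ρ * (‖Lap η (zz T t ρ)‖ * Real.exp (2 * |(zz T t ρ).re|)) :=
          Finset.sum_congr rfl fun ρ _ => by ring
      _ ≤ _ := key
      _ = _ := by ring
  · intro ρ hρ
    have hgρ := hg ρ hρ
    rw [← sb_re T t ρ, ← sb_im T t ρ] at hgρ
    set z := zz T t ρ
    have hE := sb_exp (s := 3) (by norm_num) hgρ
    have hv1 : 1 ≤ 1 + |z.im| := by linarith [abs_nonneg z.im]
    have hv0 : 0 < 1 + |z.im| := by linarith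
    have hpow : (1 + |z.im|) ^ (3 * C₀) * (1 + |z.im|) ^ 2 ≤ (1 + |z.im|) ^ k := by
      rw [← Real.rpow_natCast _ 2, ← Real.rpow_natCast _ k, ← Real.rpow_add hv0]
      exact Real.rpow_le_rpow_of_exponent_le hv1 (by push_cast; linarith)
    have hEE : Real.exp |z.re| * Real.exp (2 * |z.re|) = Real.exp (3 * |z.re|) := by
      rw [← Real.exp_add]; congr 1; ring
    have hvk : 0 < (1 + |z.im|) ^ k := by positivity
    have a1 := h1 k z
    have a4 : (‖Lap η z‖ * Real.exp (2 * |z.re|) * (1 + |z.im|) ^ 2) * (1 + |z.im|) ^ k ≤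
        (Ck k * Real.exp (3 * K)) * (1 + |z.im|) ^ k := by
      calc (‖Lap η z‖ * Real.exp (2 * |z.re|) * (1 + |z.im|) ^ 2) * (1 + |z.im|) ^ k
          = (‖Lap η z‖ * (1 + |z.im|) ^ k) * (Real.exp (2 * |z.re|) * (1 + |z.im|) ^ 2) := by ring
        _ ≤ (Ck k * Real.exp |z.re|) * (Real.exp (2 * |z.re|) * (1 + |z.im|) ^ 2) :=
            mul_le_mul_of_nonneg_right a1 (by positivity)
        _ = Ck k * (Real.exp |z.re| * Real.exp (2 * |z.re|)) * (1 + |z.im|) ^ 2 := by ring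
        _ = Ck k * Real.exp (3 * |z.re|) * (1 + |z.im|) ^ 2 := by rw [hEE]
        _ ≤ Ck k * (Real.exp (3 * K) * (1 + |z.im|) ^ (3 * C₀)) * (1 + |z.im|) ^ 2 := by gcongr
        _ = Ck k * Real.exp (3 * K) * ((1 + |z.im|) ^ (3 * C₀) * (1 + |z.im|) ^ 2) := by ring
        _ ≤ Ck k * Real.exp (3 * K) * (1 + |z.im|) ^ k := by gcongr
        _ = _ := by ring
    exact le_of_mul_le_mul_right a4 hvk

theorem card_near {T t K₁ R : ℝ} {v₁ : ℝ} (hR : 1 ≤ R) (hv : |v₁| ≤ 1 / 2) (hPhi : Phi T t ≤ K₁) :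
    (((Zf T).filter (fun ρ => ‖zz T t ρ - ((2 * R : ℝ) + (v₁ : ℂ) * I)‖ ≤ 4 * R)).card : ℝ) ≤
      K₁ * (1 + (4 * R + 1) ^ 2) := by
  set F := (Zf T).filter (fun ρ => ‖zz T t ρ - ((2 * R : ℝ) + (v₁ : ℂ) * I)‖ ≤ 4 * R) with hF
  set W : ℝ := 1 + (4 * R + 1) ^ 2 with hW
  have hW0 : 0 < W := by positivity
  calc (F.card : ℝ) = ∑ _ρ ∈ F, (1 : ℝ) := by simp
    _ ≤ ∑ ρ ∈ F, W * (mx ρ * (1 + (Real.log T * (ρ.im - t)) ^ 2)⁻¹) := by
        refine Finset.sum_le_sum fun ρ hρ => ?_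
        obtain ⟨hρ1, hρ2⟩ := Finset.mem_filter.1 hρ
        have h1 := (Complex.abs_im_le_norm _).trans hρ2
        rw [Complex.sub_im, sb_im] at h1
        set v := Real.log T * (ρ.im - t)
        have h2 : (((2 * R : ℝ) : ℂ) + (v₁ : ℂ) * I).im = v₁ := by simp
        rw [h2] at h1
        have h3 : |v| ≤ 4 * R + 1 := by
          have := abs_sub_abs_le_abs_sub v v₁
          linarith
        have h4 : 1 + v ^ 2 ≤ W := by
          have : v ^ 2 ≤ (4 * R + 1) ^ 2 := sq_le_sq' (by linarith [neg_abs_le v])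
            (by linarith [le_abs_self v])
          rw [hW]; linarith
        have h5 : 0 < 1 + v ^ 2 := by positivity
        have h6 : 1 ≤ W * (1 + v ^ 2)⁻¹ := by
          rw [← div_eq_mul_inv, le_div_iff₀ h5]; linarith
        calc (1 : ℝ) ≤ (W * (1 + v ^ 2)⁻¹) * 1 := by linarith
          _ ≤ (W * (1 + v ^ 2)⁻¹) * mx ρ :=
              mul_le_mul_of_nonneg_left (sb_mx hρ1) (by positivity)
          _ = _ := by ring
    _ ≤ ∑ ρ ∈ Zf T, W * (mx ρ * (1 + (Real.log T * (ρ.im - t)) ^ 2)⁻¹) := by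
        refine Finset.sum_le_sum_of_subset_of_nonneg (Finset.filter_subset _ _) fun ρ _ _ => ?_
        have := mx_nonneg ρ
        positivity
    _ = W * Phi T t := by rw [← Finset.mul_sum]; rfl
    _ ≤ W * K₁ := mul_le_mul_of_nonneg_left hPhi hW0.le
    _ = K₁ * W := mul_comm _ _

end Pool.Agent.Helper69.GMU
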