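import Mathlib

/-!
# GMU block TC: a two-constants estimate on discs, by power series (imports Mathlib only)

`f w = ∑ a_n (w-c)^n` on `ball c r₃`; Cauchy: `‖a_n‖ ≤ M r₃^(-n)` and `‖a_n‖ ≤ δ r₁^(-n)`, so `‖a_n‖ r₂^n ≤ M^(1-θ) δ^θ q^n` with
`q = (r₂/r₃)^(1-θ) (r₂/r₁)^θ < 1`; sum the geometric series. (`q < 1` forces `r₂ < r₃` because `r₁ ≤ r₃`.)
-/

open Complex Set MeasureTheory Filter Topology
open scoped ContDiff

namespace Pool.Agent.Helper69.GMU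

theorem two_const {f : ℂ → ℂ} {c : ℂ} {r₁ r₂ r₃ M δ θ : ℝ} (h1 : 0 < r₁) (h2 : 0 < r₂) (h13 : r₁ ≤ r₃)
    (hf : DiffContOnCl ℂ f (Metric.ball c r₃)) (hM0 : 0 < M) (hδ0 : 0 < δ)
    (hM : ∀ w ∈ Metric.closedBall c r₃, ‖f w‖ ≤ M) (hδ : ∀ w ∈ Metric.closedBall c r₁, ‖f w‖ ≤ δ)
    (hθ0 : 0 ≤ θ) (hθ1 : θ ≤ 1) (hq : (r₂ / r₃) ^ (1 - θ) * (r₂ / r₁) ^ θ < 1) :
    ∀ w ∈ Metric.closedBall c r₂, ‖f w‖ ≤ M ^ (1 - θ) * δ ^ θ / (1 - (r₂ / r₃) ^ (1 - θ) * (r₂ / r₁) ^ θ) := by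
  have h3 : 0 < r₃ := h1.trans_le h13
  set q : ℝ := (r₂ / r₃) ^ (1 - θ) * (r₂ / r₁) ^ θ with hqd
  have hq0 : 0 ≤ q := mul_nonneg (Real.rpow_nonneg (by positivity) _)
    (Real.rpow_nonneg (by positivity) _)
  have h23 : r₂ < r₃ := by
    by_contra hcon
    push Not at hcon
    have e1 : 1 ≤ (r₂ / r₃) ^ (1 - θ) :=
      Real.one_le_rpow ((one_le_div h3).2 hcon) (by linarith)
    have e2 : 1 ≤ (r₂ / r₁) ^ θ :=
      Real.one_le_rpow ((one_le_div h1).2 (h13.trans hcon)) hθ0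
    have e3 : 1 ≤ q := by
      rw [hqd]
      nlinarith
    linarith
  have hf1 : DiffContOnCl ℂ f (Metric.ball c r₁) := hf.mono (Metric.ball_subset_ball h13)
  have hA : ∀ n : ℕ, ‖iteratedDeriv n f c‖ / (n.factorial : ℝ) ≤ M / r₃ ^ n := by
    intro n
    have h := Complex.norm_iteratedDeriv_le_of_forall_mem_sphere_norm_le n h3 hf
      (fun z hz => hM z (Metric.sphere_subset_closedBall hz))
    rw [div_le_iff₀ (by positivity)]
    calc _ ≤ _ := h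
      _ = _ := by ring
  have hB : ∀ n : ℕ, ‖iteratedDeriv n f c‖ / (n.factorial : ℝ) ≤ δ / r₁ ^ n := by
    intro n
    have h := Complex.norm_iteratedDeriv_le_of_forall_mem_sphere_norm_le n h1 hf1
      (fun z hz => hδ z (Metric.sphere_subset_closedBall hz))
    rw [div_le_iff₀ (by positivity)]
    calc _ ≤ _ := h
      _ = _ := by ring
  have hθ1' : 0 ≤ 1 - θ := by linarith
  have hAB : ∀ n : ℕ, ‖iteratedDeriv n f c‖ / (n.factorial : ℝ) * r₂ ^ n ≤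
      M ^ (1 - θ) * δ ^ θ * q ^ n := by
    intro n
    set A : ℝ := ‖iteratedDeriv n f c‖ / (n.factorial : ℝ) with hAd
    have hA0 : 0 ≤ A := by positivity
    have e1 : A = A ^ (1 - θ) * A ^ θ := by
      rw [← Real.rpow_add_of_nonneg hA0 hθ1' hθ0, sub_add_cancel, Real.rpow_one]
    have e2 : r₂ ^ n = (r₂ ^ n) ^ (1 - θ) * (r₂ ^ n) ^ θ := by
      rw [← Real.rpow_add_of_nonneg (by positivity) hθ1' hθ0, sub_add_cancel, Real.rpow_one]
    have e3 : A ^ (1 - θ) * (r₂ ^ n) ^ (1 - θ) ≤ M ^ (1 - θ) * ((r₂ / r₃) ^ (1 - θ)) ^ n := by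
      rw [← Real.mul_rpow hA0 (by positivity), Real.rpow_pow_comm (by positivity),
        ← Real.mul_rpow hM0.le (by positivity)]
      refine Real.rpow_le_rpow (by positivity) ?_ hθ1'
      calc A * r₂ ^ n ≤ M / r₃ ^ n * r₂ ^ n :=
            mul_le_mul_of_nonneg_right (hA n) (by positivity)
        _ = M * (r₂ / r₃) ^ n := by rw [div_pow]; ring
    have e4 : A ^ θ * (r₂ ^ n) ^ θ ≤ δ ^ θ * ((r₂ / r₁) ^ θ) ^ n := by
      rw [← Real.mul_rpow hA0 (by positivity), Real.rpow_pow_comm (by positivity),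
        ← Real.mul_rpow hδ0.le (by positivity)]
      refine Real.rpow_le_rpow (by positivity) ?_ hθ0
      calc A * r₂ ^ n ≤ δ / r₁ ^ n * r₂ ^ n :=
            mul_le_mul_of_nonneg_right (hB n) (by positivity)
        _ = δ * (r₂ / r₁) ^ n := by rw [div_pow]; ring
    calc A * r₂ ^ n = (A ^ (1 - θ) * A ^ θ) * ((r₂ ^ n) ^ (1 - θ) * (r₂ ^ n) ^ θ) := by
          rw [← e1, ← e2]
      _ = (A ^ (1 - θ) * (r₂ ^ n) ^ (1 - θ)) * (A ^ θ * (r₂ ^ n) ^ θ) := by ring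
      _ ≤ (M ^ (1 - θ) * ((r₂ / r₃) ^ (1 - θ)) ^ n) * (δ ^ θ * ((r₂ / r₁) ^ θ) ^ n) := by
          refine mul_le_mul e3 e4 ?_ ?_
          · exact mul_nonneg (Real.rpow_nonneg hA0 _) (Real.rpow_nonneg (by positivity) _)
          · exact mul_nonneg (Real.rpow_nonneg hM0.le _)
              (pow_nonneg (Real.rpow_nonneg (by positivity) _) _)
      _ = M ^ (1 - θ) * δ ^ θ * q ^ n := by
          rw [hqd, mul_pow]
          ring
  intro w hw
  have hwr : ‖w - c‖ ≤ r₂ := by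
    rw [← dist_eq_norm]
    exact Metric.mem_closedBall.1 hw
  have hwb : w ∈ Metric.ball c r₃ := by
    rw [Metric.mem_ball, dist_eq_norm]
    exact hwr.trans_lt h23
  have hs := Complex.hasSum_taylorSeries_on_ball (f := f) (c := c) (r := r₃)
    hf.differentiableOn hwb
  rw [← hs.tsum_eq]
  have hg : HasSum (fun n : ℕ => M ^ (1 - θ) * δ ^ θ * q ^ n)
      (M ^ (1 - θ) * δ ^ θ * (1 - q)⁻¹) := (hasSum_geometric_of_lt_one hq0 hq).mul_left _
  rw [div_eq_mul_inv]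
  refine tsum_of_norm_bounded hg fun n => ?_
  refine le_trans ?_ (hAB n)
  rw [norm_smul, norm_smul, norm_pow, norm_inv, Complex.norm_natCast]
  calc ((n.factorial : ℝ))⁻¹ * (‖w - c‖ ^ n * ‖iteratedDeriv n f c‖)
      = ‖iteratedDeriv n f c‖ / (n.factorial : ℝ) * ‖w - c‖ ^ n := by
        rw [div_eq_mul_inv]
        ring
    _ ≤ ‖iteratedDeriv n f c‖ / (n.factorial : ℝ) * r₂ ^ n := by
        refine mul_le_mul_of_nonneg_left ?_ (by positivity)
        exact pow_le_pow_left₀ (norm_nonneg _) hwr n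

end Pool.Agent.Helper69.GMU
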