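import Pool.Agent.Helper69.GMU.Defs

/-!
# GMU: the one-sided law
-/

open Complex Set MeasureTheory Filter Topology
open Pool.Agent.Helper57.LH Pool.Agent.Helper57.PC Pool.Agent.Helper57.Zeta
open Pool.Agent.Helper69.GGM
open scoped ContDiff

namespace Pool.Agent.Helper69.GMU

/-- the capped mean squares are asymptotically at most the predicted value -/
def PUp (l : Filter ℝ) (φ : ℝ → ℝ) : Prop := ∀ B ε : ℝ, 0 < ε → ∀ᶠ T : ℝ in l, MP φ T B ≤ VP φ + ε

end Pool.Agent.Helper69.GMU
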