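import Pool.Agent.Helper69.GMU.Lap

/-!
# GMU block X1: bump convolved with a B-spline of order `N`

`M_h f x = (1/h) ∫_{-h/2}^{h/2} f(x-s) ds` (`h > 0`): keeps smoothness, nonnegativity, the upper bound and the integral; support `[a,b] → [a-h/2, b+h/2]`;
`Lap (M_h f) z = Lap f z · S(hz/2)`, `S ζ = sinh ζ/ζ` (`S 0 = 1`). Start with a smooth bump `β ≥ 0`, `∫ β = 1`, supported in `[-r,r]`,
`r = min (1/4) (1/(16(Z₀+1)))` (Mathlib `ContDiffBump`, normed), apply `M_h` `N` times with `h = 1/N`: total support in `[-3/4,3/4]`.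
`Lap η z = Lap β z · S(z/(2N))^N`. `‖S ζ‖ ≤ e^|Re ζ|` and `‖ζ‖ ‖S ζ‖ ≤ e^|Re ζ|`, so `‖S(z/2N)^N‖ ≤ e^(|x|/2)` and
`|v|^N ‖S(z/2N)^N‖ ≤ e^(|x|/2) (2N)^N`; `‖Lap β z‖ (1+|v|)^k ≤ C_k e^(r|x|)` (`Lap_decay`). For `‖z‖ ≤ Z₀`: `‖Lap β z - 1‖ ≤ e^(rZ₀) - 1 ≤ 1/8`,
`‖S ζ - 1‖ ≤ ‖ζ‖²` for `‖ζ‖ ≤ 1`, `‖(1+u)^N - 1‖ ≤ e^(N‖u‖) - 1`, so `‖S(z/2N)^N - 1‖ ≤ e^(Z₀²/(4N)) - 1 ≤ 1/8` for `N ≥ N₀ = ⌈Z₀² 4⌉ + ⌈Z₀⌉ + 1`.
-/

open Complex Set MeasureTheory Filter Topology
open Pool.Agent.Helper57.LH Pool.Agent.Helper57.PC Pool.Agent.Helper57.Zeta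
open Pool.Agent.Helper69.GGM
open scoped ContDiff

namespace Pool.Agent.Helper69.GMU

section x197

/-- moving average -/
private noncomputable def ma97 (h : ℝ) (f : ℝ → ℝ) (x : ℝ) : ℝ :=
  (1 / h) * ∫ s in (-(h / 2))..(h / 2), f (x - s)

private theorem ma97_eq (h : ℝ) (f : ℝ → ℝ) (x : ℝ) :
    ma97 h f x = (1 / h) * ∫ y in (x - h / 2)..(x + h / 2), f y := by
  unfold ma97
  rw [intervalIntegral.integral_comp_sub_left (fun y => f y) x, sub_neg_eq_add]

private theorem ma97_smooth {h : ℝ} {f : ℝ → ℝ} (hf : ContDiff ℝ ∞ f) :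
    ContDiff ℝ ∞ (ma97 h f) := by
  have hF : ContDiff ℝ ∞ (fun x => ∫ t in (0:ℝ)..x, f t) := by
    have hd : ∀ x, HasDerivAt (fun x => ∫ t in (0:ℝ)..x, f t) (f x) x := fun x =>
      intervalIntegral.integral_hasDerivAt_right (hf.continuous.intervalIntegrable _ _)
        hf.continuous.stronglyMeasurable.stronglyMeasurableAtFilter hf.continuous.continuousAt
    rw [contDiff_infty_iff_deriv]
    refine ⟨fun x => (hd x).differentiableAt, ?_⟩
    have h1 : deriv (fun x => ∫ t in (0:ℝ)..x, f t) = f := funext fun x => (hd x).deriv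
    rw [h1]
    exact hf
  have he : ma97 h f = fun x => (1 / h) * ((∫ t in (0:ℝ)..(x + h / 2), f t) -
      ∫ t in (0:ℝ)..(x - h / 2), f t) := by
    funext x
    rw [ma97_eq, intervalIntegral.integral_interval_sub_left
      (hf.continuous.intervalIntegrable _ _) (hf.continuous.intervalIntegrable _ _)]
  rw [he]
  refine contDiff_const.mul (ContDiff.sub ?_ ?_)
  · exact hF.comp (contDiff_id.add contDiff_const)
  · exact hF.comp (contDiff_id.sub contDiff_const)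

private theorem ma97_nonneg {h : ℝ} (hh : 0 < h) {f : ℝ → ℝ} (hf : ∀ x, 0 ≤ f x) (x : ℝ) :
    0 ≤ ma97 h f x := by
  unfold ma97
  refine mul_nonneg (by positivity) (intervalIntegral.integral_nonneg (by linarith) fun s _ => hf _)

private theorem ma97_le {h : ℝ} (hh : 0 < h) {f : ℝ → ℝ} (hc : Continuous f) {C : ℝ}
    (hf : ∀ x, f x ≤ C) (x : ℝ) : ma97 h f x ≤ C := by
  unfold ma97
  have h1 : (∫ s in (-(h / 2))..(h / 2), f (x - s)) ≤ ∫ _s in (-(h / 2))..(h / 2), C := by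
    refine intervalIntegral.integral_mono_on (by linarith) ?_ ?_ fun s _ => hf _
    · exact (hc.comp (continuous_const.sub continuous_id)).intervalIntegrable _ _
    · exact intervalIntegrable_const
  rw [intervalIntegral.integral_const, smul_eq_mul] at h1
  have h2 : (h / 2 - -(h / 2)) = h := by ring
  rw [h2] at h1
  rw [one_div, inv_mul_le_iff₀ hh]
  exact h1

private theorem ma97_supp {h : ℝ} (hh : 0 < h) {f : ℝ → ℝ} {a b : ℝ}
    (hf : ∀ x, x ∉ Icc a b → f x = 0) (x : ℝ) (hx : x ∉ Icc (a - h / 2) (b + h / 2)) :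
    ma97 h f x = 0 := by
  unfold ma97
  have h1 : (∫ s in (-(h / 2))..(h / 2), f (x - s)) = ∫ _s in (-(h / 2))..(h / 2), (0 : ℝ) := by
    refine intervalIntegral.integral_congr fun s hs => ?_
    rw [uIcc_of_le (by linarith), mem_Icc] at hs
    refine hf _ fun h2 => hx ?_
    rw [mem_Icc] at h2 ⊢
    exact ⟨by linarith [h2.1, hs.1], by linarith [h2.2, hs.2]⟩
  rw [h1]
  simp

/-- `E w = ∫_{-1/2}^{1/2} e^(ws) ds` -/
private noncomputable def E97 (w : ℂ) : ℂ := ∫ s in (-(1 / 2 : ℝ))..(1 / 2), Complex.exp (w * (s : ℂ))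

private theorem E97_cont (w : ℂ) : Continuous fun s : ℝ => Complex.exp (w * (s : ℂ)) := by
  fun_prop

private theorem E97_norm (w : ℂ) : ‖E97 w‖ ≤ Real.exp (|w.re| / 2) := by
  unfold E97
  have h1 := intervalIntegral.norm_integral_le_of_norm_le_const (a := -(1 / 2 : ℝ)) (b := 1 / 2)
    (f := fun s : ℝ => Complex.exp (w * (s : ℂ))) (C := Real.exp (|w.re| / 2)) (fun s hs => by
      rw [uIoc_of_le (by norm_num), mem_Ioc] at hs
      rw [Complex.norm_exp, Real.exp_le_exp]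
      have h2 : (w * (s : ℂ)).re = w.re * s := by simp
      rw [h2]
      refine (le_abs_self _).trans ?_
      rw [abs_mul]
      have h3 : |s| ≤ 1 / 2 := abs_le.2 ⟨by linarith [hs.1], hs.2⟩
      have := mul_le_mul_of_nonneg_left h3 (abs_nonneg w.re)
      linarith)
  have h4 : |(1 / 2 : ℝ) - -(1 / 2)| = 1 := by norm_num
  rwa [h4, mul_one] at h1

private theorem E97_mul (w : ℂ) : w * E97 w = Complex.exp (w / 2) - Complex.exp (-(w / 2)) := by
  unfold E97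
  rw [← intervalIntegral.integral_const_mul]
  have h1 : ∀ s ∈ uIcc (-(1 / 2 : ℝ)) (1 / 2), HasDerivAt (fun s : ℝ => Complex.exp (w * (s : ℂ)))
      (w * Complex.exp (w * (s : ℂ))) s := by
    intro s _
    have h2 : HasDerivAt (fun y : ℝ => w * (y : ℂ)) w s := by
      simpa using (Complex.ofRealCLM.hasDerivAt (x := s)).const_mul w
    have h3 := h2.cexp
    rwa [mul_comm] at h3
  rw [intervalIntegral.integral_eq_sub_of_hasDerivAt h1
    ((continuous_const.mul (E97_cont w)).intervalIntegrable _ _)]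
  congr 2
  · push_cast
    ring
  · push_cast
    ring

private theorem E97_norm2 (w : ℂ) : ‖w‖ * ‖E97 w‖ ≤ 2 * Real.exp (|w.re| / 2) := by
  rw [← norm_mul, E97_mul]
  refine (norm_sub_le _ _).trans ?_
  rw [Complex.norm_exp, Complex.norm_exp]
  have h1 : (w / 2).re = w.re / 2 := by simp
  have h2 : (-(w / 2)).re = -(w.re / 2) := by simp
  rw [h1, h2]
  have h3 : Real.exp (w.re / 2) ≤ Real.exp (|w.re| / 2) :=
    Real.exp_le_exp.2 (by linarith [le_abs_self w.re])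
  have h4 : Real.exp (-(w.re / 2)) ≤ Real.exp (|w.re| / 2) :=
    Real.exp_le_exp.2 (by linarith [neg_abs_le w.re])
  linarith

private theorem E97_sub (w : ℂ) (hw : ‖w‖ ≤ 1) : ‖E97 w - 1‖ ≤ ‖w‖ ^ 2 / 4 := by
  have h1 : E97 w - 1 = ∫ s in (-(1 / 2 : ℝ))..(1 / 2),
      (Complex.exp (w * (s : ℂ)) - 1 - w * (s : ℂ)) := by
    rw [intervalIntegral.integral_sub, intervalIntegral.integral_sub]
    · have h2 : (∫ s in (-(1 / 2 : ℝ))..(1 / 2), w * (s : ℂ)) = 0 := by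
        rw [intervalIntegral.integral_const_mul, intervalIntegral.integral_ofReal, integral_id]
        norm_num
      rw [h2, sub_zero, E97]
      congr 1
      rw [intervalIntegral.integral_const]
      norm_num
    · exact (E97_cont w).intervalIntegrable _ _
    · exact intervalIntegrable_const
    · exact ((E97_cont w).sub continuous_const).intervalIntegrable _ _
    · exact (continuous_const.mul Complex.continuous_ofReal).intervalIntegrable _ _
  rw [h1]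
  have h2 := intervalIntegral.norm_integral_le_of_norm_le_const (a := -(1 / 2 : ℝ)) (b := 1 / 2)
    (f := fun s : ℝ => (Complex.exp (w * (s : ℂ)) - 1 - w * (s : ℂ))) (C := ‖w‖ ^ 2 / 4)
    (fun s hs => by
      rw [uIoc_of_le (by norm_num), mem_Ioc] at hs
      have h3 : |s| ≤ 1 / 2 := abs_le.2 ⟨by linarith [hs.1], hs.2⟩
      have h4 : ‖w * (s : ℂ)‖ ≤ ‖w‖ / 2 := by
        rw [norm_mul, Complex.norm_real, Real.norm_eq_abs]
        have := mul_le_mul_of_nonneg_left h3 (norm_nonneg w)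
        linarith
      have h5 : ‖w * (s : ℂ)‖ ≤ 1 := h4.trans (by linarith)
      refine (Complex.norm_exp_sub_one_sub_id_le h5).trans ?_
      have h6 := pow_le_pow_left₀ (norm_nonneg _) h4 2
      have h7 : (‖w‖ / 2) ^ 2 = ‖w‖ ^ 2 / 4 := by ring
      rwa [h7] at h6)
  have h4 : |(1 / 2 : ℝ) - -(1 / 2)| = 1 := by norm_num
  rwa [h4, mul_one] at h2

private theorem pow97_sub (a : ℂ) (N : ℕ) : ‖a ^ N - 1‖ ≤ (1 + ‖a - 1‖) ^ N - 1 := by
  induction N with
  | zero => simp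
  | succ N ih =>
    have h1 : a ^ (N + 1) - 1 = a * (a ^ N - 1) + (a - 1) := by ring
    rw [h1]
    refine (norm_add_le _ _).trans ?_
    rw [norm_mul]
    have h2 : ‖a‖ ≤ 1 + ‖a - 1‖ := by
      have := norm_add_le (1 : ℂ) (a - 1)
      rwa [add_sub_cancel, norm_one] at this
    have h3 : ‖a‖ * ‖a ^ N - 1‖ ≤ (1 + ‖a - 1‖) * ((1 + ‖a - 1‖) ^ N - 1) :=
      mul_le_mul h2 ih (norm_nonneg _) (by positivity)
    rw [pow_succ]
    linarith

/-- The Laplace transform of the moving average. -/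
private theorem Lap97_ma {h : ℝ} (hh : 0 < h) {f : ℝ → ℝ} {a b : ℝ} (hf : Sm f a b) (z : ℂ) :
    Lap (ma97 h f) z = Lap f z * E97 ((h : ℂ) * z) := by
  have hc := hf.smooth.continuous
  have hE : E97 ((h : ℂ) * z) = (h : ℂ)⁻¹ * ∫ s in (-(h / 2))..(h / 2),
      Complex.exp (z * (s : ℂ)) := by
    unfold E97
    have h1 := intervalIntegral.integral_comp_mul_left (a := -(1 / 2 : ℝ)) (b := 1 / 2)
      (fun s : ℝ => Complex.exp (z * (s : ℂ))) hh.ne'
    have h2 : h * -(1 / 2) = -(h / 2) := by ring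
    have h3 : h * (1 / 2) = h / 2 := by ring
    rw [h2, h3] at h1
    rw [Complex.real_smul, Complex.ofReal_inv] at h1
    rw [← h1]
    refine intervalIntegral.integral_congr fun s _ => ?_
    congr 1
    push_cast
    ring
  have hle : -(h / 2) ≤ h / 2 := by linarith
  unfold Lap
  have h1 : ∀ x : ℝ, ((ma97 h f x : ℝ) : ℂ) * Complex.exp (z * (x : ℂ)) = (h : ℂ)⁻¹ *
      ∫ s in Ioc (-(h / 2)) (h / 2), ((f (x - s) : ℝ) : ℂ) * Complex.exp (z * (x : ℂ)) := by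
    intro x
    unfold ma97
    rw [← intervalIntegral.integral_of_le hle, intervalIntegral.integral_mul_const,
      intervalIntegral.integral_ofReal]
    push_cast
    ring
  simp_rw [h1]
  rw [integral_const_mul]
  rw [integral_integral_swap]
  · have h2 : ∀ s : ℝ, (∫ x : ℝ, ((f (x - s) : ℝ) : ℂ) * Complex.exp (z * (x : ℂ))) =
        Complex.exp (z * (s : ℂ)) * Lap f z := by
      intro s
      have h3 := Lap_shift f s z
      rw [mul_comm (s : ℂ) z] at h3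
      exact h3
    simp_rw [h2]
    rw [integral_mul_const, ← intervalIntegral.integral_of_le hle, hE]
    unfold Lap
    ring
  · have hcont : Continuous (fun p : ℝ × ℝ =>
        ((f (p.1 - p.2) : ℝ) : ℂ) * Complex.exp (z * (p.1 : ℂ))) := by
      have h4 : Continuous (fun p : ℝ × ℝ => f (p.1 - p.2)) :=
        hc.comp (continuous_fst.sub continuous_snd)
      have h5 : Continuous (fun p : ℝ × ℝ => ((f (p.1 - p.2) : ℝ) : ℂ)) :=
        Complex.continuous_ofReal.comp h4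
      refine h5.mul ?_
      have h6 : Continuous (fun p : ℝ × ℝ => (p.1 : ℂ)) :=
        Complex.continuous_ofReal.comp continuous_fst
      exact (continuous_const.mul h6).cexp
    have hint : IntegrableOn (fun p : ℝ × ℝ =>
        ((f (p.1 - p.2) : ℝ) : ℂ) * Complex.exp (z * (p.1 : ℂ)))
        (univ ×ˢ Ioc (-(h / 2)) (h / 2)) (volume.prod volume) := by
      have h7 : IntegrableOn (fun p : ℝ × ℝ =>
          ((f (p.1 - p.2) : ℝ) : ℂ) * Complex.exp (z * (p.1 : ℂ)))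
          (Icc (a - h / 2) (b + h / 2) ×ˢ Icc (-(h / 2)) (h / 2)) (volume.prod volume) :=
        hcont.continuousOn.integrableOn_compact (isCompact_Icc.prod isCompact_Icc)
      refine h7.of_forall_sdiff_eq_zero (MeasurableSet.univ.prod measurableSet_Ioc) ?_
      rintro ⟨x, s⟩ ⟨⟨-, hs⟩, hn⟩
      have hs' : s ∈ Ioc (-(h / 2)) (h / 2) := hs
      have h8 : x - s ∉ Icc a b := by
        intro h9
        refine hn ⟨?_, ⟨hs'.1.le, hs'.2⟩⟩
        exact ⟨by linarith [h9.1, hs'.1], by linarith [h9.2, hs'.2]⟩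
      change ((f (x - s) : ℝ) : ℂ) * _ = 0
      rw [hf.supp _ h8]
      simp
    have hμ : ((volume : Measure ℝ).prod (volume.restrict (Ioc (-(h / 2)) (h / 2)))) =
        (volume.prod volume).restrict (univ ×ˢ Ioc (-(h / 2)) (h / 2)) := by
      rw [← Measure.prod_restrict, Measure.restrict_univ]
    change Integrable (fun p : ℝ × ℝ =>
      ((f (p.1 - p.2) : ℝ) : ℂ) * Complex.exp (z * (p.1 : ℂ))) _
    rw [hμ]
    exact hint

private theorem ma97_Sm {h : ℝ} (hh : 0 < h) {f : ℝ → ℝ} {a b : ℝ} (hf : Sm f a b) :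
    Sm (ma97 h f) (a - h / 2) (b + h / 2) where
  smooth := ma97_smooth hf.smooth
  supp := ma97_supp hh hf.supp

private theorem iter97 {h : ℝ} (hh : 0 < h) {β : ℝ → ℝ} {r C : ℝ} (hβ : Sm β (-r) r)
    (h0 : ∀ x, 0 ≤ β x) (hC : ∀ x, β x ≤ C) (j : ℕ) :
    Sm ((ma97 h)^[j] β) (-r - j * (h / 2)) (r + j * (h / 2)) ∧
      (∀ x, 0 ≤ (ma97 h)^[j] β x) ∧ (∀ x, (ma97 h)^[j] β x ≤ C) ∧
      ∀ z, Lap ((ma97 h)^[j] β) z = Lap β z * E97 ((h : ℂ) * z) ^ j := by
  induction j with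
  | zero =>
    refine ⟨?_, h0, hC, fun z => ?_⟩
    · simpa using hβ
    · simp
  | succ j ih =>
    obtain ⟨i1, i2, i3, i4⟩ := ih
    rw [Function.iterate_succ_apply']
    refine ⟨?_, ma97_nonneg hh i2, ma97_le hh i1.smooth.continuous i3, fun z => ?_⟩
    · have h1 := ma97_Sm hh i1
      have e1 : -r - (j : ℝ) * (h / 2) - h / 2 = -r - ((j + 1 : ℕ) : ℝ) * (h / 2) := by
        push_cast
        ring
      have e2 : r + (j : ℝ) * (h / 2) + h / 2 = r + ((j + 1 : ℕ) : ℝ) * (h / 2) := by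
        push_cast
        ring
      rwa [e1, e2] at h1
    · rw [Lap97_ma hh i1, i4, pow_succ]
      ring

private theorem Lap97_zero (f : ℝ → ℝ) : Lap f 0 = ((∫ x, f x : ℝ) : ℂ) := by
  unfold Lap
  simp only [zero_mul, Complex.exp_zero, mul_one]
  exact integral_ofReal

private theorem E97_zero : E97 0 = 1 := by
  have h1 := E97_sub 0 (by simp)
  simp only [norm_zero] at h1
  have h2 : ‖E97 0 - 1‖ ≤ 0 := by
    refine h1.trans ?_
    norm_num
  exact sub_eq_zero.1 (norm_le_zero_iff.1 h2)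

private theorem Lap97_near {β : ℝ → ℝ} {r Z₀ : ℝ} (hβ : Sm β (-r) r)
    (h0 : ∀ x, 0 ≤ β x) (h1 : ∫ x, β x = 1) (hrZ : r * Z₀ ≤ 1 / 16) {z : ℂ} (hz : ‖z‖ ≤ Z₀) :
    ‖Lap β z - 1‖ ≤ 1 / 8 := by
  have hcs : HasCompactSupport β := hβ.hasCompactSupport
  have hc := hβ.smooth.continuous
  have hi : Integrable β := hc.integrable_of_hasCompactSupport hcs
  have hi1 : Integrable (fun α : ℝ => (β α : ℂ) * Complex.exp (z * (α : ℂ))) := by
    have hcc : Continuous (fun α : ℝ => (β α : ℂ) * Complex.exp (z * (α : ℂ))) := by fun_prop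
    refine hcc.integrable_of_hasCompactSupport ?_
    have h2 : HasCompactSupport (fun y : ℝ => (β y : ℂ)) :=
      hcs.comp_left (g := fun x : ℝ => (x : ℂ)) (by simp)
    exact h2.mul_right
  have h2 : Lap β z - 1 = ∫ α : ℝ, (β α : ℂ) * (Complex.exp (z * (α : ℂ)) - 1) := by
    have h3 : (1 : ℂ) = ∫ α : ℝ, (β α : ℂ) := by
      rw [integral_complex_ofReal, h1]
      simp
    unfold Lap
    conv_lhs => rw [h3]
    have hi' : Integrable (fun α : ℝ => (β α : ℂ)) := hi.ofReal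
    rw [← integral_sub hi1 hi']
    congr 1
    ext α
    ring
  rw [h2]
  have h3 : ‖∫ α : ℝ, (β α : ℂ) * (Complex.exp (z * (α : ℂ)) - 1)‖ ≤ ∫ α : ℝ, β α * (1 / 8) := by
    refine norm_integral_le_of_norm_le (hi.mul_const _) (Eventually.of_forall fun α => ?_)
    rw [norm_mul, Complex.norm_real, Real.norm_of_nonneg (h0 α)]
    by_cases hα : α ∈ Icc (-r) r
    · refine mul_le_mul_of_nonneg_left ?_ (h0 α)
      have h4 : ‖z * (α : ℂ)‖ ≤ 1 / 16 := by
        rw [norm_mul, Complex.norm_real, Real.norm_eq_abs]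
        have h5 : |α| ≤ r := abs_le.2 hα
        calc ‖z‖ * |α| ≤ Z₀ * r := mul_le_mul hz h5 (abs_nonneg _) ((norm_nonneg z).trans hz)
          _ ≤ 1 / 16 := by linarith
      refine (Complex.norm_exp_sub_one_le (h4.trans (by norm_num))).trans ?_
      linarith
    · rw [hβ.supp _ hα, zero_mul, zero_mul]
  rw [integral_mul_const, h1, one_mul] at h3
  exact h3

end x197

theorem exists_spline {Z₀ : ℝ} (hZ : 0 < Z₀) : ∃ (Cb : ℝ) (Ck : ℕ → ℝ) (N₀ : ℕ), 0 < Cb ∧ (∀ k : ℕ, 0 ≤ Ck k) ∧ 1 ≤ N₀ ∧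
    ∀ N : ℕ, N₀ ≤ N → ∃ η : ℝ → ℝ, Sm η (-1) 1 ∧ (∀ x : ℝ, 0 ≤ η x) ∧ (∀ x : ℝ, η x ≤ Cb) ∧ ∫ x, η x = 1 ∧
      (∀ (k : ℕ) (z : ℂ), ‖Lap η z‖ * (1 + |z.im|) ^ k ≤ Ck k * Real.exp |z.re|) ∧
      (∀ (k : ℕ) (z : ℂ), ‖Lap η z‖ * (1 + |z.im|) ^ k * |z.im| ^ N ≤ Ck k * Real.exp |z.re| * (2 * N) ^ N) ∧
      ∀ z : ℂ, ‖z‖ ≤ Z₀ → 1 / 2 ≤ (Lap η z).re := by
  set r : ℝ := min (1 / 4) (1 / (16 * Z₀)) with hr
  have hr0 : 0 < r := lt_min (by norm_num) (by positivity)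
  have hr4 : r ≤ 1 / 4 := min_le_left _ _
  have hrZ : r * Z₀ ≤ 1 / 16 := by
    have h1 : r ≤ 1 / (16 * Z₀) := min_le_right _ _
    calc r * Z₀ ≤ 1 / (16 * Z₀) * Z₀ := mul_le_mul_of_nonneg_right h1 hZ.le
      _ = 1 / 16 := by field_simp
  let bb : ContDiffBump (0 : ℝ) := ⟨r / 2, r, by positivity, by linarith⟩
  set β : ℝ → ℝ := bb.normed volume with hβd
  have hβs : Sm β (-r) r := by
    refine ⟨bb.contDiff_normed, fun x hx => ?_⟩
    have h1 : x ∉ Function.support (bb.normed volume) := by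
      rw [bb.support_normed_eq]
      intro h2
      rw [Metric.mem_ball, Real.dist_eq, sub_zero] at h2
      exact hx ⟨(abs_lt.1 h2).1.le, (abs_lt.1 h2).2.le⟩
    exact Function.notMem_support.1 h1
  have hβ0 : ∀ x, 0 ≤ β x := fun x => bb.nonneg_normed x
  have hβ1 : ∫ x, β x = 1 := bb.integral_normed
  have hβc := hβs.smooth.continuous
  have hβcs : HasCompactSupport β := hβs.hasCompactSupport
  obtain ⟨C, hC⟩ := hβcs.exists_bound_of_continuous hβc
  have hC' : ∀ x, β x ≤ |C| + 1 := fun x => by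
    have h1 := (Real.norm_eq_abs (β x) ▸ hC x)
    have h2 := (le_abs_self (β x)).trans h1
    have h3 := le_abs_self C
    linarith
  have hD : ∀ k : ℕ, ∃ D : ℝ, 0 ≤ D ∧ SmD β (-r) r k D := fun k => SmD_of_Sm hβs k
  choose D hD0 hD using hD
  have hdec : ∀ (k : ℕ) (z : ℂ), ‖Lap β z‖ * (1 + |z.im|) ^ k ≤
      2 ^ k * D k * Real.exp (r * |z.re|) := by
    intro k z
    refine (Lap_decay (hD k) z).trans ?_
    refine mul_le_mul_of_nonneg_left ?_ (by have := hD0 k; positivity)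
    rw [Real.exp_le_exp]
    refine max_le ?_ ?_
    · have h1 := neg_abs_le z.re
      nlinarith
    · exact mul_le_mul_of_nonneg_left (le_abs_self _) hr0.le
  refine ⟨|C| + 1, fun k => 2 ^ k * D k, ⌈4 * Z₀ ^ 2⌉₊ + ⌈Z₀⌉₊ + 1, by positivity,
    fun k => by have := hD0 k; positivity, by omega, fun N hN => ?_⟩
  have hN1 : 1 ≤ N := by omega
  have hNpos : (0 : ℝ) < N := by exact_mod_cast hN1
  have hNZ : Z₀ ≤ N := by
    have h1 := Nat.le_ceil Z₀
    have h2 : ((⌈Z₀⌉₊ : ℕ) : ℝ) ≤ N := by exact_mod_cast (by omega : ⌈Z₀⌉₊ ≤ N)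
    linarith
  have hNZ2 : 4 * Z₀ ^ 2 ≤ N := by
    have h1 := Nat.le_ceil (4 * Z₀ ^ 2)
    have h2 : ((⌈4 * Z₀ ^ 2⌉₊ : ℕ) : ℝ) ≤ N := by exact_mod_cast (by omega : ⌈4 * Z₀ ^ 2⌉₊ ≤ N)
    linarith
  have hh : (0 : ℝ) < 1 / N := by positivity
  obtain ⟨i1, i2, i3, i4⟩ := iter97 hh hβs hβ0 hC' N
  have hNh : (N : ℝ) * (1 / N / 2) = 1 / 2 := by field_simp
  rw [hNh] at i1
  set η : ℝ → ℝ := (ma97 (1 / N))^[N] β with hη
  have hcast : ((1 / (N : ℝ) : ℝ) : ℂ) = 1 / (N : ℂ) := by push_cast; rfl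
  have hEn : ∀ z : ℂ, ‖E97 (((1 / (N : ℝ) : ℝ) : ℂ) * z)‖ ^ N ≤ Real.exp (|z.re| / 2) := by
    intro z
    have h1 := E97_norm (((1 / (N : ℝ) : ℝ) : ℂ) * z)
    rw [Complex.re_ofReal_mul, abs_mul, abs_of_pos hh] at h1
    refine (pow_le_pow_left₀ (norm_nonneg _) h1 N).trans ?_
    rw [← Real.exp_nat_mul]
    refine (Real.exp_le_exp.2 (le_of_eq ?_))
    field_simp
  have hEv : ∀ z : ℂ, ‖E97 (((1 / (N : ℝ) : ℝ) : ℂ) * z)‖ ^ N * |z.im| ^ N ≤
      Real.exp (|z.re| / 2) * (2 * N) ^ N := by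
    intro z
    have h1 := E97_norm2 (((1 / (N : ℝ) : ℝ) : ℂ) * z)
    rw [Complex.re_ofReal_mul, abs_mul, abs_of_pos hh, norm_mul, Complex.norm_real,
      Real.norm_of_nonneg hh.le] at h1
    have h2 : |z.im| ≤ ‖z‖ := Complex.abs_im_le_norm z
    have h3 : ‖E97 (((1 / (N : ℝ) : ℝ) : ℂ) * z)‖ * |z.im| ≤
        2 * N * Real.exp (1 / N * |z.re| / 2) := by
      calc ‖E97 (((1 / (N : ℝ) : ℝ) : ℂ) * z)‖ * |z.im| ≤
            ‖E97 (((1 / (N : ℝ) : ℝ) : ℂ) * z)‖ * ‖z‖ :=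
            mul_le_mul_of_nonneg_left h2 (norm_nonneg _)
        _ = N * (1 / N * ‖z‖ * ‖E97 (((1 / (N : ℝ) : ℝ) : ℂ) * z)‖) := by field_simp
        _ ≤ N * (2 * Real.exp (1 / N * |z.re| / 2)) := mul_le_mul_of_nonneg_left h1 hNpos.le
        _ = _ := by ring
    rw [← mul_pow]
    refine (pow_le_pow_left₀ (by positivity) h3 N).trans ?_
    rw [mul_pow, ← Real.exp_nat_mul, mul_comm]
    refine mul_le_mul_of_nonneg_right (Real.exp_le_exp.2 (le_of_eq ?_)) (by positivity)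
    field_simp
  have hexp : ∀ x : ℝ, Real.exp (r * |x|) * Real.exp (|x| / 2) ≤ Real.exp |x| := by
    intro x
    rw [← Real.exp_add, Real.exp_le_exp]
    have := abs_nonneg x
    nlinarith
  refine ⟨η, ⟨i1.smooth, fun x hx => i1.supp x fun h1 => hx ?_⟩, i2, i3, ?_, ?_, ?_, ?_⟩
  · exact ⟨by linarith [h1.1], by linarith [h1.2]⟩
  · have h1 := i4 0
    rw [mul_zero, E97_zero, one_pow, mul_one, Lap97_zero, Lap97_zero, hβ1] at h1
    exact_mod_cast h1
  · intro k z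
    rw [i4, norm_mul, norm_pow]
    have h1 := hdec k z
    have h2 := hEn z
    have hDk := hD0 k
    calc ‖Lap β z‖ * ‖E97 (((1 / (N : ℝ) : ℝ) : ℂ) * z)‖ ^ N * (1 + |z.im|) ^ k
        = (‖Lap β z‖ * (1 + |z.im|) ^ k) * ‖E97 (((1 / (N : ℝ) : ℝ) : ℂ) * z)‖ ^ N := by ring
      _ ≤ (2 ^ k * D k * Real.exp (r * |z.re|)) * Real.exp (|z.re| / 2) :=
          mul_le_mul h1 h2 (by positivity) (by positivity)
      _ = 2 ^ k * D k * (Real.exp (r * |z.re|) * Real.exp (|z.re| / 2)) := by ring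
      _ ≤ 2 ^ k * D k * Real.exp |z.re| := mul_le_mul_of_nonneg_left (hexp _) (by positivity)
  · intro k z
    rw [i4, norm_mul, norm_pow]
    have h1 := hdec k z
    have h2 := hEv z
    have hDk := hD0 k
    calc ‖Lap β z‖ * ‖E97 (((1 / (N : ℝ) : ℝ) : ℂ) * z)‖ ^ N * (1 + |z.im|) ^ k * |z.im| ^ N
        = (‖Lap β z‖ * (1 + |z.im|) ^ k) *
          (‖E97 (((1 / (N : ℝ) : ℝ) : ℂ) * z)‖ ^ N * |z.im| ^ N) := by ring
      _ ≤ (2 ^ k * D k * Real.exp (r * |z.re|)) * (Real.exp (|z.re| / 2) * (2 * N) ^ N) :=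
          mul_le_mul h1 h2 (by positivity) (by positivity)
      _ = 2 ^ k * D k * (Real.exp (r * |z.re|) * Real.exp (|z.re| / 2)) * (2 * N) ^ N := by ring
      _ ≤ 2 ^ k * D k * Real.exp |z.re| * (2 * N) ^ N :=
          mul_le_mul_of_nonneg_right (mul_le_mul_of_nonneg_left (hexp _) (by positivity))
            (by positivity)
  · intro z hz
    rw [i4]
    have h1 := Lap97_near hβs hβ0 hβ1 hrZ hz
    set w : ℂ := ((1 / (N : ℝ) : ℝ) : ℂ) * z with hw
    have hwn : ‖w‖ ≤ Z₀ / N := by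
      rw [hw, norm_mul, Complex.norm_real, Real.norm_of_nonneg hh.le, one_div, inv_mul_eq_div]
      exact div_le_div_of_nonneg_right hz hNpos.le
    have hw1 : ‖w‖ ≤ 1 := hwn.trans ((div_le_one hNpos).2 hNZ)
    have h2 := E97_sub w hw1
    have h3 := pow97_sub (E97 w) N
    have h4 : (1 + ‖E97 w - 1‖) ^ N ≤ Real.exp (N * ‖E97 w - 1‖) := by
      rw [Real.exp_nat_mul]
      refine pow_le_pow_left₀ (by positivity) ?_ N
      have := Real.add_one_le_exp ‖E97 w - 1‖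
      linarith
    have h5 : (N : ℝ) * ‖E97 w - 1‖ ≤ 1 / 16 := by
      have h6 : ‖w‖ ^ 2 ≤ (Z₀ / N) ^ 2 := pow_le_pow_left₀ (norm_nonneg _) hwn 2
      calc (N : ℝ) * ‖E97 w - 1‖ ≤ N * ((Z₀ / N) ^ 2 / 4) :=
            mul_le_mul_of_nonneg_left (h2.trans (by linarith)) hNpos.le
        _ = Z₀ ^ 2 / (4 * N) := by field_simp
        _ ≤ 1 / 16 := by
            rw [div_le_iff₀ (by positivity)]
            linarith
    have h6 : Real.exp (N * ‖E97 w - 1‖) - 1 ≤ 1 / 8 := by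
      have h7 : Real.exp (N * ‖E97 w - 1‖) ≤ Real.exp (1 / 16) := Real.exp_le_exp.2 h5
      have h8 := Real.abs_exp_sub_one_le (x := 1 / 16) (by norm_num)
      have h9 := le_abs_self (Real.exp (1 / 16) - 1)
      have h10 : |(1 / 16 : ℝ)| = 1 / 16 := by norm_num
      rw [h10] at h8
      linarith
    have h7 : ‖E97 w ^ N - 1‖ ≤ 1 / 8 := by linarith
    have h8 : Lap β z * E97 w ^ N = 1 + ((Lap β z - 1) + (E97 w ^ N - 1) +
        (Lap β z - 1) * (E97 w ^ N - 1)) := by ring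
    rw [h8, Complex.add_re, Complex.one_re]
    have h9 : ‖(Lap β z - 1) + (E97 w ^ N - 1) + (Lap β z - 1) * (E97 w ^ N - 1)‖ ≤ 1 / 2 := by
      refine (norm_add_le _ _).trans ?_
      have h10 := norm_add_le (Lap β z - 1) (E97 w ^ N - 1)
      have h11 : ‖(Lap β z - 1) * (E97 w ^ N - 1)‖ ≤ 1 / 8 * (1 / 8) := by
        rw [norm_mul]
        exact mul_le_mul h1 h7 (norm_nonneg _) (by norm_num)
      linarith
    have h10 := (abs_le.1 ((Complex.abs_re_le_norm _).trans h9)).1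
    linarith

end Pool.Agent.Helper69.GMU
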