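import Pool.Agent.Helper69.GMU.TC

/-!
# GMU block X3: detecting a pole (deterministic lemma)

`x_j = Re z_j`, `c₀ = 2R + i Im z_{j₁}`, `N` = indices in `S` with `‖z_j - c₀‖ ≤ 4R` (contains `j₁`), `n = #N ≤ n₀`, `P(w) = ∏_{i∈N}(w - z_i)`,
`H(w) = -∑_{j∈N} c_j e^(A(z_j-w)) ∏_{i∈N, i≠j}(w - z_i) + P(w) ∑_{j∉N} c_j e^(A(z_j-w))/(z_j-w)`; `H = P·Y` off the `z_j`, with
`Y(w) = ∑_j c_j e^(A(z_j-w))/(z_j-w)`. `H` is holomorphic on `ball c₀ (4R)`.
(a) `Q(w) = ∫_2^A (∑_j c_j e^(αz_j)) e^(-wα) dα = ∑_j c_j ∫_2^A e^(α(z_j-w)) dα`, and `∫_2^A e^(αζ) dα = (e^(Aζ)-e^(2ζ))/ζ` for `ζ ≠ 0`. So for all `w` in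
`closedBall c₀ (2R-2b)` (`Re w ≥ 2b ≥ b`): `H(w) = P(w)Q(w) - ∑_{j∈N} c_j e^(2(z_j-w)) ∏_{i≠j}(w-z_i) + P(w) ∑_{j∉N} c_j e^(2(z_j-w))/(z_j-w)`
(also at `w = z_j`, where both sides of the `j`-th identity vanish). There `‖w - z_i‖ ≤ 6R ≤ 8R` for `i ∈ N`, `‖z_j - w‖ ≥ 2R ≥ 1` for `j ∉ N`, `8R ≥ 1`,
`‖e^(2(z_j-w))‖ ≤ e^(2 max x_j 0)`, so `‖H‖ ≤ (8R)^n (S₂ + M)`.
(b) on `closedBall c₀ R` (`Re w ≥ R`): `‖H‖ ≤ (8R)^n ∑ ‖c_j‖ e^(A(x_j-R)) ≤ (8R)^n δ`.
(c) `two_const` with `r₁ = R`, `r₂ = 2R-6b`, `r₃ = 2R-2b`, `θ = b/R`, constants `(8R)^n (1+S₂+M)` and `(8R)^n δ`: `r₂/r₃ ≤ 1 - 2b/R`, `r₂/r₁ ≤ 2`, so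
`q ≤ e^(-(3/4)(2b/R) + 0.7 b/R) ≤ e^(-0.8b/R)`, `1/(1-q) ≤ 7R/b`: `‖H‖ ≤ (8R)^n (1+S₂+M) δ^(b/R) 7R/b` on `closedBall c₀ (2R-6b)`.
(d) choose `s ∈ [b,2b]` with `|s - ‖z_j - z_{j₁}‖| ≥ b/(4n)` for all `j ∈ N` (the excluded set has measure `≤ n·b/(2n) = b/2`; pigeonhole). On the circle
`‖w - z_{j₁}‖ = s`: `‖w-c₀‖ ≤ 2R - x_{j₁} + s ≤ 2R-6b` and `‖P(w)‖ ≥ (b/4n)^n`, so `‖Y‖ ≤ (4n/b)^n ‖H‖`.
(e) `∮ Y = -2πi ∑_{‖z_j - z_{j₁}‖ < s} c_j` (Cauchy integral formula for `e^(A(z_j-w))` at `z_j`; terms with `z_j` outside the closed disc give `0`), and the real part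
of the sum is `≥ 1/2` (`H7`; it contains `j₁`). So `π ≤ 2π s sup‖Y‖`, `s ≤ 2b`. Finally `(32nR/b)^n ≤ (32 n₀ R/b)^n₀` (`n ≥ 1`, base `≥ 1`).
-/

open Complex Set MeasureTheory Filter Topology
open scoped ContDiff

namespace Pool.Agent.Helper69.GMU

section X3

variable {ι : Type*} [DecidableEq ι]

/-- product times partial fractions, with the near poles cancelled -/
private noncomputable def X3H (S N : Finset ι) (z c : ι → ℂ) (a : ℝ) (w : ℂ) : ℂ :=
  -(∑ j ∈ N, c j * Complex.exp ((a : ℂ) * (z j - w)) * ∏ i ∈ N.erase j, (w - z i)) +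
    (∏ i ∈ N, (w - z i)) * ∑ j ∈ S \ N, c j * Complex.exp ((a : ℂ) * (z j - w)) / (z j - w)

private lemma X3H_eq {S N : Finset ι} (hN : N ⊆ S) (z c : ι → ℂ) (a : ℝ) {w : ℂ} (hw : ∀ j ∈ N, w ≠ z j) :
    X3H S N z c a w =
      (∏ i ∈ N, (w - z i)) * ∑ j ∈ S, c j * Complex.exp ((a : ℂ) * (z j - w)) / (z j - w) := by
  unfold X3H
  rw [← Finset.sum_sdiff hN, mul_add, add_comm]
  congr 1
  rw [← Finset.sum_neg_distrib, Finset.mul_sum]
  refine Finset.sum_congr rfl fun j hj => ?_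
  have h1 : z j - w ≠ 0 := sub_ne_zero.mpr (hw j hj).symm
  rw [← Finset.mul_prod_erase N _ hj]
  field_simp
  ring

private lemma X3H_diff {S N : Finset ι} (z c : ι → ℂ) (a : ℝ) {w : ℂ} (hw : ∀ j ∈ S \ N, z j ≠ w) :
    DifferentiableAt ℂ (X3H S N z c a) w := by
  have hp : ∀ M : Finset ι, DifferentiableAt ℂ (fun w : ℂ => ∏ i ∈ M, (w - z i)) w := by
    intro M
    apply DifferentiableAt.fun_finsetProd
    intro i _
    fun_prop
  unfold X3H
  apply DifferentiableAt.add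
  · apply DifferentiableAt.neg
    apply DifferentiableAt.fun_sum
    intro j _
    apply DifferentiableAt.mul _ (hp _)
    fun_prop
  · apply DifferentiableAt.mul (hp _)
    apply DifferentiableAt.fun_sum
    intro j hj
    apply DifferentiableAt.div
    · fun_prop
    · fun_prop
    · exact sub_ne_zero.mpr (hw j hj)

private lemma X3_int {A : ℝ} {ζ : ℂ} (hζ : ζ ≠ 0) :
    ∫ α in (2:ℝ)..A, Complex.exp ((α : ℂ) * ζ) =
      (Complex.exp ((A : ℂ) * ζ) - Complex.exp (((2 : ℝ) : ℂ) * ζ)) / ζ := by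
  have h := integral_exp_mul_complex (a := 2) (b := A) hζ
  have e : (fun α : ℝ => Complex.exp ((α : ℂ) * ζ)) = fun α : ℝ => Complex.exp (ζ * (α : ℂ)) := by
    funext α
    rw [mul_comm]
  rw [e, h, mul_comm ζ (A : ℂ), mul_comm ζ ((2 : ℝ) : ℂ)]

private lemma X3_Q (S : Finset ι) (z c : ι → ℂ) (A : ℝ) (w : ℂ) :
    ∫ α in (2:ℝ)..A, (∑ j ∈ S, c j * Complex.exp ((α : ℂ) * z j)) * Complex.exp (-(w * (α : ℂ))) =
      ∑ j ∈ S, c j * ∫ α in (2:ℝ)..A, Complex.exp ((α : ℂ) * (z j - w)) := by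
  have e : (fun α : ℝ => (∑ j ∈ S, c j * Complex.exp ((α : ℂ) * z j)) * Complex.exp (-(w * (α : ℂ)))) =
      fun α : ℝ => ∑ j ∈ S, c j * Complex.exp ((α : ℂ) * (z j - w)) := by
    funext α
    rw [Finset.sum_mul]
    refine Finset.sum_congr rfl fun j _ => ?_
    rw [mul_assoc, ← Complex.exp_add]
    congr 2
    ring
  rw [e, intervalIntegral.integral_finsetSum]
  · refine Finset.sum_congr rfl fun j _ => ?_
    rw [intervalIntegral.integral_const_mul]
  · intro j _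
    apply Continuous.intervalIntegrable
    fun_prop

private lemma X3_sub {S N : Finset ι} (hN : N ⊆ S) (z c : ι → ℂ) (A : ℝ) {w : ℂ} (hw : ∀ j ∈ S \ N, z j ≠ w) :
    (∏ i ∈ N, (w - z i)) * (∫ α in (2:ℝ)..A, (∑ j ∈ S, c j * Complex.exp ((α : ℂ) * z j)) *
      Complex.exp (-(w * (α : ℂ)))) = X3H S N z c A w - X3H S N z c 2 w := by
  rw [X3_Q, ← Finset.sum_sdiff hN, mul_add]
  unfold X3H
  have h1 : (∏ i ∈ N, (w - z i)) * ∑ j ∈ S \ N, c j * ∫ α in (2:ℝ)..A, Complex.exp ((α : ℂ) * (z j - w)) =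
      (∏ i ∈ N, (w - z i)) * ∑ j ∈ S \ N, c j * Complex.exp ((A : ℂ) * (z j - w)) / (z j - w) -
      (∏ i ∈ N, (w - z i)) * ∑ j ∈ S \ N, c j * Complex.exp (((2:ℝ) : ℂ) * (z j - w)) / (z j - w) := by
    rw [← mul_sub, ← Finset.sum_sub_distrib]
    congr 1
    refine Finset.sum_congr rfl fun j hj => ?_
    rw [X3_int (sub_ne_zero.mpr (hw j hj))]
    ring
  have h2 : (∏ i ∈ N, (w - z i)) * ∑ j ∈ N, c j * ∫ α in (2:ℝ)..A, Complex.exp ((α : ℂ) * (z j - w)) =
      -(∑ j ∈ N, c j * Complex.exp ((A : ℂ) * (z j - w)) * ∏ i ∈ N.erase j, (w - z i)) -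
      -(∑ j ∈ N, c j * Complex.exp (((2:ℝ) : ℂ) * (z j - w)) * ∏ i ∈ N.erase j, (w - z i)) := by
    rw [← Finset.sum_neg_distrib, ← Finset.sum_neg_distrib, ← Finset.sum_sub_distrib, Finset.mul_sum]
    refine Finset.sum_congr rfl fun j hj => ?_
    rw [← Finset.mul_prod_erase N _ hj]
    by_cases hz : z j - w = 0
    · have hz' : w - z j = 0 := by rw [← neg_sub, hz, neg_zero]
      rw [hz, hz']
      simp
    · rw [X3_int hz]
      have hz' : w - z j = -(z j - w) := by ring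
      rw [hz']
      field_simp
      ring
  rw [h1, h2]
  ring

private lemma X3_prod_le {M : Finset ι} {z : ι → ℂ} {D : ℝ} {w : ℂ} (h : ∀ i ∈ M, ‖w - z i‖ ≤ D) :
    ‖∏ i ∈ M, (w - z i)‖ ≤ D ^ M.card := by
  rw [norm_prod]
  calc ∏ i ∈ M, ‖w - z i‖ ≤ ∏ i ∈ M, D := Finset.prod_le_prod (fun i _ => norm_nonneg _) h
    _ = D ^ M.card := by rw [Finset.prod_const]

private lemma X3H_bound {S N : Finset ι} (hN : N ⊆ S) (z c : ι → ℂ) (a : ℝ) {w : ℂ} {D : ℝ} (hD : 1 ≤ D)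
    (h1 : ∀ i ∈ N, ‖w - z i‖ ≤ D) (h2 : ∀ j ∈ S \ N, 1 ≤ ‖z j - w‖) :
    ‖X3H S N z c a w‖ ≤ D ^ N.card * ∑ j ∈ S, ‖c j‖ * Real.exp (a * ((z j).re - w.re)) := by
  have he : ∀ j, ‖Complex.exp ((a : ℂ) * (z j - w))‖ = Real.exp (a * ((z j).re - w.re)) := by
    intro j
    rw [Complex.norm_exp]
    congr 1
    simp
  unfold X3H
  rw [← Finset.sum_sdiff hN, mul_add, add_comm]
  refine (norm_add_le _ _).trans (add_le_add ?_ ?_)
  · rw [norm_mul]
    apply mul_le_mul (X3_prod_le h1) _ (norm_nonneg _) (by positivity)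
    refine (norm_sum_le _ _).trans (Finset.sum_le_sum fun j hj => ?_)
    rw [norm_div, norm_mul, he]
    apply div_le_self (by positivity) (h2 j hj)
  · rw [norm_neg, Finset.mul_sum]
    refine (norm_sum_le _ _).trans (Finset.sum_le_sum fun j hj => ?_)
    rw [norm_mul, norm_mul, he, mul_comm]
    apply mul_le_mul_of_nonneg_right _ (by positivity)
    refine (X3_prod_le (fun i hi => h1 i (Finset.mem_of_mem_erase hi))).trans ?_
    exact pow_le_pow_right₀ hD (Finset.card_le_card (Finset.erase_subset _ _))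

/-- the contour integral -/
private lemma X3_contour (S : Finset ι) (z c : ι → ℂ) (A : ℝ) {p : ℂ} {s : ℝ} (hs : 0 < s)
    (hne : ∀ j ∈ S, ‖z j - p‖ ≠ s) :
    (∮ w in C(p, s), ∑ j ∈ S, c j * Complex.exp ((A : ℂ) * (z j - w)) / (z j - w)) =
      -(2 * Real.pi * I * ∑ j ∈ S.filter (fun j => ‖z j - p‖ < s), c j) := by
  have hcont : ∀ j ∈ S, ContinuousOn (fun w : ℂ => c j * Complex.exp ((A : ℂ) * (z j - w)) / (z j - w))
      (Metric.sphere p s) := by
    intro j hj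
    apply ContinuousOn.div
    · fun_prop
    · fun_prop
    · intro w hw h0
      apply hne j hj
      have : z j = w := sub_eq_zero.mp h0
      rw [this, ← dist_eq_norm]
      exact hw
  have h1 : (∮ w in C(p, s), ∑ j ∈ S, c j * Complex.exp ((A : ℂ) * (z j - w)) / (z j - w)) =
      ∑ j ∈ S, ∮ w in C(p, s), c j * Complex.exp ((A : ℂ) * (z j - w)) / (z j - w) := by
    unfold circleIntegral
    rw [← intervalIntegral.integral_finsetSum]
    · congr 1
      funext θ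
      rw [Finset.smul_sum]
    · intro j hj
      exact ((hcont j hj).circleIntegrable hs.le).out
  rw [h1, Finset.sum_filter, Finset.mul_sum, ← Finset.sum_neg_distrib]
  refine Finset.sum_congr rfl fun j hj => ?_
  split_ifs with hlt
  · have h2 := Complex.circleIntegral_sub_inv_smul_of_differentiable_on_off_countable (c := p) (R := s) (w := z j)
      (f := fun w => c j * Complex.exp ((A : ℂ) * (z j - w))) (s := ∅) Set.countable_empty
      (by rw [Metric.mem_ball, dist_eq_norm]; exact hlt) (by fun_prop) (fun w _ => by fun_prop)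
    simp only [sub_self, mul_zero, Complex.exp_zero, mul_one, smul_eq_mul] at h2
    rw [← h2, ← neg_one_mul, ← smul_eq_mul (-1 : ℂ), ← circleIntegral.integral_smul]
    apply circleIntegral.integral_congr hs.le
    intro w hw
    simp only [smul_eq_mul]
    have : z j - w ≠ 0 := by
      intro h0
      apply hne j hj
      have : z j = w := sub_eq_zero.mp h0
      rw [this, ← dist_eq_norm]
      exact hw
    have h3 : w - z j ≠ 0 := by
      intro h0
      apply this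
      rw [← neg_sub, h0, neg_zero]
    field_simp
    ring
  · rw [mul_zero, neg_zero]
    have hgt : s < ‖z j - p‖ := lt_of_le_of_ne (not_lt.mp hlt) (Ne.symm (hne j hj))
    have hnz : ∀ w ∈ Metric.closedBall p s, z j - w ≠ 0 := by
      intro w hw h0
      have : z j = w := sub_eq_zero.mp h0
      rw [Metric.mem_closedBall, dist_eq_norm, ← this] at hw
      linarith
    apply Complex.circleIntegral_eq_zero_of_differentiable_on_off_countable hs.le Set.countable_empty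
    · apply ContinuousOn.div
      · fun_prop
      · fun_prop
      · exact hnz
    · intro w hw
      apply DifferentiableAt.div
      · fun_prop
      · fun_prop
      · exact hnz w (Metric.ball_subset_closedBall hw.1)

/-- choice of a radius -/
private lemma X3_radius (N : Finset ι) (d : ι → ℝ) {b : ℝ} (hb : 0 < b) (hN : 0 < N.card) :
    ∃ s : ℝ, b ≤ s ∧ s ≤ 2 * b ∧ ∀ j ∈ N, b / (4 * N.card) ≤ |s - d j| := by
  by_contra hcon
  push_neg at hcon
  have hn : (0:ℝ) < N.card := by exact_mod_cast hN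
  have hsub : Icc b (2 * b) ⊆ ⋃ j ∈ N, Metric.ball (d j) (b / (4 * N.card)) := by
    intro s hs
    obtain ⟨j, hj, hlt⟩ := hcon s hs.1 hs.2
    rw [mem_iUnion₂]
    refine ⟨j, hj, ?_⟩
    rw [Metric.mem_ball, Real.dist_eq]
    exact hlt
  have h1 := (measure_mono (μ := volume) hsub).trans (measure_biUnion_finset_le N _)
  rw [Real.volume_Icc] at h1
  simp only [Real.volume_ball, Finset.sum_const, nsmul_eq_mul] at h1
  have h2 : ((N.card : ℕ) : ENNReal) = ENNReal.ofReal (N.card : ℝ) := by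
    rw [ENNReal.ofReal_natCast]
  rw [h2, ← ENNReal.ofReal_mul hn.le, ENNReal.ofReal_le_ofReal_iff (by positivity)] at h1
  have h3 : (N.card : ℝ) * (2 * (b / (4 * N.card))) = b / 2 := by
    field_simp
    ring
  rw [h3] at h1
  linarith

/-- the numerical estimate for the two-constants exponent -/
private lemma X3_q {b R : ℝ} (hb : 0 < b) (hb1 : b ≤ 1 / 4) (hR : 1 ≤ R) :
    ((2 * R - 6 * b) / (2 * R - 2 * b)) ^ (1 - b / R) * ((2 * R - 6 * b) / R) ^ (b / R) ≤
      Real.exp (-(4 / 5 * (b / R))) := by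
  have hR0 : 0 < R := by linarith
  have hr2 : 0 < 2 * R - 6 * b := by linarith
  have hr3 : 0 < 2 * R - 2 * b := by linarith
  have hθ : 0 < b / R := by positivity
  have hθ1 : b / R ≤ 1 / 4 := by
    rw [div_le_iff₀ hR0]
    linarith
  have h1 : (2 * R - 6 * b) / (2 * R - 2 * b) ≤ Real.exp (-(2 * (b / R))) := by
    refine le_trans ?_ (Real.one_sub_le_exp_neg _)
    rw [div_le_iff₀ hr3]
    have e : (1 - 2 * (b / R)) * (2 * R - 2 * b) = 2 * R - 6 * b + 4 * b * (b / R) := by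
      field_simp
      ring
    rw [e]
    have : 0 ≤ 4 * b * (b / R) := by positivity
    linarith
  have h2 : (2 * R - 6 * b) / R ≤ Real.exp (7 / 10) := by
    have h3 : (2 * R - 6 * b) / R ≤ 2 := by
      rw [div_le_iff₀ hR0]
      linarith
    refine h3.trans ?_
    rw [← Real.log_le_iff_le_exp (by norm_num)]
    linarith [Real.log_two_lt_d9]
  have h4 : ((2 * R - 6 * b) / (2 * R - 2 * b)) ^ (1 - b / R) ≤ Real.exp (-(2 * (b / R)) * (1 - b / R)) := by
    rw [Real.exp_mul]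
    exact Real.rpow_le_rpow (by positivity) h1 (by linarith)
  have h5 : ((2 * R - 6 * b) / R) ^ (b / R) ≤ Real.exp (7 / 10 * (b / R)) := by
    rw [Real.exp_mul]
    exact Real.rpow_le_rpow (by positivity) h2 hθ.le
  calc _ ≤ Real.exp (-(2 * (b / R)) * (1 - b / R)) * Real.exp (7 / 10 * (b / R)) :=
        mul_le_mul h4 h5 (by positivity) (Real.exp_pos _).le
    _ = Real.exp (-(2 * (b / R)) * (1 - b / R) + 7 / 10 * (b / R)) := by rw [Real.exp_add]
    _ ≤ _ := by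
      apply Real.exp_le_exp.mpr
      nlinarith

private lemma X3_inv {y : ℝ} (hy : 0 < y) (hy1 : y ≤ 1 / 4) : 1 / (1 - Real.exp (-(4 / 5 * y))) ≤ 7 / y := by
  have h1 : 1 + 4 / 5 * y ≤ Real.exp (4 / 5 * y) := by
    linarith [Real.add_one_le_exp (4 / 5 * y)]
  have h2 : Real.exp (-(4 / 5 * y)) ≤ 1 / (1 + 4 / 5 * y) := by
    rw [Real.exp_neg, inv_eq_one_div]
    exact one_div_le_one_div_of_le (by positivity) h1
  have h3 : y / 7 ≤ 1 - Real.exp (-(4 / 5 * y)) := by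
    have h4 : 1 / (1 + 4 / 5 * y) ≤ 1 - y / 7 := by
      rw [div_le_iff₀ (by positivity)]
      nlinarith
    linarith
  have h5 : 1 / (1 - Real.exp (-(4 / 5 * y))) ≤ 1 / (y / 7) :=
    one_div_le_one_div_of_le (by positivity) h3
  refine h5.trans (le_of_eq ?_)
  rw [one_div_div]

end X3

theorem detect {ι : Type*} [DecidableEq ι] (S : Finset ι) (z c : ι → ℂ) {A R b M S₂ δ : ℝ} {n₀ : ℕ} {j₁ : ι}
    (hj : j₁ ∈ S) (hA : 2 ≤ A) (hb : 0 < b) (hb1 : b ≤ 1 / 4) (hR : 1 ≤ R) (hM : 0 ≤ M)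
    (hx1 : 8 * b ≤ (z j₁).re) (hx1R : (z j₁).re ≤ R)
    (H1 : ∀ w : ℂ, b ≤ w.re → ‖∫ α in (2:ℝ)..A, (∑ j ∈ S, c j * Complex.exp ((α : ℂ) * z j)) *
      Complex.exp (-(w * (α : ℂ)))‖ ≤ M)
    (H2 : ∑ j ∈ S, ‖c j‖ * Real.exp (2 * max (z j).re 0) ≤ S₂)
    (H3 : ∑ j ∈ S, ‖c j‖ * Real.exp (A * ((z j).re - R)) ≤ δ) (hδ0 : 0 < δ) (hδ1 : δ ≤ 1)
    (H5 : (S.filter (fun j => ‖z j - ((2 * R : ℝ) + ((z j₁).im : ℂ) * I)‖ ≤ 4 * R)).card ≤ n₀)
    (H7 : ∀ j ∈ S, ‖z j - z j₁‖ ≤ 2 * b → 1 / 2 ≤ (c j).re) :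
    1 ≤ 28 * R * (32 * n₀ * R / b) ^ n₀ * (1 + S₂ + M) * δ ^ (b / R) := by
  classical
  have hR0 : 0 < R := by linarith
  set c₀ : ℂ := ((2 * R : ℝ) : ℂ) + ((z j₁).im : ℂ) * I with hc₀
  have hc₀re : c₀.re = 2 * R := by simp [hc₀]
  have hc₀im : c₀.im = (z j₁).im := by simp [hc₀]
  set N : Finset ι := S.filter (fun j => ‖z j - c₀‖ ≤ 4 * R) with hNdef
  have hNS : N ⊆ S := Finset.filter_subset _ _
  have hN1 : ∀ j ∈ N, ‖z j - c₀‖ ≤ 4 * R := fun j hj => (Finset.mem_filter.mp hj).2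
  have hN2 : ∀ j ∈ S \ N, 4 * R < ‖z j - c₀‖ := by
    intro j hj
    rw [Finset.mem_sdiff] at hj
    by_contra hcon
    exact hj.2 (Finset.mem_filter.mpr ⟨hj.1, not_lt.mp hcon⟩)
  have hz1 : ‖z j₁ - c₀‖ = 2 * R - (z j₁).re := by
    have e : z j₁ - c₀ = (((z j₁).re - 2 * R : ℝ) : ℂ) := by
      apply Complex.ext
      · simp [hc₀re]
      · simp [hc₀im]
    rw [e, Complex.norm_real, Real.norm_eq_abs, abs_of_neg (by linarith)]
    ring
  have hj1N : j₁ ∈ N := Finset.mem_filter.mpr ⟨hj, by rw [hz1]; linarith⟩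
  have hn : 0 < N.card := Finset.card_pos.mpr ⟨j₁, hj1N⟩
  have hnR : (1:ℝ) ≤ N.card := by exact_mod_cast hn
  have hre : ∀ {w : ℂ} {r : ℝ}, w ∈ Metric.closedBall c₀ r → 2 * R - r ≤ w.re := by
    intro w r hw
    rw [Metric.mem_closedBall, dist_eq_norm] at hw
    have h1 := (Complex.abs_re_le_norm (w - c₀)).trans hw
    rw [Complex.sub_re, hc₀re] at h1
    have := (abs_le.mp h1).1
    linarith
  have hball : ∀ {w : ℂ} {r : ℝ}, r ≤ 2 * R → w ∈ Metric.closedBall c₀ r →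
      (∀ i ∈ N, ‖w - z i‖ ≤ 8 * R) ∧ (∀ j ∈ S \ N, 1 ≤ ‖z j - w‖) := by
    intro w r hr hw
    rw [Metric.mem_closedBall, dist_eq_norm] at hw
    constructor
    · intro i hi
      have h1 := hN1 i hi
      have h2 : w - z i = (w - c₀) - (z i - c₀) := by ring
      rw [h2]
      refine (norm_sub_le _ _).trans ?_
      linarith
    · intro j hj
      have h1 := hN2 j hj
      have h2 : z j - c₀ = (z j - w) + (w - c₀) := by ring
      rw [h2] at h1
      have h3 := norm_add_le (z j - w) (w - c₀)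
      linarith
  have hS2 : 0 ≤ S₂ := le_trans (Finset.sum_nonneg fun j _ => by positivity) H2
  -- (a)
  have hHa : ∀ w ∈ Metric.closedBall c₀ (2 * R - 2 * b), ‖X3H S N z c A w‖ ≤ (8 * R) ^ N.card * (1 + S₂ + M) := by
    intro w hw
    have hb2 := hball (by linarith) hw
    have hwre := hre hw
    have hne : ∀ j ∈ S \ N, z j ≠ w := by
      intro j hj h0
      have := hb2.2 j hj
      rw [h0, sub_self, norm_zero] at this
      linarith
    have h1 := X3_sub hNS z c A hne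
    have h2 : X3H S N z c A w = (∏ i ∈ N, (w - z i)) * (∫ α in (2:ℝ)..A, (∑ j ∈ S, c j * Complex.exp ((α : ℂ) * z j)) *
      Complex.exp (-(w * (α : ℂ)))) + X3H S N z c 2 w := by
      rw [h1]
      ring
    rw [h2]
    refine (norm_add_le _ _).trans ?_
    have h3 : ‖(∏ i ∈ N, (w - z i)) * (∫ α in (2:ℝ)..A, (∑ j ∈ S, c j * Complex.exp ((α : ℂ) * z j)) *
      Complex.exp (-(w * (α : ℂ))))‖ ≤ (8 * R) ^ N.card * M := by
      rw [norm_mul]
      exact mul_le_mul (X3_prod_le hb2.1) (H1 w (by linarith)) (norm_nonneg _) (by positivity)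
    have h4 : ‖X3H S N z c 2 w‖ ≤ (8 * R) ^ N.card * S₂ := by
      refine (X3H_bound hNS z c 2 (by linarith) hb2.1 hb2.2).trans ?_
      apply mul_le_mul_of_nonneg_left _ (by positivity)
      refine le_trans (Finset.sum_le_sum fun j _ => ?_) H2
      apply mul_le_mul_of_nonneg_left _ (norm_nonneg _)
      apply Real.exp_le_exp.mpr
      have : (z j).re ≤ max (z j).re 0 := le_max_left _ _
      nlinarith
    have h5 : 0 ≤ (8 * R) ^ N.card := by positivity
    nlinarith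
  -- (b)
  have hHb : ∀ w ∈ Metric.closedBall c₀ R, ‖X3H S N z c A w‖ ≤ (8 * R) ^ N.card * δ := by
    intro w hw
    have hb2 := hball (by linarith) hw
    have hwre := hre hw
    refine (X3H_bound hNS z c A (by linarith) hb2.1 hb2.2).trans ?_
    apply mul_le_mul_of_nonneg_left _ (by positivity)
    refine le_trans (Finset.sum_le_sum fun j _ => ?_) H3
    apply mul_le_mul_of_nonneg_left _ (norm_nonneg _)
    apply Real.exp_le_exp.mpr
    apply mul_le_mul_of_nonneg_left _ (by linarith)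
    linarith
  -- (c)
  have hθ : 0 < b / R := by positivity
  have hθ1 : b / R ≤ 1 / 4 := by
    rw [div_le_iff₀ hR0]
    linarith
  set q : ℝ := ((2 * R - 6 * b) / (2 * R - 2 * b)) ^ (1 - b / R) * ((2 * R - 6 * b) / R) ^ (b / R) with hq
  have hqle : q ≤ Real.exp (-(4 / 5 * (b / R))) := X3_q hb hb1 hR
  have hq1 : Real.exp (-(4 / 5 * (b / R))) < 1 := by
    rw [Real.exp_lt_one_iff]
    linarith
  have hdiff : DiffContOnCl ℂ (X3H S N z c A) (Metric.ball c₀ (2 * R - 2 * b)) := by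
    apply DifferentiableOn.diffContOnCl
    intro w hw
    apply DifferentiableAt.differentiableWithinAt
    apply X3H_diff
    intro j hj h0
    have hw' : w ∈ Metric.closedBall c₀ (2 * R - 2 * b) := Metric.closure_ball_subset_closedBall hw
    have := (hball (by linarith) hw').2 j hj
    rw [h0, sub_self, norm_zero] at this
    linarith
  have hHc : ∀ w ∈ Metric.closedBall c₀ (2 * R - 6 * b),
      ‖X3H S N z c A w‖ ≤ (8 * R) ^ N.card * (1 + S₂ + M) * δ ^ (b / R) * (7 * R / b) := by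
    intro w hw
    have h1 := two_const (f := X3H S N z c A) (c := c₀) (r₁ := R) (r₂ := 2 * R - 6 * b) (r₃ := 2 * R - 2 * b)
      (M := (8 * R) ^ N.card * (1 + S₂ + M)) (δ := (8 * R) ^ N.card * δ) (θ := b / R)
      hR0 (by linarith) (by linarith) hdiff (by positivity) (by positivity) hHa hHb hθ.le (by linarith)
      (lt_of_le_of_lt hqle hq1) w hw
    refine h1.trans ?_
    rw [← hq]
    have h2 : ((8 * R) ^ N.card * (1 + S₂ + M)) ^ (1 - b / R) * ((8 * R) ^ N.card * δ) ^ (b / R) ≤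
        (8 * R) ^ N.card * (1 + S₂ + M) * δ ^ (b / R) := by
      rw [Real.mul_rpow (by positivity) (by positivity), Real.mul_rpow (by positivity) hδ0.le]
      have h3 : ((8 * R) ^ N.card) ^ (1 - b / R) * ((8 * R) ^ N.card) ^ (b / R) = (8 * R) ^ N.card := by
        rw [← Real.rpow_add (by positivity)]
        rw [sub_add_cancel, Real.rpow_one]
      have h4 : (1 + S₂ + M) ^ (1 - b / R) ≤ 1 + S₂ + M := by
        calc (1 + S₂ + M) ^ (1 - b / R) ≤ (1 + S₂ + M) ^ (1:ℝ) :=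
              Real.rpow_le_rpow_of_exponent_le (by linarith) (by linarith)
          _ = _ := Real.rpow_one _
      calc ((8 * R) ^ N.card) ^ (1 - b / R) * (1 + S₂ + M) ^ (1 - b / R) *
            (((8 * R) ^ N.card) ^ (b / R) * δ ^ (b / R)) =
            (((8 * R) ^ N.card) ^ (1 - b / R) * ((8 * R) ^ N.card) ^ (b / R)) * (1 + S₂ + M) ^ (1 - b / R) *
              δ ^ (b / R) := by ring
        _ = (8 * R) ^ N.card * (1 + S₂ + M) ^ (1 - b / R) * δ ^ (b / R) := by rw [h3]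
        _ ≤ (8 * R) ^ N.card * (1 + S₂ + M) * δ ^ (b / R) := by gcongr
    have h5 : 1 / (1 - q) ≤ 7 * R / b := by
      have h6 : 1 / (1 - q) ≤ 1 / (1 - Real.exp (-(4 / 5 * (b / R)))) :=
        one_div_le_one_div_of_le (by linarith) (by linarith)
      refine h6.trans ((X3_inv hθ hθ1).trans (le_of_eq ?_))
      field_simp
    rw [div_eq_mul_one_div]
    apply mul_le_mul h2 h5 _ (by positivity)
    apply one_div_nonneg.mpr
    linarith
  -- (d)
  obtain ⟨s, hs1, hs2, hs3⟩ := X3_radius N (fun j => ‖z j - z j₁‖) hb hn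
  have hs0 : 0 < s := by linarith
  have hsphere : ∀ w ∈ Metric.sphere (z j₁) s, w ∈ Metric.closedBall c₀ (2 * R - 6 * b) := by
    intro w hw
    rw [Metric.mem_sphere, dist_eq_norm] at hw
    rw [Metric.mem_closedBall, dist_eq_norm]
    have e : w - c₀ = (w - z j₁) + (z j₁ - c₀) := by ring
    rw [e]
    refine (norm_add_le _ _).trans ?_
    rw [hw, hz1]
    linarith
  have hfar : ∀ w ∈ Metric.sphere (z j₁) s, ∀ i ∈ N, b / (4 * N.card) ≤ ‖w - z i‖ := by
    intro w hw i hi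
    rw [Metric.mem_sphere, dist_eq_norm] at hw
    refine (hs3 i hi).trans ?_
    have e : w - z i = (w - z j₁) - (z i - z j₁) := by ring
    rw [e, ← hw]
    exact abs_norm_sub_norm_le _ _
  have hbn : 0 < b / (4 * N.card) := by positivity
  set Y : ℂ → ℂ := fun w => ∑ j ∈ S, c j * Complex.exp ((A : ℂ) * (z j - w)) / (z j - w) with hY
  have hYb : ∀ w ∈ Metric.sphere (z j₁) s,
      ‖Y w‖ ≤ (4 * N.card / b) ^ N.card * ((8 * R) ^ N.card * (1 + S₂ + M) * δ ^ (b / R) * (7 * R / b)) := by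
    intro w hw
    have h1 : X3H S N z c A w = (∏ i ∈ N, (w - z i)) * Y w := by
      apply X3H_eq hNS
      intro j hj h0
      have := hfar w hw j hj
      rw [h0, sub_self, norm_zero] at this
      linarith
    have h2 := hHc w (hsphere w hw)
    rw [h1, norm_mul] at h2
    have h3 : (b / (4 * N.card)) ^ N.card ≤ ‖∏ i ∈ N, (w - z i)‖ := by
      rw [norm_prod]
      calc (b / (4 * N.card)) ^ N.card = ∏ i ∈ N, (b / (4 * N.card)) := by
            rw [Finset.prod_const]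
        _ ≤ _ := Finset.prod_le_prod (fun i _ => hbn.le) (fun i hi => hfar w hw i hi)
    have h4 : (b / (4 * N.card)) ^ N.card * ‖Y w‖ ≤
        (8 * R) ^ N.card * (1 + S₂ + M) * δ ^ (b / R) * (7 * R / b) :=
      (mul_le_mul_of_nonneg_right h3 (norm_nonneg _)).trans h2
    have h5 : (4 * N.card / b) ^ N.card * (b / (4 * N.card)) ^ N.card = 1 := by
      rw [← mul_pow]
      have : 4 * (N.card : ℝ) / b * (b / (4 * N.card)) = 1 := by
        field_simp
      rw [this, one_pow]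
    calc ‖Y w‖ = (4 * N.card / b) ^ N.card * ((b / (4 * N.card)) ^ N.card * ‖Y w‖) := by
          rw [← mul_assoc, h5, one_mul]
      _ ≤ _ := mul_le_mul_of_nonneg_left h4 (by positivity)
  -- (e)
  have hne : ∀ j ∈ S, ‖z j - z j₁‖ ≠ s := by
    intro j hjS h0
    by_cases hjN : j ∈ N
    · have := hs3 j hjN
      rw [h0, sub_self, abs_zero] at this
      linarith
    · have h1 := hN2 j (Finset.mem_sdiff.mpr ⟨hjS, hjN⟩)
      have e : z j - c₀ = (z j - z j₁) + (z j₁ - c₀) := by ring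
      rw [e] at h1
      have h2 := norm_add_le (z j - z j₁) (z j₁ - c₀)
      rw [h0, hz1] at h2
      linarith
  have hcont := X3_contour S z c A (p := z j₁) hs0 hne
  have hlow : 1 / 2 ≤ ‖∑ j ∈ S.filter (fun j => ‖z j - z j₁‖ < s), c j‖ := by
    have h1 : 1 / 2 ≤ (∑ j ∈ S.filter (fun j => ‖z j - z j₁‖ < s), c j).re := by
      rw [Complex.re_sum]
      have hmem : j₁ ∈ S.filter (fun j => ‖z j - z j₁‖ < s) := by
        rw [Finset.mem_filter]
        refine ⟨hj, ?_⟩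
        rw [sub_self, norm_zero]
        exact hs0
      have h2 : ∀ j ∈ S.filter (fun j => ‖z j - z j₁‖ < s), 1 / 2 ≤ (c j).re := by
        intro j hj'
        rw [Finset.mem_filter] at hj'
        exact H7 j hj'.1 (by linarith [hj'.2])
      calc 1 / 2 ≤ (c j₁).re := h2 j₁ hmem
        _ ≤ _ := Finset.single_le_sum (f := fun j => (c j).re) (fun j hj' => by
          have := h2 j hj'
          linarith) hmem
    exact h1.trans (Complex.re_le_norm _)
  have hup := circleIntegral.norm_integral_le_of_norm_le_const hs0.le hYb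
  have hpi := Real.pi_pos
  set B : ℝ := (4 * N.card / b) ^ N.card * ((8 * R) ^ N.card * (1 + S₂ + M) * δ ^ (b / R) * (7 * R / b)) with hB
  have hlow2 : Real.pi ≤ 2 * Real.pi * s * B := by
    refine le_trans ?_ hup
    have e : (∮ w in C(z j₁, s), Y w) = -(2 * Real.pi * I * ∑ j ∈ S.filter (fun j => ‖z j - z j₁‖ < s), c j) := hcont
    rw [e, norm_neg, norm_mul, norm_mul, norm_mul, Complex.norm_I, Complex.norm_real, Complex.norm_two,
      Real.norm_of_nonneg hpi.le]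
    nlinarith
  have hB0 : 0 ≤ B := by positivity
  have hfin : 1 ≤ 4 * b * B := by
    have h1 : 1 ≤ 2 * s * B := by
      have h2 : Real.pi * 1 ≤ Real.pi * (2 * s * B) := by linarith
      exact le_of_mul_le_mul_left h2 hpi
    nlinarith
  have hBeq : 4 * b * B = 28 * R * (32 * N.card * R / b) ^ N.card * (1 + S₂ + M) * δ ^ (b / R) := by
    have e1 : (32 * (N.card : ℝ) * R / b) ^ N.card = (4 * N.card / b) ^ N.card * (8 * R) ^ N.card := by
      rw [← mul_pow]
      congr 1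
      field_simp
      ring
    rw [hB, e1]
    field_simp
    ring
  rw [hBeq] at hfin
  refine hfin.trans ?_
  have hcard : (N.card : ℝ) ≤ n₀ := by exact_mod_cast H5
  have hbase : (1:ℝ) ≤ 32 * n₀ * R / b := by
    rw [le_div_iff₀ hb]
    nlinarith
  have hpow : (32 * (N.card : ℝ) * R / b) ^ N.card ≤ (32 * n₀ * R / b) ^ n₀ := by
    calc (32 * (N.card : ℝ) * R / b) ^ N.card ≤ (32 * n₀ * R / b) ^ N.card := by
          gcongr
      _ ≤ _ := pow_le_pow_right₀ hbase H5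
  gcongr

end Pool.Agent.Helper69.GMU
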