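import Mathlib
/-!
# GMU block X4: choice of the parameters (real analysis, imports Mathlib only)

Take `A` a large integer, `N = ⌈(A+1)C₀⌉ + N₀`, `R = R₀ + K + (K + 1 + N log(2N+1) + log(1 + D))/A` so that
`D e^((A+1)K - AR) (2N+1)^N ≤ e^(-A)`; `N = O(A)`, so `R = O(log A)`. `n₀ = ⌈K₁ (1 + (4R+1)²)⌉ + 1 = O((log A)²)`. The logarithm of the last expression is
`log(28R) + n₀ log(32 n₀ R/b) + log M - A b/R ≤ C (log A)² log log A + C - c A/log A → -∞`.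
-/

open Complex Set MeasureTheory Filter Topology
open scoped ContDiff

namespace Pool.Agent.Helper69.GMU

theorem x4_first {K D C A ℓ R c3 : ℝ} {N : ℕ} (hD : 0 < D) (hA : 1 ≤ A) (hK : 0 < K)
    (hAl : A = Real.exp ℓ) (hC : 1 ≤ C) (hN : (N : ℝ) ≤ C * A) (hl : 0 ≤ ℓ) (hc3 : Real.exp c3 = 3 * C)
    (hc : 0 ≤ c3) (hR : 1 + D + 2 * K + C * c3 + C * ℓ ≤ R) :
    D * Real.exp ((A + 1) * K - A * R) * (2 * N + 1) ^ N ≤ Real.exp (-A) := by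
  have hA0 : 0 < A := by linarith
  have h1 : D ≤ Real.exp (D * A) := by
    have e1 : D * 1 ≤ D * A := mul_le_mul_of_nonneg_left hA hD.le
    have e2 := Real.add_one_le_exp (D * A)
    linarith
  have h2 : (2 * (N : ℝ) + 1) ≤ Real.exp (c3 + ℓ) := by
    rw [Real.exp_add, hc3, ← hAl]
    have : 1 ≤ C * A := by nlinarith
    linarith
  have h3 : (2 * (N : ℝ) + 1) ^ N ≤ Real.exp (C * A * (c3 + ℓ)) := by
    calc (2 * (N : ℝ) + 1) ^ N ≤ (Real.exp (c3 + ℓ)) ^ N :=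
          pow_le_pow_left₀ (by positivity) h2 N
      _ = Real.exp (N * (c3 + ℓ)) := by rw [← Real.exp_nat_mul]
      _ ≤ Real.exp (C * A * (c3 + ℓ)) :=
          Real.exp_le_exp.mpr (mul_le_mul_of_nonneg_right hN (by linarith))
  calc D * Real.exp ((A + 1) * K - A * R) * (2 * N + 1) ^ N
      ≤ Real.exp (D * A) * Real.exp ((A + 1) * K - A * R) * Real.exp (C * A * (c3 + ℓ)) := by
        apply mul_le_mul _ h3 (by positivity) (by positivity)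
        exact mul_le_mul_of_nonneg_right h1 (Real.exp_pos _).le
    _ = Real.exp (D * A + ((A + 1) * K - A * R) + C * A * (c3 + ℓ)) := by
        rw [Real.exp_add, Real.exp_add]
    _ ≤ Real.exp (-A) := by
        apply Real.exp_le_exp.mpr
        have e1 : A * (1 + D + 2 * K + C * c3 + C * ℓ) ≤ A * R := mul_le_mul_of_nonneg_left hR hA0.le
        have e2 : K * 1 ≤ K * A := mul_le_mul_of_nonneg_left hA hK.le
        nlinarith

theorem x4_last {b M A R C4 : ℝ} {n₀ : ℕ} {Cn : ℝ} (hb : 0 < b) (hM : 0 < M) (hR : 1 ≤ R)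
    (hn : (n₀ : ℝ) ≤ Cn * R ^ 2) (hC4 : C4 = 28 + M + 32 / b * Cn ^ 2)
    (hA : C4 * R ^ 6 < A * b) :
    28 * R * (32 * n₀ * R / b) ^ n₀ * M * Real.exp (-A) ^ (b / R) < 1 := by
  have hR0 : 0 < R := by linarith
  have h1 : 28 * R ≤ Real.exp (28 * R) := by
    have := Real.add_one_le_exp (28 * R)
    linarith
  have h2 : M ≤ Real.exp M := by
    have := Real.add_one_le_exp M
    linarith
  have hx : 0 ≤ 32 * (n₀ : ℝ) * R / b := by positivity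
  have h3 : (32 * (n₀ : ℝ) * R / b) ^ n₀ ≤ Real.exp (n₀ * (32 * n₀ * R / b)) := by
    rw [Real.exp_nat_mul]
    apply pow_le_pow_left₀ hx
    have := Real.add_one_le_exp (32 * (n₀ : ℝ) * R / b)
    linarith
  have h4 : (n₀ : ℝ) * (32 * n₀ * R / b) ≤ 32 / b * Cn ^ 2 * R ^ 5 := by
    have e1 : (n₀ : ℝ) ^ 2 ≤ (Cn * R ^ 2) ^ 2 := pow_le_pow_left₀ (by positivity) hn 2
    have e2 : (n₀ : ℝ) * (32 * n₀ * R / b) = 32 / b * R * (n₀ : ℝ) ^ 2 := by ring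
    have e3 : 32 / b * Cn ^ 2 * R ^ 5 = 32 / b * R * (Cn * R ^ 2) ^ 2 := by ring
    rw [e2, e3]
    exact mul_le_mul_of_nonneg_left e1 (by positivity)
  have h5 : Real.exp (-A) ^ (b / R) = Real.exp (-A * (b / R)) := by
    rw [← Real.exp_mul]
  rw [h5]
  calc 28 * R * (32 * n₀ * R / b) ^ n₀ * M * Real.exp (-A * (b / R))
      ≤ Real.exp (28 * R) * Real.exp (32 / b * Cn ^ 2 * R ^ 5) * Real.exp M * Real.exp (-A * (b / R)) := by
        apply mul_le_mul_of_nonneg_right _ (Real.exp_pos _).le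
        apply mul_le_mul _ h2 hM.le (by positivity)
        apply mul_le_mul h1 (h3.trans (Real.exp_le_exp.mpr h4)) (by positivity) (by positivity)
    _ = Real.exp (28 * R + 32 / b * Cn ^ 2 * R ^ 5 + M + -A * (b / R)) := by
        rw [Real.exp_add, Real.exp_add, Real.exp_add]
    _ < 1 := by
        rw [Real.exp_lt_one_iff]
        have e0 : 28 * R + 32 / b * Cn ^ 2 * R ^ 5 + M + -A * (b / R) =
            ((28 * R + 32 / b * Cn ^ 2 * R ^ 5 + M) * R - A * b) / R := by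
          field_simp
          ring
        rw [e0]
        apply div_neg_of_neg_of_pos _ hR0
        have r1 : 1 ≤ R ^ 4 := one_le_pow₀ hR
        have r2 : R ^ 2 ≤ R ^ 6 := pow_le_pow_right₀ hR (by norm_num)
        have r3 : R ≤ R ^ 6 := by
          calc R = R ^ 1 := (pow_one R).symm
            _ ≤ R ^ 6 := pow_le_pow_right₀ hR (by norm_num)
        have s1 : 28 * R ^ 2 ≤ 28 * R ^ 6 := by linarith
        have s2 : M * R ≤ M * R ^ 6 := mul_le_mul_of_nonneg_left r3 hM.le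
        rw [hC4] at hA
        have s3 : (28 * R + 32 / b * Cn ^ 2 * R ^ 5 + M) * R =
            28 * R ^ 2 + 32 / b * Cn ^ 2 * R ^ 6 + M * R := by ring
        rw [s3]
        have s4 : (28 + M + 32 / b * Cn ^ 2) * R ^ 6 = 28 * R ^ 6 + M * R ^ 6 + 32 / b * Cn ^ 2 * R ^ 6 := by
          ring
        rw [s4] at hA
        linarith

theorem params {K K₁ C₀ D b M R₀ : ℝ} (hK : 0 < K) (hK₁ : 0 < K₁) (hC₀ : 0 < C₀) (hD : 0 < D) (hb : 0 < b) (hM : 0 < M)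
    (N₀ : ℕ) : ∃ (A R : ℝ) (N n₀ : ℕ), 3 ≤ A ∧ 1 ≤ R ∧ R₀ ≤ R ∧ N₀ ≤ N ∧ (A + 1) * C₀ ≤ N ∧
      D * Real.exp ((A + 1) * K - A * R) * (2 * N + 1) ^ N ≤ Real.exp (-A) ∧ K₁ * (1 + (4 * R + 1) ^ 2) ≤ n₀ ∧
      28 * R * (32 * n₀ * R / b) ^ n₀ * M * Real.exp (-A) ^ (b / R) < 1 := by
  obtain ⟨C, hCdef⟩ : ∃ C : ℝ, C = 2 * C₀ + 1 + N₀ := ⟨_, rfl⟩
  have hN0 : (0 : ℝ) ≤ N₀ := Nat.cast_nonneg _
  have hC1 : 1 ≤ C := by rw [hCdef]; linarith
  obtain ⟨c3, hc3def⟩ : ∃ c3 : ℝ, c3 = Real.log (3 * C) := ⟨_, rfl⟩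
  have hc3 : Real.exp c3 = 3 * C := by rw [hc3def, Real.exp_log (by linarith)]
  have hc3n : 0 ≤ c3 := by rw [hc3def]; exact Real.log_nonneg (by linarith)
  obtain ⟨R₁, hR₁⟩ : ∃ R₁ : ℝ, R₁ = |R₀| + 1 + D + 2 * K + C * c3 := ⟨_, rfl⟩
  have hCc : 0 ≤ C * c3 := mul_nonneg (by linarith) hc3n
  have hR₁1 : 1 ≤ R₁ := by rw [hR₁]; have := abs_nonneg R₀; linarith
  obtain ⟨Cn, hCn⟩ : ∃ Cn : ℝ, Cn = 26 * K₁ + 1 := ⟨_, rfl⟩
  obtain ⟨C4, hC4⟩ : ∃ C4 : ℝ, C4 = 28 + M + 32 / b * Cn ^ 2 := ⟨_, rfl⟩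
  have hC4p : 0 < C4 := by rw [hC4]; positivity
  obtain ⟨CR, hCR⟩ : ∃ CR : ℝ, CR = R₁ + C := ⟨_, rfl⟩
  have hCRp : 0 < CR := by rw [hCR]; linarith
  -- choice of ℓ
  have hev : ∀ᶠ ℓ : ℝ in atTop, (1 : ℝ) ≤ Real.exp ℓ / ℓ ^ 7 :=
    (Real.tendsto_exp_div_pow_atTop 7).eventually_ge_atTop 1
  obtain ⟨ℓ, h1, h2, h3⟩ := (hev.and ((eventually_ge_atTop (2 : ℝ)).and
    (eventually_gt_atTop (C4 * CR ^ 6 / b)))).exists
  have hl0 : 0 < ℓ := by linarith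
  obtain ⟨A, hA⟩ : ∃ A : ℝ, A = Real.exp ℓ := ⟨_, rfl⟩
  have hA7 : ℓ ^ 7 ≤ A := by
    rw [hA]
    rw [le_div_iff₀ (by positivity)] at h1
    linarith
  have hA3 : 3 ≤ A := by
    rw [hA]
    have := Real.add_one_le_exp ℓ
    linarith
  obtain ⟨R, hR⟩ : ∃ R : ℝ, R = R₁ + C * ℓ := ⟨_, rfl⟩
  have hCl : 0 ≤ C * ℓ := mul_nonneg (by linarith) hl0.le
  have hR1 : 1 ≤ R := by rw [hR]; linarith
  have hRR : R ≤ CR * ℓ := by
    rw [hR, hCR]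
    have : R₁ * 1 ≤ R₁ * ℓ := mul_le_mul_of_nonneg_left (by linarith) (by linarith)
    linarith
  refine ⟨A, R, ⌈(A + 1) * C₀⌉₊ + N₀, ⌈K₁ * (1 + (4 * R + 1) ^ 2)⌉₊, hA3, hR1, ?_, Nat.le_add_left _ _, ?_, ?_, ?_, ?_⟩
  · rw [hR, hR₁]
    have := le_abs_self R₀
    linarith
  · push_cast
    have := Nat.le_ceil ((A + 1) * C₀)
    linarith
  · refine x4_first hD (by linarith) hK hA hC1 ?_ hl0.le hc3 hc3n ?_
    · push_cast
      have e1 := Nat.ceil_lt_add_one (show 0 ≤ (A + 1) * C₀ by positivity)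
      have e2 : C₀ * 1 ≤ C₀ * A := mul_le_mul_of_nonneg_left (by linarith) hC₀.le
      have e3 : (N₀ : ℝ) * 1 ≤ N₀ * A := mul_le_mul_of_nonneg_left (by linarith) hN0
      rw [hCdef]
      nlinarith
    · rw [hR, hR₁]
      have := abs_nonneg R₀
      linarith
  · exact Nat.le_ceil _
  · refine x4_last (Cn := Cn) hb hM hR1 ?_ hC4 ?_
    · have e1 := Nat.ceil_lt_add_one (show 0 ≤ K₁ * (1 + (4 * R + 1) ^ 2) by positivity)
      have e2 : 1 + (4 * R + 1) ^ 2 ≤ 26 * R ^ 2 := by nlinarith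
      have e3 : K₁ * (1 + (4 * R + 1) ^ 2) ≤ K₁ * (26 * R ^ 2) := mul_le_mul_of_nonneg_left e2 hK₁.le
      have e4 : 1 ≤ R ^ 2 := one_le_pow₀ hR1
      rw [hCn]
      linarith
    · have e1 : R ^ 6 ≤ (CR * ℓ) ^ 6 := pow_le_pow_left₀ (by linarith) hRR 6
      have e2 : C4 * R ^ 6 ≤ C4 * (CR * ℓ) ^ 6 := mul_le_mul_of_nonneg_left e1 hC4p.le
      have e3 : C4 * CR ^ 6 < ℓ * b := by
        rw [div_lt_iff₀ hb] at h3
        exact h3
      have e4 : C4 * (CR * ℓ) ^ 6 = C4 * CR ^ 6 * ℓ ^ 6 := by ring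
      have e5 : C4 * CR ^ 6 * ℓ ^ 6 < ℓ * b * ℓ ^ 6 := mul_lt_mul_of_pos_right e3 (by positivity)
      have e6 : ℓ * b * ℓ ^ 6 = ℓ ^ 7 * b := by ring
      have e7 : ℓ ^ 7 * b ≤ A * b := mul_le_mul_of_nonneg_right hA7 hb.le
      linarith

end Pool.Agent.Helper69.GMU
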