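import Pool.Agent.Helper69.GMU.X1
import Pool.Agent.Helper69.GMU.X3
import Pool.Agent.Helper69.GMU.X4
import Pool.Agent.Helper69.GMU.SB
import Pool.Agent.Helper69.GMU.EFT
import Pool.Agent.Helper69.GMU.PM

/-!
# GMU block X5: no zero of the band near a good point

`b = min (a₁/8) (1/4)`, `Z₀ = a₂ + 2`, `Cb, Ck, N₀` from `exists_spline`. Given `K, K₁, C₀, M₀, δ`: `k₁ = ⌈3C₀+2⌉`, `S₂ = Ck k₁ K₁ e^(3K)`,
`M = √(M₀/b) + 1/b`, `D = (Ck 2 + 1)(K₁ + 1)`, `R₀ = a₂`, `params` (with `M := 1 + S₂ + M`, `N₀ := N₀`) gives `A, R, N, n₀`; `η` from `exists_spline` with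
this `N`; `G = Ck 2 K₁ e^((A+1)K) (2N+1)^N + 1`. `T₀` from `PP_zeros` with `a = 1`, `b = A+1`, `ε = 1` (`SmD_of_Sm`, `SmD_shift`: the functions `η(·-α)`, `α ∈ [2,A]`, lie in
one class `SmD _ 1 (A+1) k D`). Let `t` be as in the statement and suppose `ρ₁` is a zero of the band with `L|Im ρ₁ - t| ≤ 1/2`. Apply `detect` with `S = Zf T`,
`z ρ = zz T t ρ`, `c ρ = mx ρ Lap η (z ρ)`, `j₁ = ρ₁`, `δ = e^(-A)`:
* H1: `∑ c ρ e^(α z ρ) = SP (η(·-α)) T t` (`Lap_shift`), `‖PP + SP‖ ≤ 1`, so `‖SP‖ ≤ ‖PP‖ + 1`; `‖PP (η(·-α))‖ ≤ 1 + ∑ ‖c ρ‖ e^(A|x|) ≤ G` by `sum_A`, so the cap at `G²` is not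
  active and `∫_2^A ‖PP‖² e^(-bα) ≤ M₀`; Cauchy-Schwarz: `∫ ‖PP‖ e^(-α Re w) ≤ √M₀ (∫_2^∞ e^(-(2Re w - b)α))^(1/2) ≤ √(M₀/b)`, `∫_2^A e^(-α Re w) ≤ 1/b`.
* H2: `sum_two`. H3: `sum_A` and the choice of `params`. H5: `card_near`. H7: `‖z ρ‖ ≤ ‖z ρ₁‖ + 2b ≤ a₂ + 1/2 + 1/2`, `mx ≥ 1`, `Re Lap η ≥ 1/2`.
The conclusion of `detect` contradicts `params`.
-/

open Complex Set MeasureTheory Filter Topology
open Pool.Agent.Helper57.LH Pool.Agent.Helper57.PC Pool.Agent.Helper57.Zeta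
open Pool.Agent.Helper69.GGM
open scoped ContDiff

namespace Pool.Agent.Helper69.GMU

theorem X5_one_le_mx {T : ℝ} {ρ : ℂ} (h : ρ ∈ Zf T) : 1 ≤ mx ρ := by
  rw [mem_Zf, isNontrivialZero_iff] at h
  have h1 := (order_pos_iff differentiable_xi xi_two_ne ρ).2 h.1
  unfold mx
  exact_mod_cast Nat.one_le_iff_ne_zero.2 h1

theorem X5_zz_re (T t : ℝ) (ρ : ℂ) : (zz T t ρ).re = Real.log T * (ρ.re - 1 / 2) := by
  simp [zz]

theorem X5_zz_im (T t : ℝ) (ρ : ℂ) : (zz T t ρ).im = Real.log T * (ρ.im - t) := by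
  simp [zz]

theorem X5_exp_int {b A : ℝ} (hb : 0 < b) : ∫ α in (2:ℝ)..A, Real.exp (-(b * α)) ≤ 1 / b := by
  have h1 : ∀ x : ℝ, HasDerivAt (fun y : ℝ => -(Real.exp (-(b * y)) / b)) (Real.exp (-(b * x))) x := by
    intro x
    have h2 : HasDerivAt (fun y : ℝ => -(b * y)) (-(b * 1)) x := ((hasDerivAt_id x).const_mul b).neg
    have h3 := (h2.exp.div_const b).neg
    have h4 : -(Real.exp (-(b * x)) * -(b * 1) / b) = Real.exp (-(b * x)) := by
      field_simp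
    rw [h4] at h3
    exact h3
  have h4 := intervalIntegral.integral_eq_sub_of_hasDerivAt (a := 2) (b := A)
    (f := fun y : ℝ => -(Real.exp (-(b * y)) / b)) (f' := fun x => Real.exp (-(b * x)))
    (fun x _ => h1 x) (Continuous.intervalIntegrable (by fun_prop) _ _)
  rw [h4]
  have h5 : Real.exp (-(b * 2)) / b ≤ 1 / b := by
    apply div_le_div_of_nonneg_right _ hb.le
    rw [Real.exp_le_one_iff]
    linarith
  have h6 : 0 ≤ Real.exp (-(b * A)) / b := by positivity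
  linarith

theorem X5_H1 {b A M₀ : ℝ} {F : ℝ → ℂ} {p : ℝ → ℝ} (hp : Continuous p)
    (hp0 : ∀ α, 0 ≤ p α) (hb : 0 < b) (hA : 2 ≤ A) (hM : 0 < M₀)
    (h1 : ∀ α ∈ Icc 2 A, ‖F α‖ ≤ p α + 1)
    (h2 : ∫ α in (2:ℝ)..A, p α ^ 2 * Real.exp (-(b * α)) ≤ M₀) (w : ℂ) (hw : b ≤ w.re) :
    ‖∫ α in (2:ℝ)..A, F α * Complex.exp (-(w * (α : ℂ)))‖ ≤ Real.sqrt (M₀ / b) + 1 / b := by
  have hs : 0 < Real.sqrt (M₀ * b) := Real.sqrt_pos.mpr (by positivity)
  set lam : ℝ := 1 / Real.sqrt (M₀ * b) with hlam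
  have hlam0 : 0 < lam := by positivity
  have hlaminv : lam⁻¹ = Real.sqrt (M₀ * b) := by rw [hlam, one_div, inv_inv]
  have h3 : ‖∫ α in (2:ℝ)..A, F α * Complex.exp (-(w * (α : ℂ)))‖ ≤
      ∫ α in (2:ℝ)..A, (lam / 2 * (p α ^ 2 * Real.exp (-(b * α))) +
        (lam⁻¹ / 2 + 1) * Real.exp (-(b * α))) := by
    apply intervalIntegral.norm_integral_le_of_norm_le hA
    · refine Filter.Eventually.of_forall fun α hα => ?_
      have hα' : α ∈ Icc 2 A := ⟨hα.1.le, hα.2⟩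
      rw [norm_mul, Complex.norm_exp]
      have h4 : (-(w * (α : ℂ))).re = -(w.re * α) := by simp
      rw [h4]
      have h5 : Real.exp (-(w.re * α)) ≤ Real.exp (-(b * α)) := by
        apply Real.exp_le_exp.mpr
        have : b * α ≤ w.re * α := mul_le_mul_of_nonneg_right hw (by linarith [hα.1])
        linarith
      have h6 : p α ≤ lam / 2 * p α ^ 2 + lam⁻¹ / 2 := by
        have h7 : 0 ≤ (lam * p α - 1) ^ 2 := sq_nonneg _
        have h8 : lam * p α ≤ lam * (lam / 2 * p α ^ 2 + lam⁻¹ / 2) := by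
          have h9 : lam * (lam / 2 * p α ^ 2 + lam⁻¹ / 2) = (lam * p α) ^ 2 / 2 + 1 / 2 := by
            field_simp
          rw [h9]
          nlinarith
        exact le_of_mul_le_mul_left h8 hlam0
      calc ‖F α‖ * Real.exp (-(w.re * α)) ≤ (p α + 1) * Real.exp (-(b * α)) :=
            mul_le_mul (h1 α hα') h5 (Real.exp_pos _).le (by linarith [hp0 α])
        _ ≤ (lam / 2 * p α ^ 2 + lam⁻¹ / 2 + 1) * Real.exp (-(b * α)) :=
            mul_le_mul_of_nonneg_right (by linarith) (Real.exp_pos _).le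
        _ = _ := by ring
    · apply Continuous.intervalIntegrable
      fun_prop
  have hi1 : IntervalIntegrable (fun α => lam / 2 * (p α ^ 2 * Real.exp (-(b * α)))) volume 2 A := by
    apply Continuous.intervalIntegrable
    fun_prop
  have hi2 : IntervalIntegrable (fun α => (lam⁻¹ / 2 + 1) * Real.exp (-(b * α))) volume 2 A := by
    apply Continuous.intervalIntegrable
    fun_prop
  rw [intervalIntegral.integral_add hi1 hi2, intervalIntegral.integral_const_mul,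
    intervalIntegral.integral_const_mul] at h3
  have h4 : lam / 2 * ∫ α in (2:ℝ)..A, p α ^ 2 * Real.exp (-(b * α)) ≤ lam / 2 * M₀ :=
    mul_le_mul_of_nonneg_left h2 (by positivity)
  have h5 : (lam⁻¹ / 2 + 1) * ∫ α in (2:ℝ)..A, Real.exp (-(b * α)) ≤ (lam⁻¹ / 2 + 1) * (1 / b) :=
    mul_le_mul_of_nonneg_left (X5_exp_int hb) (by positivity)
  have h6 : lam / 2 * M₀ = Real.sqrt (M₀ / b) / 2 := by
    have h7 : Real.sqrt (M₀ / b) * Real.sqrt (M₀ * b) = M₀ := by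
      rw [← Real.sqrt_mul (by positivity)]
      have : M₀ / b * (M₀ * b) = M₀ ^ 2 := by field_simp
      rw [this, Real.sqrt_sq hM.le]
    rw [hlam]
    field_simp
    linarith
  have h8 : lam⁻¹ / 2 * (1 / b) = Real.sqrt (M₀ / b) / 2 := by
    rw [hlaminv]
    have h9 : Real.sqrt (M₀ / b) * b = Real.sqrt (M₀ * b) := by
      have : M₀ * b = (M₀ / b) * b ^ 2 := by field_simp
      rw [this, Real.sqrt_mul (by positivity), Real.sqrt_sq hb.le]
    rw [← h9]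
    field_simp
  calc _ ≤ _ := h3
    _ ≤ lam / 2 * M₀ + (lam⁻¹ / 2 + 1) * (1 / b) := add_le_add h4 h5
    _ = lam / 2 * M₀ + (lam⁻¹ / 2 * (1 / b)) + 1 / b := by ring
    _ = _ := by rw [h6, h8]; ring

theorem no_band_zero {a₁ a₂ : ℝ} (h1 : 0 < a₁) (h12 : a₁ ≤ a₂) : ∃ Cb b : ℝ, 0 < Cb ∧ 0 < b ∧
    ∀ K K₁ C₀ M₀ δ : ℝ, 0 < K → 0 < K₁ → 0 < C₀ → 0 < M₀ → 0 < δ → δ < 1 / 2 →
      ∃ (η : ℝ → ℝ) (A G : ℝ), Sm η (-1) 1 ∧ (∀ x : ℝ, 0 ≤ η x) ∧ (∀ x : ℝ, η x ≤ Cb) ∧ ∫ x, η x = 1 ∧ 2 ≤ A ∧ 0 ≤ G ∧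
        ∃ T₀ : ℝ, ∀ T : ℝ, T₀ ≤ T → ∀ t : ℝ, δ * T ≤ t → t ≤ (1 - δ) * T →
          (∀ ρ ∈ Zf T, |Real.log T * (ρ.re - 1 / 2)| ≤ K + C₀ * Real.log (1 + |Real.log T * (ρ.im - t)|)) →
          Phi T t ≤ K₁ →
          (∫ α in (2:ℝ)..A, min (‖PP (fun β => η (β - α)) T t‖ ^ 2) (G ^ 2) * Real.exp (-(b * α))) ≤ M₀ →
          ¬ ∃ ρ ∈ Zf T, a₁ ≤ Real.log T * (ρ.re - 1 / 2) ∧ Real.log T * (ρ.re - 1 / 2) ≤ a₂ ∧
            Real.log T * |ρ.im - t| ≤ 1 / 2 := by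
  classical
  have ha2 : 0 < a₂ := h1.trans_le h12
  obtain ⟨Cb, Ck, N₀, hCb, hCk, hN₀, hspl⟩ := exists_spline (Z₀ := a₂ + 2) (by linarith)
  set b : ℝ := min (a₁ / 8) (1 / 4) with hbdef
  have hb : 0 < b := by positivity
  have hb8 : 8 * b ≤ a₁ := by
    have := min_le_left (a₁ / 8) (1 / 4)
    linarith
  have hb4 : b ≤ 1 / 4 := min_le_right _ _
  refine ⟨Cb, b, hCb, hb, ?_⟩
  intro K K₁ C₀ M₀ δ hK hK₁ hC₀ hM₀ hδ hδ2
  set k₁ : ℕ := ⌈3 * C₀ + 2⌉₊ with hk₁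
  set S₂ : ℝ := Ck k₁ * K₁ * Real.exp (3 * K) with hS₂
  have hS₂0 : 0 ≤ S₂ := by
    have := hCk k₁
    positivity
  set M : ℝ := Real.sqrt (M₀ / b) + 1 / b with hM
  have hM0 : 0 ≤ M := by positivity
  have hD0 : 0 < (Ck 2 + 1) * (K₁ + 1) := by
    have := hCk 2
    positivity
  obtain ⟨A, R, N, n₀, hA3, hR1, hR₀, hNN₀, hNA, hpar, hn₀, hfin⟩ :=
    params (K := K) (K₁ := K₁) (C₀ := C₀) (D := (Ck 2 + 1) * (K₁ + 1)) (b := b) (M := 1 + S₂ + M)
      (R₀ := a₂) hK hK₁ hC₀ hD0 hb (by positivity) N₀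
  obtain ⟨η, hη, hη0, hηb, hηint, hη1, hη2, hη3⟩ := hspl N hNN₀
  set G : ℝ := Ck 2 * K₁ * Real.exp ((A + 1) * K) * (2 * N + 1) ^ N + 1 with hG
  have hG0 : 0 ≤ G := by
    have := hCk 2
    positivity
  refine ⟨η, A, G, hη, hη0, hηb, hηint, by linarith, hG0, ?_⟩
  set k : ℕ := ⌈(A + 1) / 2 + 3⌉₊ with hk
  obtain ⟨D', hD', hηD⟩ := SmD_of_Sm hη k
  obtain ⟨T₀, hT₀⟩ := PP_zeros (a := 1) (b := A + 1) (D := D') (δ := δ) (ε := 1) (k := k)
    one_pos (by linarith) (Nat.le_ceil _) hD' hδ hδ2 one_pos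
  refine ⟨max T₀ 2, ?_⟩
  intro T hT t ht1 ht2 hg hPhi hJ
  rintro ⟨ρ₁, hρ₁, hρa, hρb, hρi⟩
  have hTT₀ : T₀ ≤ T := (le_max_left _ _).trans hT
  have hT2 : 2 ≤ T := (le_max_right _ _).trans hT
  have hT1 : 1 < T := by linarith
  have hL : 0 < Real.log T := Real.log_pos hT1
  -- norms of the coefficients
  have hcn : ∀ ρ : ℂ, ‖(mx ρ : ℂ) * Lap η (zz T t ρ)‖ = mx ρ * ‖Lap η (zz T t ρ)‖ := by
    intro ρ
    rw [norm_mul, Complex.norm_real, Real.norm_of_nonneg (mx_nonneg ρ)]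
  have hsumA := sum_A (T := T) (t := t) (K := K) (C₀ := C₀) (K₁ := K₁) (A := A) (N := N) (η := η)
    (Ck := Ck) hC₀.le (by linarith) (hN₀.trans hNN₀) hNA (hCk 2) hη1 hη2 hg hPhi
  have hsum2 := sum_two (T := T) (t := t) (K := K) (C₀ := C₀) (K₁ := K₁) (k := k₁) (η := η)
    (Ck := Ck) hC₀.le (Nat.le_ceil _) (hCk k₁) hη1 hg hPhi
  -- the sum over zeros of the shifted function
  have hSP : ∀ α : ℝ, SP (fun β => η (β - α)) T t =
      ∑ ρ ∈ Zf T, ((mx ρ : ℂ) * Lap η (zz T t ρ)) * Complex.exp ((α : ℂ) * zz T t ρ) := by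
    intro α
    unfold SP
    refine Finset.sum_congr rfl fun ρ _ => ?_
    rw [Lap_shift]
    ring
  have hPPSP : ∀ α ∈ Icc 2 A, ‖PP (fun β => η (β - α)) T t + SP (fun β => η (β - α)) T t‖ ≤ 1 := by
    intro α hα
    exact hT₀ T hTT₀ _ (SmD_shift hηD α (by linarith [hα.1]) (by linarith [hα.2])) t ht1 ht2
  have hSPle : ∀ α ∈ Icc 2 A, ‖SP (fun β => η (β - α)) T t‖ ≤
      Ck 2 * K₁ * Real.exp ((A + 1) * K) * (2 * N + 1) ^ N := by
    intro α hα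
    rw [hSP]
    refine (norm_sum_le _ _).trans (le_trans (Finset.sum_le_sum fun ρ _ => ?_) hsumA)
    rw [norm_mul, hcn, Complex.norm_exp]
    apply mul_le_mul_of_nonneg_left _ (mul_nonneg (mx_nonneg ρ) (norm_nonneg _))
    apply Real.exp_le_exp.mpr
    have h3 : ((α : ℂ) * zz T t ρ).re = α * (zz T t ρ).re := by simp
    rw [h3]
    calc α * (zz T t ρ).re ≤ α * |(zz T t ρ).re| :=
          mul_le_mul_of_nonneg_left (le_abs_self _) (by linarith [hα.1])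
      _ ≤ A * |(zz T t ρ).re| := mul_le_mul_of_nonneg_right hα.2 (abs_nonneg _)
  have hPPle : ∀ α ∈ Icc 2 A, ‖PP (fun β => η (β - α)) T t‖ ≤ G := by
    intro α hα
    have h3 := hPPSP α hα
    have h4 := hSPle α hα
    have h5 : ‖PP (fun β => η (β - α)) T t‖ ≤
        ‖PP (fun β => η (β - α)) T t + SP (fun β => η (β - α)) T t‖ +
          ‖SP (fun β => η (β - α)) T t‖ := by
      have := norm_sub_le (PP (fun β => η (β - α)) T t + SP (fun β => η (β - α)) T t)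
        (SP (fun β => η (β - α)) T t)
      rwa [add_sub_cancel_right] at this
    rw [hG]
    linarith
  have hSPle2 : ∀ α ∈ Icc 2 A, ‖∑ ρ ∈ Zf T, ((mx ρ : ℂ) * Lap η (zz T t ρ)) *
      Complex.exp ((α : ℂ) * zz T t ρ)‖ ≤ ‖PP (fun β => η (β - α)) T t‖ + 1 := by
    intro α hα
    rw [← hSP]
    have h3 := hPPSP α hα
    have h5 : ‖SP (fun β => η (β - α)) T t‖ ≤
        ‖PP (fun β => η (β - α)) T t + SP (fun β => η (β - α)) T t‖ +
          ‖PP (fun β => η (β - α)) T t‖ := by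
      have := norm_sub_le (PP (fun β => η (β - α)) T t + SP (fun β => η (β - α)) T t)
        (PP (fun β => η (β - α)) T t)
      rwa [add_sub_cancel_left] at this
    linarith
  have hpc : Continuous (fun α : ℝ => ‖PP (fun β => η (β - α)) T t‖) :=
    ((PP_joint hη hT1).comp (continuous_id.prodMk continuous_const)).norm
  have hJ2 : ∫ α in (2:ℝ)..A, ‖PP (fun β => η (β - α)) T t‖ ^ 2 * Real.exp (-(b * α)) ≤ M₀ := by
    refine le_trans (le_of_eq ?_) hJ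
    apply intervalIntegral.integral_congr
    intro α hα
    rw [uIcc_of_le (by linarith : (2:ℝ) ≤ A)] at hα
    have h3 : min (‖PP (fun β => η (β - α)) T t‖ ^ 2) (G ^ 2) = ‖PP (fun β => η (β - α)) T t‖ ^ 2 :=
      min_eq_left (pow_le_pow_left₀ (norm_nonneg _) (hPPle α hα) 2)
    simp only [h3]
  -- apply the detection lemma
  have hz1re : (zz T t ρ₁).re = Real.log T * (ρ₁.re - 1 / 2) := X5_zz_re T t ρ₁
  have hz1im : |(zz T t ρ₁).im| ≤ 1 / 2 := by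
    rw [X5_zz_im, abs_mul, abs_of_pos hL]
    exact hρi
  have hz1n : ‖zz T t ρ₁‖ ≤ a₂ + 1 / 2 := by
    have h3 := Complex.norm_le_abs_re_add_abs_im (zz T t ρ₁)
    have h4 : |(zz T t ρ₁).re| ≤ a₂ := by
      rw [hz1re, abs_of_nonneg (by linarith)]
      exact hρb
    linarith
  have hdet := detect (S := Zf T) (z := fun ρ => zz T t ρ)
    (c := fun ρ => (mx ρ : ℂ) * Lap η (zz T t ρ)) (A := A) (R := R) (b := b) (M := M) (S₂ := S₂)
    (δ := Real.exp (-A)) (n₀ := n₀) (j₁ := ρ₁) hρ₁ (by linarith) hb hb4 hR1 hM0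
    (by rw [hz1re]; linarith) (by rw [hz1re]; linarith)
    (fun w hw => X5_H1 (F := fun α : ℝ => ∑ ρ ∈ Zf T, ((mx ρ : ℂ) * Lap η (zz T t ρ)) *
      Complex.exp ((α : ℂ) * zz T t ρ)) hpc (fun α => norm_nonneg _) hb (by linarith) hM₀
      hSPle2 hJ2 w hw)
    (by
      refine le_trans (Finset.sum_le_sum fun ρ _ => ?_) hsum2
      rw [hcn]
      apply mul_le_mul_of_nonneg_left _ (mul_nonneg (mx_nonneg ρ) (norm_nonneg _))
      apply Real.exp_le_exp.mpr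
      have h3 : max (zz T t ρ).re 0 ≤ |(zz T t ρ).re| := max_le (le_abs_self _) (abs_nonneg _)
      linarith)
    (by
      have h3 : ∑ ρ ∈ Zf T, ‖(mx ρ : ℂ) * Lap η (zz T t ρ)‖ * Real.exp (A * ((zz T t ρ).re - R)) ≤
          Real.exp (-(A * R)) * ∑ ρ ∈ Zf T, mx ρ * ‖Lap η (zz T t ρ)‖ *
            Real.exp (A * |(zz T t ρ).re|) := by
        rw [Finset.mul_sum]
        refine Finset.sum_le_sum fun ρ _ => ?_
        rw [hcn]
        have h4 : Real.exp (A * ((zz T t ρ).re - R)) ≤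
            Real.exp (-(A * R)) * Real.exp (A * |(zz T t ρ).re|) := by
          rw [← Real.exp_add]
          apply Real.exp_le_exp.mpr
          have h5 : A * (zz T t ρ).re ≤ A * |(zz T t ρ).re| :=
            mul_le_mul_of_nonneg_left (le_abs_self _) (by linarith)
          linarith
        have h6 : 0 ≤ mx ρ * ‖Lap η (zz T t ρ)‖ := mul_nonneg (mx_nonneg ρ) (norm_nonneg _)
        calc mx ρ * ‖Lap η (zz T t ρ)‖ * Real.exp (A * ((zz T t ρ).re - R)) ≤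
              mx ρ * ‖Lap η (zz T t ρ)‖ * (Real.exp (-(A * R)) * Real.exp (A * |(zz T t ρ).re|)) :=
              mul_le_mul_of_nonneg_left h4 h6
          _ = _ := by ring
      refine h3.trans (le_trans (mul_le_mul_of_nonneg_left hsumA (Real.exp_pos _).le) ?_)
      refine le_trans ?_ hpar
      have h7 : Real.exp ((A + 1) * K - A * R) = Real.exp (-(A * R)) * Real.exp ((A + 1) * K) := by
        rw [← Real.exp_add]
        congr 1
        ring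
      rw [h7]
      have h8 : Ck 2 * K₁ ≤ (Ck 2 + 1) * (K₁ + 1) := by
        have := hCk 2
        nlinarith
      have h9 : 0 ≤ Real.exp (-(A * R)) * Real.exp ((A + 1) * K) * (2 * (N:ℝ) + 1) ^ N := by
        positivity
      calc Real.exp (-(A * R)) * (Ck 2 * K₁ * Real.exp ((A + 1) * K) * (2 * (N:ℝ) + 1) ^ N)
          = (Ck 2 * K₁) * (Real.exp (-(A * R)) * Real.exp ((A + 1) * K) * (2 * (N:ℝ) + 1) ^ N) := by
            ring
        _ ≤ ((Ck 2 + 1) * (K₁ + 1)) *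
            (Real.exp (-(A * R)) * Real.exp ((A + 1) * K) * (2 * (N:ℝ) + 1) ^ N) :=
            mul_le_mul_of_nonneg_right h8 h9
        _ = _ := by ring)
    (Real.exp_pos _) (by rw [Real.exp_le_one_iff]; linarith)
    (by
      have h3 := card_near (T := T) (t := t) (K₁ := K₁) (R := R) (v₁ := (zz T t ρ₁).im) hR1 hz1im hPhi
      have h4 := h3.trans hn₀
      exact_mod_cast h4)
    (by
      intro ρ hρ hdist
      have h3 : ‖zz T t ρ‖ ≤ a₂ + 2 := by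
        have h4 := norm_add_le (zz T t ρ - zz T t ρ₁) (zz T t ρ₁)
        rw [sub_add_cancel] at h4
        linarith
      have h5 := hη3 (zz T t ρ) h3
      have h6 := X5_one_le_mx hρ
      have h7 : ((mx ρ : ℂ) * Lap η (zz T t ρ)).re = mx ρ * (Lap η (zz T t ρ)).re := by
        rw [Complex.re_ofReal_mul]
      rw [h7]
      nlinarith)
  linarith

end Pool.Agent.Helper69.GMU
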